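import Mathlib

/-!
MP_f5cbfa_nt, the duality count (notes 2492, 2493, simplified: only finite sums over lattice
points).  Everything is for a fixed form; the form is normalised to be the square of the
Euclidean norm on `ℂ = ℝ²` and the lattice is the image of `g : ℤ × ℤ →+ ℂ`, with
`c₀ ≤ ‖g z‖` for `z ≠ 0`.
-/

set_option autoImplicit false

open MeasureTheory

namespace Pool.Agent.Helper68_F5

/-- real scalar product on `ℂ` -/
def sp (z w : ℂ) : ℝ := z.re * w.re + z.im * w.im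

/-- determinant on `ℂ` -/
def wd (z w : ℂ) : ℝ := z.re * w.im - z.im * w.re

/-- the symmetric bilinear form of `Q.1 x² + 2 Q.2.1 x y + Q.2.2 y²` -/
def bf (Q : ℝ × ℝ × ℝ) (z w : ℂ) : ℝ :=
  Q.1 * (z.re * w.re) + Q.2.1 * (z.re * w.im + z.im * w.re) + Q.2.2 * (z.im * w.im)

/-- the vector `a` with `sp a w = bf Q z w` -/
def vc (Q : ℝ × ℝ × ℝ) (z : ℂ) : ℂ :=
  ⟨Q.1 * z.re + Q.2.1 * z.im, Q.2.1 * z.re + Q.2.2 * z.im⟩

/-- the form `z ↦ wd z a * wd z b` -/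
noncomputable def pr (a b : ℂ) : ℝ × ℝ × ℝ :=
  (a.im * b.im, -(a.im * b.re + a.re * b.im) / 2, a.re * b.re)

/-- Lagrange interpolation: the form with values `f₁ f₂ f₃` at `v₁ v₂ v₃` -/
noncomputable def itp (v₁ v₂ v₃ : ℂ) (f₁ f₂ f₃ : ℝ) : ℝ × ℝ × ℝ :=
  (f₁ / (wd v₁ v₂ * wd v₁ v₃)) • pr v₂ v₃ + (f₂ / (wd v₂ v₁ * wd v₂ v₃)) • pr v₁ v₃ +
    (f₃ / (wd v₃ v₁ * wd v₃ v₂)) • pr v₁ v₂

/-- unit vector of angle `θ` -/
noncomputable def ee (θ : ℝ) : ℂ := ⟨Real.cos θ, Real.sin θ⟩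

/-- separated lattice -/
def Sep (c₀ : ℝ) (g : ℤ × ℤ →+ ℂ) : Prop := ∀ z : ℤ × ℤ, z ≠ 0 → c₀ ≤ ‖g z‖

open Classical in
/-- the lattice points `z` with `‖g z‖ ≤ G` (empty if there are infinitely many) -/
noncomputable def lt (g : ℤ × ℤ →+ ℂ) (G : ℝ) : Finset (ℤ × ℤ) :=
  if h : {z | ‖g z‖ ≤ G}.Finite then h.toFinset else ∅

theorem bf_vc (Q : ℝ × ℝ × ℝ) (z w : ℂ) : sp (vc Q z) w = bf Q z w := by
  simp only [sp, vc, bf]; ring

theorem bf_comm (Q : ℝ × ℝ × ℝ) (z w : ℂ) : bf Q z w = bf Q w z := by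
  simp only [bf]; ring

theorem bf_add_left (Q R : ℝ × ℝ × ℝ) (z w : ℂ) : bf (Q + R) z w = bf Q z w + bf R z w := by
  simp only [bf, Prod.fst_add, Prod.snd_add]; ring

theorem bf_sub_left (Q R : ℝ × ℝ × ℝ) (z w : ℂ) : bf (Q - R) z w = bf Q z w - bf R z w := by
  simp only [bf, Prod.fst_sub, Prod.snd_sub]; ring

theorem bf_smul (t : ℝ) (Q : ℝ × ℝ × ℝ) (z w : ℂ) : bf (t • Q) z w = t * bf Q z w := by
  simp only [bf, Prod.smul_fst, Prod.smul_snd, smul_eq_mul]; ring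

theorem bf_add (Q : ℝ × ℝ × ℝ) (z w w' : ℂ) : bf Q z (w + w') = bf Q z w + bf Q z w' := by
  simp only [bf, Complex.add_re, Complex.add_im]; ring

theorem bf_sub (Q : ℝ × ℝ × ℝ) (z w w' : ℂ) : bf Q z (w - w') = bf Q z w - bf Q z w' := by
  simp only [bf, Complex.sub_re, Complex.sub_im]; ring

theorem bf_add' (Q : ℝ × ℝ × ℝ) (z z' w : ℂ) : bf Q (z + z') w = bf Q z w + bf Q z' w := by
  simp only [bf, Complex.add_re, Complex.add_im]; ring

theorem bf_sub' (Q : ℝ × ℝ × ℝ) (z z' w : ℂ) : bf Q (z - z') w = bf Q z w - bf Q z' w := by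
  simp only [bf, Complex.sub_re, Complex.sub_im]; ring

theorem bf_real (Q : ℝ × ℝ × ℝ) (t : ℝ) (z w : ℂ) : bf Q ((t : ℂ) * z) w = t * bf Q z w := by
  simp only [bf, Complex.mul_re, Complex.mul_im, Complex.ofReal_re, Complex.ofReal_im]; ring

theorem sp_self (z : ℂ) : sp z z = ‖z‖ ^ 2 := by
  rw [Complex.sq_norm, Complex.normSq_apply, sp]

theorem sp_comm (z w : ℂ) : sp z w = sp w z := by simp only [sp]; ring

theorem sp_add (z w w' : ℂ) : sp z (w + w') = sp z w + sp z w' := by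
  simp only [sp, Complex.add_re, Complex.add_im]; ring

theorem sp_sub (z w w' : ℂ) : sp z (w - w') = sp z w - sp z w' := by
  simp only [sp, Complex.sub_re, Complex.sub_im]; ring

theorem sp_add' (z z' w : ℂ) : sp (z + z') w = sp z w + sp z' w := by
  simp only [sp, Complex.add_re, Complex.add_im]; ring

theorem sp_sub' (z z' w : ℂ) : sp (z - z') w = sp z w - sp z' w := by
  simp only [sp, Complex.sub_re, Complex.sub_im]; ring

theorem sp_real (t : ℝ) (z w : ℂ) : sp ((t : ℂ) * z) w = t * sp z w := by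
  simp only [sp, Complex.mul_re, Complex.mul_im, Complex.ofReal_re, Complex.ofReal_im]; ring

theorem sp_real' (t : ℝ) (z w : ℂ) : sp z ((t : ℂ) * w) = t * sp z w := by
  simp only [sp, Complex.mul_re, Complex.mul_im, Complex.ofReal_re, Complex.ofReal_im]; ring

theorem sp_sq_add_wd_sq (z w : ℂ) : sp z w ^ 2 + wd z w ^ 2 = ‖z‖ ^ 2 * ‖w‖ ^ 2 := by
  rw [Complex.sq_norm, Complex.sq_norm, Complex.normSq_apply, Complex.normSq_apply, sp, wd]
  ring

theorem abs_sp_le (z w : ℂ) : |sp z w| ≤ ‖z‖ * ‖w‖ := by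
  apply abs_le_of_sq_le_sq _ (by positivity)
  nlinarith [sp_sq_add_wd_sq z w, sq_nonneg (wd z w)]

theorem abs_wd_le (z w : ℂ) : |wd z w| ≤ ‖z‖ * ‖w‖ := by
  apply abs_le_of_sq_le_sq _ (by positivity)
  nlinarith [sp_sq_add_wd_sq z w, sq_nonneg (sp z w)]

theorem wd_comm (z w : ℂ) : wd z w = -wd w z := by simp only [wd]; ring

theorem wd_add (z w w' : ℂ) : wd z (w + w') = wd z w + wd z w' := by
  simp only [wd, Complex.add_re, Complex.add_im]; ring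

theorem wd_sub (z w w' : ℂ) : wd z (w - w') = wd z w - wd z w' := by
  simp only [wd, Complex.sub_re, Complex.sub_im]; ring

theorem wd_sub' (z z' w : ℂ) : wd (z - z') w = wd z w - wd z' w := by
  simp only [wd, Complex.sub_re, Complex.sub_im]; ring

theorem wd_add' (z z' w : ℂ) : wd (z + z') w = wd z w + wd z' w := by
  simp only [wd, Complex.add_re, Complex.add_im]; ring

theorem wd_real (t : ℝ) (z w : ℂ) : wd ((t : ℂ) * z) w = t * wd z w := by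
  simp only [wd, Complex.mul_re, Complex.mul_im, Complex.ofReal_re, Complex.ofReal_im]; ring

theorem wd_real' (t : ℝ) (z w : ℂ) : wd z ((t : ℂ) * w) = t * wd z w := by
  simp only [wd, Complex.mul_re, Complex.mul_im, Complex.ofReal_re, Complex.ofReal_im]; ring

theorem norm_ee (θ : ℝ) : ‖ee θ‖ = 1 := by
  have h : ‖ee θ‖ ^ 2 = 1 := by
    rw [Complex.sq_norm, Complex.normSq_apply, ee]
    have := Real.sin_sq_add_cos_sq θ
    simp only
    nlinarith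
  have h1 : 0 ≤ ‖ee θ‖ := norm_nonneg _
  nlinarith

theorem bf_one (z w : ℂ) : bf (1, 0, 1) z w = sp z w := by
  simp only [bf, sp]; ring

/-- Lagrange interpolation, polarised -/
theorem lag (Q : ℝ × ℝ × ℝ) (a b c x y : ℂ) :
    bf Q x y * (wd a b * wd b c * wd c a) * 2 =
      -(bf Q a a * wd b c * (wd x b * wd y c + wd x c * wd y b) +
        bf Q b b * wd c a * (wd x c * wd y a + wd x a * wd y c) +
        bf Q c c * wd a b * (wd x a * wd y b + wd x b * wd y a)) := by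
  simp only [bf, wd]; ring

/-- interpolation bound: `hab` etc. say that the three directions are separated -/
theorem int_bound (Q : ℝ × ℝ × ℝ) (a b c : ℂ) {P f₁ f₂ f₃ : ℝ} (hP : 0 < P)
    (ha : a ≠ 0) (hb : b ≠ 0) (hc : c ≠ 0)
    (hab : ‖a‖ * ‖b‖ ≤ P * |wd a b|) (hbc : ‖b‖ * ‖c‖ ≤ P * |wd b c|)
    (hca : ‖c‖ * ‖a‖ ≤ P * |wd c a|)
    (h₁ : |bf Q a a| ≤ f₁ * ‖a‖ ^ 2) (h₂ : |bf Q b b| ≤ f₂ * ‖b‖ ^ 2)
    (h₃ : |bf Q c c| ≤ f₃ * ‖c‖ ^ 2) (x y : ℂ) :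
    |bf Q x y| ≤ P ^ 2 * (f₁ + f₂ + f₃) * (‖x‖ * ‖y‖) := by
  have na : 0 < ‖a‖ := norm_pos_iff.2 ha
  have nb : 0 < ‖b‖ := norm_pos_iff.2 hb
  have nc : 0 < ‖c‖ := norm_pos_iff.2 hc
  have wab : 0 < |wd a b| := by
    by_contra h
    have h' := mul_nonneg_of_nonpos_of_nonpos (le_of_not_gt h) (le_refl (0 : ℝ))
    have : P * |wd a b| ≤ 0 := mul_nonpos_of_nonneg_of_nonpos hP.le (le_of_not_gt h)
    have := mul_pos na nb
    linarith
  have wbc : 0 < |wd b c| := by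
    by_contra h
    have : P * |wd b c| ≤ 0 := mul_nonpos_of_nonneg_of_nonpos hP.le (le_of_not_gt h)
    have := mul_pos nb nc
    linarith
  have wca : 0 < |wd c a| := by
    by_contra h
    have : P * |wd c a| ≤ 0 := mul_nonpos_of_nonneg_of_nonpos hP.le (le_of_not_gt h)
    have := mul_pos nc na
    linarith
  have hf1 : 0 ≤ f₁ := by
    by_contra h
    have : f₁ * ‖a‖ ^ 2 < 0 := mul_neg_of_neg_of_pos (not_le.1 h) (by positivity)
    have := abs_nonneg (bf Q a a)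
    linarith
  have hf2 : 0 ≤ f₂ := by
    by_contra h
    have : f₂ * ‖b‖ ^ 2 < 0 := mul_neg_of_neg_of_pos (not_le.1 h) (by positivity)
    have := abs_nonneg (bf Q b b)
    linarith
  have hf3 : 0 ≤ f₃ := by
    by_contra h
    have : f₃ * ‖c‖ ^ 2 < 0 := mul_neg_of_neg_of_pos (not_le.1 h) (by positivity)
    have := abs_nonneg (bf Q c c)
    linarith
  obtain ⟨X, hX⟩ : ∃ X : ℝ, X = ‖x‖ * ‖y‖ := ⟨_, rfl⟩
  have hX0 : 0 ≤ X := by rw [hX]; positivity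
  -- the mixed terms
  have mix : ∀ u w : ℂ, |wd x u * wd y w + wd x w * wd y u| ≤ 2 * (X * (‖u‖ * ‖w‖)) := by
    intro u w
    have e1 : |wd x u * wd y w| ≤ X * (‖u‖ * ‖w‖) := by
      rw [abs_mul, hX]
      calc |wd x u| * |wd y w| ≤ (‖x‖ * ‖u‖) * (‖y‖ * ‖w‖) :=
            mul_le_mul (abs_wd_le _ _) (abs_wd_le _ _) (abs_nonneg _) (by positivity)
        _ = ‖x‖ * ‖y‖ * (‖u‖ * ‖w‖) := by ring
    have e2 : |wd x w * wd y u| ≤ X * (‖u‖ * ‖w‖) := by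
      rw [abs_mul, hX]
      calc |wd x w| * |wd y u| ≤ (‖x‖ * ‖w‖) * (‖y‖ * ‖u‖) :=
            mul_le_mul (abs_wd_le _ _) (abs_wd_le _ _) (abs_nonneg _) (by positivity)
        _ = ‖x‖ * ‖y‖ * (‖u‖ * ‖w‖) := by ring
    calc |wd x u * wd y w + wd x w * wd y u| ≤ |wd x u * wd y w| + |wd x w * wd y u| :=
          abs_add_le _ _
      _ ≤ 2 * (X * (‖u‖ * ‖w‖)) := by linarith
  have hl := congrArg abs (lag Q a b c x y)
  rw [abs_mul, abs_mul, abs_mul, abs_mul, abs_neg, abs_two] at hl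
  -- one term
  have term : ∀ (q f A u v w : ℝ), 0 ≤ f → 0 ≤ w → |q| ≤ f * A ^ 2 → |v| ≤ 2 * (X * w) →
      |q * u * v| ≤ f * A ^ 2 * |u| * (2 * (X * w)) := by
    intro q f A u v w hf hw h1 h2
    rw [abs_mul, abs_mul]
    have : 0 ≤ f * A ^ 2 * |u| := by positivity
    exact mul_le_mul (mul_le_mul_of_nonneg_right h1 (abs_nonneg _)) h2 (abs_nonneg _) this
  have t1 := term (bf Q a a) f₁ ‖a‖ (wd b c) _ (‖b‖ * ‖c‖) hf1 (by positivity) h₁ (mix b c)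
  have t2 := term (bf Q b b) f₂ ‖b‖ (wd c a) _ (‖c‖ * ‖a‖) hf2 (by positivity) h₂ (mix c a)
  have t3 := term (bf Q c c) f₃ ‖c‖ (wd a b) _ (‖a‖ * ‖b‖) hf3 (by positivity) h₃ (mix a b)
  have hsum : |bf Q x y| * (|wd a b| * |wd b c| * |wd c a|) * 2 ≤
      f₁ * ‖a‖ ^ 2 * |wd b c| * (2 * (X * (‖b‖ * ‖c‖))) +
      f₂ * ‖b‖ ^ 2 * |wd c a| * (2 * (X * (‖c‖ * ‖a‖))) +
      f₃ * ‖c‖ ^ 2 * |wd a b| * (2 * (X * (‖a‖ * ‖b‖))) := by
    rw [hl]
    refine le_trans (abs_add_le _ _) (add_le_add (le_trans (abs_add_le _ _)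
      (add_le_add t1 t2)) t3)
  -- compare with the product of the wedges
  have k1 : ‖a‖ ^ 2 * |wd b c| * (‖b‖ * ‖c‖) ≤ P ^ 2 * (|wd a b| * |wd b c| * |wd c a|) := by
    have := mul_le_mul hab hca (by positivity) (by positivity)
    calc ‖a‖ ^ 2 * |wd b c| * (‖b‖ * ‖c‖) = |wd b c| * (‖a‖ * ‖b‖ * (‖c‖ * ‖a‖)) := by ring
      _ ≤ |wd b c| * (P * |wd a b| * (P * |wd c a|)) :=
          mul_le_mul_of_nonneg_left this (abs_nonneg _)
      _ = _ := by ring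
  have k2 : ‖b‖ ^ 2 * |wd c a| * (‖c‖ * ‖a‖) ≤ P ^ 2 * (|wd a b| * |wd b c| * |wd c a|) := by
    have := mul_le_mul hab hbc (by positivity) (by positivity)
    calc ‖b‖ ^ 2 * |wd c a| * (‖c‖ * ‖a‖) = |wd c a| * (‖a‖ * ‖b‖ * (‖b‖ * ‖c‖)) := by ring
      _ ≤ |wd c a| * (P * |wd a b| * (P * |wd b c|)) :=
          mul_le_mul_of_nonneg_left this (abs_nonneg _)
      _ = _ := by ring
  have k3 : ‖c‖ ^ 2 * |wd a b| * (‖a‖ * ‖b‖) ≤ P ^ 2 * (|wd a b| * |wd b c| * |wd c a|) := by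
    have := mul_le_mul hbc hca (by positivity) (by positivity)
    calc ‖c‖ ^ 2 * |wd a b| * (‖a‖ * ‖b‖) = |wd a b| * (‖b‖ * ‖c‖ * (‖c‖ * ‖a‖)) := by ring
      _ ≤ |wd a b| * (P * |wd b c| * (P * |wd c a|)) :=
          mul_le_mul_of_nonneg_left this (abs_nonneg _)
      _ = _ := by ring
  obtain ⟨D, hD⟩ : ∃ D : ℝ, D = |wd a b| * |wd b c| * |wd c a| := ⟨_, rfl⟩
  have hD0 : 0 < D := by rw [hD]; positivity
  rw [← hD] at hsum k1 k2 k3
  have m1 := mul_le_mul_of_nonneg_left k1 (mul_nonneg hf1 hX0)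
  have m2 := mul_le_mul_of_nonneg_left k2 (mul_nonneg hf2 hX0)
  have m3 := mul_le_mul_of_nonneg_left k3 (mul_nonneg hf3 hX0)
  have fin : |bf Q x y| * D ≤ P ^ 2 * (f₁ + f₂ + f₃) * X * D := by
    nlinarith [hsum, m1, m2, m3]
  have := le_of_mul_le_mul_right fin hD0
  rw [← hX]
  exact this

end Pool.Agent.Helper68_F5
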