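import Pool.Agent.Helper68_F5.Win

/-!
MP_f5cbfa_nt, duality count: the forms `Â`, `A⁰`, `F_h` at `v`.
-/

set_option autoImplicit false

open MeasureTheory

namespace Pool.Agent.Helper68_F5

theorem bf_pr_self (a b z : ℂ) : bf (pr a b) z z = wd z a * wd z b := by
  simp only [bf, pr, wd]; ring

theorem wd_self (a : ℂ) : wd a a = 0 := by simp only [wd]; ring

section itp

variable {v₁ v₂ v₃ : ℂ}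

theorem itp_val₁ (h₁₂ : wd v₁ v₂ ≠ 0) (h₂₃ : wd v₂ v₃ ≠ 0) (h₃₁ : wd v₃ v₁ ≠ 0) (f₁ f₂ f₃ : ℝ) :
    bf (itp v₁ v₂ v₃ f₁ f₂ f₃) v₁ v₁ = f₁ := by
  rw [itp, bf_add_left, bf_add_left, bf_smul, bf_smul, bf_smul, bf_pr_self, bf_pr_self,
    bf_pr_self, wd_self]
  have h13 : wd v₁ v₃ ≠ 0 := by rw [wd_comm]; exact neg_ne_zero.2 h₃₁
  field_simp
  ring

theorem itp_val₂ (h₁₂ : wd v₁ v₂ ≠ 0) (h₂₃ : wd v₂ v₃ ≠ 0) (h₃₁ : wd v₃ v₁ ≠ 0) (f₁ f₂ f₃ : ℝ) :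
    bf (itp v₁ v₂ v₃ f₁ f₂ f₃) v₂ v₂ = f₂ := by
  rw [itp, bf_add_left, bf_add_left, bf_smul, bf_smul, bf_smul, bf_pr_self, bf_pr_self,
    bf_pr_self, wd_self]
  have h21 : wd v₂ v₁ ≠ 0 := by rw [wd_comm]; exact neg_ne_zero.2 h₁₂
  field_simp
  ring

theorem itp_val₃ (h₁₂ : wd v₁ v₂ ≠ 0) (h₂₃ : wd v₂ v₃ ≠ 0) (h₃₁ : wd v₃ v₁ ≠ 0) (f₁ f₂ f₃ : ℝ) :
    bf (itp v₁ v₂ v₃ f₁ f₂ f₃) v₃ v₃ = f₃ := by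
  rw [itp, bf_add_left, bf_add_left, bf_smul, bf_smul, bf_smul, bf_pr_self, bf_pr_self,
    bf_pr_self, wd_self]
  have h32 : wd v₃ v₂ ≠ 0 := by rw [wd_comm]; exact neg_ne_zero.2 h₂₃
  field_simp
  ring

end itp

/-- data of a triple of lattice vectors of norm about `c`, with separated directions -/
structure Tri (P c : ℝ) (v₁ v₂ v₃ : ℂ) : Prop where
  hP : 1 ≤ P
  hc : 8 * P ≤ c
  n₁ : |‖v₁‖ - c| ≤ P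
  n₂ : |‖v₂‖ - c| ≤ P
  n₃ : |‖v₃‖ - c| ≤ P
  w₁₂ : ‖v₁‖ * ‖v₂‖ ≤ 8 * P * |wd v₁ v₂|
  w₂₃ : ‖v₂‖ * ‖v₃‖ ≤ 8 * P * |wd v₂ v₃|
  w₃₁ : ‖v₃‖ * ‖v₁‖ ≤ 8 * P * |wd v₃ v₁|

/-- the form with value `c²` at `v₁ v₂ v₃` -/
noncomputable def A0 (c : ℝ) (v₁ v₂ v₃ : ℂ) : ℝ × ℝ × ℝ := itp v₁ v₂ v₃ (c ^ 2) (c ^ 2) (c ^ 2)

/-- the form `Â` of note 2492: value `c² (1 + ‖Hₗ‖²/(4S))` at `vₗ` -/
noncomputable def Ah (S c : ℝ) (v₁ v₂ v₃ H₁ H₂ H₃ : ℂ) : ℝ × ℝ × ℝ :=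
  itp v₁ v₂ v₃ (c ^ 2 * (1 + ‖H₁‖ ^ 2 / (4 * S))) (c ^ 2 * (1 + ‖H₂‖ ^ 2 / (4 * S)))
    (c ^ 2 * (1 + ‖H₃‖ ^ 2 / (4 * S)))

namespace Tri

variable {P c : ℝ} {v₁ v₂ v₃ : ℂ}

theorem P_pos (t : Tri P c v₁ v₂ v₃) : 0 < P := by linarith [t.hP]

theorem c_pos (t : Tri P c v₁ v₂ v₃) : 0 < c := by linarith [t.hP, t.hc]

theorem norm_ge {v : ℂ} (t : Tri P c v₁ v₂ v₃) (h : |‖v‖ - c| ≤ P) : c / 2 ≤ ‖v‖ := by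
  have := (abs_le.1 h).1
  linarith [t.hP, t.hc]

theorem norm_le {v : ℂ} (t : Tri P c v₁ v₂ v₃) (h : |‖v‖ - c| ≤ P) : ‖v‖ ≤ 2 * c := by
  have := (abs_le.1 h).2
  linarith [t.hP, t.hc]

theorem ne {v : ℂ} (t : Tri P c v₁ v₂ v₃) (h : |‖v‖ - c| ≤ P) : v ≠ 0 := by
  intro h0
  have h1 := t.norm_ge h
  rw [h0, norm_zero] at h1
  linarith [t.c_pos]

theorem wd_ne {v w : ℂ} (_t : Tri P c v₁ v₂ v₃) (hv : v ≠ 0) (hw : w ≠ 0)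
    (h : ‖v‖ * ‖w‖ ≤ 8 * P * |wd v w|) : wd v w ≠ 0 := by
  intro h0
  rw [h0, abs_zero, mul_zero] at h
  have := mul_pos (norm_pos_iff.2 hv) (norm_pos_iff.2 hw)
  linarith

theorem w12 (t : Tri P c v₁ v₂ v₃) : wd v₁ v₂ ≠ 0 := t.wd_ne (t.ne t.n₁) (t.ne t.n₂) t.w₁₂
theorem w23 (t : Tri P c v₁ v₂ v₃) : wd v₂ v₃ ≠ 0 := t.wd_ne (t.ne t.n₂) (t.ne t.n₃) t.w₂₃
theorem w31 (t : Tri P c v₁ v₂ v₃) : wd v₃ v₁ ≠ 0 := t.wd_ne (t.ne t.n₃) (t.ne t.n₁) t.w₃₁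

theorem bound (t : Tri P c v₁ v₂ v₃) {Q : ℝ × ℝ × ℝ} {f : ℝ} (h₁ : |bf Q v₁ v₁| ≤ f * ‖v₁‖ ^ 2)
    (h₂ : |bf Q v₂ v₂| ≤ f * ‖v₂‖ ^ 2) (h₃ : |bf Q v₃ v₃| ≤ f * ‖v₃‖ ^ 2) (x y : ℂ) :
    |bf Q x y| ≤ 192 * P ^ 2 * f * (‖x‖ * ‖y‖) := by
  have hP := t.hP
  have key := int_bound Q v₁ v₂ v₃ (P := 8 * P) (by linarith) (t.ne t.n₁) (t.ne t.n₂) (t.ne t.n₃)
    t.w₁₂ t.w₂₃ t.w₃₁ h₁ h₂ h₃ x y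
  refine le_trans key (le_of_eq ?_)
  ring

/-- `A⁰` is close to the base form -/
theorem A0_sub (t : Tri P c v₁ v₂ v₃) (x y : ℂ) :
    |bf (A0 c v₁ v₂ v₃ - (1, 0, 1)) x y| ≤ 2304 * P ^ 3 / c * (‖x‖ * ‖y‖) := by
  have hP := t.hP
  have hc := t.c_pos
  have hc8 := t.hc
  have key : ∀ {v : ℂ}, |‖v‖ - c| ≤ P → bf (A0 c v₁ v₂ v₃) v v = c ^ 2 →
      |bf (A0 c v₁ v₂ v₃ - (1, 0, 1)) v v| ≤ 12 * P / c * ‖v‖ ^ 2 := by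
    intro v hv h
    rw [bf_sub_left, h, bf_one, sp_self]
    have h1 := abs_le.1 hv
    have h2 := t.norm_ge hv
    have h3 : |c ^ 2 - ‖v‖ ^ 2| ≤ 3 * (c * P) := by
      have e1 : c ^ 2 - ‖v‖ ^ 2 = -(‖v‖ - c) * (‖v‖ + c) := by ring
      rw [e1, abs_mul, abs_neg, abs_of_nonneg (by positivity : 0 ≤ ‖v‖ + c)]
      calc |‖v‖ - c| * (‖v‖ + c) ≤ P * (3 * c) :=
            mul_le_mul hv (by linarith) (by positivity) (by linarith)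
        _ = _ := by ring
    have h4 : (c / 2) ^ 2 ≤ ‖v‖ ^ 2 := pow_le_pow_left₀ (by positivity) h2 2
    calc |c ^ 2 - ‖v‖ ^ 2| ≤ 3 * (c * P) := h3
      _ = 12 * P / c * (c / 2) ^ 2 := by field_simp; ring
      _ ≤ 12 * P / c * ‖v‖ ^ 2 := mul_le_mul_of_nonneg_left h4 (by positivity)
  have k := t.bound (key t.n₁ (itp_val₁ t.w12 t.w23 t.w31 _ _ _))
    (key t.n₂ (itp_val₂ t.w12 t.w23 t.w31 _ _ _)) (key t.n₃ (itp_val₃ t.w12 t.w23 t.w31 _ _ _)) x y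
  refine le_trans k (le_of_eq ?_)
  ring

/-- `F = Â - A⁰` is small -/
theorem F_bound (t : Tri P c v₁ v₂ v₃) {S V : ℝ} (hS : 0 < S) {H₁ H₂ H₃ : ℂ} (h₁ : ‖H₁‖ ≤ V)
    (h₂ : ‖H₂‖ ≤ V) (h₃ : ‖H₃‖ ≤ V) (x y : ℂ) :
    |bf (Ah S c v₁ v₂ v₃ H₁ H₂ H₃ - A0 c v₁ v₂ v₃) x y| ≤
      192 * P ^ 2 * (V ^ 2 / S) * (‖x‖ * ‖y‖) := by
  have hc := t.c_pos
  have key : ∀ {v H : ℂ}, |‖v‖ - c| ≤ P → ‖H‖ ≤ V →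
      bf (Ah S c v₁ v₂ v₃ H₁ H₂ H₃) v v = c ^ 2 * (1 + ‖H‖ ^ 2 / (4 * S)) →
      bf (A0 c v₁ v₂ v₃) v v = c ^ 2 →
      |bf (Ah S c v₁ v₂ v₃ H₁ H₂ H₃ - A0 c v₁ v₂ v₃) v v| ≤ V ^ 2 / S * ‖v‖ ^ 2 := by
    intro v H hv hH ha hb
    rw [bf_sub_left, ha, hb]
    have e1 : c ^ 2 * (1 + ‖H‖ ^ 2 / (4 * S)) - c ^ 2 = c ^ 2 * (‖H‖ ^ 2 / (4 * S)) := by ring
    rw [e1, abs_of_nonneg (by positivity)]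
    have h2 : (c / 2) ^ 2 ≤ ‖v‖ ^ 2 := pow_le_pow_left₀ (by positivity) (t.norm_ge hv) 2
    have h4 : ‖H‖ ^ 2 ≤ V ^ 2 := pow_le_pow_left₀ (norm_nonneg _) hH 2
    calc c ^ 2 * (‖H‖ ^ 2 / (4 * S)) = ‖H‖ ^ 2 / S * (c / 2) ^ 2 := by ring
      _ ≤ V ^ 2 / S * ‖v‖ ^ 2 :=
          mul_le_mul (div_le_div_of_nonneg_right h4 hS.le) h2 (by positivity) (by positivity)
  exact t.bound (key t.n₁ h₁ (itp_val₁ t.w12 t.w23 t.w31 _ _ _)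
    (itp_val₁ t.w12 t.w23 t.w31 _ _ _)) (key t.n₂ h₂ (itp_val₂ t.w12 t.w23 t.w31 _ _ _)
    (itp_val₂ t.w12 t.w23 t.w31 _ _ _)) (key t.n₃ h₃ (itp_val₃ t.w12 t.w23 t.w31 _ _ _)
    (itp_val₃ t.w12 t.w23 t.w31 _ _ _)) x y

/-- straight strips: the windows of `Â` give windows of `A⁰` -/
theorem strip (t : Tri P c v₁ v₂ v₃) {S V : ℝ} (hS : 0 < S) {H₁ H₂ H₃ : ℂ} (h₁ : ‖H₁‖ ≤ V)
    (h₂ : ‖H₂‖ ≤ V) (h₃ : ‖H₃‖ ≤ V) {v w H H' : ℂ} (hv : |‖v‖ - c| ≤ P) (hw : |‖w‖ - c| ≤ P)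
    {ω U U' : ℝ} (hU : ‖H‖ ≤ U) (hU' : ‖H'‖ ≤ U')
    (hwin : |bf (Ah S c v₁ v₂ v₃ H₁ H₂ H₃) v H - bf (Ah S c v₁ v₂ v₃ H₁ H₂ H₃) w H'| ≤ ω) :
    |bf (A0 c v₁ v₂ v₃) v H - bf (A0 c v₁ v₂ v₃) w H'| ≤
      ω + 384 * P ^ 2 * (V ^ 2 / S) * c * (U + U') := by
  have hc := t.c_pos
  have hP := t.hP
  have a1 := t.F_bound hS h₁ h₂ h₃ v H
  have a2 := t.F_bound hS h₁ h₂ h₃ w H'
  have b1 : ‖v‖ * ‖H‖ ≤ 2 * c * U := mul_le_mul (t.norm_le hv) hU (norm_nonneg _) (by positivity)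
  have b2 : ‖w‖ * ‖H'‖ ≤ 2 * c * U' := mul_le_mul (t.norm_le hw) hU' (norm_nonneg _) (by positivity)
  have c1 : 0 ≤ 192 * P ^ 2 * (V ^ 2 / S) := by positivity
  have a1' := le_trans a1 (mul_le_mul_of_nonneg_left b1 c1)
  have a2' := le_trans a2 (mul_le_mul_of_nonneg_left b2 c1)
  have e : bf (A0 c v₁ v₂ v₃) v H - bf (A0 c v₁ v₂ v₃) w H' =
      (bf (Ah S c v₁ v₂ v₃ H₁ H₂ H₃) v H - bf (Ah S c v₁ v₂ v₃ H₁ H₂ H₃) w H') -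
      bf (Ah S c v₁ v₂ v₃ H₁ H₂ H₃ - A0 c v₁ v₂ v₃) v H +
      bf (Ah S c v₁ v₂ v₃ H₁ H₂ H₃ - A0 c v₁ v₂ v₃) w H' := by
    rw [bf_sub_left, bf_sub_left]; ring
  rw [e]
  have t1 := abs_add_le ((bf (Ah S c v₁ v₂ v₃ H₁ H₂ H₃) v H -
    bf (Ah S c v₁ v₂ v₃ H₁ H₂ H₃) w H') -
      bf (Ah S c v₁ v₂ v₃ H₁ H₂ H₃ - A0 c v₁ v₂ v₃) v H)
      (bf (Ah S c v₁ v₂ v₃ H₁ H₂ H₃ - A0 c v₁ v₂ v₃) w H')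
  have t2 := abs_sub (bf (Ah S c v₁ v₂ v₃ H₁ H₂ H₃) v H - bf (Ah S c v₁ v₂ v₃ H₁ H₂ H₃) w H')
    (bf (Ah S c v₁ v₂ v₃ H₁ H₂ H₃ - A0 c v₁ v₂ v₃) v H)
  have e2 : 192 * P ^ 2 * (V ^ 2 / S) * (2 * c * U) + 192 * P ^ 2 * (V ^ 2 / S) * (2 * c * U') =
      384 * P ^ 2 * (V ^ 2 / S) * c * (U + U') := by ring
  linarith

/-- the vector `a = A⁰ v` has norm at least `c/2` -/
theorem norm_vc_ge (t : Tri P c v₁ v₂ v₃) {v : ℂ} (hv : |‖v‖ - c| ≤ P)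
    (h : bf (A0 c v₁ v₂ v₃) v v = c ^ 2) : c / 2 ≤ ‖vc (A0 c v₁ v₂ v₃) v‖ := by
  have hc := t.c_pos
  have h1 : c ^ 2 ≤ ‖vc (A0 c v₁ v₂ v₃) v‖ * ‖v‖ := by
    have := abs_sp_le (vc (A0 c v₁ v₂ v₃) v) v
    rw [bf_vc, h, abs_of_nonneg (by positivity)] at this
    exact this
  have h2 := t.norm_le hv
  have h3 : c ^ 2 ≤ ‖vc (A0 c v₁ v₂ v₃) v‖ * (2 * c) :=
    le_trans h1 (mul_le_mul_of_nonneg_left h2 (norm_nonneg _))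
  have h4 : c * (c / 2) ≤ c * ‖vc (A0 c v₁ v₂ v₃) v‖ := by nlinarith
  exact le_of_mul_le_mul_left h4 hc

/-- short vectors in the strip of `A⁰ v` are in the strip of `v` -/
theorem short (t : Tri P c v₁ v₂ v₃) {v z : ℂ} (hv : |‖v‖ - c| ≤ P) {d : ℝ}
    (h : |sp (vc (A0 c v₁ v₂ v₃) v) z| ≤ d) : |sp v z| ≤ d + 4608 * P ^ 3 * ‖z‖ := by
  have hc := t.c_pos
  have hP := t.hP
  rw [bf_vc] at h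
  have a := t.A0_sub v z
  have b : ‖v‖ * ‖z‖ ≤ 2 * c * ‖z‖ := mul_le_mul_of_nonneg_right (t.norm_le hv) (norm_nonneg _)
  have a' := le_trans a (mul_le_mul_of_nonneg_left b (by positivity))
  have e1 : 2304 * P ^ 3 / c * (2 * c * ‖z‖) = 4608 * P ^ 3 * ‖z‖ := by field_simp; ring
  rw [e1] at a'
  have e2 : sp v z = bf (A0 c v₁ v₂ v₃) v z - bf (A0 c v₁ v₂ v₃ - (1, 0, 1)) v z := by
    rw [bf_sub_left, bf_one]; ring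
  rw [e2]
  have := abs_sub (bf (A0 c v₁ v₂ v₃) v z) (bf (A0 c v₁ v₂ v₃ - (1, 0, 1)) v z)
  linarith

end Tri

/-- the triple of note 2492 -/
theorem tri_of_dat {P S V c : ℝ} {e₁ v₁ H₁ : ℂ} {κ₁ : ℝ} {e₂ v₂ H₂ : ℂ} {κ₂ : ℝ}
    {e₃ v₃ H₃ : ℂ} {κ₃ : ℝ} (s : Sml P S V c) (d₁ : Dat P S V c e₁ v₁ H₁ κ₁)
    (d₂ : Dat P S V c e₂ v₂ H₂ κ₂) (d₃ : Dat P S V c e₃ v₃ H₃ κ₃) (w₁₂ : 1 ≤ P * |wd e₁ e₂|)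
    (w₂₃ : 1 ≤ P * |wd e₂ e₃|) (w₃₁ : 1 ≤ P * |wd e₃ e₁|) : Tri P c v₁ v₂ v₃ := by
  have hc := Dat.c_pos s
  have hn : ∀ {e v H : ℂ} {κ : ℝ}, Dat P S V c e v H κ → |‖v‖ - c| ≤ P := by
    intro e v H κ d
    have h1 : ‖(c : ℂ) * e‖ = c := by
      rw [norm_mul, d.he, mul_one, Complex.norm_real, Real.norm_eq_abs, abs_of_pos hc]
    have h2 := abs_norm_sub_norm_le v ((c : ℂ) * e)
    rw [h1] at h2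
    exact le_trans h2 d.hv
  exact ⟨s.hP, by linarith [(Dat.cP s).1, s.hP], hn d₁, hn d₂, hn d₃, Dat.wd_v s d₁ d₂ w₁₂,
    Dat.wd_v s d₂ d₃ w₂₃, Dat.wd_v s d₃ d₁ w₃₁⟩

end Pool.Agent.Helper68_F5
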