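import Pool.Agent.Helper68_F5.Kc2f

/-!
MP_f5cbfa_nt, duality count: pointwise count, Tonelli, arithmetic of the error factor.
-/

set_option autoImplicit false

open MeasureTheory Matrix Complex ComplexConjugate

namespace Pool.Agent.Helper68_F5

open Pool.Agent.BTL Pool.Agent.F5S Pool.Agent.F5H Pool.Agent.F5H.BC Pool.Agent.Helper96_GN

/-! ### Tonelli -/

theorem tonelli_cnt {ι τ : Type*} [Countable ι] (S : ι → Set ℝ) (hS : ∀ k, MeasurableSet (S k))
    (𝓥 : Finset τ) (Ht : τ → Set ℝ) (C : ENNReal)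
    (h : ∀ θ, ∑' k, (S k).indicator (fun _ => (1 : ENNReal)) θ ≤
      C * ∑ t ∈ 𝓥, (Ht t).indicator (fun _ => (1 : ENNReal)) θ) :
    ∑' k, volume (S k) ≤ C * ∑ t ∈ 𝓥, volume (Ht t) := by
  have h1 : ∑' k, volume (S k) =
      ∫⁻ θ, ∑' k, (S k).indicator (fun _ => (1 : ENNReal)) θ := by
    rw [lintegral_tsum fun k => (measurable_const.indicator (hS k)).aemeasurable]
    refine tsum_congr fun k => ?_
    rw [lintegral_indicator_const (hS k), one_mul]
  have h2 : ∫⁻ θ, ∑' k, (S k).indicator (fun _ => (1 : ENNReal)) θ ≤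
      ∫⁻ θ, C * ∑ t ∈ 𝓥, (toMeasurable volume (Ht t)).indicator (fun _ => (1 : ENNReal)) θ := by
    refine lintegral_mono fun θ => le_trans (h θ) ?_
    refine mul_le_mul_right (Finset.sum_le_sum fun t _ => ?_) C
    exact Set.indicator_le_indicator_of_subset (subset_toMeasurable _ _) (fun _ => zero_le_one) θ
  have h3 : ∫⁻ θ, C * ∑ t ∈ 𝓥, (toMeasurable volume (Ht t)).indicator
      (fun _ => (1 : ENNReal)) θ = C * ∑ t ∈ 𝓥, volume (Ht t) := by
    rw [lintegral_const_mul _ (Finset.measurable_fun_sum _ fun t _ =>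
      measurable_const.indicator (measurableSet_toMeasurable _ _)),
      lintegral_finsetSum _ fun t _ =>
      measurable_const.indicator (measurableSet_toMeasurable _ _)]
    congr 1
    refine Finset.sum_congr rfl fun t _ => ?_
    rw [lintegral_indicator_const (measurableSet_toMeasurable _ _), one_mul,
      measure_toMeasurable]
  rw [h1]
  exact le_trans h2 (le_of_eq h3)

/-! ### measurability -/

section meas

variable {T : ℝ} {H : Fin 3 → ℂ} {ep : Fin 3 → ℝ}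

theorem meas_wG (l : Fin 3) : Measurable fun θ : ℝ => wG T H ep θ l := by
  unfold wG
  split_ifs
  · fun_prop
  · have e1 : ∀ θ : ℝ, (conj (cexp ((θ : ℂ) * I)) * H 2).re = sp (cexp ((θ : ℂ) * I)) (H 2) :=
      fun θ => sp_eq _ _
    simp only [e1, sp]
    fun_prop

theorem meas_sp {f g : ℝ → ℂ} (hf : Measurable f) (hg : Measurable g) :
    Measurable fun θ => sp (f θ) (g θ) := by
  unfold sp; fun_prop

theorem meas_wd {f g : ℝ → ℂ} (hf : Measurable f) (hg : Measurable g) :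
    Measurable fun θ => wd (f θ) (g θ) := by
  unfold wd; fun_prop

theorem meas_bf (B : ℝ × ℝ × ℝ) {f g : ℝ → ℂ} (hf : Measurable f) (hg : Measurable g) :
    Measurable fun θ => bf B (f θ) (g θ) := by
  unfold bf; fun_prop

theorem meas_mG (l : Fin 3) : Measurable fun θ : ℝ => mG T H ep θ l := by
  unfold mG
  exact measurable_const.mul (meas_wG l)

theorem meas_tG (l : Fin 3) : Measurable fun θ : ℝ => tG T H ep θ l := by
  simp only [tG, sp_eq]
  exact meas_sp (meas_wG l) measurable_const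

theorem meas_nG (l : Fin 3) : Measurable fun θ : ℝ => nG T H ep θ l := by
  simp only [nG, wd_eq]
  exact meas_wd (meas_wG l) measurable_const

theorem meas_muG (B : ℝ × ℝ × ℝ) (l : Fin 3) : Measurable fun θ : ℝ => muG T H ep θ B l := by
  unfold muG
  exact (((meas_bf B (meas_mG l) (meas_mG l)).add measurable_const).div measurable_const).neg

theorem meas_GG (B : ℝ × ℝ × ℝ) (y : ℝ) : Measurable fun θ : ℝ => BC.GG T H ep θ B y := by
  unfold BC.GG
  exact (((meas_muG B 2).mul (meas_tG 2)).add (measurable_const.mul (meas_nG 2))).add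
    (meas_bf B (meas_mG 2) measurable_const)

theorem meas_yG (B : ℝ × ℝ × ℝ) (y : ℝ) (l : Fin 3) :
    Measurable fun θ : ℝ => yG T H ep θ B y l := by
  unfold yG
  split_ifs
  · exact measurable_const
  · exact (((meas_GG B y).sub (meas_bf B (meas_mG l) measurable_const)).sub
      ((meas_muG B l).mul (meas_tG l))).div (meas_nG l)

theorem meas_tv (B : ℝ × ℝ × ℝ) (y : ℝ) (l : Fin 3) :
    Measurable fun θ : ℝ => tv T H ep θ B y l := by
  unfold tv
  exact ((Complex.measurable_ofReal.comp (meas_muG B l)).add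
    ((Complex.measurable_ofReal.comp (meas_yG B y l)).mul measurable_const)).mul (meas_wG l)

theorem meas_H58 (K : Fin 3 → ℂ) {f : ℝ → Fin 3 → ℂ} (hf : ∀ l, Measurable fun θ => f θ l) :
    Measurable fun θ => F5.H58.sp K (f θ) := by
  unfold F5.H58.sp
  refine Finset.measurable_fun_sum _ fun l _ => ?_
  simp only [sp_eq]
  exact meas_sp measurable_const (hf l)

end meas

theorem meas_Cd (T Q : ℝ) (A : ℝ × ℝ × ℝ) (V : Fin 3 → ℝ) (k0 : ℝ) (s : Bool × Bool) (h k : Z6) :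
    MeasurableSet {th : ℝ | th ∈ Set.Ioc (-Real.pi) Real.pi ∧ Cd T Q A V k0 s h k th} := by
  unfold Cd Gd BD
  have hle : ∀ {f : ℝ → ℝ} (c : ℝ), Measurable f → MeasurableSet {th | f th ≤ c} :=
    fun c hf => measurableSet_le hf measurable_const
  have habs : ∀ {f : ℝ → ℝ}, Measurable f → Measurable fun th => |f th| :=
    fun hf => continuous_abs.measurable.comp hf
  refine measurableSet_Ioc.inter ((MeasurableSet.const _).inter (MeasurableSet.inter ?_
    ((MeasurableSet.const _).inter ?_)))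
  · refine (MeasurableSet.const _).inter ((MeasurableSet.const _).inter (MeasurableSet.inter ?_ ?_))
    · refine hle _ (measurable_const.mul (habs ?_))
      simp only [sp_eq]
      exact meas_sp (by fun_prop) measurable_const
    · have e : {th : ℝ | ∀ l m, l ≠ m → 1 ≤ Q * |(conj (wG T (hG A (r3 h)) (sg s) th l) *
          wG T (hG A (r3 h)) (sg s) th m).im|} =
          ⋂ l, ⋂ m, {th : ℝ | l ≠ m → 1 ≤ Q * |(conj (wG T (hG A (r3 h)) (sg s) th l) *
          wG T (hG A (r3 h)) (sg s) th m).im|} := by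
        ext th; simp
      refine (congrArg MeasurableSet e).mpr ?_
      refine MeasurableSet.iInter fun l => MeasurableSet.iInter fun m => ?_
      by_cases hlm : l = m
      · have : {th : ℝ | l ≠ m → 1 ≤ Q * |(conj (wG T (hG A (r3 h)) (sg s) th l) *
          wG T (hG A (r3 h)) (sg s) th m).im|} = Set.univ := by
          ext th; simp [hlm]
        rw [this]
        exact MeasurableSet.univ
      · have : {th : ℝ | l ≠ m → 1 ≤ Q * |(conj (wG T (hG A (r3 h)) (sg s) th l) *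
          wG T (hG A (r3 h)) (sg s) th m).im|} = {th : ℝ | 1 ≤ Q *
            |wd (wG T (hG A (r3 h)) (sg s) th l) (wG T (hG A (r3 h)) (sg s) th m)|} := by
          ext th
          simp only [Set.mem_ofPred_eq, wd_eq]
          exact ⟨fun h => h hlm, fun h _ => h⟩
        rw [this]
        exact measurableSet_le measurable_const
          (measurable_const.mul (habs (meas_wd (meas_wG l) (meas_wG m))))
  · refine (hle _ (habs (meas_H58 _ fun l => meas_tv _ _ l))).inter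
      ((hle _ (habs (meas_H58 _ fun l => meas_tv _ _ l))).inter
      ((hle _ (habs (meas_H58 _ fun l => meas_tv _ _ l))).inter
      ((hle _ (habs (meas_H58 _ fun l => meas_tv _ _ l))).inter
      ((hle _ (habs (meas_H58 _ fun l => meas_tv _ _ l))).inter ?_))))
    have e : {th : ℝ | ∀ l, |(conj (kG A (r3 k) l) * (I * wG T (hG A (r3 h)) (sg s) th l)).re| ≤
        (fun l => Q * V l) l} = ⋂ l, {th : ℝ | |sp (kG A (r3 k) l)
          (I * wG T (hG A (r3 h)) (sg s) th l)| ≤ Q * V l} := by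
      ext th
      rw [Set.mem_iInter]
      refine forall_congr' fun l => ?_
      show |(conj (kG A (r3 k) l) * (I * wG T (hG A (r3 h)) (sg s) th l)).re| ≤ Q * V l ↔
        |sp (kG A (r3 k) l) (I * wG T (hG A (r3 h)) (sg s) th l)| ≤ Q * V l
      rw [sp_eq]
    refine (congrArg MeasurableSet e).mpr ?_
    exact MeasurableSet.iInter fun l => hle _ (habs (meas_sp measurable_const
      (measurable_const.mul (meas_wG l))))

/-! ### arithmetic of the error factor -/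

theorem er_aux {q s p w : ℝ} (hq : 1 ≤ q) (hs : 1 ≤ s) (hw : 1 ≤ w) (hwp : w ≤ p)
    (hpw : p ≤ w ^ 3) (hsq : s ≤ q * (p * w)) :
    s ^ 6 / (p ^ 4 * w ^ 4) * ((1 / p ^ 4 + 1 / s + p ^ 4 / s ^ 4) *
      (1 / w ^ 4 + 1 / s + w ^ 4 / s ^ 4)) ≤ 9 * q ^ 6 := by
  have hs0 : 0 < s := by linarith
  have hw0 : 0 < w := by linarith
  have hp1 : 1 ≤ p := by linarith
  have hp0 : 0 < p := by linarith
  obtain ⟨a, ha⟩ : ∃ a, a = s / (p * w) := ⟨_, rfl⟩
  obtain ⟨α, hα⟩ : ∃ a, a = w / p ^ 3 := ⟨_, rfl⟩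
  obtain ⟨β, hβ⟩ : ∃ a, a = p / w ^ 3 := ⟨_, rfl⟩
  obtain ⟨γ, hγ⟩ : ∃ a, a = 1 / (p ^ 2 * w ^ 2) := ⟨_, rfl⟩
  obtain ⟨δ, hδ⟩ : ∃ a, a = 1 / s ^ 2 := ⟨_, rfl⟩
  have e : s ^ 6 / (p ^ 4 * w ^ 4) * ((1 / p ^ 4 + 1 / s + p ^ 4 / s ^ 4) *
      (1 / w ^ 4 + 1 / s + w ^ 4 / s ^ 4)) = a ^ 6 * γ + a ^ 5 * α + a ^ 2 * α ^ 2 + a ^ 5 * β +
      a ^ 4 + a * α + a ^ 2 * β ^ 2 + a * β + δ := by
    rw [ha, hα, hβ, hγ, hδ]
    field_simp
    ring
  have a0 : 0 ≤ a := by rw [ha]; positivity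
  have α0 : 0 ≤ α := by rw [hα]; positivity
  have β0 : 0 ≤ β := by rw [hβ]; positivity
  have γ0 : 0 ≤ γ := by rw [hγ]; positivity
  have aq : a ≤ q := by rw [ha, div_le_iff₀ (by positivity)]; exact hsq
  have α1 : α ≤ 1 := by
    rw [hα, div_le_one (by positivity)]
    exact le_trans hwp (le_self_pow₀ hp1 (by norm_num))
  have β1 : β ≤ 1 := by rw [hβ, div_le_one (by positivity)]; exact hpw
  have γ1 : γ ≤ 1 := by
    rw [hγ, div_le_one (by positivity)]
    have : 1 * 1 ≤ p ^ 2 * w ^ 2 := mul_le_mul (one_le_pow₀ hp1) (one_le_pow₀ hw) zero_le_one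
      (by positivity)
    linarith
  have δ1 : δ ≤ 1 := by
    rw [hδ, div_le_one (by positivity)]
    exact one_le_pow₀ hs
  have hk : ∀ k : ℕ, k ≤ 6 → ∀ x : ℝ, 0 ≤ x → x ≤ 1 → a ^ k * x ≤ q ^ 6 := by
    intro k hk x hx0 hx1
    calc a ^ k * x ≤ q ^ k * 1 := mul_le_mul (pow_le_pow_left₀ a0 aq k) hx1 hx0 (by positivity)
      _ = q ^ k := mul_one _
      _ ≤ q ^ 6 := pow_le_pow_right₀ hq hk
  rw [e]
  have t1 := hk 6 le_rfl γ γ0 γ1
  have t2 := hk 5 (by norm_num) α α0 α1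
  have t3 := hk 2 (by norm_num) (α ^ 2) (by positivity) (pow_le_one₀ α0 α1)
  have t4 := hk 5 (by norm_num) β β0 β1
  have t5 := hk 4 (by norm_num) 1 zero_le_one le_rfl
  have t6 := hk 1 (by norm_num) α α0 α1
  have t7 := hk 2 (by norm_num) (β ^ 2) (by positivity) (pow_le_one₀ β0 β1)
  have t8 := hk 1 (by norm_num) β β0 β1
  have t9 := hk 0 (by norm_num) δ (by rw [hδ]; positivity) δ1
  rw [pow_one] at t6 t8
  rw [pow_zero, one_mul] at t9
  rw [mul_one] at t5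
  linarith

theorem er_le {Q R u v ω₁ ω₂ : ℝ} (hQ : 2 ≤ Q) (hR : 1 ≤ R) (hv : 1 ≤ v) (hvu : v ≤ u)
    (huv : u ≤ v ^ 3) (hR2 : R ^ 2 ≤ Q ^ 18 * (u * v)) (h1 : ω₁ / R ≤ Q ^ 10 * (u / R ^ 2))
    (h2 : ω₂ / R ≤ Q ^ 10 * (v / R ^ 2) + Q ^ 3 * (1 / Real.sqrt R))
    (h20 : 0 ≤ ω₂) : ER R u v ω₁ ω₂ ≤ Q ^ 56 := by
  have hR0 : 0 < R := by linarith
  have hv0 : 0 < v := by linarith
  have hu1 : 1 ≤ u := by linarith
  have hu0 : 0 < u := by linarith
  have hQ0 : 0 < Q := by linarith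
  have hQ1 : 1 ≤ Q := by linarith
  obtain ⟨s, hs⟩ : ∃ s, s = Real.sqrt R := ⟨_, rfl⟩
  obtain ⟨p, hp⟩ : ∃ s, s = Real.sqrt (Real.sqrt u) := ⟨_, rfl⟩
  obtain ⟨w, hw⟩ : ∃ s, s = Real.sqrt (Real.sqrt v) := ⟨_, rfl⟩
  have hs2 : s ^ 2 = R := by rw [hs]; exact Real.sq_sqrt hR0.le
  have hp4 : p ^ 4 = u := by
    have e : p ^ 4 = (p ^ 2) ^ 2 := by ring
    rw [e, hp, Real.sq_sqrt (Real.sqrt_nonneg _), Real.sq_sqrt hu0.le]
  have hw4 : w ^ 4 = v := by
    have e : w ^ 4 = (w ^ 2) ^ 2 := by ring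
    rw [e, hw, Real.sq_sqrt (Real.sqrt_nonneg _), Real.sq_sqrt hv0.le]
  have hs1 : 1 ≤ s := by rw [hs]; exact Real.one_le_sqrt.2 hR
  have hw1 : 1 ≤ w := by rw [hw]; exact Real.one_le_sqrt.2 (Real.one_le_sqrt.2 hv)
  have hwp : w ≤ p := by rw [hw, hp]; exact Real.sqrt_le_sqrt (Real.sqrt_le_sqrt hvu)
  have hp0 : 0 ≤ p := by rw [hp]; exact Real.sqrt_nonneg _
  have hw0 : 0 ≤ w := by linarith
  have hs0 : 0 < s := by linarith
  have hpw : p ≤ w ^ 3 := by
    refine le_of_pow_le_pow_left₀ (n := 4) (by norm_num) (by positivity) ?_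
    rw [hp4]
    calc u ≤ v ^ 3 := huv
      _ = (w ^ 3) ^ 4 := by rw [← hw4]; ring
  have hsq : s ≤ Q ^ 5 * (p * w) := by
    refine le_of_pow_le_pow_left₀ (n := 4) (by norm_num) (by positivity) ?_
    calc s ^ 4 = R ^ 2 := by rw [← hs2]; ring
      _ ≤ Q ^ 18 * (u * v) := hR2
      _ ≤ Q ^ 20 * (u * v) := mul_le_mul_of_nonneg_right
          (pow_le_pow_right₀ hQ1 (by norm_num)) (by positivity)
      _ = (Q ^ 5 * (p * w)) ^ 4 := by rw [← hp4, ← hw4]; ring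
  have key := er_aux (q := Q ^ 5) (one_le_pow₀ hQ1) hs1 hw1 hwp hpw hsq
  have hu : 0 < p := lt_of_lt_of_le (by linarith) hwp
  have e1 : R ^ 3 = s ^ 6 := by rw [← hs2]; ring
  have e2 : R ^ 2 = s ^ 4 := by rw [← hs2]; ring
  have b10 : 1 ≤ Q ^ 10 := one_le_pow₀ hQ1
  have b11 : 2 * Q ^ 10 ≤ Q ^ 11 := by
    calc 2 * Q ^ 10 ≤ Q * Q ^ 10 := mul_le_mul_of_nonneg_right hQ (by positivity)
      _ = Q ^ 11 := by ring
  have b3 : Q ^ 3 ≤ Q ^ 10 := pow_le_pow_right₀ hQ1 (by norm_num)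
  have x1 : 1 / u + 1 / Real.sqrt R + ω₁ / R + u / R ^ 2 ≤
      Q ^ 11 * (1 / p ^ 4 + 1 / s + p ^ 4 / s ^ 4) := by
    rw [← hs, hp4, ← e2]
    have c1 : 0 ≤ 1 / u := by positivity
    have c2 : 0 ≤ 1 / s := by positivity
    have c3 : 0 ≤ u / R ^ 2 := by positivity
    have d1 : 1 / u ≤ Q ^ 11 * (1 / u) := by nlinarith
    have d2 : 1 / s ≤ Q ^ 11 * (1 / s) := by nlinarith
    have d3 : (Q ^ 10 + 1) * (u / R ^ 2) ≤ Q ^ 11 * (u / R ^ 2) :=
      mul_le_mul_of_nonneg_right (by linarith) c3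
    linarith
  have x2 : 1 / v + 1 / Real.sqrt R + ω₂ / R + v / R ^ 2 ≤
      Q ^ 11 * (1 / w ^ 4 + 1 / s + w ^ 4 / s ^ 4) := by
    rw [← hs] at h2 ⊢
    rw [hw4, ← e2]
    have c1 : 0 ≤ 1 / v := by positivity
    have c2 : 0 ≤ 1 / s := by positivity
    have c3 : 0 ≤ v / R ^ 2 := by positivity
    have d1 : 1 / v ≤ Q ^ 11 * (1 / v) := by nlinarith
    have d2 : (1 + Q ^ 3) * (1 / s) ≤ Q ^ 11 * (1 / s) :=
      mul_le_mul_of_nonneg_right (by linarith) c2
    have d3 : (Q ^ 10 + 1) * (v / R ^ 2) ≤ Q ^ 11 * (v / R ^ 2) :=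
      mul_le_mul_of_nonneg_right (by linarith) c3
    linarith
  have x20 : 0 ≤ 1 / v + 1 / Real.sqrt R + ω₂ / R + v / R ^ 2 := by positivity
  unfold ER
  calc R ^ 3 / (u * v) * ((1 / u + 1 / Real.sqrt R + ω₁ / R + u / R ^ 2) *
      (1 / v + 1 / Real.sqrt R + ω₂ / R + v / R ^ 2)) ≤
      R ^ 3 / (u * v) * ((Q ^ 11 * (1 / p ^ 4 + 1 / s + p ^ 4 / s ^ 4)) *
        (Q ^ 11 * (1 / w ^ 4 + 1 / s + w ^ 4 / s ^ 4))) := by
        refine mul_le_mul_of_nonneg_left ?_ (by positivity)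
        exact mul_le_mul x1 x2 x20 (by positivity)
    _ = Q ^ 22 * (s ^ 6 / (p ^ 4 * w ^ 4) * ((1 / p ^ 4 + 1 / s + p ^ 4 / s ^ 4) *
        (1 / w ^ 4 + 1 / s + w ^ 4 / s ^ 4))) := by rw [e1, hp4, hw4]; ring
    _ ≤ Q ^ 22 * (9 * (Q ^ 5) ^ 6) := mul_le_mul_of_nonneg_left key (by positivity)
    _ = 9 * Q ^ 52 := by ring
    _ ≤ Q ^ 4 * Q ^ 52 := by
        refine mul_le_mul_of_nonneg_right ?_ (by positivity)
        calc (9 : ℝ) ≤ 2 ^ 4 := by norm_num
          _ ≤ Q ^ 4 := pow_le_pow_left₀ (by norm_num) hQ 4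
    _ = Q ^ 56 := by ring

end Pool.Agent.Helper68_F5
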