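import Pool.Agent.Helper68_F5.Kc2

/-!
MP_f5cbfa_nt, block C: general dual step and measure step, for row C_KC2.
-/

set_option autoImplicit false

open MeasureTheory Matrix Complex ComplexConjugate

namespace Pool.Agent.Helper68_F5

open Pool.Agent.BTL Pool.Agent.F5S Pool.Agent.F5H Pool.Agent.F5H.BC Pool.Agent.Helper96_GN

section six

variable {Q T : ℝ} {H : Fin 3 → ℂ} {ep : Fin 3 → ℝ} {th : ℝ}

/-- the six vectors in the frame, general form -/
noncomputable def bWF (T R₁ al be0 be1 : ℝ) (H : Fin 3 → ℂ) (ep : Fin 3 → ℝ) (th : ℝ) :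
    Fin 3 ⊕ Fin 3 → Fin 3 → ℂ
  | Sum.inl j => ![fun l => ((R₁ / T : ℝ) : ℂ) * tv T H ep th (1, 0, 1) 0 l,
      fun l => ((1 / T : ℝ) : ℂ) * tv T H ep th (1, 0, 0) 0 l,
      fun l => ((1 / T : ℝ) : ℂ) * tv T H ep th (0, 1, 0) 0 l] j
  | Sum.inr j => ![fun l => ((if l = 0 then be0 else if l = 1 then be1 else 0 : ℝ) : ℂ) *
        (I * wG T H ep th l),
      fun l => ((if l = 1 then al else 0 : ℝ) : ℂ) * (I * wG T H ep th l),
      fun l => tv T H ep th 0 1 l] j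

/-- the six vectors, general form -/
noncomputable def bW (A : ℝ × ℝ × ℝ) (T R₁ al be0 be1 : ℝ) (H : Fin 3 → ℂ) (ep : Fin 3 → ℝ)
    (th : ℝ) (i : I6) : R6 :=
  (giA A (bWF T R₁ al be0 be1 H ep th (eJ.symm i) 0),
    giA A (bWF T R₁ al be0 be1 H ep th (eJ.symm i) 1),
    giA A (bWF T R₁ al be0 be1 H ep th (eJ.symm i) 2))

/-- radial block -/
theorem det_rad (hQ : 2 ≤ Q) (hT : 1 ≤ T) (F : Fm Q T H ep th) {R₁ : ℝ} (hR₁ : 0 < R₁)
    (hs : ∀ l, 42 * Q ^ 3 * ‖H l‖ ^ 2 ≤ T ^ 2) :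
    R₁ / (64 * Q ^ 3) ≤ |(Matrix.of fun l j : Fin 3 => ![R₁ / T * muG T H ep th (1, 0, 1) l,
      1 / T * muG T H ep th (1, 0, 0) l, 1 / T * muG T H ep th (0, 1, 0) l] j).det| := by
  have hT0 : 0 < T := by linarith
  have hQ0 : 0 < Q := by linarith
  obtain ⟨w, hw⟩ : ∃ w, w = wG T H ep th := ⟨_, rfl⟩
  have hwn : ∀ l, ‖w l‖ = 1 := by rw [hw]; exact F.hw
  obtain ⟨z, hz⟩ : ∃ z : Fin 3 → ℂ, z = fun l => ((1 / (2 * rh T (H l)) : ℝ) : ℂ) * H l := ⟨_, rfl⟩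
  obtain ⟨q, hq⟩ : ∃ q : Matrix (Fin 3) (Fin 3) ℝ, q = Matrix.of fun l j : Fin 3 =>
    ![bf (1, 0, 1) (w l) (w l) + bf (1, 0, 1) (z l) (z l),
      bf (1, 0, 0) (w l) (w l) + bf (1, 0, 0) (z l) (z l),
      bf (0, 1, 0) (w l) (w l) + bf (0, 1, 0) (z l) (z l)] j := ⟨_, rfl⟩
  have hzn : ∀ l, ‖z l‖ ^ 2 ≤ 1 / (42 * Q ^ 3) := by
    intro l
    have hρ := F.ρ1 l
    have hρ0 : 0 < rh T (H l) := by linarith
    rw [hz]
    simp only
    rw [norm_mul, Complex.norm_real, Real.norm_eq_abs, abs_of_pos (by positivity), mul_pow,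
      div_pow, one_pow]
    rw [div_mul_eq_mul_div, one_mul, div_le_div_iff₀ (by positivity) (by positivity)]
    have h2 : T ^ 2 ≤ (2 * rh T (H l)) ^ 2 := pow_le_pow_left₀ hT0.le (by linarith) 2
    have := hs l
    linarith
  have hzn' : (1 : ℝ) / (42 * Q ^ 3) ≤ 1 := by
    rw [div_le_one (by positivity)]
    have : 1 ≤ Q ^ 3 := one_le_pow₀ (by linarith)
    linarith
  have hD : 1 / Q ^ 3 ≤ |wd (w 0) (w 1) * wd (w 1) (w 2) * wd (w 2) (w 0)| := by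
    have a1 := F.ww 0 1 (by decide)
    have a2 := F.ww 1 2 (by decide)
    have a3 := F.ww 2 0 (by decide)
    rw [← hw] at a1 a2 a3
    rw [abs_mul, abs_mul, div_le_iff₀ (by positivity)]
    calc (1 : ℝ) = 1 * 1 * 1 := by norm_num
      _ ≤ (Q * |wd (w 0) (w 1)|) * (Q * |wd (w 1) (w 2)|) * (Q * |wd (w 2) (w 0)|) := by
          refine mul_le_mul (mul_le_mul a1 a2 zero_le_one (by positivity)) a3 zero_le_one
            (by positivity)
      _ = _ := by ring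
  have hdq := det_q hwn hzn hzn' hD
  rw [← hq] at hdq
  have hdq' : 1 / Q ^ 3 ≤ |q.det| := by
    have e : 42 * ((1 : ℝ) / (42 * Q ^ 3)) = 1 / Q ^ 3 := by field_simp
    rw [e] at hdq
    linarith
  have hMdet' : (Matrix.of fun l j : Fin 3 => ![R₁ / T * muG T H ep th (1, 0, 1) l,
      1 / T * muG T H ep th (1, 0, 0) l, 1 / T * muG T H ep th (0, 1, 0) l] j).det =
      -(rh T (H 0) / 2 * (rh T (H 1) / 2) * (rh T (H 2) / 2) *
      (R₁ / T * (1 / T) * (1 / T))) * q.det := by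
    rw [hq, Matrix.det_fin_three, Matrix.det_fin_three]
    simp only [Matrix.of_apply, Matrix.cons_val_zero, Matrix.cons_val_one, Matrix.cons_val,
      muG_eq F hT0, ← hw, hz]
    ring
  have hρ : ∀ l, T / 4 ≤ rh T (H l) / 2 := fun l => by linarith [F.ρ1 l]
  rw [hMdet', abs_mul, abs_neg]
  have hρρ : (T / 4) * (T / 4) * (T / 4) ≤ rh T (H 0) / 2 * (rh T (H 1) / 2) *
      (rh T (H 2) / 2) := by
    have h0 := hρ 0
    have h1 := hρ 1
    have h2 := hρ 2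
    refine mul_le_mul (mul_le_mul h0 h1 (by positivity) (by linarith)) h2 (by positivity) ?_
    exact mul_nonneg (by linarith) (by linarith)
  have hρρ0 : 0 < rh T (H 0) / 2 * (rh T (H 1) / 2) * (rh T (H 2) / 2) :=
    lt_of_lt_of_le (by positivity) hρρ
  rw [abs_of_pos (by positivity)]
  calc R₁ / (64 * Q ^ 3) = (T / 4) * (T / 4) * (T / 4) * (R₁ / T * (1 / T) * (1 / T)) *
        (1 / Q ^ 3) := by field_simp; norm_num
    _ ≤ _ := by
        refine mul_le_mul ?_ hdq' (by positivity) (by positivity)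
        exact mul_le_mul_of_nonneg_right hρρ (by positivity)

/-- lower bound for the determinant of the six vectors, general form -/
theorem det_bW (hQ : 2 ≤ Q) (hT : 1 ≤ T) (F : Fm Q T H ep th) {A : ℝ × ℝ × ℝ} (hA : A ∈ KM Q)
    {R₁ al be0 be1 : ℝ} (hR₁ : 0 < R₁) (hal : al ≠ 0) (hbe0 : be0 ≠ 0)
    (hs : ∀ l, 42 * Q ^ 3 * ‖H l‖ ^ 2 ≤ T ^ 2) :
    R₁ * |al| * |be0| / Q ^ 12 ≤
      |(Matrix.of fun i j => to6 (bW A T R₁ al be0 be1 H ep th j) i).det| := by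
  have hT0 : 0 < T := by linarith
  have hQ0 : 0 < Q := by linarith
  obtain ⟨h1, hd, hd2⟩ := km_facts (by linarith) hA
  obtain ⟨w, hw⟩ : ∃ w, w = wG T H ep th := ⟨_, rfl⟩
  have hwn : ∀ l, ‖w l‖ = 1 := by rw [hw]; exact F.hw
  obtain ⟨b, hb⟩ : ∃ b, b = bW A T R₁ al be0 be1 H ep th := ⟨_, rfl⟩
  have hbe : ∀ j, b (eJ j) = (giA A (bWF T R₁ al be0 be1 H ep th j 0),
      giA A (bWF T R₁ al be0 be1 H ep th j 1), giA A (bWF T R₁ al be0 be1 H ep th j 2)) := by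
    intro j
    rw [hb, bW, Equiv.symm_apply_apply]
  obtain ⟨M, hM⟩ : ∃ M : Matrix (Fin 3) (Fin 3) ℝ, M = Matrix.of fun l j =>
    sp (w l) (bWF T R₁ al be0 be1 H ep th (Sum.inl j) l) := ⟨_, rfl⟩
  obtain ⟨Y, hY⟩ : ∃ Y : Matrix (Fin 3) (Fin 3) ℝ, Y = Matrix.of fun l j =>
    wd (w l) (bWF T R₁ al be0 be1 H ep th (Sum.inl j) l) := ⟨_, rfl⟩
  obtain ⟨E, hE⟩ : ∃ E : Matrix (Fin 3) (Fin 3) ℝ, E = Matrix.of fun l j =>
    wd (w l) (bWF T R₁ al be0 be1 H ep th (Sum.inr j) l) := ⟨_, rfl⟩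
  have hwI : ∀ l (a : ℝ), wd (w l) ((a : ℂ) * (I * w l)) = a := by
    intro l a
    have e : (a : ℂ) * (I * w l) = (((0 : ℝ) : ℂ) + (a : ℂ) * I) * w l := by push_cast; ring
    rw [e]
    exact wd_cmp (hwn l) 0 a
  have hsI : ∀ l (a : ℝ), sp (w l) ((a : ℂ) * (I * w l)) = 0 := by
    intro l a
    have e : (a : ℂ) * (I * w l) = (((0 : ℝ) : ℂ) + (a : ℂ) * I) * w l := by push_cast; ring
    rw [e]
    exact sp_cmp (hwn l) 0 a
  have hmain := det_b h1 hd hwn b M Y E (by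
      intro l j
      rw [hbe, fL_inl h1 hd, hM]; rfl) (by
      intro l j
      rw [hbe, fL_inr h1 hd, hY]; rfl) (by
      intro l j
      rw [hbe, fL_inl h1 hd]
      fin_cases j
      · show sp (w l) (((if l = 0 then be0 else if l = 1 then be1 else 0 : ℝ) : ℂ) *
          (I * wG T H ep th l)) = 0
        rw [← hw]; exact hsI l _
      · show sp (w l) (((if l = 1 then al else 0 : ℝ) : ℂ) * (I * wG T H ep th l)) = 0
        rw [← hw]; exact hsI l _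
      · show sp (w l) (tv T H ep th 0 1 l) = 0
        rw [tv, ← hw, sp_cmp (hwn l), muG_eq F hT0]
        simp [bf]) (by
      intro l j
      rw [hbe, fL_inr h1 hd, hE]; rfl)
  -- the tangential block
  have hEdet : E.det = be0 * al := by
    have k0 : ∀ l, E l 0 = if l = 0 then be0 else if l = 1 then be1 else 0 := by
      intro l
      rw [hE, Matrix.of_apply]
      show wd (w l) (((if l = 0 then be0 else if l = 1 then be1 else 0 : ℝ) : ℂ) *
        (I * wG T H ep th l)) = _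
      rw [← hw, hwI]
    have k1 : ∀ l, E l 1 = if l = 1 then al else 0 := by
      intro l
      rw [hE, Matrix.of_apply]
      show wd (w l) (((if l = 1 then al else 0 : ℝ) : ℂ) * (I * wG T H ep th l)) = _
      rw [← hw, hwI]
    have k2 : E 2 2 = 1 := by
      rw [hE, Matrix.of_apply]
      show wd (w 2) (tv T H ep th 0 1 2) = 1
      rw [tv, ← hw, wd_cmp (hwn 2), yG, if_pos rfl]
    rw [Matrix.det_fin_three, k0, k0, k0, k1, k1, k1, k2]
    simp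
  -- the radial block
  have hMdet : R₁ / (64 * Q ^ 3) ≤ |M.det| := by
    have hMq : M = Matrix.of fun l j : Fin 3 => ![R₁ / T * muG T H ep th (1, 0, 1) l,
      1 / T * muG T H ep th (1, 0, 0) l, 1 / T * muG T H ep th (0, 1, 0) l] j := by
      ext l j
      rw [hM, Matrix.of_apply, Matrix.of_apply]
      fin_cases j
      · show sp (w l) (((R₁ / T : ℝ) : ℂ) * tv T H ep th (1, 0, 1) 0 l) = _
        rw [sp_real', tv, ← hw, sp_cmp (hwn l)]
        rfl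
      · show sp (w l) (((1 / T : ℝ) : ℂ) * tv T H ep th (1, 0, 0) 0 l) = _
        rw [sp_real', tv, ← hw, sp_cmp (hwn l)]
        rfl
      · show sp (w l) (((1 / T : ℝ) : ℂ) * tv T H ep th (0, 1, 0) 0 l) = _
        rw [sp_real', tv, ← hw, sp_cmp (hwn l)]
        rfl
    rw [hMq]
    exact det_rad hQ hT F hR₁ hs
  have hsd : Real.sqrt (disc A) ≤ Q := Real.sqrt_le_iff.2 ⟨hQ0.le, hd2⟩
  have hsd3 : Real.sqrt (disc A) ^ 3 ≤ Q ^ 3 := pow_le_pow_left₀ (Real.sqrt_nonneg _) hsd 3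
  have hsd0 : 0 < Real.sqrt (disc A) ^ 3 := by
    have := Real.sqrt_pos.2 hd
    positivity
  have habs : |M.det| * (|be0| * |al|) = Real.sqrt (disc A) ^ 3 *
      |(Matrix.of fun i j => to6 (b j) i).det| := by
    rw [hEdet] at hmain
    have := congrArg abs hmain
    rw [abs_mul, abs_mul, abs_mul, abs_of_pos hsd0] at this
    exact this
  rw [← hb]
  obtain ⟨X, hX⟩ : ∃ X, X = |(Matrix.of fun i j => to6 (b j) i).det| := ⟨_, rfl⟩
  rw [← hX] at habs ⊢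
  have hX0 : 0 ≤ X := by rw [hX]; exact abs_nonneg _
  have hba : 0 ≤ |be0| * |al| := by positivity
  have f1 : R₁ / (64 * Q ^ 3) * (|be0| * |al|) ≤ Q ^ 3 * X := by
    calc R₁ / (64 * Q ^ 3) * (|be0| * |al|) ≤ |M.det| * (|be0| * |al|) :=
          mul_le_mul_of_nonneg_right hMdet hba
      _ = Real.sqrt (disc A) ^ 3 * X := habs
      _ ≤ _ := mul_le_mul_of_nonneg_right hsd3 hX0
  have f2 : (64 : ℝ) ≤ Q ^ 6 := by
    calc (64 : ℝ) = 2 ^ 6 := by norm_num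
      _ ≤ Q ^ 6 := pow_le_pow_left₀ (by norm_num) hQ 6
  have f3 : R₁ * |al| * |be0| / Q ^ 12 ≤ R₁ * |al| * |be0| / (64 * Q ^ 6) := by
    refine div_le_div_of_nonneg_left (by positivity) (by positivity) ?_
    calc 64 * Q ^ 6 ≤ Q ^ 6 * Q ^ 6 := mul_le_mul_of_nonneg_right f2 (by positivity)
      _ = Q ^ 12 := by ring
  refine le_trans f3 ?_
  have f4 : R₁ * |al| * |be0| / (64 * Q ^ 6) = R₁ / (64 * Q ^ 3) * (|be0| * |al|) / Q ^ 3 := by
    field_simp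
  rw [f4, div_le_iff₀ (by positivity)]
  linarith

/-- DUAL STEP, general form -/
theorem dual_gen (hQ : 2 ≤ Q) (hT : 1 ≤ T) (F : Fm Q T H ep th) {A : ℝ × ℝ × ℝ} (hA : A ∈ KM Q)
    {R₁ al be0 be1 P : ℝ} (hR₁ : 0 < R₁) (hal : al ≠ 0) (hbe0 : be0 ≠ 0)
    (hs : ∀ l, 42 * Q ^ 3 * ‖H l‖ ^ 2 ≤ T ^ 2) (hP : 1 ≤ P) :
    {k : Z6 | ∀ j, |F5.H58.sp (kG A (r3 k)) (bWF T R₁ al be0 be1 H ep th j)| ≤ P}.Finite ∧
    {t : Z6 | ∃ c : I6 → ℝ, (∀ i, |c i| ≤ 1) ∧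
      r3 t = ∑ i, c i • bW A T R₁ al be0 be1 H ep th i}.Finite ∧
    ({k : Z6 | ∀ j, |F5.H58.sp (kG A (r3 k)) (bWF T R₁ al be0 be1 H ep th j)| ≤ P}.ncard : ℝ) ≤
      300 ^ 6 * P ^ 6 * (Q ^ 12 / (R₁ * |al| * |be0|)) *
      ({t : Z6 | ∃ c : I6 → ℝ, (∀ i, |c i| ≤ 1) ∧
        r3 t = ∑ i, c i • bW A T R₁ al be0 be1 H ep th i}.ncard : ℝ) := by
  have hQ0 : 0 < Q := by linarith
  obtain ⟨h1, hd, _⟩ := km_facts (by linarith) hA
  have hal' : 0 < |al| := abs_pos.2 hal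
  have hbe' : 0 < |be0| := abs_pos.2 hbe0
  obtain ⟨f1, f2, f3⟩ := dual6b (bW A T R₁ al be0 be1 H ep th)
    (D := R₁ * |al| * |be0| / Q ^ 12) (by positivity)
    (det_bW hQ hT F hA hR₁ hal hbe0 hs) (P := fun _ => P) (fun _ => hP)
  have heq : {k : Z6 | ∀ j, |F5.H58.sp (kG A (r3 k)) (bWF T R₁ al be0 be1 H ep th j)| ≤ P} =
      kb6 (bW A T R₁ al be0 be1 H ep th) (fun _ => P) := by
    ext k
    constructor
    · intro hk i
      have := hk (eJ.symm i)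
      rw [bW, dot6_gi h1 hd]
      exact this
    · intro hk j
      have := hk (eJ j)
      rw [bW, Equiv.symm_apply_apply, dot6_gi h1 hd] at this
      exact this
  rw [heq]
  refine ⟨f1, f2, le_trans f3 ?_⟩
  refine mul_le_mul_of_nonneg_right ?_ (Nat.cast_nonneg _)
  have h2 : (∏ _i : I6, (4 * P)) = 4 ^ 6 * P ^ 6 := by
    rw [Finset.prod_const]
    have : (Finset.univ : Finset I6).card = 6 := rfl
    rw [this]; ring
  rw [h2]
  have h3 : (3 * Real.exp Real.pi) ^ 6 ≤ 75 ^ 6 :=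
    pow_le_pow_left₀ (by positivity) (by linarith [exp_pi_le]) 6
  have h4 : (3 * Real.exp Real.pi) ^ 6 / (R₁ * |al| * |be0| / Q ^ 12) =
      (3 * Real.exp Real.pi) ^ 6 * (Q ^ 12 / (R₁ * |al| * |be0|)) := by
    field_simp
  rw [h4]
  calc 4 ^ 6 * P ^ 6 * ((3 * Real.exp Real.pi) ^ 6 * (Q ^ 12 / (R₁ * |al| * |be0|))) ≤
      4 ^ 6 * P ^ 6 * (75 ^ 6 * (Q ^ 12 / (R₁ * |al| * |be0|))) := by
        refine mul_le_mul_of_nonneg_left ?_ (by positivity)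
        exact mul_le_mul_of_nonneg_right h3 (by positivity)
    _ = 300 ^ 6 * P ^ 6 * (Q ^ 12 / (R₁ * |al| * |be0|)) := by
        rw [show (300 : ℝ) ^ 6 = 4 ^ 6 * 75 ^ 6 by norm_num]; ring

/-- frame components of a combination, general form -/
theorem comb_cpW {A : ℝ × ℝ × ℝ} (h1 : 0 < A.1) (hd : 0 < disc A) {R₁ al be0 be1 : ℝ}
    (c : I6 → ℝ) (l : Fin 3) :
    gA A (cp (∑ i, c i • bW A T R₁ al be0 be1 H ep th i) l) =
      ∑ j : Fin 3 ⊕ Fin 3, (c (eJ j) : ℂ) * bWF T R₁ al be0 be1 H ep th j l := by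
  have hcp : ∀ (s : Finset I6), gA A (cp (∑ i ∈ s, c i • bW A T R₁ al be0 be1 H ep th i) l) =
      ∑ i ∈ s, (c i : ℂ) * bWF T R₁ al be0 be1 H ep th (eJ.symm i) l := by
    intro s
    induction s using Finset.induction_on with
    | empty =>
      rw [Finset.sum_empty, Finset.sum_empty]
      have : cp (0 : R6) l = 0 := by fin_cases l <;> rfl
      rw [this]
      apply Complex.ext <;> simp [gA]
    | insert i s hi ih =>
      rw [Finset.sum_insert hi, Finset.sum_insert hi]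
      have e1 : ∀ x y : R6, cp (x + y) l = cp x l + cp y l := by
        intro x y; fin_cases l <;> rfl
      have e2 : ∀ (a : ℝ) (x : R6), cp (a • x) l = a • cp x l := by
        intro a x; fin_cases l <;> rfl
      rw [e1, gA_add, ih, e2, gA_smul]
      congr 2
      have e3 : cp (bW A T R₁ al be0 be1 H ep th i) l =
          giA A (bWF T R₁ al be0 be1 H ep th (eJ.symm i) l) := by
        fin_cases l <;> rfl
      rw [e3, gA_giA h1 hd]
  rw [hcp]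
  refine (Fintype.sum_equiv eJ _ _ fun j => ?_).symm
  rw [Equiv.symm_apply_apply]

/-- the integer points of the parallelepiped are in `Z`, general form -/
theorem inz_gen {A : ℝ × ℝ × ℝ} {h t : Z6} (hQ : 2 ≤ Q) (hT : 1 ≤ T) (hA : A ∈ KM Q)
    (hH : H = hG A (r3 h)) (F : Fm Q T H ep th)
    (h2l : ∀ l, l ≠ 2 → ‖H 2‖ ≤ Q ^ 2 * ‖H l‖) {R₁ al be0 be1 ω₁ ω₂ : ℝ} (hR₁ : 0 < R₁)
    (hb0 : |be0| ≤ 1) (hb1 : |al| + |be1| ≤ 1)
    (hs1 : ∀ l, R₁ * ‖H l‖ ^ 2 ≤ T ^ 2)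
    (hs2 : ∀ l, R₁ * (Q * (Rx T / T)) * ‖H l‖ * (4 * Q ^ 4) ≤ T ^ 2)
    (hω₁ : Q ^ 2 * (|be0| * ‖H 0‖) ≤ ω₁) (hω₂ : Q ^ 2 * ((|al| + |be1|) * ‖H 1‖) ≤ ω₂)
    (ht : ∃ c : I6 → ℝ, (∀ i, |c i| ≤ 1) ∧ r3 t = ∑ i, c i • bW A T R₁ al be0 be1 H ep th i) :
    InZ (Q ^ 8) ((Q * T) ^ 2) (Q * R₁) ω₁ ω₂ (gQ Q A h.1) (gQ Q A h.2.1) (gQ Q A h.2.2)
      (wG T H ep th 0) (wG T H ep th 1) (wG T H ep th 2) (rh T (H 0) / T) (rh T (H 1) / T)
      (rh T (H 2) / T) (gQ Q A t.1) (gQ Q A t.2.1) (gQ Q A t.2.2) := by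
  obtain ⟨h1, hd, _⟩ := km_facts (by linarith) hA
  obtain ⟨c, hc, hr⟩ := ht
  have hT0 : 0 < T := by linarith
  have hQ0 : 0 < Q := by linarith
  obtain ⟨v, hv⟩ : ∃ v : Fin 3 → ℂ, v = fun l => gA A (cp (r3 t) l) := ⟨_, rfl⟩
  have hc0 := hc (eJ (Sum.inl 0))
  have hc1 := hc (eJ (Sum.inl 1))
  have hc2 := hc (eJ (Sum.inl 2))
  have hc3 := hc (eJ (Sum.inr 0))
  have hc4 := hc (eJ (Sum.inr 1))
  have hc5 := hc (eJ (Sum.inr 2))
  obtain ⟨x0, hx0⟩ : ∃ x, x = c (eJ (Sum.inl 0)) := ⟨_, rfl⟩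
  obtain ⟨x1, hx1⟩ : ∃ x, x = c (eJ (Sum.inl 1)) := ⟨_, rfl⟩
  obtain ⟨x2, hx2⟩ : ∃ x, x = c (eJ (Sum.inl 2)) := ⟨_, rfl⟩
  obtain ⟨x3, hx3⟩ : ∃ x, x = c (eJ (Sum.inr 0)) := ⟨_, rfl⟩
  obtain ⟨x4, hx4⟩ : ∃ x, x = c (eJ (Sum.inr 1)) := ⟨_, rfl⟩
  obtain ⟨x5, hx5⟩ : ∃ x, x = c (eJ (Sum.inr 2)) := ⟨_, rfl⟩
  rw [← hx0] at hc0
  rw [← hx1] at hc1
  rw [← hx2] at hc2
  rw [← hx3] at hc3
  rw [← hx4] at hc4
  rw [← hx5] at hc5
  have h3k : |x3 * be0| ≤ |be0| := by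
    rw [abs_mul]
    calc |x3| * |be0| ≤ 1 * |be0| := mul_le_mul_of_nonneg_right hc3 (abs_nonneg _)
      _ = _ := one_mul _
  have h4k : |x4 * al + x3 * be1| ≤ |al| + |be1| := by
    refine le_trans (abs_add_le _ _) ?_
    rw [abs_mul, abs_mul]
    have a1 : |x4| * |al| ≤ 1 * |al| := mul_le_mul_of_nonneg_right hc4 (abs_nonneg _)
    have a2 : |x3| * |be1| ≤ 1 * |be1| := mul_le_mul_of_nonneg_right hc3 (abs_nonneg _)
    linarith
  have key := inz_of (Q := Q) (T := T) (H := H) (ep := ep) (th := th) hQ hT F h2l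
    (R₁ := R₁) (a := x0 * (R₁ / T)) (b := x1 * (1 / T)) (c := x2 * (1 / T)) (d := x5)
    (d₀ := x3 * be0) (d₁ := x4 * al + x3 * be1) (ω₁ := ω₁) (ω₂ := ω₂) (by
      rw [abs_mul, abs_of_pos (by positivity : 0 < R₁ / T)]
      calc |x0| * (R₁ / T) * T = |x0| * R₁ := by field_simp
        _ ≤ 1 * R₁ := mul_le_mul_of_nonneg_right hc0 hR₁.le
        _ = R₁ := one_mul _) (by
      rw [abs_mul, abs_of_pos (by positivity : 0 < 1 / T)]
      calc |x1| * (1 / T) * T = |x1| := by field_simp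
        _ ≤ 1 := hc1) (by
      rw [abs_mul, abs_of_pos (by positivity : 0 < 1 / T)]
      calc |x2| * (1 / T) * T = |x2| := by field_simp
        _ ≤ 1 := hc2) hc5 (le_trans h3k hb0) (le_trans h4k hb1) hs1 hs2 (by
      refine le_trans ?_ hω₁
      refine mul_le_mul_of_nonneg_left ?_ (by positivity)
      exact mul_le_mul_of_nonneg_right h3k (norm_nonneg _)) (by
      refine le_trans ?_ hω₂
      refine mul_le_mul_of_nonneg_left ?_ (by positivity)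
      exact mul_le_mul_of_nonneg_right h4k (norm_nonneg _)) v (by
      intro l
      rw [hv]
      simp only
      rw [hr, comb_cpW h1 hd, Fintype.sum_sum_type, Fin.sum_univ_three, Fin.sum_univ_three,
        ← tv_comb, ← hx0, ← hx1, ← hx2, ← hx3, ← hx4, ← hx5]
      show (x0 : ℂ) * (((R₁ / T : ℝ) : ℂ) * tv T H ep th (1, 0, 1) 0 l) +
          (x1 : ℂ) * (((1 / T : ℝ) : ℂ) * tv T H ep th (1, 0, 0) 0 l) +
          (x2 : ℂ) * (((1 / T : ℝ) : ℂ) * tv T H ep th (0, 1, 0) 0 l) +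
          ((x3 : ℂ) * (((if l = 0 then be0 else if l = 1 then be1 else 0 : ℝ) : ℂ) *
            (I * wG T H ep th l)) +
          (x4 : ℂ) * (((if l = 1 then al else 0 : ℝ) : ℂ) *
            (I * wG T H ep th l)) +
          (x5 : ℂ) * tv T H ep th 0 1 l) = _
      have e2 : ((if l = 0 then x3 * be0 else if l = 1 then x4 * al + x3 * be1 else 0 : ℝ) : ℂ) =
          (x3 : ℂ) * ((if l = 0 then be0 else if l = 1 then be1 else 0 : ℝ) : ℂ) +
          (x4 : ℂ) * ((if l = 1 then al else 0 : ℝ) : ℂ) := by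
        fin_cases l <;> simp
        ring
      rw [e2]
      push_cast
      ring)
  rw [hv, hH] at key
  rw [hH]
  exact key

end six

/-! ### measure step -/

/-- the set of `KCAt` -/
def SK (T Q : ℝ) (A : ℝ × ℝ × ℝ) (V : Fin 3 → ℝ) (k0 del : ℝ) (s : Bool × Bool) (h k : Z6) :
    Set ℝ :=
  {th : ℝ | th ∈ Set.Ioc (-Real.pi) Real.pi ∧
      (∀ l, V l ≤ Q * ‖hG A (r3 h) l‖ ∧ ‖hG A (r3 h) l‖ ≤ Q * V l) ∧
      Gd Q T (hG A (r3 h)) (sg s) th ∧ ‖r3 k‖ ≤ Q * k0 ∧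
      BD T Q (Q / k0) (fun l => Q * V l) (hG A (r3 h)) (sg s) th (kG A (r3 k)) ∧
      |kph T (hG A (r3 h)) (sg s) th (kG A (r3 k))| ≤ Q * (del * k0 * V 0 ^ 2)}

theorem meas_kph {T : ℝ} {H : Fin 3 → ℂ} {ep : Fin 3 → ℝ} (K : Fin 3 → ℂ) :
    Measurable fun th => kph T H ep th K := by
  unfold kph
  refine Finset.measurable_fun_sum _ fun l _ => ?_
  simp only [sp_eq]
  exact ((meas_sp measurable_const (meas_wG l)).mul measurable_const).sub
    (((meas_sp measurable_const (measurable_const.mul (meas_wG l))).mul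
      ((meas_tG 2).div (meas_nG l))).mul measurable_const)

theorem meas_SK (T Q : ℝ) (A : ℝ × ℝ × ℝ) (V : Fin 3 → ℝ) (k0 del : ℝ) (s : Bool × Bool)
    (h k : Z6) : MeasurableSet (SK T Q A V k0 del s h k) := by
  have e : SK T Q A V k0 del s h k =
      {th : ℝ | th ∈ Set.Ioc (-Real.pi) Real.pi ∧ Cd T Q A V k0 s h k th} ∩
      {th : ℝ | |kph T (hG A (r3 h)) (sg s) th (kG A (r3 k))| ≤ Q * (del * k0 * V 0 ^ 2)} := by
    ext th
    constructor
    · rintro ⟨a1, a2, a3, a4, a5, a6⟩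
      exact ⟨⟨a1, a2, a3, a4, a5⟩, a6⟩
    · rintro ⟨⟨a1, a2, a3, a4, a5⟩, a6⟩
      exact ⟨a1, a2, a3, a4, a5, a6⟩
  rw [e]
  exact (meas_Cd T Q A V k0 s h k).inter
    (measurableSet_le (continuous_abs.measurable.comp (meas_kph _)) measurable_const)

/-- MEASURE STEP.  `Tt i h t` are arbitrary sets. -/
theorem kcat_of {T Q : ℝ} {A : ℝ × ℝ × ℝ} {V : Fin 3 → ℝ} {k0 del : ℝ} {s : Bool × Bool}
    (𝓗 : Finset Z6) (h𝓗 : ∀ h k : Z6, (SK T Q A V k0 del s h k).Nonempty → h ∈ 𝓗)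
    {ι : Type*} (J : Finset ι) (C B : ι → ℝ) (hC : ∀ i ∈ J, 0 ≤ C i) (hB : ∀ i ∈ J, 0 ≤ B i)
    (𝓥 : Finset Z6) (Tt : ι → Z6 → Z6 → Set ℝ)
    (hpt : ∀ h ∈ 𝓗, ∀ th, ∑' k : Z6, (if k = 0 then 0 else
      (SK T Q A V k0 del s h k).indicator (fun _ => (1 : ENNReal)) th) ≤
        ∑ i ∈ J, ENNReal.ofReal (C i) * ∑ t ∈ 𝓥, (Tt i h t).indicator (fun _ => (1 : ENNReal)) th)
    (hBd : ∀ i ∈ J, ∑ h ∈ 𝓗, ∑ t ∈ 𝓥, volume (Tt i h t) ≤ ENNReal.ofReal (B i)) :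
    KCAt T Q A V k0 del s (∑ i ∈ J, C i * B i) := by
  classical
  have hone : ∀ h ∈ 𝓗, ∑' k : Z6, (if k = 0 then 0 else volume (SK T Q A V k0 del s h k)) ≤
      ∑ i ∈ J, ENNReal.ofReal (C i) * ∑ t ∈ 𝓥, volume (Tt i h t) := by
    intro h hh
    obtain ⟨S, hS⟩ : ∃ S : Z6 → Set ℝ, S = fun k => if k = 0 then ∅ else
      SK T Q A V k0 del s h k := ⟨_, rfl⟩
    have hSm : ∀ k, MeasurableSet (S k) := by
      intro k
      rw [hS]
      by_cases hk : k = 0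
      · simp only [if_pos hk]; exact MeasurableSet.empty
      · simp only [if_neg hk]; exact meas_SK T Q A V k0 del s h k
    have e1 : ∑' k : Z6, (if k = 0 then 0 else volume (SK T Q A V k0 del s h k)) =
        ∑' k, volume (S k) := by
      refine tsum_congr fun k => ?_
      rw [hS]
      by_cases hk : k = 0
      · simp only [if_pos hk, measure_empty]
      · simp only [if_neg hk]
    have e2 : ∀ th, ∑' k : Z6, (if k = 0 then 0 else
      (SK T Q A V k0 del s h k).indicator (fun _ => (1 : ENNReal)) th) =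
        ∑' k, (S k).indicator (fun _ => (1 : ENNReal)) th := by
      intro th
      refine tsum_congr fun k => ?_
      rw [hS]
      by_cases hk : k = 0
      · simp only [if_pos hk, Set.indicator_empty]
      · simp only [if_neg hk]
    have h1 : ∑' k, volume (S k) =
        ∫⁻ θ, ∑' k, (S k).indicator (fun _ => (1 : ENNReal)) θ := by
      rw [lintegral_tsum fun k => (measurable_const.indicator (hSm k)).aemeasurable]
      refine tsum_congr fun k => ?_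
      rw [lintegral_indicator_const (hSm k), one_mul]
    have h2 : ∫⁻ θ, ∑' k, (S k).indicator (fun _ => (1 : ENNReal)) θ ≤
        ∫⁻ θ, ∑ i ∈ J, ENNReal.ofReal (C i) * ∑ t ∈ 𝓥,
          (toMeasurable volume (Tt i h t)).indicator (fun _ => (1 : ENNReal)) θ := by
      refine lintegral_mono fun θ => ?_
      rw [← e2]
      refine le_trans (hpt h hh θ) (Finset.sum_le_sum fun i _ => ?_)
      refine mul_le_mul_right (Finset.sum_le_sum fun t _ => ?_) _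
      exact Set.indicator_le_indicator_of_subset (subset_toMeasurable _ _)
        (fun _ => zero_le_one) θ
    have hm : ∀ i, Measurable fun θ => ∑ t ∈ 𝓥,
        (toMeasurable volume (Tt i h t)).indicator (fun _ => (1 : ENNReal)) θ := fun i =>
      Finset.measurable_fun_sum _ fun t _ =>
        measurable_const.indicator (measurableSet_toMeasurable _ _)
    have h3 : ∫⁻ θ, ∑ i ∈ J, ENNReal.ofReal (C i) * ∑ t ∈ 𝓥,
          (toMeasurable volume (Tt i h t)).indicator (fun _ => (1 : ENNReal)) θ =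
        ∑ i ∈ J, ENNReal.ofReal (C i) * ∑ t ∈ 𝓥, volume (Tt i h t) := by
      rw [lintegral_finsetSum _ fun i _ => (hm i).const_mul _]
      refine Finset.sum_congr rfl fun i _ => ?_
      rw [lintegral_const_mul _ (hm i), lintegral_finsetSum _ fun t _ =>
        measurable_const.indicator (measurableSet_toMeasurable _ _)]
      congr 1
      refine Finset.sum_congr rfl fun t _ => ?_
      rw [lintegral_indicator_const (measurableSet_toMeasurable _ _), one_mul,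
        measure_toMeasurable]
    rw [e1, h1]
    exact le_trans h2 (le_of_eq h3)
  have hzero : ∀ h : Z6, h ∉ 𝓗 →
      ∑' k : Z6, (if k = 0 then 0 else volume (SK T Q A V k0 del s h k)) = 0 := by
    intro h hh
    rw [ENNReal.tsum_eq_zero]
    intro k
    split_ifs
    · rfl
    · have : SK T Q A V k0 del s h k = ∅ := by
        by_contra hne
        exact hh (h𝓗 h k (Set.nonempty_iff_ne_empty.2 hne))
      rw [this, measure_empty]
  unfold KCAt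
  show ∑' h : Z6, ∑' k : Z6, (if k = 0 then 0 else volume (SK T Q A V k0 del s h k)) ≤ _
  rw [tsum_eq_sum (s := 𝓗) fun h hh => hzero h hh]
  refine le_trans (Finset.sum_le_sum hone) ?_
  rw [Finset.sum_comm]
  have h4 : ∀ i ∈ J, ∑ h ∈ 𝓗, ENNReal.ofReal (C i) * ∑ t ∈ 𝓥, volume (Tt i h t) ≤
      ENNReal.ofReal (C i * B i) := by
    intro i hi
    rw [← Finset.mul_sum, ENNReal.ofReal_mul (hC i hi)]
    exact mul_le_mul_right (hBd i hi) _
  refine le_trans (Finset.sum_le_sum h4) ?_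
  rw [ENNReal.ofReal_sum_of_nonneg fun i hi => mul_nonneg (hC i hi) (hB i hi)]

/-- from a count to the indicator form of `hpt` -/
theorem hpt_of {T Q : ℝ} {A : ℝ × ℝ × ℝ} {V : Fin 3 → ℝ} {k0 del : ℝ} {s : Bool × Bool}
    {h : Z6} {th : ℝ} {ι : Type*} {J : Finset ι} {C : ι → ℝ} {𝓥 : Finset Z6}
    {Tt : ι → Z6 → Z6 → Set ℝ} (hC : ∀ i ∈ J, 0 ≤ C i)
    (hc : ∀ 𝓚 : Finset Z6, (∀ k ∈ 𝓚, k ≠ 0 ∧ th ∈ SK T Q A V k0 del s h k) →
      ∃ N : ι → ℕ, (𝓚.card : ℝ) ≤ ∑ i ∈ J, C i * (N i : ℝ) ∧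
        ∀ i ∈ J, ∃ 𝓣 : Finset Z6, 𝓣 ⊆ 𝓥 ∧ (∀ t ∈ 𝓣, th ∈ Tt i h t) ∧ N i ≤ 𝓣.card) :
    ∑' k : Z6, (if k = 0 then 0 else
      (SK T Q A V k0 del s h k).indicator (fun _ => (1 : ENNReal)) th) ≤
        ∑ i ∈ J, ENNReal.ofReal (C i) *
          ∑ t ∈ 𝓥, (Tt i h t).indicator (fun _ => (1 : ENNReal)) th := by
  classical
  rw [ENNReal.tsum_eq_iSup_sum]
  refine iSup_le fun 𝓚' => ?_
  obtain ⟨𝓚, h𝓚⟩ : ∃ 𝓚, 𝓚 = 𝓚'.filter (fun k => k ≠ 0 ∧ th ∈ SK T Q A V k0 del s h k) :=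
    ⟨_, rfl⟩
  have h1 : ∑ k ∈ 𝓚', (if k = 0 then 0 else
      (SK T Q A V k0 del s h k).indicator (fun _ => (1 : ENNReal)) th) = (𝓚.card : ENNReal) := by
    rw [h𝓚, Finset.card_filter, Nat.cast_sum]
    refine Finset.sum_congr rfl fun k _ => ?_
    by_cases hk : k = 0
    · simp [hk]
    · by_cases ht : th ∈ SK T Q A V k0 del s h k
      · simp [hk, ht]
      · simp [hk, ht]
  rw [h1]
  obtain ⟨N, hN, hN2⟩ := hc 𝓚 (by
    intro k hk
    rw [h𝓚, Finset.mem_filter] at hk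
    exact hk.2)
  calc ((𝓚.card : ENNReal)) = ENNReal.ofReal (𝓚.card : ℝ) := (ENNReal.ofReal_natCast _).symm
    _ ≤ ENNReal.ofReal (∑ i ∈ J, C i * (N i : ℝ)) := ENNReal.ofReal_le_ofReal hN
    _ = ∑ i ∈ J, ENNReal.ofReal (C i) * (N i : ENNReal) := by
        rw [ENNReal.ofReal_sum_of_nonneg fun i hi => mul_nonneg (hC i hi) (Nat.cast_nonneg _)]
        refine Finset.sum_congr rfl fun i hi => ?_
        rw [ENNReal.ofReal_mul (hC i hi), ENNReal.ofReal_natCast]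
    _ ≤ _ := by
        refine Finset.sum_le_sum fun i hi => mul_le_mul_right ?_ _
        obtain ⟨𝓣, h𝓣, ht, hc⟩ := hN2 i hi
        calc ((N i : ENNReal)) ≤ (𝓣.card : ENNReal) := by exact_mod_cast hc
          _ = ∑ t ∈ 𝓣, (1 : ENNReal) := by simp
          _ = ∑ t ∈ 𝓣, (Tt i h t).indicator (fun _ => (1 : ENNReal)) th := by
              refine Finset.sum_congr rfl fun t htt => ?_
              rw [Set.indicator_of_mem (ht t htt)]
          _ ≤ _ := Finset.sum_le_sum_of_subset h𝓣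

end Pool.Agent.Helper68_F5
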