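import Pool.Agent.Helper68_F5.Kc2g

/-!
MP_f5cbfa_nt, block C, row C_KC1: the K-count `KC1Stmt`.
-/

set_option autoImplicit false

open MeasureTheory Matrix Complex ComplexConjugate

namespace Pool.Agent.Helper68_F5

open Pool.Agent.BTL Pool.Agent.F5S Pool.Agent.F5H Pool.Agent.F5H.BC Pool.Agent.Helper96_GN

/-- `1 ≤ T` from a size -/
theorem T_ge {T Q V : ℝ} {c : ℕ} (hQ : 2 ≤ Q) (hQT : Q ^ c ≤ T ^ (1 / 100000 : ℝ)) (hV : 1 ≤ V)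
    (hV0 : V ≤ Q * Lx T) : 1 ≤ T := by
  have hL : 0 < Lx T := by
    by_contra h
    have : Q * Lx T ≤ 0 := mul_nonpos_of_nonneg_of_nonpos (by linarith) (not_lt.1 h)
    linarith
  have hT0 : 0 < T := by
    by_contra h
    rw [not_lt] at h
    rcases eq_or_lt_of_le h with h0 | h0
    · rw [Lx, h0, Real.zero_rpow (by norm_num)] at hL
      exact lt_irrefl _ hL
    · rw [Lx, Real.rpow_def_of_neg h0] at hL
      have h1 : Real.cos (277 / 500 * Real.pi) < 0 := by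
        refine Real.cos_neg_of_pi_div_two_lt_of_lt ?_ ?_
        · nlinarith [Real.pi_pos]
        · nlinarith [Real.pi_pos]
      have h2 := mul_neg_of_pos_of_neg (Real.exp_pos (Real.log T * (277 / 500))) h1
      linarith
  by_contra h
  rw [not_le] at h
  have h1 : T ^ (1 / 100000 : ℝ) < 1 := Real.rpow_lt_one hT0.le h (by norm_num)
  have h2 : 1 ≤ Q ^ c := one_le_pow₀ (by linarith)
  linarith

/-- the pointwise count -/
theorem pointwise {T Q : ℝ} {A : ℝ × ℝ × ℝ} {V : Fin 3 → ℝ} {k0 : ℝ} {s : Bool × Bool} {h : Z6}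
    (hQ : 2 ≤ Q) (hT : 1 ≤ T) (hQT : Q ^ 1000 ≤ T ^ (1 / 100000 : ℝ)) (hA : A ∈ KM Q)
    (hV2 : 1 ≤ V 2) (h21 : V 2 ≤ V 1) (h10 : V 1 ≤ V 0) (hV0 : V 0 ≤ Q * Lx T) (hk0 : 1 ≤ k0)
    (hkV : k0 ≤ V 0) {R₁ m₁ : ℝ} (hR₁ : 1 ≤ R₁) (hRk : R₁ ≤ k0) (hm₁ : m₁ = min k0 (V 1))
    (𝓥 : Finset T3)
    (h𝓥 : ∀ t : T3, (Hit (Q ^ 8) ((Q * T) ^ 2) 0 (Q ^ 2 * (Rx T / T)) (Q * R₁) (Q ^ 3 * V 0 / k0)
      (Q ^ 3 * V 1 / m₁) (gQ Q A h.1) (gQ Q A h.2.1) (gQ Q A h.2.2) (gQ Q A t.1) (gQ Q A t.2.1)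
      (gQ Q A t.2.2)).Nonempty → t ∈ 𝓥) (θ : ℝ) :
    ∑' k : Z6, ({th : ℝ | th ∈ Set.Ioc (-Real.pi) Real.pi ∧ Cd T Q A V k0 s h k th}).indicator
        (fun _ => (1 : ENNReal)) θ ≤
      ENNReal.ofReal (300 ^ 6 * Q ^ 30 * (k0 * m₁ / R₁)) *
        ∑ t ∈ 𝓥, (Hit (Q ^ 8) ((Q * T) ^ 2) 0 (Q ^ 2 * (Rx T / T)) (Q * R₁) (Q ^ 3 * V 0 / k0)
          (Q ^ 3 * V 1 / m₁) (gQ Q A h.1) (gQ Q A h.2.1) (gQ Q A h.2.2) (gQ Q A t.1)
          (gQ Q A t.2.1) (gQ Q A t.2.2)).indicator (fun _ => (1 : ENNReal)) θ := by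
  classical
  have hT0 : 0 < T := by linarith
  have hQ0 : 0 < Q := by linarith
  have hQ1 : 1 ≤ Q := by linarith
  have hV1 : 1 ≤ V 1 := by linarith
  have hm1 : 1 ≤ m₁ := by rw [hm₁]; exact le_min hk0 hV1
  obtain ⟨𝓚, h𝓚⟩ : ∃ 𝓚 : Set Z6, 𝓚 = {k | θ ∈ Set.Ioc (-Real.pi) Real.pi ∧
    Cd T Q A V k0 s h k θ} := ⟨_, rfl⟩
  have hind : ∀ k : Z6, ({th : ℝ | th ∈ Set.Ioc (-Real.pi) Real.pi ∧
      Cd T Q A V k0 s h k th}).indicator (fun _ => (1 : ENNReal)) θ =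
      𝓚.indicator (fun _ => (1 : ENNReal)) k := by
    intro k
    by_cases hk : θ ∈ Set.Ioc (-Real.pi) Real.pi ∧ Cd T Q A V k0 s h k θ
    · rw [Set.indicator_of_mem (show θ ∈ {th : ℝ | th ∈ Set.Ioc (-Real.pi) Real.pi ∧
        Cd T Q A V k0 s h k th} from hk), Set.indicator_of_mem (by rw [h𝓚]; exact hk)]
    · rw [Set.indicator_of_notMem (show θ ∉ {th : ℝ | th ∈ Set.Ioc (-Real.pi) Real.pi ∧
        Cd T Q A V k0 s h k th} from hk), Set.indicator_of_notMem (by rw [h𝓚]; exact hk)]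
  simp only [hind]
  by_cases hne : 𝓚.Nonempty
  swap
  · rw [Set.not_nonempty_iff_eq_empty] at hne
    rw [hne]
    simp
  obtain ⟨k₁, hk₁⟩ := hne
  rw [h𝓚] at hk₁
  have hθ := hk₁.1
  have hsz := hk₁.2.1
  have hGd := hk₁.2.2.1
  have F := fm hT hQ hQT (by
    intro l
    fin_cases l
    · show (if s.1 then (1 : ℝ) else -1) ^ 2 = 1
      split_ifs <;> norm_num
    · show (if s.2 then (1 : ℝ) else -1) ^ 2 = 1
      split_ifs <;> norm_num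
    · show (1 : ℝ) ^ 2 = 1
      norm_num) hGd
  have hLx0 : 0 ≤ Lx T := by rw [Lx]; positivity
  have hR₁L : R₁ ≤ Q * Lx T := by linarith
  -- numerical conditions
  have hd : ∀ l, 42 * Q ^ 3 * ‖hG A (r3 h) l‖ ^ 2 ≤ T ^ 2 := by
    intro l
    have h1 := pow_le_pow_left₀ (norm_nonneg _) (F.H2 l) 2
    have h2 := qt hT hQ1 hQT (m := 11) (by norm_num) (a := 277 / 250) (b := 2) (by norm_num)
    have h3 : Lx T ^ 2 = T ^ (277 / 250 : ℝ) := by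
      rw [Lx, ← Real.rpow_natCast, ← Real.rpow_mul hT0.le]; norm_num
    have h4 : (42 : ℝ) ≤ Q ^ 6 := by
      calc (42 : ℝ) ≤ 2 ^ 6 := by norm_num
        _ ≤ Q ^ 6 := pow_le_pow_left₀ (by norm_num) hQ 6
    have h5 : T ^ (2 : ℝ) = T ^ 2 := by rw [← Real.rpow_natCast]; norm_num
    rw [h5] at h2
    calc 42 * Q ^ 3 * ‖hG A (r3 h) l‖ ^ 2 ≤ Q ^ 6 * Q ^ 3 * (Q * Lx T) ^ 2 := by
          refine mul_le_mul ?_ h1 (by positivity) (by positivity)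
          exact mul_le_mul_of_nonneg_right h4 (by positivity)
      _ = Q ^ 11 * T ^ (277 / 250 : ℝ) := by rw [mul_pow, h3]; ring
      _ ≤ T ^ 2 := h2
  have hs1 : ∀ l, R₁ * ‖hG A (r3 h) l‖ ^ 2 ≤ T ^ 2 := by
    intro l
    have h1 := pow_le_pow_left₀ (norm_nonneg _) (F.H2 l) 2
    have h2 := qt hT hQ1 hQT (m := 3) (by norm_num) (a := 831 / 500) (b := 2) (by norm_num)
    have h3 : Lx T ^ 3 = T ^ (831 / 500 : ℝ) := by
      rw [Lx, ← Real.rpow_natCast, ← Real.rpow_mul hT0.le]; norm_num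
    have h5 : T ^ (2 : ℝ) = T ^ 2 := by rw [← Real.rpow_natCast]; norm_num
    rw [h5] at h2
    calc R₁ * ‖hG A (r3 h) l‖ ^ 2 ≤ (Q * Lx T) * (Q * Lx T) ^ 2 :=
          mul_le_mul hR₁L h1 (by positivity) (by positivity)
      _ = Q ^ 3 * Lx T ^ 3 := by ring
      _ ≤ T ^ 2 := by rw [h3]; exact h2
  have hs2 : ∀ l, R₁ * (Q * (Rx T / T)) * ‖hG A (r3 h) l‖ * (4 * Q ^ 4) ≤ T ^ 2 := by
    intro l
    have h1 := F.H2 l
    have h2 := qt hT hQ1 hQT (m := 9) (by norm_num) (a := 723 / 500 + 2 * rho0) (b := 2)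
      (by linarith [rho0_small])
    have h3 : Lx T * (Rx T / T) * Lx T = T ^ (723 / 500 + 2 * rho0 : ℝ) := by
      rw [Rx_div hT0, Lx, ← Real.rpow_add hT0, ← Real.rpow_add hT0]
      congr 1
      ring
    have h4 : (4 : ℝ) ≤ Q ^ 2 := by nlinarith
    have h5 : T ^ (2 : ℝ) = T ^ 2 := by rw [← Real.rpow_natCast]; norm_num
    have h6 : 0 ≤ Rx T / T := by rw [Rx_div hT0]; positivity
    rw [h5] at h2
    calc R₁ * (Q * (Rx T / T)) * ‖hG A (r3 h) l‖ * (4 * Q ^ 4) ≤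
        (Q * Lx T) * (Q * (Rx T / T)) * (Q * Lx T) * (Q ^ 2 * Q ^ 4) := by
          have h7 : R₁ * (Q * (Rx T / T)) ≤ (Q * Lx T) * (Q * (Rx T / T)) :=
            mul_le_mul_of_nonneg_right hR₁L (by positivity)
          have h8 : 4 * Q ^ 4 ≤ Q ^ 2 * Q ^ 4 := mul_le_mul_of_nonneg_right h4 (by positivity)
          exact mul_le_mul (mul_le_mul h7 h1 (norm_nonneg _) (by positivity)) h8 (by positivity)
            (by positivity)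
      _ = Q ^ 9 * (Lx T * (Rx T / T) * Lx T) := by ring
      _ ≤ T ^ 2 := by rw [h3]; exact h2
  have hdet := det_bV (R₁ := R₁) (m₀ := k0) (m₁ := m₁) hQ hT F hA (by linarith) (by linarith)
    (by linarith) hd
  obtain ⟨f1, f2, f3⟩ := dual6b (bV A T R₁ k0 m₁ (hG A (r3 h)) (sg s) θ)
    (D := R₁ / (Q ^ 12 * (k0 * m₁))) (by positivity) hdet (P := fun _ => Q ^ 3)
    (fun _ => one_le_pow₀ hQ1)
  have hsub : 𝓚 ⊆ kb6 (bV A T R₁ k0 m₁ (hG A (r3 h)) (sg s) θ) (fun _ => Q ^ 3) := by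
    intro k hk
    rw [h𝓚] at hk
    exact Cd.kb hQ hT hA F (by linarith) (by linarith) hRk hm₁ (by linarith) hk.2
  have hfin : 𝓚.Finite := f1.subset hsub
  obtain ⟨Z, hZ⟩ : ∃ Z : Set Z6, Z = {t : Z6 | ∃ c : I6 → ℝ, (∀ i, |c i| ≤ 1) ∧
    r3 t = ∑ i, c i • bV A T R₁ k0 m₁ (hG A (r3 h)) (sg s) θ i} := ⟨_, rfl⟩
  rw [← hZ] at f2 f3
  obtain ⟨Ht, hHt⟩ : ∃ Ht : T3 → Set ℝ, Ht = fun t => Hit (Q ^ 8) ((Q * T) ^ 2) 0
    (Q ^ 2 * (Rx T / T)) (Q * R₁) (Q ^ 3 * V 0 / k0) (Q ^ 3 * V 1 / m₁) (gQ Q A h.1)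
    (gQ Q A h.2.1) (gQ Q A h.2.2) (gQ Q A t.1) (gQ Q A t.2.1) (gQ Q A t.2.2) := ⟨_, rfl⟩
  have hZH : ∀ t ∈ Z, θ ∈ Ht t := by
    intro t ht
    rw [hZ] at ht
    rw [hHt]
    exact hit_of hQ hT hA F hθ (by linarith) hk0 hm1 hsz h21 h10 hs1 hs2 ht
  have hZ𝓥 : (f2.toFinset : Finset T3) ⊆ 𝓥.filter (fun t => θ ∈ Ht t) := by
    intro t ht
    rw [Set.Finite.mem_toFinset] at ht
    rw [Finset.mem_filter]
    have h1 := hZH t ht
    refine ⟨h𝓥 t ⟨θ, ?_⟩, h1⟩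
    rw [hHt] at h1
    exact h1
  have hR : (Z.ncard : ENNReal) ≤ ∑ t ∈ 𝓥, (Ht t).indicator (fun _ => (1 : ENNReal)) θ := by
    have h1 : Z.ncard ≤ (𝓥.filter (fun t => θ ∈ Ht t)).card := by
      rw [Set.ncard_eq_toFinset_card Z f2]
      exact Finset.card_le_card hZ𝓥
    have h2 : ∑ t ∈ 𝓥, (Ht t).indicator (fun _ => (1 : ENNReal)) θ =
        ((𝓥.filter (fun t => θ ∈ Ht t)).card : ENNReal) := by
      rw [Finset.card_filter, Nat.cast_sum]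
      refine Finset.sum_congr rfl fun t _ => ?_
      by_cases ht : θ ∈ Ht t
      · rw [Set.indicator_of_mem ht, if_pos ht, Nat.cast_one]
      · rw [Set.indicator_of_notMem ht, if_neg ht, Nat.cast_zero]
    rw [h2]
    exact_mod_cast h1
  have hL : ∑' k : Z6, 𝓚.indicator (fun _ => (1 : ENNReal)) k ≤ (𝓚.ncard : ENNReal) := by
    rw [tsum_eq_sum (s := hfin.toFinset) (by
      intro k hk
      rw [Set.Finite.mem_toFinset] at hk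
      exact Set.indicator_of_notMem hk _), Set.ncard_eq_toFinset_card 𝓚 hfin,
      Finset.card_eq_sum_ones, Nat.cast_sum]
    refine Finset.sum_le_sum fun k _ => ?_
    rw [Nat.cast_one]
    exact Set.indicator_apply_le' (fun _ => le_rfl) (fun _ => zero_le_one)
  refine le_trans hL ?_
  have hcard : (𝓚.ncard : ℝ) ≤ 300 ^ 6 * Q ^ 30 * (k0 * m₁ / R₁) * (Z.ncard : ℝ) := by
    have h1 : (𝓚.ncard : ℝ) ≤
        ((kb6 (bV A T R₁ k0 m₁ (hG A (r3 h)) (sg s) θ) (fun _ => Q ^ 3)).ncard : ℝ) := by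
      exact_mod_cast Set.ncard_le_ncard hsub f1
    refine le_trans (le_trans h1 f3) ?_
    refine mul_le_mul_of_nonneg_right ?_ (Nat.cast_nonneg _)
    have h2 : (∏ _i : I6, (4 * Q ^ 3)) = 4 ^ 6 * Q ^ 18 := by
      rw [Finset.prod_const]
      have : (Finset.univ : Finset I6).card = 6 := rfl
      rw [this]; ring
    rw [h2]
    have h3 : (3 * Real.exp Real.pi) ^ 6 ≤ 75 ^ 6 :=
      pow_le_pow_left₀ (by positivity) (by linarith [exp_pi_le]) 6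
    have h4 : (3 * Real.exp Real.pi) ^ 6 / (R₁ / (Q ^ 12 * (k0 * m₁))) =
        (3 * Real.exp Real.pi) ^ 6 * (Q ^ 12 * (k0 * m₁ / R₁)) := by
      field_simp
    rw [h4]
    calc 4 ^ 6 * Q ^ 18 * ((3 * Real.exp Real.pi) ^ 6 * (Q ^ 12 * (k0 * m₁ / R₁))) ≤
        4 ^ 6 * Q ^ 18 * (75 ^ 6 * (Q ^ 12 * (k0 * m₁ / R₁))) := by
          refine mul_le_mul_of_nonneg_left ?_ (by positivity)
          exact mul_le_mul_of_nonneg_right h3 (by positivity)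
      _ = 300 ^ 6 * Q ^ 30 * (k0 * m₁ / R₁) := by
          rw [show (300 : ℝ) ^ 6 = 4 ^ 6 * 75 ^ 6 by norm_num]; ring
  calc ((𝓚.ncard : ENNReal)) = ENNReal.ofReal (𝓚.ncard : ℝ) := (ENNReal.ofReal_natCast _).symm
    _ ≤ ENNReal.ofReal (300 ^ 6 * Q ^ 30 * (k0 * m₁ / R₁) * (Z.ncard : ℝ)) :=
        ENNReal.ofReal_le_ofReal hcard
    _ = ENNReal.ofReal (300 ^ 6 * Q ^ 30 * (k0 * m₁ / R₁)) * (Z.ncard : ENNReal) := by
        rw [ENNReal.ofReal_mul (by positivity), ENNReal.ofReal_natCast]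
    _ ≤ _ := by
        rw [hHt] at hR
        exact mul_le_mul_right hR _

/-- final arithmetic -/
theorem fin_arith {Q K L V0 V1 V2 r m₁ k0 R₁ D : ℝ} (hQ : 2 ≤ Q) (hK1 : 0 ≤ K) (hKQ : K ≤ Q)
    (h300 : 300 ^ 6 ≤ Q) (hL0 : 0 ≤ L) (hL : L ≤ Q ^ 2)
    (hV2 : 0 ≤ V2) (hr : 0 ≤ r) (hm : 0 ≤ m₁) (hD : k0 / R₁ ≤ D) (hD0 : 0 ≤ k0 / R₁) :
    300 ^ 6 * Q ^ 30 * (k0 * m₁ / R₁) * (K * (Q ^ 8) ^ 24 * L ^ 3 *
      ((Q ^ 2 * V0) ^ 2 * (Q ^ 2 * V1) ^ 2 * (Q ^ 2 * V2 * min (Q ^ 2 * r) (Q ^ 2 * V2))) *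
      (1 + Q ^ 56)) ≤
    Q ^ 1000 * (V0 ^ 2 * V1 ^ 2 * (V2 * min V2 r) * (m₁ * D)) := by
  have hQ0 : 0 < Q := by linarith
  have hQ1 : 1 ≤ Q := by linarith
  have hmin : min (Q ^ 2 * r) (Q ^ 2 * V2) = Q ^ 2 * min V2 r := by
    rw [min_comm V2 r, mul_min_of_nonneg _ _ (by positivity)]
  have hmin0 : 0 ≤ min V2 r := le_min hV2 hr
  have h56 : 1 + Q ^ 56 ≤ Q ^ 57 := by
    have h1 : 1 ≤ Q ^ 56 := one_le_pow₀ hQ1
    calc 1 + Q ^ 56 ≤ 2 * Q ^ 56 := by linarith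
      _ ≤ Q * Q ^ 56 := mul_le_mul_of_nonneg_right hQ (by positivity)
      _ = Q ^ 57 := by ring
  have hL3 : L ^ 3 ≤ (Q ^ 2) ^ 3 := pow_le_pow_left₀ hL0 hL 3
  have hm1 : k0 * m₁ / R₁ = m₁ * (k0 / R₁) := by ring
  have hD00 : 0 ≤ D := le_trans hD0 hD
  rw [hmin, hm1]
  obtain ⟨W, hW⟩ : ∃ W, W = V0 ^ 2 * V1 ^ 2 * (V2 * min V2 r) := ⟨_, rfl⟩
  have hW0 : 0 ≤ W := by rw [hW]; positivity
  have e1 : (Q ^ 2 * V0) ^ 2 * (Q ^ 2 * V1) ^ 2 * (Q ^ 2 * V2 * (Q ^ 2 * min V2 r)) =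
      Q ^ 12 * W := by rw [hW]; ring
  rw [e1, ← hW]
  have a1 : 300 ^ 6 * Q ^ 30 * (m₁ * (k0 / R₁)) ≤ Q * Q ^ 30 * (m₁ * D) := by
    refine mul_le_mul ?_ (mul_le_mul_of_nonneg_left hD hm) (by positivity) (by positivity)
    exact mul_le_mul_of_nonneg_right h300 (by positivity)
  have a2 : K * (Q ^ 8) ^ 24 * L ^ 3 * (Q ^ 12 * W) * (1 + Q ^ 56) ≤
      Q * (Q ^ 8) ^ 24 * (Q ^ 2) ^ 3 * (Q ^ 12 * W) * Q ^ 57 := by
    refine mul_le_mul ?_ h56 (by positivity) (by positivity)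
    refine mul_le_mul_of_nonneg_right ?_ (by positivity)
    refine mul_le_mul ?_ hL3 (by positivity) (by positivity)
    exact mul_le_mul_of_nonneg_right hKQ (by positivity)
  calc 300 ^ 6 * Q ^ 30 * (m₁ * (k0 / R₁)) *
        (K * (Q ^ 8) ^ 24 * L ^ 3 * (Q ^ 12 * W) * (1 + Q ^ 56)) ≤
      (Q * Q ^ 30 * (m₁ * D)) *
        (Q * (Q ^ 8) ^ 24 * (Q ^ 2) ^ 3 * (Q ^ 12 * W) * Q ^ 57) :=
        mul_le_mul a1 a2 (by positivity) (by positivity)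
    _ = Q ^ 299 * (W * (m₁ * D)) := by ring
    _ ≤ Q ^ 1000 * (W * (m₁ * D)) := by
        refine mul_le_mul_of_nonneg_right (pow_le_pow_right₀ hQ1 (by norm_num)) ?_
        positivity

/-- ROW C_KC1. -/
theorem kc1stmt : KC1Stmt := by
  classical
  obtain ⟨K, hK, hkc⟩ := kc1
  refine ⟨1000, by norm_num, max K (300 ^ 6), le_trans (by norm_num) (le_max_right _ _), ?_⟩
  intro T Q hQ0' hlog hQT A V k0 del s hA hV2 h21 h10 hV0 hV1T hk0 hkV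
  have hKQ : K ≤ Q := le_trans (le_max_left _ _) hQ0'
  have h300 : 300 ^ 6 ≤ Q := le_trans (le_max_right _ _) hQ0'
  have hQ : 2 ≤ Q := le_trans (by norm_num) h300
  have hQ1 : 1 ≤ Q := by linarith
  have hQ0 : 0 < Q := by linarith
  have hV1 : 1 ≤ V 1 := by linarith
  have hV01 : 1 ≤ V 0 := by linarith
  have hT : 1 ≤ T := T_ge hQ hQT hV01 hV0
  have hT0 : 0 < T := by linarith
  obtain ⟨m₁, hm₁⟩ : ∃ m, m = min k0 (V 1) := ⟨_, rfl⟩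
  have hm1 : 1 ≤ m₁ := by rw [hm₁]; exact le_min hk0 hV1
  have hm1V : m₁ ≤ V 1 := by rw [hm₁]; exact min_le_right _ _
  obtain ⟨R₁, hR₁⟩ : ∃ R, R = min k0 (√(V 0 * V 1)) := ⟨_, rfl⟩
  have hsq1 : 1 ≤ √(V 0 * V 1) := Real.one_le_sqrt.2 (by nlinarith)
  have hR1 : 1 ≤ R₁ := by rw [hR₁]; exact le_min hk0 hsq1
  have hRk : R₁ ≤ k0 := by rw [hR₁]; exact min_le_left _ _
  have hRs : R₁ ≤ √(V 0 * V 1) := by rw [hR₁]; exact min_le_right _ _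
  have hRx : 1 ≤ Rx T / T := by
    rw [Rx_div hT0]
    exact Real.one_le_rpow hT (by linarith [rho0_pos])
  obtain ⟨g, hg⟩ : ∃ g, g = gQ Q A := ⟨_, rfl⟩
  have hsep : Sep 1 g := by rw [hg]; exact sep_gQ hQ1 hA
  -- numerical conditions
  have hLx : Lx T = T ^ (277 / 500 : ℝ) := rfl
  have n0 : Q ^ 2 * V 0 ≤ Q ^ 3 * T ^ (277 / 500 : ℝ) := by
    calc Q ^ 2 * V 0 ≤ Q ^ 2 * (Q * Lx T) := mul_le_mul_of_nonneg_left hV0 (by positivity)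
      _ = _ := by rw [hLx]; ring
  have nP : Q ^ 8 ≤ Q ^ 2 * V 0 := by
    have h1 := qt hT hQ1 hQT (m := 7) (by norm_num) (a := 0) (b := 677 / 2000) (by norm_num)
    rw [Real.rpow_zero, mul_one] at h1
    have h2 : Q ^ 7 ≤ Q * V 0 := by
      refine le_trans h1 (le_trans hV1T ?_)
      exact mul_le_mul_of_nonneg_left h10 hQ0.le
    calc Q ^ 8 = Q * Q ^ 7 := by ring
      _ ≤ Q * (Q * V 0) := mul_le_mul_of_nonneg_left h2 hQ0.le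
      _ = _ := by ring
  have nV7 : (Q ^ 2 * V 0) ^ 7 ≤ ((Q * T) ^ 2) ^ 2 := by
    have h1 := qt hT hQ1 hQT (m := 21) (by norm_num) (a := 1939 / 500) (b := 4) (by norm_num)
    have h2 : (T ^ (277 / 500 : ℝ)) ^ 7 = T ^ (1939 / 500 : ℝ) := by
      rw [← Real.rpow_natCast, ← Real.rpow_mul hT0.le]; norm_num
    have h3 : T ^ (4 : ℝ) = T ^ 4 := by rw [← Real.rpow_natCast]; norm_num
    rw [h3] at h1
    calc (Q ^ 2 * V 0) ^ 7 ≤ (Q ^ 3 * T ^ (277 / 500 : ℝ)) ^ 7 :=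
          pow_le_pow_left₀ (by positivity) n0 7
      _ = Q ^ 21 * T ^ (1939 / 500 : ℝ) := by rw [mul_pow, h2]; ring
      _ ≤ T ^ 4 := h1
      _ = 1 * T ^ 4 := (one_mul _).symm
      _ ≤ Q ^ 4 * T ^ 4 := mul_le_mul_of_nonneg_right (one_le_pow₀ hQ1) (by positivity)
      _ = _ := by ring
  have nL : 1 + Real.log (Q ^ 2 * V 0) ≤ Q ^ 2 := by
    have h1 := qt hT hQ1 hQT (m := 3) (by norm_num) (a := 277 / 500) (b := 1) (by norm_num)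
    rw [Real.rpow_one] at h1
    have h2 : Real.log (Q ^ 2 * V 0) ≤ Real.log T :=
      Real.log_le_log (by positivity) (le_trans n0 h1)
    nlinarith
  have nuv : Q ^ 2 * V 0 ≤ (Q ^ 2 * V 1) ^ 3 := by
    have h1 := qt hT hQ1 hQT (m := 1) (by norm_num) (a := 277 / 500) (b := 2031 / 2000)
      (by norm_num)
    rw [pow_one] at h1
    have h2 : (T ^ (677 / 2000 : ℝ)) ^ 3 = T ^ (2031 / 2000 : ℝ) := by
      rw [← Real.rpow_natCast, ← Real.rpow_mul hT0.le]; norm_num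
    have h3 : Q * T ^ (677 / 2000 : ℝ) ≤ Q ^ 2 * V 1 := by
      calc Q * T ^ (677 / 2000 : ℝ) ≤ Q * (Q * V 1) := mul_le_mul_of_nonneg_left hV1T hQ0.le
        _ = _ := by ring
    calc Q ^ 2 * V 0 ≤ Q ^ 3 * T ^ (277 / 500 : ℝ) := n0
      _ = Q ^ 2 * (Q * T ^ (277 / 500 : ℝ)) := by ring
      _ ≤ Q ^ 2 * T ^ (2031 / 2000 : ℝ) := mul_le_mul_of_nonneg_left h1 (by positivity)
      _ ≤ Q ^ 3 * T ^ (2031 / 2000 : ℝ) :=
          mul_le_mul_of_nonneg_right (pow_le_pow_right₀ hQ1 (by norm_num)) (by positivity)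
      _ = (Q * T ^ (677 / 2000 : ℝ)) ^ 3 := by rw [mul_pow, h2]
      _ ≤ _ := pow_le_pow_left₀ (by positivity) h3 3
  have hk00 : 0 < k0 := by linarith
  have hm0 : 0 < m₁ := by linarith
  -- the error factor
  have hE : ∀ R, 1 ≤ R → R ≤ Q * R₁ + Q ^ 8 →
      ER R (Q ^ 2 * V 0) (Q ^ 2 * V 1) (Q ^ 3 * V 0 / k0) (Q ^ 3 * V 1 / m₁) ≤ Q ^ 56 := by
    intro R hR hR2
    have hR0 : 0 < R := by linarith
    have hRQ : R ≤ Q ^ 9 * R₁ := by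
      have h1 : Q ≤ Q ^ 8 := le_self_pow₀ hQ1 (by norm_num)
      have h2 : Q * R₁ ≤ Q ^ 8 * R₁ := mul_le_mul_of_nonneg_right h1 (by linarith)
      have h3 : Q ^ 8 ≤ Q ^ 8 * R₁ := by
        have : 0 ≤ Q ^ 8 := by positivity
        nlinarith
      calc R ≤ Q ^ 8 * R₁ + Q ^ 8 * R₁ := by linarith
        _ = 2 * (Q ^ 8 * R₁) := by ring
        _ ≤ Q * (Q ^ 8 * R₁) := mul_le_mul_of_nonneg_right hQ (by positivity)
        _ = _ := by ring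
    have hRk0 : R ≤ Q ^ 9 * k0 := le_trans hRQ (mul_le_mul_of_nonneg_left hRk (by positivity))
    have hR2' : R ^ 2 ≤ Q ^ 18 * (Q ^ 2 * V 0 * (Q ^ 2 * V 1)) := by
      have h1 : R ≤ Q ^ 9 * √(V 0 * V 1) := le_trans hRQ (mul_le_mul_of_nonneg_left hRs
        (by positivity))
      have h2 : √(V 0 * V 1) ^ 2 = V 0 * V 1 := Real.sq_sqrt (by positivity)
      calc R ^ 2 ≤ (Q ^ 9 * √(V 0 * V 1)) ^ 2 := pow_le_pow_left₀ hR0.le h1 2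
        _ = Q ^ 18 * (V 0 * V 1) := by rw [mul_pow, h2]; ring
        _ ≤ Q ^ 18 * (Q ^ 4 * (V 0 * V 1)) := by
            refine mul_le_mul_of_nonneg_left ?_ (by positivity)
            have : 1 ≤ Q ^ 4 := one_le_pow₀ hQ1
            have h3 : 0 ≤ V 0 * V 1 := by positivity
            nlinarith
        _ = _ := by ring
    have hdiv : ∀ x : ℝ, 0 ≤ x → Q ^ 3 * x / k0 / R ≤ Q ^ 10 * (Q ^ 2 * x / R ^ 2) := by
      intro x hx
      rw [div_div, mul_div_assoc', div_le_div_iff₀ (by positivity) (by positivity)]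
      calc Q ^ 3 * x * R ^ 2 = Q ^ 3 * x * R * R := by ring
        _ ≤ Q ^ 3 * x * R * (Q ^ 9 * k0) := mul_le_mul_of_nonneg_left hRk0 (by positivity)
        _ = Q ^ 10 * (Q ^ 2 * x) * (k0 * R) := by ring
    refine er_le hQ hR ?_ ?_ nuv hR2' (hdiv _ (by linarith)) ?_ (by positivity)
    · have : 1 ≤ Q ^ 2 := one_le_pow₀ hQ1
      nlinarith
    · exact mul_le_mul_of_nonneg_left h10 (by positivity)
    · rcases le_total k0 (V 1) with h | h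
      · have hmk : m₁ = k0 := by rw [hm₁, min_eq_left h]
        rw [hmk]
        have h1 : 0 ≤ Q ^ 3 * (1 / √R) := by positivity
        linarith [hdiv (V 1) (by linarith)]
      · have hmk : m₁ = V 1 := by rw [hm₁, min_eq_right h]
        rw [hmk]
        have h1 : Q ^ 3 * V 1 / V 1 / R = Q ^ 3 * (1 / R) := by
          have : V 1 ≠ 0 := by linarith
          field_simp
        rw [h1]
        have h2 : 1 / R ≤ 1 / √R := by
          refine one_div_le_one_div_of_le (Real.sqrt_pos.2 hR0) ?_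
          rw [Real.sqrt_le_left hR0.le]
          nlinarith
        have h3 : Q ^ 3 * (1 / R) ≤ Q ^ 3 * (1 / √R) := mul_le_mul_of_nonneg_left h2 (by positivity)
        have h4 : 0 ≤ Q ^ 10 * (Q ^ 2 * V 1 / R ^ 2) := by positivity
        linarith
  -- the finite families
  obtain ⟨X, hX⟩ : ∃ X, X = Q * R₁ + 3 * Q ^ 8 := ⟨_, rfl⟩
  obtain ⟨𝓥, h𝓥⟩ : ∃ 𝓥 : Finset T3, 𝓥 = lt g X ×ˢ lt g X ×ˢ lt g X := ⟨_, rfl⟩
  obtain ⟨𝓗, h𝓗⟩ : ∃ 𝓗 : Finset T3, 𝓗 = (lt g (Q ^ 2 * V 0) ×ˢ lt g (Q ^ 2 * V 1) ×ˢ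
    lt g (Q ^ 2 * V 2)).filter (fun h => Q ^ 2 * V 2 ≤ Q ^ 8 * ‖g h.2.2‖) := ⟨_, rfl⟩
  have hmem𝓥 : ∀ (h t : T3), (Hit (Q ^ 8) ((Q * T) ^ 2) 0 (Q ^ 2 * (Rx T / T)) (Q * R₁)
      (Q ^ 3 * V 0 / k0) (Q ^ 3 * V 1 / m₁) (g h.1) (g h.2.1) (g h.2.2) (g t.1) (g t.2.1)
      (g t.2.2)).Nonempty → t ∈ 𝓥 := by
    intro h t ht
    obtain ⟨θ, _, e₁, e₂, κ₁, κ₂, κ₃, hp, hz⟩ := ht
    have hcr := InZ.crude hp hz
    rw [h𝓥]
    simp only [Finset.mem_product, Helper38_F5.mem_lt one_pos hsep]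
    have h0 : 0 ≤ Q ^ 8 := by positivity
    refine ⟨?_, ?_, ?_⟩
    · rw [hX]; linarith [hcr.1]
    · rw [hX]; linarith [hcr.1, hcr.2.1]
    · rw [hX]; linarith [hcr.1, hcr.2.2.1]
  have hmain := hkc g hsep (Q ^ 8) ((Q * T) ^ 2) 0 (Q ^ 2 * (Rx T / T)) (Q * R₁)
    (Q ^ 3 * V 0 / k0) (Q ^ 3 * V 1 / m₁) (Q ^ 2 * V 0) (Q ^ 2 * V 1) (Q ^ 2 * V 2) (Q ^ 56)
    (one_le_pow₀ hQ1) (by positivity) nV7 (by
      have : 1 ≤ Q ^ 2 := one_le_pow₀ hQ1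
      nlinarith) (mul_le_mul_of_nonneg_left h21 (by positivity))
    (mul_le_mul_of_nonneg_left h10 (by positivity)) nP (by
      calc Q * R₁ ≤ Q * V 0 := mul_le_mul_of_nonneg_left (le_trans hRk hkV) hQ0.le
        _ ≤ Q ^ 2 * V 0 := by
            refine mul_le_mul_of_nonneg_right ?_ (by linarith)
            exact le_self_pow₀ hQ1 (by norm_num)) (by
      have : 1 ≤ Q ^ 2 := one_le_pow₀ hQ1
      nlinarith) (by
      rw [le_div_iff₀ hk00, one_mul]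
      have : 1 ≤ Q ^ 3 := one_le_pow₀ hQ1
      nlinarith) (by
      rw [le_div_iff₀ hm0, one_mul]
      have : 1 ≤ Q ^ 3 := one_le_pow₀ hQ1
      nlinarith) le_rfl (by rw [mul_zero]; norm_num) (by positivity) hE 𝓗 𝓥 (by
      intro h hh
      rw [h𝓗, Finset.mem_filter] at hh
      simp only [Finset.mem_product, Helper38_F5.mem_lt one_pos hsep] at hh
      exact ⟨hh.1.1, hh.1.2.1, hh.1.2.2, hh.2⟩)
  -- one `h`
  obtain ⟨C, hC⟩ : ∃ C, C = 300 ^ 6 * Q ^ 30 * (k0 * m₁ / R₁) := ⟨_, rfl⟩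
  have hC0 : 0 ≤ C := by rw [hC]; positivity
  obtain ⟨f, hf⟩ : ∃ f : Z6 → ENNReal, f = fun h => ∑' k : Z6,
    volume {th : ℝ | th ∈ Set.Ioc (-Real.pi) Real.pi ∧ Cd T Q A V k0 s h k th} := ⟨_, rfl⟩
  have hone : ∀ h : Z6, f h ≤ ENNReal.ofReal C *
      ∑ t ∈ 𝓥, volume (Hit (Q ^ 8) ((Q * T) ^ 2) 0 (Q ^ 2 * (Rx T / T)) (Q * R₁)
      (Q ^ 3 * V 0 / k0) (Q ^ 3 * V 1 / m₁) (g h.1) (g h.2.1) (g h.2.2) (g t.1) (g t.2.1)
      (g t.2.2)) := by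
    intro h
    rw [hf]
    refine tonelli_cnt _ (fun k => meas_Cd T Q A V k0 s h k) 𝓥 _ _ ?_
    intro θ
    rw [hC, hg]
    refine pointwise hQ hT hQT hA hV2 h21 h10 hV0 hk0 hkV hR1 hRk hm₁ 𝓥 ?_ θ
    intro t ht
    refine hmem𝓥 h t ?_
    rw [hg]
    exact ht
  have hzero : ∀ h : Z6, h ∉ 𝓗 → f h = 0 := by
    intro h hh
    rw [hf]
    simp only
    rw [ENNReal.tsum_eq_zero]
    intro k
    have : {th : ℝ | th ∈ Set.Ioc (-Real.pi) Real.pi ∧ Cd T Q A V k0 s h k th} = ∅ := by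
      rw [Set.eq_empty_iff_forall_notMem]
      rintro θ ⟨_, hcd⟩
      apply hh
      have hsz := hcd.1
      have hnrm : ∀ (z : ℤ × ℤ), ‖g z‖ = Q * ‖gA A (rc z)‖ := by
        intro z
        rw [hg, gQ_apply, norm_mul, Complex.norm_real, Real.norm_eq_abs, abs_of_pos hQ0]
      have e0 : ‖hG A (r3 h) 0‖ = ‖gA A (rc h.1)‖ := rfl
      have e1 : ‖hG A (r3 h) 1‖ = ‖gA A (rc h.2.1)‖ := rfl
      have e2 : ‖hG A (r3 h) 2‖ = ‖gA A (rc h.2.2)‖ := rfl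
      have s0 := hsz 0
      have s1 := hsz 1
      have s2 := hsz 2
      rw [e0] at s0
      rw [e1] at s1
      rw [e2] at s2
      rw [h𝓗, Finset.mem_filter]
      simp only [Finset.mem_product, Helper38_F5.mem_lt one_pos hsep, hnrm]
      have hup : ∀ {x y : ℝ}, x ≤ Q * y → Q * x ≤ Q ^ 2 * y := by
        intro x y hxy
        calc Q * x ≤ Q * (Q * y) := mul_le_mul_of_nonneg_left hxy hQ0.le
          _ = _ := by ring
      refine ⟨⟨hup s0.2, hup s1.2, hup s2.2⟩, ?_⟩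
      calc Q ^ 2 * V 2 ≤ Q ^ 2 * (Q * ‖gA A (rc h.2.2)‖) :=
            mul_le_mul_of_nonneg_left s2.1 (by positivity)
        _ = Q ^ 2 * (Q * ‖gA A (rc h.2.2)‖) := rfl
        _ ≤ Q ^ 8 * (Q * ‖gA A (rc h.2.2)‖) := by
            refine mul_le_mul_of_nonneg_right ?_ (by positivity)
            exact pow_le_pow_right₀ hQ1 (by norm_num)
    rw [this, measure_empty]
  -- the sum
  have hsum : ∑' h : Z6, f h ≤ ENNReal.ofReal C * ENNReal.ofReal (K * (Q ^ 8) ^ 24 *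
      (1 + Real.log (Q ^ 2 * V 0)) ^ 3 * ((Q ^ 2 * V 0) ^ 2 * (Q ^ 2 * V 1) ^ 2 *
        (Q ^ 2 * V 2 * min (Q ^ 2 * (Rx T / T)) (Q ^ 2 * V 2))) * (1 + Q ^ 56)) := by
    rw [tsum_eq_sum (s := 𝓗) fun h hh => hzero h hh]
    refine le_trans (Finset.sum_le_sum fun h _ => hone h) ?_
    rw [← Finset.mul_sum]
    refine mul_le_mul_right ?_ _
    refine le_trans (le_of_eq ?_) hmain
    rw [Finset.sum_product_right]
  have hcmp : ∑' h : Z6, ∑' k : Z6, (if k = 0 then 0 else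
    volume {th : ℝ | th ∈ Set.Ioc (-Real.pi) Real.pi ∧
      (∀ l, V l ≤ Q * ‖hG A (r3 h) l‖ ∧ ‖hG A (r3 h) l‖ ≤ Q * V l) ∧
      Gd Q T (hG A (r3 h)) (sg s) th ∧ ‖r3 k‖ ≤ Q * k0 ∧
      BD T Q (Q / k0) (fun l => Q * V l) (hG A (r3 h)) (sg s) th (kG A (r3 k)) ∧
      |kph T (hG A (r3 h)) (sg s) th (kG A (r3 k))| ≤ Q * (del * k0 * V 0 ^ 2)}) ≤
      ∑' h : Z6, f h := by
    refine ENNReal.tsum_le_tsum fun h => ?_
    rw [hf]
    refine ENNReal.tsum_le_tsum fun k => ?_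
    split_ifs
    · exact bot_le
    · refine measure_mono ?_
      rintro θ ⟨a1, a2, a3, a4, a5, _⟩
      exact ⟨a1, a2, a3, a4, a5⟩
  unfold KCAt
  refine le_trans hcmp (le_trans hsum ?_)
  rw [← ENNReal.ofReal_mul hC0]
  apply ENNReal.ofReal_le_ofReal
  rw [hC]
  have hlog0 : 0 ≤ 1 + Real.log (Q ^ 2 * V 0) := by
    have : 0 ≤ Real.log (Q ^ 2 * V 0) := by
      refine Real.log_nonneg ?_
      have : 1 ≤ Q ^ 2 := one_le_pow₀ hQ1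
      nlinarith
    linarith
  have hDle : k0 / R₁ ≤ max 1 (k0 / √(V 0 * V 1)) := by
    rcases le_total k0 (√(V 0 * V 1)) with h | h
    · rw [hR₁, min_eq_left h, div_self hk00.ne']
      exact le_max_left _ _
    · rw [hR₁, min_eq_right h]
      exact le_max_right _ _
  rw [← hm₁]
  exact fin_arith hQ (by linarith) hKQ h300 hlog0 nL (by linarith)
    (by linarith) (by linarith) hDle (by positivity)

end Pool.Agent.Helper68_F5
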