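import Pool.Agent.Helper68_F5.Defs

/-!
MP_f5cbfa_nt, duality count: sublevel sets on the circle.
-/

set_option autoImplicit false

open MeasureTheory

namespace Pool.Agent.Helper68_F5

theorem abs_le_sin {s : ℝ} (h : |s| ≤ Real.pi / 2) : 2 / Real.pi * |s| ≤ |Real.sin s| := by
  rcases le_total 0 s with hs | hs
  · rw [abs_of_nonneg hs] at h ⊢
    have := Real.mul_le_sin hs h
    exact le_trans this (le_abs_self _)
  · rw [abs_of_nonpos hs] at h ⊢
    have h2 : 0 ≤ -s := by linarith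
    have := Real.mul_le_sin h2 h
    rw [Real.sin_neg] at this
    exact le_trans this (neg_le_abs _)

/-- where the cosine is small -/
theorem cos_small {t x : ℝ} (h : |Real.cos t| ≤ x) :
    ∃ k : ℤ, |t - (Real.pi / 2 + k * Real.pi)| ≤ Real.pi / 2 * x := by
  have hpi := Real.pi_pos
  obtain ⟨k, hk⟩ : ∃ k : ℤ, k = round ((t - Real.pi / 2) / Real.pi) := ⟨_, rfl⟩
  refine ⟨k, ?_⟩
  obtain ⟨s, hs⟩ : ∃ s, s = t - (Real.pi / 2 + k * Real.pi) := ⟨_, rfl⟩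
  have h1 : |(t - Real.pi / 2) / Real.pi - k| ≤ 1 / 2 := by rw [hk]; exact abs_sub_round _
  have h2 : |s| ≤ Real.pi / 2 := by
    have e : s = ((t - Real.pi / 2) / Real.pi - k) * Real.pi := by
      rw [hs]; field_simp; ring
    rw [e, abs_mul, abs_of_pos hpi]
    nlinarith
  have h3 : |Real.sin s| = |Real.cos t| := by
    have e : t = s + Real.pi / 2 + k * Real.pi := by rw [hs]; ring
    rw [e, Real.cos_add_int_mul_pi, abs_mul, abs_zpow, abs_neg, abs_one, one_zpow, one_mul,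
      Real.cos_add_pi_div_two, abs_neg]
  have h4 := abs_le_sin h2
  rw [h3] at h4
  rw [← hs]
  have h5 : 2 / Real.pi * |s| ≤ x := le_trans h4 h
  calc |s| = Real.pi / 2 * (2 / Real.pi * |s|) := by field_simp
    _ ≤ Real.pi / 2 * x := mul_le_mul_of_nonneg_left h5 (by positivity)

/-- polar form of the scalar product -/
theorem sp_ee (w : ℂ) : ∃ φ : ℝ, -Real.pi ≤ φ ∧ φ ≤ Real.pi ∧
    ∀ θ : ℝ, sp (ee θ) w = ‖w‖ * Real.cos (θ - φ) := by
  refine ⟨Complex.arg w, (Complex.neg_pi_lt_arg w).le, Complex.arg_le_pi w, fun θ => ?_⟩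
  have h1 := Complex.norm_mul_cos_arg w
  have h2 := Complex.norm_mul_sin_arg w
  rw [Real.cos_sub, sp, ee]
  simp only
  rw [← h1, ← h2]
  ring

theorem circ {w : ℂ} (hw : w ≠ 0) {d : ℝ} (hd : 0 ≤ d) :
    volume {θ : ℝ | θ ∈ Set.Icc 0 (2 * Real.pi) ∧ |sp (ee θ) w| ≤ d} ≤
      ENNReal.ofReal (40 * (d / ‖w‖)) := by
  have hpi := Real.pi_pos
  have hn : 0 < ‖w‖ := norm_pos_iff.2 hw
  have hx0 : 0 ≤ d / ‖w‖ := by positivity
  by_cases hbig : 1 ≤ d / ‖w‖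
  · refine le_trans (measure_mono (fun θ hθ => hθ.1)) ?_
    rw [Real.volume_Icc]
    apply ENNReal.ofReal_le_ofReal
    have := Real.pi_lt_four
    linarith
  rw [not_le] at hbig
  obtain ⟨φ, hφ1, hφ2, hφ⟩ := sp_ee w
  have hsub : {θ : ℝ | θ ∈ Set.Icc 0 (2 * Real.pi) ∧ |sp (ee θ) w| ≤ d} ⊆
      ⋃ k ∈ Finset.Icc (-3 : ℤ) 3,
        Set.Icc (φ + Real.pi / 2 + k * Real.pi - Real.pi / 2 * (d / ‖w‖))
          (φ + Real.pi / 2 + k * Real.pi + Real.pi / 2 * (d / ‖w‖)) := by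
    rintro θ ⟨hθ, hs⟩
    rw [hφ, abs_mul, abs_of_pos hn] at hs
    have h1 : |Real.cos (θ - φ)| ≤ d / ‖w‖ := by
      rw [le_div_iff₀ hn]; linarith
    obtain ⟨k, hk⟩ := cos_small h1
    have hk' := abs_le.1 hk
    have hx : Real.pi / 2 * (d / ‖w‖) ≤ Real.pi / 2 * 1 :=
      mul_le_mul_of_nonneg_left hbig.le (by positivity)
    rw [Set.mem_iUnion₂]
    refine ⟨k, ?_, ?_⟩
    · rw [Finset.mem_Icc]
      have a1 : (k : ℝ) * Real.pi ≤ 3 * Real.pi := by linarith [hθ.1, hθ.2]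
      have a2 : -3 * Real.pi ≤ (k : ℝ) * Real.pi := by linarith [hθ.1, hθ.2]
      have b1 : (k : ℝ) ≤ 3 := le_of_mul_le_mul_right a1 hpi
      have b2 : (-3 : ℝ) ≤ k := le_of_mul_le_mul_right a2 hpi
      constructor
      · exact_mod_cast b2
      · exact_mod_cast b1
    · constructor <;> linarith
  refine le_trans (measure_mono hsub) (le_trans (measure_biUnion_finset_le _ _) ?_)
  have hv : ∀ k ∈ Finset.Icc (-3 : ℤ) 3,
      volume (Set.Icc (φ + Real.pi / 2 + k * Real.pi - Real.pi / 2 * (d / ‖w‖))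
          (φ + Real.pi / 2 + k * Real.pi + Real.pi / 2 * (d / ‖w‖))) ≤
        ENNReal.ofReal (Real.pi * (d / ‖w‖)) := by
    intro k _
    rw [Real.volume_Icc]
    apply ENNReal.ofReal_le_ofReal
    linarith
  refine le_trans (Finset.sum_le_sum hv) ?_
  rw [Finset.sum_const, nsmul_eq_mul]
  have hcard : (Finset.Icc (-3 : ℤ) 3).card = 7 := by decide
  rw [hcard, show ((7 : ℕ) : ENNReal) = ENNReal.ofReal 7 by simp,
    ← ENNReal.ofReal_mul (by norm_num)]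
  apply ENNReal.ofReal_le_ofReal
  have := Real.pi_lt_four
  nlinarith

/-- the same for the determinant -/
theorem circ_wd {w : ℂ} (hw : w ≠ 0) {d : ℝ} (hd : 0 ≤ d) :
    volume {θ : ℝ | θ ∈ Set.Icc 0 (2 * Real.pi) ∧ |wd (ee θ) w| ≤ d} ≤
      ENNReal.ofReal (40 * (d / ‖w‖)) := by
  obtain ⟨u, hu⟩ : ∃ u : ℂ, u = ⟨w.im, -w.re⟩ := ⟨_, rfl⟩
  have hn : ‖u‖ = ‖w‖ := by
    have h1 : ‖u‖ ^ 2 = ‖w‖ ^ 2 := by
      rw [Complex.sq_norm, Complex.sq_norm, Complex.normSq_apply, Complex.normSq_apply, hu]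
      ring
    exact (pow_left_inj₀ (norm_nonneg _) (norm_nonneg _) (by norm_num)).1 h1
  have hu0 : u ≠ 0 := by
    rw [← norm_pos_iff, hn]; exact norm_pos_iff.2 hw
  have he : ∀ θ : ℝ, wd (ee θ) w = sp (ee θ) u := by
    intro θ; rw [hu, wd, sp]; ring
  simp only [he]
  rw [← hn]
  exact circ hu0 hd

/-- the same on the half open interval `(-π, π]` -/
theorem circ' {w : ℂ} (hw : w ≠ 0) {d : ℝ} (hd : 0 ≤ d) :
    volume {θ : ℝ | θ ∈ Set.Ioc (-Real.pi) Real.pi ∧ |sp (ee θ) w| ≤ d} ≤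
      ENNReal.ofReal (40 * (d / ‖w‖)) := by
  have hpi := Real.pi_pos
  have hn : 0 < ‖w‖ := norm_pos_iff.2 hw
  have hx0 : 0 ≤ d / ‖w‖ := by positivity
  by_cases hbig : 1 ≤ d / ‖w‖
  · refine le_trans (measure_mono (fun θ hθ => hθ.1)) ?_
    rw [Real.volume_Ioc]
    apply ENNReal.ofReal_le_ofReal
    have := Real.pi_lt_four
    linarith
  rw [not_le] at hbig
  obtain ⟨φ, hφ1, hφ2, hφ⟩ := sp_ee w
  have hsub : {θ : ℝ | θ ∈ Set.Ioc (-Real.pi) Real.pi ∧ |sp (ee θ) w| ≤ d} ⊆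
      ⋃ k ∈ Finset.Icc (-3 : ℤ) 3,
        Set.Icc (φ + Real.pi / 2 + k * Real.pi - Real.pi / 2 * (d / ‖w‖))
          (φ + Real.pi / 2 + k * Real.pi + Real.pi / 2 * (d / ‖w‖)) := by
    rintro θ ⟨hθ, hs⟩
    rw [hφ, abs_mul, abs_of_pos hn] at hs
    have h1 : |Real.cos (θ - φ)| ≤ d / ‖w‖ := by
      rw [le_div_iff₀ hn]; linarith
    obtain ⟨k, hk⟩ := cos_small h1
    have hk' := abs_le.1 hk
    have hx : Real.pi / 2 * (d / ‖w‖) ≤ Real.pi / 2 * 1 :=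
      mul_le_mul_of_nonneg_left hbig.le (by positivity)
    have hθ1 := hθ.1
    have hθ2 := hθ.2
    rw [Set.mem_iUnion₂]
    refine ⟨k, ?_, ?_⟩
    · rw [Finset.mem_Icc]
      have a1 : (k : ℝ) * Real.pi ≤ 3 * Real.pi := by linarith
      have a2 : -3 * Real.pi ≤ (k : ℝ) * Real.pi := by linarith
      have b1 : (k : ℝ) ≤ 3 := le_of_mul_le_mul_right a1 hpi
      have b2 : (-3 : ℝ) ≤ k := le_of_mul_le_mul_right a2 hpi
      constructor
      · exact_mod_cast b2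
      · exact_mod_cast b1
    · constructor <;> linarith
  refine le_trans (measure_mono hsub) (le_trans (measure_biUnion_finset_le _ _) ?_)
  have hv : ∀ k ∈ Finset.Icc (-3 : ℤ) 3,
      volume (Set.Icc (φ + Real.pi / 2 + k * Real.pi - Real.pi / 2 * (d / ‖w‖))
          (φ + Real.pi / 2 + k * Real.pi + Real.pi / 2 * (d / ‖w‖))) ≤
        ENNReal.ofReal (Real.pi * (d / ‖w‖)) := by
    intro k _
    rw [Real.volume_Icc]
    apply ENNReal.ofReal_le_ofReal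
    linarith
  refine le_trans (Finset.sum_le_sum hv) ?_
  rw [Finset.sum_const, nsmul_eq_mul]
  have hcard : (Finset.Icc (-3 : ℤ) 3).card = 7 := by decide
  rw [hcard, show ((7 : ℕ) : ENNReal) = ENNReal.ofReal 7 by simp,
    ← ENNReal.ofReal_mul (by norm_num)]
  apply ENNReal.ofReal_le_ofReal
  have := Real.pi_lt_four
  nlinarith

/-- the same for the determinant -/
theorem circ_wd' {w : ℂ} (hw : w ≠ 0) {d : ℝ} (hd : 0 ≤ d) :
    volume {θ : ℝ | θ ∈ Set.Ioc (-Real.pi) Real.pi ∧ |wd (ee θ) w| ≤ d} ≤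
      ENNReal.ofReal (40 * (d / ‖w‖)) := by
  obtain ⟨u, hu⟩ : ∃ u : ℂ, u = ⟨w.im, -w.re⟩ := ⟨_, rfl⟩
  have hn : ‖u‖ = ‖w‖ := by
    have h1 : ‖u‖ ^ 2 = ‖w‖ ^ 2 := by
      rw [Complex.sq_norm, Complex.sq_norm, Complex.normSq_apply, Complex.normSq_apply, hu]
      ring
    exact (pow_left_inj₀ (norm_nonneg _) (norm_nonneg _) (by norm_num)).1 h1
  have hu0 : u ≠ 0 := by
    rw [← norm_pos_iff, hn]; exact norm_pos_iff.2 hw
  have he : ∀ θ : ℝ, wd (ee θ) w = sp (ee θ) u := by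
    intro θ; rw [hu, wd, sp]; ring
  simp only [he]
  rw [← hn]
  exact circ' hu0 hd

end Pool.Agent.Helper68_F5
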