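import Pool.Agent.Helper68_F5.Dsum

/-!
MP_f5cbfa_nt, duality count: the number of pairs `(v, h)` (Theorem D of note 2492, lattice
version, one dyadic piece `R ≤ ‖v₁‖ < 2R`).
-/

set_option autoImplicit false

open MeasureTheory

namespace Pool.Agent.Helper68_F5

/-- the pair `(v, h)` is in the count of size `R` -/
structure Pair (g : ℤ × ℤ →+ ℂ) (P R S V₁ V₂ V₃ ω₁ ω₂ ω₃ : ℝ) (v h : T3) : Prop where
  lo : R ≤ ‖g v.1‖
  hi : ‖g v.1‖ ≤ 2 * R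
  tri : Tri P ‖g v.1‖ (g v.1) (g v.2.1) (g v.2.2)
  win : HWin S ‖g v.1‖ V₁ V₂ V₃ ω₁ ω₂ ω₃ (g v.1) (g v.2.1) (g v.2.2) (g h.1) (g h.2.1) (g h.2.2)

/-- the bound of the count -/
noncomputable def NB (P R S V₁ V₂ V₃ ω₁ ω₂ ω₃ : ℝ) : ℝ :=
  R ^ 4 * FF R V₁ (WW P R S V₁ V₁ ω₁) * FF R V₂ (WW P R S V₁ V₂ ω₂) *
    (max 1 V₃ * (1 + WW P R S V₁ V₃ ω₃ / R))

theorem pair_count (hst : StripStmt) (hds : DiscStripStmt) (hbox : BoxStmt) (han : AnnStmt)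
    (has : AnnStripStmt) (hsh : ShortStmt) : ∀ c₀ : ℝ, 0 < c₀ → ∃ K : ℝ, 1 ≤ K ∧
    ∀ g : ℤ × ℤ →+ ℂ, Sep c₀ g → ∀ (P R S V₁ V₂ V₃ ω₁ ω₂ ω₃ : ℝ), 1 ≤ P → 4 * P ≤ R → 0 < S →
      1 ≤ V₂ → V₂ ≤ V₁ → 0 ≤ V₃ → V₃ ≤ V₂ → 0 ≤ ω₁ → 0 ≤ ω₂ → 0 ≤ ω₃ →
      ∀ 𝓟 : Finset (T3 × T3), (∀ p ∈ 𝓟, Pair g P R S V₁ V₂ V₃ ω₁ ω₂ ω₃ p.1 p.2) →
        (𝓟.card : ℝ) ≤ K * P ^ 8 * NB P R S V₁ V₂ V₃ ω₁ ω₂ ω₃ := by
  classical
  intro c₀ hc₀
  obtain ⟨K₁, hK₁, h1⟩ := hcount hst hds c₀ hc₀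
  obtain ⟨K₂, hK₂, h2⟩ := dsum_ann han has hsh c₀ hc₀
  obtain ⟨K₃, hK₃, h3⟩ := dsum_disc hds hbox hsh c₀ hc₀
  obtain ⟨K₄, hK₄, h4⟩ := han c₀ hc₀
  have k1 : 1 ≤ K₁ * K₂ := by nlinarith [mul_le_mul hK₁ hK₂ zero_le_one (by linarith)]
  have k2 : 1 ≤ K₁ * K₂ * K₃ := by nlinarith [mul_le_mul k1 hK₃ zero_le_one (by linarith)]
  have k3 : 1 ≤ K₁ * K₂ * K₃ * (3 * K₄) := by
    nlinarith [mul_le_mul k2 (by linarith : (1 : ℝ) ≤ 3 * K₄) zero_le_one (by linarith)]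
  refine ⟨K₁ * K₂ * K₃ * (3 * K₄), k3, ?_⟩
  intro g hg P R S V₁ V₂ V₃ ω₁ ω₂ ω₃ hP hPR hS hV2 h21 h30 h32 hω₁ hω₂ hω₃ 𝓟 h𝓟
  have hR : 1 ≤ R := by linarith
  have hR0 : 0 < R := by linarith
  have hP0 : 0 < P := by linarith
  obtain ⟨W₁, hW₁⟩ : ∃ W, W = WW P R S V₁ V₁ ω₁ := ⟨_, rfl⟩
  obtain ⟨W₂, hW₂⟩ : ∃ W, W = WW P R S V₁ V₂ ω₂ := ⟨_, rfl⟩
  obtain ⟨W₃, hW₃⟩ : ∃ W, W = WW P R S V₁ V₃ ω₃ := ⟨_, rfl⟩
  have hW₁0 : 0 ≤ W₁ := by rw [hW₁]; exact WW_nonneg hR0.le hS.le (by linarith) hω₁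
  have hW₂0 : 0 ≤ W₂ := by rw [hW₂]; exact WW_nonneg hR0.le hS.le (by linarith) hω₂
  have hW₃0 : 0 ≤ W₃ := by rw [hW₃]; exact WW_nonneg hR0.le hS.le h30 hω₃
  obtain ⟨B, hB⟩ : ∃ B, B = max 1 V₃ * (1 + W₃ / R) := ⟨_, rfl⟩
  have hB0 : 0 ≤ B := by
    rw [hB]
    have : (0 : ℝ) ≤ max 1 V₃ := le_trans zero_le_one (le_max_left _ _)
    positivity
  have hF₁ := FF_ge (R := R) (V := V₁) (W := W₁) hR (by linarith) hW₁0
  have hF₂ := FF_ge (R := R) (V := V₂) (W := W₂) hR (by linarith) hW₂0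
  -- the first projection
  obtain ⟨𝓥, h𝓥⟩ : ∃ 𝓥, 𝓥 = 𝓟.image (fun p => p.1) := ⟨_, rfl⟩
  have hv : ∀ v ∈ 𝓥, R ≤ ‖g v.1‖ ∧ ‖g v.1‖ ≤ 2 * R ∧ Tri P ‖g v.1‖ (g v.1) (g v.2.1) (g v.2.2) := by
    intro v hv
    rw [h𝓥, Finset.mem_image] at hv
    obtain ⟨p, hp, rfl⟩ := hv
    exact ⟨(h𝓟 p hp).lo, (h𝓟 p hp).hi, (h𝓟 p hp).tri⟩
  -- number of pairs as a sum over `v`
  have e1 : (𝓟.card : ℝ) ≤ ∑ v ∈ 𝓥, K₁ * B * (DP g P R V₁ W₁ (g v.1) * DP g P R V₂ W₂ (g v.2.1)) := by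
    have h5 := Finset.card_eq_sum_card_image (fun p : T3 × T3 => p.1) 𝓟
    have h6 : (𝓟.card : ℝ) = ∑ v ∈ 𝓥, ((𝓟.filter (fun p => p.1 = v)).card : ℝ) := by
      rw [h5, h𝓥]; push_cast; rfl
    rw [h6]
    refine Finset.sum_le_sum fun v hv' => ?_
    obtain ⟨hlo, hhi, ht⟩ := hv v hv'
    have hinj : Set.InjOn (fun p : T3 × T3 => p.2) (𝓟.filter (fun p => p.1 = v) : Finset _) := by
      intro x hx y hy hxy
      rw [Finset.mem_coe, Finset.mem_filter] at hx hy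
      exact Prod.ext (hx.2.trans hy.2.symm) hxy
    rw [← Finset.card_image_of_injOn hinj]
    have key := h1 g hg P R S ‖g v.1‖ V₁ V₂ V₃ ω₁ ω₂ ω₃ (g v.1) (g v.2.1) (g v.2.2) ht hR hlo hhi
      hS hV2 h21 h30 h32 hω₁ hω₂ hω₃ ((𝓟.filter (fun p => p.1 = v)).image (fun p => p.2)) (by
        intro h hh
        rw [Finset.mem_image] at hh
        obtain ⟨p, hp, rfl⟩ := hh
        rw [Finset.mem_filter] at hp
        rw [← hp.2]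
        exact (h𝓟 p hp.1).win)
    rw [← hW₁, ← hW₂, ← hW₃, ← hB] at key
    refine le_trans key (le_of_eq ?_)
    ring
  -- fibre the sum over `v`
  have e2 : ∀ (F G : ℤ × ℤ → ℝ), (∀ z, 0 ≤ F z) → (∀ z, 0 ≤ G z) →
      ∑ v ∈ 𝓥, F v.1 * G v.2.1 ≤ ∑ v₁ ∈ 𝓥.image (fun v => v.1),
        F v₁ * ((∑ v₂ ∈ (𝓥.filter (fun v => v.1 = v₁)).image (fun v => v.2.1), G v₂) *
          (3 * K₄ * P * R)) := by
    intro F G hF hG
    rw [← Finset.sum_fiberwise_of_maps_to (t := 𝓥.image (fun v => v.1)) (g := fun v : T3 => v.1)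
      (fun v hv => Finset.mem_image_of_mem _ hv)]
    refine Finset.sum_le_sum fun v₁ hv₁ => ?_
    have e3 : ∑ v ∈ 𝓥.filter (fun v => v.1 = v₁), F v.1 * G v.2.1 =
        F v₁ * ∑ v ∈ 𝓥.filter (fun v => v.1 = v₁), G v.2.1 := by
      rw [Finset.mul_sum]
      refine Finset.sum_congr rfl fun v hv => ?_
      rw [(Finset.mem_filter.1 hv).2]
    rw [e3]
    refine mul_le_mul_of_nonneg_left ?_ (hF _)
    rw [← Finset.sum_fiberwise_of_maps_to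
      (t := (𝓥.filter (fun v => v.1 = v₁)).image (fun v => v.2.1)) (g := fun v : T3 => v.2.1)
      (fun v hv => Finset.mem_image_of_mem _ hv), Finset.sum_mul]
    refine Finset.sum_le_sum fun v₂ _ => ?_
    have e4 : ∑ v ∈ (𝓥.filter (fun v => v.1 = v₁)).filter (fun v => v.2.1 = v₂), G v.2.1 =
        (((𝓥.filter (fun v => v.1 = v₁)).filter (fun v => v.2.1 = v₂)).card : ℝ) * G v₂ := by
      rw [← nsmul_eq_mul, ← Finset.sum_const]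
      refine Finset.sum_congr rfl fun v hv => ?_
      rw [(Finset.mem_filter.1 hv).2]
    rw [e4, mul_comm (G v₂)]
    refine mul_le_mul_of_nonneg_right ?_ (hG _)
    have hinj : Set.InjOn (fun v : T3 => v.2.2)
        ((𝓥.filter (fun v => v.1 = v₁)).filter (fun v => v.2.1 = v₂) : Finset _) := by
      intro x hx y hy hxy
      rw [Finset.mem_coe, Finset.mem_filter, Finset.mem_filter] at hx hy
      exact Prod.ext (hx.1.2.trans hy.1.2.symm) (Prod.ext (hx.2.trans hy.2.symm) hxy)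
    rw [← Finset.card_image_of_injOn hinj]
    by_cases hne : ((𝓥.filter (fun v => v.1 = v₁)).filter (fun v => v.2.1 = v₂)).Nonempty
    · obtain ⟨w, hw⟩ := hne
      rw [Finset.mem_filter, Finset.mem_filter] at hw
      obtain ⟨hlo, hhi, ht⟩ := hv w hw.1.1
      have key := h4 g hg ‖g v₁‖ P hP (norm_nonneg _)
        (((𝓥.filter (fun v => v.1 = v₁)).filter (fun v => v.2.1 = v₂)).image (fun v => v.2.2)) (by
          intro z hz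
          rw [Finset.mem_image] at hz
          obtain ⟨u, hu, rfl⟩ := hz
          rw [Finset.mem_filter, Finset.mem_filter] at hu
          have := (hv u hu.1.1).2.2.n₃
          rw [hu.1.2] at this
          exact this)
      refine le_trans key ?_
      rw [hw.1.2] at hhi
      calc K₄ * P * (‖g v₁‖ + P) ≤ K₄ * P * (3 * R) :=
            mul_le_mul_of_nonneg_left (by linarith) (by positivity)
        _ = 3 * K₄ * P * R := by ring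
    · rw [Finset.not_nonempty_iff_eq_empty] at hne
      rw [hne]
      simp only [Finset.image_empty, Finset.card_empty, Nat.cast_zero]
      positivity
  have hDP₁ : ∀ z, 0 ≤ DP g P R V₁ W₁ (g z) := fun z => by
    have := DP_nonneg g (P := P) (by linarith : (0 : ℝ) ≤ V₁) hW₁0 hR0.le (g z)
    linarith
  have hDP₂ : ∀ z, 0 ≤ DP g P R V₂ W₂ (g z) := fun z => by
    have := DP_nonneg g (P := P) (by linarith : (0 : ℝ) ≤ V₂) hW₂0 hR0.le (g z)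
    linarith
  have e5 := e2 (fun z => DP g P R V₁ W₁ (g z)) (fun z => DP g P R V₂ W₂ (g z)) hDP₁ hDP₂
  -- the annulus sums
  have e6 : ∀ v₁ ∈ 𝓥.image (fun v => v.1),
      ∑ v₂ ∈ (𝓥.filter (fun v => v.1 = v₁)).image (fun v => v.2.1), DP g P R V₂ W₂ (g v₂) ≤
        K₂ * P ^ 4 * R * FF R V₂ W₂ := by
    intro v₁ hv₁
    rw [Finset.mem_image] at hv₁
    obtain ⟨w, hw, rfl⟩ := hv₁
    obtain ⟨hlo, hhi, ht⟩ := hv w hw
    refine h2 g hg P R ‖g w.1‖ V₂ W₂ hP hPR hlo hhi (by linarith) hW₂0 _ ?_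
    intro z hz
    rw [Finset.mem_image] at hz
    obtain ⟨u, hu, rfl⟩ := hz
    rw [Finset.mem_filter] at hu
    have := (hv u hu.1).2.2.n₂
    rw [hu.2] at this
    exact this
  have e7 : ∑ v₁ ∈ 𝓥.image (fun v => v.1), DP g P R V₁ W₁ (g v₁) ≤
      K₃ * P ^ 3 * R ^ 2 * FF R V₁ W₁ := by
    refine h3 g hg P R V₁ W₁ hP hR (by linarith) hW₁0 _ ?_
    intro z hz
    rw [Finset.mem_image] at hz
    obtain ⟨u, hu, rfl⟩ := hz
    exact (hv u hu).2.1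
  have e8 : ∑ v ∈ 𝓥, DP g P R V₁ W₁ (g v.1) * DP g P R V₂ W₂ (g v.2.1) ≤
      (K₃ * P ^ 3 * R ^ 2 * FF R V₁ W₁) * (K₂ * P ^ 4 * R * FF R V₂ W₂ * (3 * K₄ * P * R)) := by
    refine le_trans e5 ?_
    have hc0 : 0 ≤ K₂ * P ^ 4 * R * FF R V₂ W₂ * (3 * K₄ * P * R) := by positivity
    refine le_trans ?_ (mul_le_mul_of_nonneg_right e7 hc0)
    rw [Finset.sum_mul]
    refine Finset.sum_le_sum fun v₁ hv₁ => ?_
    refine mul_le_mul_of_nonneg_left ?_ (hDP₁ v₁)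
    exact mul_le_mul_of_nonneg_right (e6 v₁ hv₁) (by positivity)
  refine le_trans e1 ?_
  rw [← Finset.mul_sum]
  have hKB : 0 ≤ K₁ * B := by positivity
  refine le_trans (mul_le_mul_of_nonneg_left e8 hKB) (le_of_eq ?_)
  unfold NB
  rw [← hW₁, ← hW₂, ← hW₃, ← hB]
  ring

end Pool.Agent.Helper68_F5
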