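import Pool.Agent.Helper68_F5.Hcnt

/-!
MP_f5cbfa_nt, duality count: the sums over `v` (step (5) of note 2492, lattice version).
-/

set_option autoImplicit false

open MeasureTheory

namespace Pool.Agent.Helper68_F5

theorem one_le_c {a b : ℝ} (ha : 1 ≤ a) (hb : 1 ≤ b) : 1 ≤ 5000 * a * b := by
  have : 1 * 1 ≤ a * b := mul_le_mul ha hb zero_le_one (by linarith)
  nlinarith

open Classical in
/-- the common estimate: `X` bounds the number of points, `Y (1 + d/‖b‖)` the number of points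
in a strip -/
theorem dsum_aux {g : ℤ × ℤ →+ ℂ} {K G : ℝ}
    (hsh : (∑ z ∈ (lt g G).filter (fun z => z ≠ 0), 1 / ‖g z‖ ≤ K * G) ∧
      (∑ z ∈ (lt g G).filter (fun z => z ≠ 0), 1 / ‖g z‖ ^ 2 ≤ K * (1 + Real.log G)))
    (hne : ∀ z : ℤ × ℤ, z ≠ 0 → g z ≠ 0)
    {P R V W X Y : ℝ} (hG : G = Real.sqrt R) (hR : 0 < R) (hP : 0 ≤ P) (hV : 0 ≤ V) (hW : 0 ≤ W)
    (hY : 0 ≤ Y) (S : Finset (ℤ × ℤ)) (hX : (S.card : ℝ) ≤ X)
    (hS : ∀ z : ℤ × ℤ, z ≠ 0 → ∀ d : ℝ, 0 ≤ d →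
      ((S.filter (fun v => |sp (g v) (g z)| ≤ d)).card : ℝ) ≤ Y * (1 + d / ‖g z‖)) :
    ∑ v ∈ S, DP g P R V W (g v) ≤ X * (1 + V / Real.sqrt R + V * W / R) +
      Y * (1 + 4608 * P ^ 3) * V * (K * G) + Y * (2 * W) * V * (K * (1 + Real.log G)) := by
  have hc : 0 ≤ 1 + V / Real.sqrt R + V * W / R := by positivity
  have h1 : ∑ v ∈ S, DP g P R V W (g v) = S.card * (1 + V / Real.sqrt R + V * W / R) +
      ∑ v ∈ S, ∑ z ∈ (lt g (Real.sqrt R)).filter
      (fun z => z ≠ 0 ∧ |sp (g v) (g z)| ≤ 2 * W + 4608 * P ^ 3 * ‖g z‖), V / ‖g z‖ := by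
    unfold DP
    rw [Finset.sum_add_distrib, Finset.sum_const, nsmul_eq_mul]
  have h2 : ∑ v ∈ S, ∑ z ∈ (lt g (Real.sqrt R)).filter
      (fun z => z ≠ 0 ∧ |sp (g v) (g z)| ≤ 2 * W + 4608 * P ^ 3 * ‖g z‖), V / ‖g z‖ =
      ∑ z ∈ (lt g G).filter (fun z => z ≠ 0),
        ((S.filter (fun v => |sp (g v) (g z)| ≤ 2 * W + 4608 * P ^ 3 * ‖g z‖)).card : ℝ) *
          (V / ‖g z‖) := by
    have e1 : ∀ v : ℤ × ℤ, ∑ z ∈ (lt g (Real.sqrt R)).filter
      (fun z => z ≠ 0 ∧ |sp (g v) (g z)| ≤ 2 * W + 4608 * P ^ 3 * ‖g z‖), V / ‖g z‖ =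
        ∑ z ∈ (lt g G).filter (fun z => z ≠ 0),
          if |sp (g v) (g z)| ≤ 2 * W + 4608 * P ^ 3 * ‖g z‖ then V / ‖g z‖ else 0 := by
      intro v
      rw [← Finset.sum_filter, Finset.filter_filter, hG]
    rw [Finset.sum_congr rfl fun v _ => e1 v, Finset.sum_comm]
    refine Finset.sum_congr rfl fun z _ => ?_
    rw [← Finset.sum_filter, Finset.sum_const, nsmul_eq_mul]
  have h3 : ∑ z ∈ (lt g G).filter (fun z => z ≠ 0),
        ((S.filter (fun v => |sp (g v) (g z)| ≤ 2 * W + 4608 * P ^ 3 * ‖g z‖)).card : ℝ) *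
          (V / ‖g z‖) ≤ ∑ z ∈ (lt g G).filter (fun z => z ≠ 0),
        (Y * (1 + 4608 * P ^ 3) * V * (1 / ‖g z‖) + Y * (2 * W) * V * (1 / ‖g z‖ ^ 2)) := by
    refine Finset.sum_le_sum fun z hz => ?_
    rw [Finset.mem_filter] at hz
    have hz0 : 0 < ‖g z‖ := norm_pos_iff.2 (hne z hz.2)
    have := hS z hz.2 (2 * W + 4608 * P ^ 3 * ‖g z‖) (by positivity)
    calc ((S.filter (fun v => |sp (g v) (g z)| ≤ 2 * W + 4608 * P ^ 3 * ‖g z‖)).card : ℝ) *
          (V / ‖g z‖) ≤ Y * (1 + (2 * W + 4608 * P ^ 3 * ‖g z‖) / ‖g z‖) * (V / ‖g z‖) :=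
          mul_le_mul_of_nonneg_right this (by positivity)
      _ = _ := by field_simp; ring
  rw [Finset.sum_add_distrib, ← Finset.mul_sum, ← Finset.mul_sum] at h3
  have h4 : Y * (1 + 4608 * P ^ 3) * V * ∑ z ∈ (lt g G).filter (fun z => z ≠ 0), 1 / ‖g z‖ ≤
      Y * (1 + 4608 * P ^ 3) * V * (K * G) := mul_le_mul_of_nonneg_left hsh.1 (by positivity)
  have h5 : Y * (2 * W) * V * ∑ z ∈ (lt g G).filter (fun z => z ≠ 0), 1 / ‖g z‖ ^ 2 ≤
      Y * (2 * W) * V * (K * (1 + Real.log G)) := mul_le_mul_of_nonneg_left hsh.2 (by positivity)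
  have h6 : S.card * (1 + V / Real.sqrt R + V * W / R) ≤ X * (1 + V / Real.sqrt R + V * W / R) :=
    mul_le_mul_of_nonneg_right hX hc
  rw [h1, h2]
  linarith

/-- the elementary factor -/
noncomputable def FF (R V W : ℝ) : ℝ := 1 + V / Real.sqrt R + V * W / R * (1 + Real.log R)

theorem FF_ge {R V W : ℝ} (hR : 1 ≤ R) (hV : 0 ≤ V) (hW : 0 ≤ W) : 1 ≤ FF R V W := by
  unfold FF
  have h1 := Real.log_nonneg hR
  have h2 : 0 ≤ V / Real.sqrt R := by positivity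
  have h3 : 0 ≤ V * W / R * (1 + Real.log R) := by positivity
  linarith

/-- arithmetic of the common estimate: `X = x N R^j`, `Y = y N R^(j-1)` -/
theorem dsum_arith {K P R V W N : ℝ} (hK : 1 ≤ K) (hP : 1 ≤ P) (hR : 1 ≤ R) (hV : 0 ≤ V)
    (hW : 0 ≤ W) (hN : 0 ≤ N) :
    N * R * (1 + V / Real.sqrt R + V * W / R) +
      N * (1 + 4608 * P ^ 3) * V * (K * Real.sqrt R) +
      N * (2 * W) * V * (K * (1 + Real.log (Real.sqrt R))) ≤
    5000 * K * P ^ 3 * N * R * FF R V W := by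
  have hR0 : 0 < R := by linarith
  have hs : 0 < Real.sqrt R := Real.sqrt_pos.2 hR0
  have hl := Real.log_nonneg hR
  have hlog : Real.log (Real.sqrt R) ≤ Real.log R := by
    refine Real.log_le_log hs ?_
    rw [Real.sqrt_le_left hR0.le]
    nlinarith
  have hlog0 : 0 ≤ Real.log (Real.sqrt R) := Real.log_nonneg (Real.one_le_sqrt.2 hR)
  have hP3 : 1 ≤ P ^ 3 := one_le_pow₀ hP
  have e1 : V * Real.sqrt R = R * (V / Real.sqrt R) := by
    have : Real.sqrt R * Real.sqrt R = R := Real.mul_self_sqrt hR0.le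
    field_simp
    nlinarith
  have e2 : W * V = R * (V * W / R) := by field_simp
  obtain ⟨x, hx⟩ : ∃ x, x = V / Real.sqrt R := ⟨_, rfl⟩
  obtain ⟨w, hw⟩ : ∃ w, w = V * W / R := ⟨_, rfl⟩
  have hx0 : 0 ≤ x := by rw [hx]; positivity
  have hw0 : 0 ≤ w := by rw [hw]; positivity
  have hKP : 1 ≤ K * P ^ 3 := by nlinarith
  have t1 : N * R * (1 + x + w) ≤ K * P ^ 3 * (N * R) * (1 + x + w * (1 + Real.log R)) := by
    have h1 : 1 + x + w ≤ 1 + x + w * (1 + Real.log R) := by nlinarith [mul_nonneg hw0 hl]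
    calc N * R * (1 + x + w) ≤ N * R * (1 + x + w * (1 + Real.log R)) :=
          mul_le_mul_of_nonneg_left h1 (by positivity)
      _ = 1 * (N * R * (1 + x + w * (1 + Real.log R))) := by ring
      _ ≤ K * P ^ 3 * (N * R * (1 + x + w * (1 + Real.log R))) :=
          mul_le_mul_of_nonneg_right hKP (by positivity)
      _ = _ := by ring
  have t2 : N * (1 + 4608 * P ^ 3) * V * (K * Real.sqrt R) ≤
      4609 * (K * P ^ 3 * (N * R) * x) := by
    have h1 : 1 + 4608 * P ^ 3 ≤ 4609 * P ^ 3 := by linarith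
    calc N * (1 + 4608 * P ^ 3) * V * (K * Real.sqrt R)
        = (1 + 4608 * P ^ 3) * (N * K * (V * Real.sqrt R)) := by ring
      _ ≤ 4609 * P ^ 3 * (N * K * (V * Real.sqrt R)) :=
          mul_le_mul_of_nonneg_right h1 (by positivity)
      _ = 4609 * P ^ 3 * (N * K * (R * x)) := by rw [e1, hx]
      _ = _ := by ring
  have t3 : N * (2 * W) * V * (K * (1 + Real.log (Real.sqrt R))) ≤
      2 * (K * P ^ 3 * (N * R) * (w * (1 + Real.log R))) := by
    calc N * (2 * W) * V * (K * (1 + Real.log (Real.sqrt R)))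
        = 2 * (N * K) * (W * V) * (1 + Real.log (Real.sqrt R)) := by ring
      _ ≤ 2 * (N * K) * (W * V) * (1 + Real.log R) :=
          mul_le_mul_of_nonneg_left (by linarith) (by positivity)
      _ = 1 * (2 * (K * (N * R) * (w * (1 + Real.log R)))) := by rw [e2, hw]; ring
      _ ≤ P ^ 3 * (2 * (K * (N * R) * (w * (1 + Real.log R)))) :=
          mul_le_mul_of_nonneg_right hP3 (by positivity)
      _ = _ := by ring
  unfold FF
  rw [← hx, ← hw]
  have t4 : 0 ≤ K * P ^ 3 * (N * R) := by positivity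
  have t5 : 0 ≤ K * P ^ 3 * (N * R) * x := by positivity
  have t6 : 0 ≤ K * P ^ 3 * (N * R) * (w * (1 + Real.log R)) := by positivity
  calc N * R * (1 + x + w) + N * (1 + 4608 * P ^ 3) * V * (K * Real.sqrt R) +
      N * (2 * W) * V * (K * (1 + Real.log (Real.sqrt R)))
      ≤ K * P ^ 3 * (N * R) * (1 + x + w * (1 + Real.log R)) +
        4609 * (K * P ^ 3 * (N * R) * x) +
        2 * (K * P ^ 3 * (N * R) * (w * (1 + Real.log R))) := by linarith
    _ ≤ 5000 * K * P ^ 3 * N * R * (1 + x + w * (1 + Real.log R)) := by nlinarith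

open Classical in
/-- sum over an annulus -/
theorem dsum_ann (han : AnnStmt) (has : AnnStripStmt) (hsh : ShortStmt) : ∀ c₀ : ℝ, 0 < c₀ →
    ∃ K : ℝ, 1 ≤ K ∧ ∀ g : ℤ × ℤ →+ ℂ, Sep c₀ g → ∀ (P R τ V W : ℝ), 1 ≤ P → 4 * P ≤ R →
      R ≤ τ → τ ≤ 2 * R → 0 ≤ V → 0 ≤ W → ∀ S : Finset (ℤ × ℤ), (∀ z ∈ S, |‖g z‖ - τ| ≤ P) →
      ∑ v ∈ S, DP g P R V W (g v) ≤ K * P ^ 4 * R * FF R V W := by
  intro c₀ hc₀
  obtain ⟨K₁, hK₁, h1⟩ := han c₀ hc₀
  obtain ⟨K₂, hK₂, h2⟩ := has c₀ hc₀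
  obtain ⟨K₃, hK₃, h3⟩ := hsh c₀ hc₀
  obtain ⟨K, hK⟩ : ∃ K, K = 3 * K₁ + K₂ := ⟨_, rfl⟩
  refine ⟨5000 * K₃ * K, one_le_c hK₃ (by linarith), ?_⟩
  intro g hg P R τ V W hP hPR hRτ hτR hV hW S hS
  have hR : 1 ≤ R := by linarith
  have hR0 : 0 < R := by linarith
  have hP0 : 0 < P := by linarith
  have hK0 : 0 ≤ K := by linarith
  have hne : ∀ z : ℤ × ℤ, z ≠ 0 → g z ≠ 0 := by
    intro z hz h0
    have := hg z hz
    rw [h0, norm_zero] at this
    linarith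
  have hX : (S.card : ℝ) ≤ K * P * R := by
    have := h1 g hg τ P hP (by linarith) S hS
    refine le_trans this ?_
    calc K₁ * P * (τ + P) ≤ K₁ * P * (3 * R) :=
          mul_le_mul_of_nonneg_left (by linarith) (by positivity)
      _ = 3 * K₁ * P * R := by ring
      _ ≤ K * P * R := by
          rw [hK]
          have : 0 ≤ K₂ * P * R := by positivity
          nlinarith
  have hY : ∀ z : ℤ × ℤ, z ≠ 0 → ∀ d : ℝ, 0 ≤ d →
      ((S.filter (fun v => |sp (g v) (g z)| ≤ d)).card : ℝ) ≤ K * P * (1 + d / ‖g z‖) := by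
    intro z hz d hd
    have := h2 g hg (g z) (hne z hz) τ P d hP (by linarith) hd
      (S.filter (fun v => |sp (g v) (g z)| ≤ d)) (fun v hv => by
        rw [Finset.mem_filter] at hv
        exact ⟨hS v hv.1, hv.2⟩)
    refine le_trans this ?_
    have h4 : 0 ≤ 1 + d / ‖g z‖ := by positivity
    refine mul_le_mul_of_nonneg_right ?_ h4
    refine mul_le_mul_of_nonneg_right ?_ hP0.le
    rw [hK]; linarith
  have key := dsum_aux (h3 g hg (Real.sqrt R) (Real.one_le_sqrt.2 hR)) hne rfl hR0 hP0.le hV hW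
    (by positivity : 0 ≤ K * P) S hX hY (P := P) (V := V) (W := W)
  refine le_trans key ?_
  have := dsum_arith (K := K₃) (P := P) (R := R) (V := V) (W := W) (N := K * P) hK₃ hP hR hV hW
    (by positivity)
  refine le_trans this (le_of_eq ?_)
  ring

open Classical in
/-- sum over a disc -/
theorem dsum_disc (hds : DiscStripStmt) (hbox : BoxStmt) (hsh : ShortStmt) : ∀ c₀ : ℝ, 0 < c₀ →
    ∃ K : ℝ, 1 ≤ K ∧ ∀ g : ℤ × ℤ →+ ℂ, Sep c₀ g → ∀ (P R V W : ℝ), 1 ≤ P → 1 ≤ R →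
      0 ≤ V → 0 ≤ W → ∀ S : Finset (ℤ × ℤ), (∀ z ∈ S, ‖g z‖ ≤ 2 * R) →
      ∑ v ∈ S, DP g P R V W (g v) ≤ K * P ^ 3 * R ^ 2 * FF R V W := by
  intro c₀ hc₀
  obtain ⟨K₁, hK₁, h1⟩ := hbox c₀ hc₀
  obtain ⟨K₂, hK₂, h2⟩ := hds c₀ hc₀
  obtain ⟨K₃, hK₃, h3⟩ := hsh c₀ hc₀
  obtain ⟨K, hK⟩ : ∃ K, K = 9 * K₁ + 2 * K₂ := ⟨_, rfl⟩
  refine ⟨5000 * K₃ * K, one_le_c hK₃ (by linarith), ?_⟩
  intro g hg P R V W hP hR hV hW S hS
  have hR0 : 0 < R := by linarith
  have hP0 : 0 < P := by linarith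
  have hK0 : 0 ≤ K := by linarith
  have hne : ∀ z : ℤ × ℤ, z ≠ 0 → g z ≠ 0 := by
    intro z hz h0
    have := hg z hz
    rw [h0, norm_zero] at this
    linarith
  have hX : (S.card : ℝ) ≤ K * R * R := by
    have := h1 g hg 1 norm_one (2 * R) (2 * R) 0 0 (by linarith) (by linarith) S (fun z hz => by
      have h4 := hS z hz
      have h5 := abs_sp_le 1 (g z)
      have h6 := abs_wd_le 1 (g z)
      rw [norm_one, one_mul] at h5 h6
      rw [sub_zero, sub_zero]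
      exact ⟨le_trans h5 h4, le_trans h6 h4⟩)
    refine le_trans this ?_
    have h7 : (1 + 2 * R) * (1 + 2 * R) ≤ 9 * (R * R) := by nlinarith
    calc K₁ * (1 + 2 * R) * (1 + 2 * R) = K₁ * ((1 + 2 * R) * (1 + 2 * R)) := by ring
      _ ≤ K₁ * (9 * (R * R)) := mul_le_mul_of_nonneg_left h7 (by linarith)
      _ ≤ K * R * R := by
          rw [hK]
          have : 0 ≤ K₂ * R * R := by positivity
          nlinarith
  have hY : ∀ z : ℤ × ℤ, z ≠ 0 → ∀ d : ℝ, 0 ≤ d →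
      ((S.filter (fun v => |sp (g v) (g z)| ≤ d)).card : ℝ) ≤ K * R * (1 + d / ‖g z‖) := by
    intro z hz d hd
    have := h2 g hg (g z) (hne z hz) (2 * R) d (by linarith) hd
      (S.filter (fun v => |sp (g v) (g z)| ≤ d)) (fun v hv => by
        rw [Finset.mem_filter] at hv
        exact ⟨hS v hv.1, hv.2⟩)
    refine le_trans this ?_
    have h4 : 0 ≤ 1 + d / ‖g z‖ := by positivity
    refine mul_le_mul_of_nonneg_right ?_ h4
    rw [hK]
    have : 0 ≤ K₁ * R := by positivity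
    nlinarith
  have key := dsum_aux (h3 g hg (Real.sqrt R) (Real.one_le_sqrt.2 hR)) hne rfl hR0 hP0.le hV hW
    (by positivity : 0 ≤ K * R) S hX hY (P := P) (V := V) (W := W)
  refine le_trans key ?_
  have := dsum_arith (K := K₃) (P := P) (R := R) (V := V) (W := W) (N := K * R) hK₃ hP hR hV hW
    (by positivity)
  refine le_trans this (le_of_eq ?_)
  ring

end Pool.Agent.Helper68_F5
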