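import Pool.Agent.Helper68_F5.Defs

/-!
MP_f5cbfa_nt, duality count: statements of the lattice point rows.
-/

set_option autoImplicit false

open MeasureTheory

namespace Pool.Agent.Helper68_F5

/-- lattice points in a box with sides `2A`, `2B` in the frame of the unit vector `u` -/
def BoxStmt : Prop :=
  ∀ c₀ : ℝ, 0 < c₀ → ∃ K : ℝ, 1 ≤ K ∧ ∀ g : ℤ × ℤ →+ ℂ, Sep c₀ g → ∀ (u : ℂ), ‖u‖ = 1 →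
    ∀ (A B α β : ℝ), 0 ≤ A → 0 ≤ B → ∀ S : Finset (ℤ × ℤ),
      (∀ z ∈ S, |sp u (g z) - α| ≤ A ∧ |wd u (g z) - β| ≤ B) →
      (S.card : ℝ) ≤ K * (1 + A) * (1 + B)

/-- annulus -/
def AnnStmt : Prop :=
  ∀ c₀ : ℝ, 0 < c₀ → ∃ K : ℝ, 1 ≤ K ∧ ∀ g : ℤ × ℤ →+ ℂ, Sep c₀ g → ∀ (τ P : ℝ), 1 ≤ P →
    0 ≤ τ → ∀ S : Finset (ℤ × ℤ), (∀ z ∈ S, |‖g z‖ - τ| ≤ P) →
      (S.card : ℝ) ≤ K * P * (τ + P)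

/-- disc and strip -/
def DiscStripStmt : Prop :=
  ∀ c₀ : ℝ, 0 < c₀ → ∃ K : ℝ, 1 ≤ K ∧ ∀ g : ℤ × ℤ →+ ℂ, Sep c₀ g → ∀ (b : ℂ), b ≠ 0 →
    ∀ (R d : ℝ), 1 ≤ R → 0 ≤ d → ∀ S : Finset (ℤ × ℤ),
      (∀ z ∈ S, ‖g z‖ ≤ R ∧ |sp (g z) b| ≤ d) →
      (S.card : ℝ) ≤ K * R * (1 + d / ‖b‖)

/-- annulus and strip -/
def AnnStripStmt : Prop :=
  ∀ c₀ : ℝ, 0 < c₀ → ∃ K : ℝ, 1 ≤ K ∧ ∀ g : ℤ × ℤ →+ ℂ, Sep c₀ g → ∀ (b : ℂ), b ≠ 0 →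
    ∀ (τ P d : ℝ), 1 ≤ P → 4 * P ≤ τ → 0 ≤ d → ∀ S : Finset (ℤ × ℤ),
      (∀ z ∈ S, |‖g z‖ - τ| ≤ P ∧ |sp (g z) b| ≤ d) →
      (S.card : ℝ) ≤ K * P * (1 + d / ‖b‖)

/-- curved strip: either the points are `G`-separated or there is a short vector in the
difference strip; in both cases they are separated in a strip of length `2V` and width
`2W/‖a‖` -/
def StripStmt : Prop :=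
  ∀ c₀ : ℝ, 0 < c₀ → ∃ K : ℝ, 1 ≤ K ∧ ∀ g : ℤ × ℤ →+ ℂ, Sep c₀ g →
    ∀ (S : Finset (ℤ × ℤ)) (a : ℂ) (V W L G w : ℝ) (ψ : ℤ × ℤ → ℝ),
      1 ≤ V → 0 ≤ W → 0 ≤ L → 2 * L ≤ ‖a‖ → 0 < ‖a‖ → 1 ≤ G →
      (∀ z ∈ S, ‖g z‖ ≤ V) → (∀ z ∈ S, |sp a (g z) + ψ z - w| ≤ W) →
      (∀ z ∈ S, ∀ z' ∈ S, |ψ z - ψ z'| ≤ L * ‖g z - g z'‖) →
      (S.card : ℝ) ≤ K * (1 + V / G + V * W / ‖a‖ +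
        ∑ z ∈ (lt g G).filter (fun z => z ≠ 0 ∧ |sp a (g z)| ≤ 2 * W + L * ‖g z‖), V / ‖g z‖)

/-- short vectors: weighted sums -/
def ShortStmt : Prop :=
  ∀ c₀ : ℝ, 0 < c₀ → ∃ K : ℝ, 1 ≤ K ∧ ∀ g : ℤ × ℤ →+ ℂ, Sep c₀ g → ∀ G : ℝ, 1 ≤ G →
    (∑ z ∈ (lt g G).filter (fun z => z ≠ 0), 1 / ‖g z‖ ≤ K * G) ∧
    (∑ z ∈ (lt g G).filter (fun z => z ≠ 0), 1 / ‖g z‖ ^ 2 ≤ K * (1 + Real.log G))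

end Pool.Agent.Helper68_F5
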