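import Pool.Agent.Helper68_F5.Itp
import Pool.Agent.Helper68_F5.Stmts

/-!
MP_f5cbfa_nt, duality count: number of `h` for fixed `v` (steps (3) of note 2492, straight
strips).
-/

set_option autoImplicit false

open MeasureTheory

namespace Pool.Agent.Helper68_F5

/-- triples of lattice points -/
abbrev T3 : Type := (ℤ × ℤ) × (ℤ × ℤ) × (ℤ × ℤ)

theorem card_fib {α β : Type*} [DecidableEq β] {s : Finset α} (f : α → β) {B N : ℝ}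
    (hB0 : 0 ≤ B) (hB : ∀ b, ((s.filter (fun x => f x = b)).card : ℝ) ≤ B)
    (hN : ((s.image f).card : ℝ) ≤ N) : (s.card : ℝ) ≤ B * N := by
  have h1 := Finset.card_eq_sum_card_image f s
  have h2 : (s.card : ℝ) = ∑ b ∈ s.image f, ((s.filter (fun x => f x = b)).card : ℝ) := by
    rw [h1]; push_cast; rfl
  rw [h2]
  calc ∑ b ∈ s.image f, ((s.filter (fun x => f x = b)).card : ℝ)
      ≤ ∑ _b ∈ s.image f, B := Finset.sum_le_sum fun b _ => hB b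
    _ = (s.image f).card * B := by rw [Finset.sum_const, nsmul_eq_mul]
    _ ≤ N * B := mul_le_mul_of_nonneg_right hN hB0
    _ = B * N := by ring

open Classical in
/-- the function `D` of note 2492 -/
noncomputable def DP (g : ℤ × ℤ →+ ℂ) (P R V W : ℝ) (v : ℂ) : ℝ :=
  1 + V / Real.sqrt R + V * W / R +
    ∑ z ∈ (lt g (Real.sqrt R)).filter
      (fun z => z ≠ 0 ∧ |sp v (g z)| ≤ 2 * W + 4608 * P ^ 3 * ‖g z‖), V / ‖g z‖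

theorem DP_nonneg (g : ℤ × ℤ →+ ℂ) {P R V W : ℝ} (hV : 0 ≤ V) (hW : 0 ≤ W) (hR : 0 ≤ R) (v : ℂ) :
    1 ≤ DP g P R V W v := by
  unfold DP
  have h1 : 0 ≤ V / Real.sqrt R := by positivity
  have h2 : 0 ≤ V * W / R := by positivity
  have h3 : 0 ≤ ∑ z ∈ (lt g (Real.sqrt R)).filter
      (fun z => z ≠ 0 ∧ |sp v (g z)| ≤ 2 * W + 4608 * P ^ 3 * ‖g z‖), V / ‖g z‖ :=
    Finset.sum_nonneg fun z _ => by positivity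
  linarith

/-- one strip -/
theorem dcount (hst : StripStmt) : ∀ c₀ : ℝ, 0 < c₀ → ∃ K : ℝ, 1 ≤ K ∧ ∀ g : ℤ × ℤ →+ ℂ,
    Sep c₀ g → ∀ (P R c V W w : ℝ) (v₁ v₂ v₃ v : ℂ), Tri P c v₁ v₂ v₃ → 1 ≤ R → R ≤ c →
      |‖v‖ - c| ≤ P → bf (A0 c v₁ v₂ v₃) v v = c ^ 2 → 1 ≤ V → 0 ≤ W →
      ∀ S : Finset (ℤ × ℤ), (∀ z ∈ S, ‖g z‖ ≤ V) →
        (∀ z ∈ S, |bf (A0 c v₁ v₂ v₃) v (g z) - w| ≤ W) →
        (S.card : ℝ) ≤ K * DP g P R V W v := by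
  intro c₀ hc₀
  obtain ⟨K, hK, h⟩ := hst c₀ hc₀
  refine ⟨2 * K, by linarith, ?_⟩
  intro g hg P R c V W w v₁ v₂ v₃ v t hR hRc hv hA hV hW S hS1 hS2
  have hc := t.c_pos
  have ha := t.norm_vc_ge hv hA
  have ha0 : 0 < ‖vc (A0 c v₁ v₂ v₃) v‖ := by linarith
  have hG : 1 ≤ Real.sqrt R := Real.one_le_sqrt.2 hR
  have key := h g hg S (vc (A0 c v₁ v₂ v₃) v) V W 0 (Real.sqrt R) w (fun _ => 0) hV hW le_rfl
    (by linarith) ha0 hG hS1 (fun z hz => by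
      rw [bf_vc]; simpa using hS2 z hz) (fun z _ z' _ => by simp)
  refine le_trans key ?_
  have e1 : V * W / ‖vc (A0 c v₁ v₂ v₃) v‖ ≤ 2 * (V * W / R) := by
    calc V * W / ‖vc (A0 c v₁ v₂ v₃) v‖ ≤ V * W / (R / 2) :=
          div_le_div_of_nonneg_left (by positivity) (by positivity) (by linarith)
      _ = 2 * (V * W / R) := by field_simp
  have e2 : ∑ z ∈ (lt g (Real.sqrt R)).filter (fun z => z ≠ 0 ∧
      |sp (vc (A0 c v₁ v₂ v₃) v) (g z)| ≤ 2 * W + 0 * ‖g z‖), V / ‖g z‖ ≤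
      ∑ z ∈ (lt g (Real.sqrt R)).filter (fun z => z ≠ 0 ∧
        |sp v (g z)| ≤ 2 * W + 4608 * P ^ 3 * ‖g z‖), V / ‖g z‖ := by
    refine Finset.sum_le_sum_of_subset_of_nonneg ?_ fun z _ _ => by positivity
    intro z hz
    rw [Finset.mem_filter] at hz ⊢
    refine ⟨hz.1, hz.2.1, ?_⟩
    have := t.short hv (d := 2 * W) (by simpa using hz.2.2)
    exact this
  have e3 : 0 ≤ V / Real.sqrt R := by positivity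
  have e4 : 0 ≤ ∑ z ∈ (lt g (Real.sqrt R)).filter (fun z => z ≠ 0 ∧
        |sp v (g z)| ≤ 2 * W + 4608 * P ^ 3 * ‖g z‖), V / ‖g z‖ :=
    Finset.sum_nonneg fun z _ => by positivity
  have e5 : 0 ≤ V * W / R := by positivity
  unfold DP
  have hK0 : 0 < K := by linarith
  calc K * (1 + V / Real.sqrt R + V * W / ‖vc (A0 c v₁ v₂ v₃) v‖ +
      ∑ z ∈ (lt g (Real.sqrt R)).filter (fun z => z ≠ 0 ∧
        |sp (vc (A0 c v₁ v₂ v₃) v) (g z)| ≤ 2 * W + 0 * ‖g z‖), V / ‖g z‖)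
      ≤ K * (2 * (1 + V / Real.sqrt R + V * W / R +
      ∑ z ∈ (lt g (Real.sqrt R)).filter (fun z => z ≠ 0 ∧
        |sp v (g z)| ≤ 2 * W + 4608 * P ^ 3 * ‖g z‖), V / ‖g z‖)) := by
        refine mul_le_mul_of_nonneg_left ?_ hK0.le
        linarith
    _ = _ := by ring

/-- the windows of `h` at `v` -/
structure HWin (S c V₁ V₂ V₃ ω₁ ω₂ ω₃ : ℝ) (v₁ v₂ v₃ H₁ H₂ H₃ : ℂ) : Prop where
  n₁ : ‖H₁‖ ≤ V₁
  n₂ : ‖H₂‖ ≤ V₂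
  n₃ : ‖H₃‖ ≤ V₃
  a₁ : |bf (Ah S c v₁ v₂ v₃ H₁ H₂ H₃) v₁ H₁ - bf (Ah S c v₁ v₂ v₃ H₁ H₂ H₃) v₃ H₃| ≤ ω₁
  a₂ : |bf (Ah S c v₁ v₂ v₃ H₁ H₂ H₃) v₂ H₂ - bf (Ah S c v₁ v₂ v₃ H₁ H₂ H₃) v₃ H₃| ≤ ω₂
  a₃ : |bf (Ah S c v₁ v₂ v₃ H₁ H₂ H₃) v₃ H₃| ≤ ω₃

/-- half width of the straight strip number `l` -/
noncomputable def WW (P R S V₁ V ω : ℝ) : ℝ := ω + 1536 * P ^ 2 * (V₁ ^ 2 / S) * R * V

theorem WW_nonneg {P R S V₁ V ω : ℝ} (hR : 0 ≤ R) (hS : 0 ≤ S) (hV : 0 ≤ V)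
    (hω : 0 ≤ ω) : 0 ≤ WW P R S V₁ V ω := by unfold WW; positivity

/-- straight strips from the windows -/
theorem HWin.strips {P c S R V₁ V₂ V₃ ω₁ ω₂ ω₃ : ℝ} {v₁ v₂ v₃ H₁ H₂ H₃ : ℂ}
    (t : Tri P c v₁ v₂ v₃) (hS : 0 < S) (hcR : c ≤ 2 * R) (h21 : V₂ ≤ V₁) (h32 : V₃ ≤ V₂)
    (h0 : 0 ≤ V₃) (h : HWin S c V₁ V₂ V₃ ω₁ ω₂ ω₃ v₁ v₂ v₃ H₁ H₂ H₃) :
    |bf (A0 c v₁ v₂ v₃) v₁ H₁ - bf (A0 c v₁ v₂ v₃) v₃ H₃| ≤ WW P R S V₁ V₁ ω₁ ∧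
    |bf (A0 c v₁ v₂ v₃) v₂ H₂ - bf (A0 c v₁ v₂ v₃) v₃ H₃| ≤ WW P R S V₁ V₂ ω₂ ∧
    |bf (A0 c v₁ v₂ v₃) v₃ H₃| ≤ WW P R S V₁ V₃ ω₃ := by
  have hc := t.c_pos
  have b₂ : ‖H₂‖ ≤ V₁ := le_trans h.n₂ h21
  have b₃ : ‖H₃‖ ≤ V₁ := le_trans h.n₃ (le_trans h32 h21)
  have k0 : 0 ≤ P ^ 2 * (V₁ ^ 2 / S) := by positivity
  refine ⟨?_, ?_, ?_⟩
  · have := t.strip hS h.n₁ b₂ b₃ t.n₁ t.n₃ h.n₁ h.n₃ h.a₁
    refine le_trans this ?_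
    unfold WW
    have e : c * (V₁ + V₃) ≤ 2 * R * (2 * V₁) :=
      mul_le_mul hcR (by linarith) (by linarith) (by linarith)
    nlinarith [mul_le_mul_of_nonneg_left e k0]
  · have := t.strip hS h.n₁ b₂ b₃ t.n₂ t.n₃ h.n₂ h.n₃ h.a₂
    refine le_trans this ?_
    unfold WW
    have e : c * (V₂ + V₃) ≤ 2 * R * (2 * V₂) :=
      mul_le_mul hcR (by linarith) (by linarith) (by linarith)
    nlinarith [mul_le_mul_of_nonneg_left e k0]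
  · have hw : |bf (Ah S c v₁ v₂ v₃ H₁ H₂ H₃) v₃ H₃ - bf (Ah S c v₁ v₂ v₃ H₁ H₂ H₃) v₃ 0| ≤ ω₃ := by
      have e0 : bf (Ah S c v₁ v₂ v₃ H₁ H₂ H₃) v₃ 0 = 0 := by simp [bf]
      rw [e0, sub_zero]; exact h.a₃
    have := t.strip hS h.n₁ b₂ b₃ t.n₃ t.n₃ h.n₃ (U' := 0) (by simp) hw
    have e0 : bf (A0 c v₁ v₂ v₃) v₃ 0 = 0 := by simp [bf]
    rw [e0, sub_zero] at this
    refine le_trans this ?_
    unfold WW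
    have e : c * (V₃ + 0) ≤ 2 * R * V₃ := by
      rw [add_zero]; exact mul_le_mul_of_nonneg_right hcR h0
    nlinarith [mul_le_mul_of_nonneg_left e k0, mul_nonneg k0 (mul_nonneg
      (by linarith : (0 : ℝ) ≤ R) h0)]

/-- number of `h` for fixed `v` -/
theorem hcount (hst : StripStmt) (hds : DiscStripStmt) : ∀ c₀ : ℝ, 0 < c₀ → ∃ K : ℝ, 1 ≤ K ∧
    ∀ g : ℤ × ℤ →+ ℂ, Sep c₀ g → ∀ (P R S c V₁ V₂ V₃ ω₁ ω₂ ω₃ : ℝ) (v₁ v₂ v₃ : ℂ),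
      Tri P c v₁ v₂ v₃ → 1 ≤ R → R ≤ c → c ≤ 2 * R → 0 < S → 1 ≤ V₂ → V₂ ≤ V₁ → 0 ≤ V₃ →
      V₃ ≤ V₂ → 0 ≤ ω₁ → 0 ≤ ω₂ → 0 ≤ ω₃ → ∀ 𝓗 : Finset T3,
        (∀ h ∈ 𝓗, HWin S c V₁ V₂ V₃ ω₁ ω₂ ω₃ v₁ v₂ v₃ (g h.1) (g h.2.1) (g h.2.2)) →
        (𝓗.card : ℝ) ≤ K * DP g P R V₁ (WW P R S V₁ V₁ ω₁) v₁ *
          DP g P R V₂ (WW P R S V₁ V₂ ω₂) v₂ *
          (max 1 V₃ * (1 + WW P R S V₁ V₃ ω₃ / R)) := by
  classical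
  intro c₀ hc₀
  obtain ⟨K₁, hK₁, hD⟩ := dcount hst c₀ hc₀
  obtain ⟨K₂, hK₂, hB⟩ := hds c₀ hc₀
  refine ⟨K₁ * K₁ * (K₂ * 2), by nlinarith [mul_le_mul hK₁ hK₁ zero_le_one (by linarith)], ?_⟩
  intro g hg P R S c V₁ V₂ V₃ ω₁ ω₂ ω₃ v₁ v₂ v₃ t hR hRc hcR hS hV2 h21 h3 h32 hω₁ hω₂ hω₃ 𝓗 h𝓗
  have hc := t.c_pos
  have hR0 : 0 < R := by linarith
  have hW₁ : 0 ≤ WW P R S V₁ V₁ ω₁ := WW_nonneg hR0.le hS.le (by linarith) hω₁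
  have hW₂ : 0 ≤ WW P R S V₁ V₂ ω₂ := WW_nonneg hR0.le hS.le (by linarith) hω₂
  have hW₃ : 0 ≤ WW P R S V₁ V₃ ω₃ := WW_nonneg hR0.le hS.le h3 hω₃
  have hA₁ : bf (A0 c v₁ v₂ v₃) v₁ v₁ = c ^ 2 := itp_val₁ t.w12 t.w23 t.w31 _ _ _
  have hA₂ : bf (A0 c v₁ v₂ v₃) v₂ v₂ = c ^ 2 := itp_val₂ t.w12 t.w23 t.w31 _ _ _
  have hA₃ : bf (A0 c v₁ v₂ v₃) v₃ v₃ = c ^ 2 := itp_val₃ t.w12 t.w23 t.w31 _ _ _
  obtain ⟨D₁, hD₁⟩ : ∃ D, D = K₁ * DP g P R V₁ (WW P R S V₁ V₁ ω₁) v₁ := ⟨_, rfl⟩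
  obtain ⟨D₂, hD₂⟩ : ∃ D, D = K₁ * DP g P R V₂ (WW P R S V₁ V₂ ω₂) v₂ := ⟨_, rfl⟩
  have hD₁0 : 0 ≤ D₁ := by
    rw [hD₁]
    have := DP_nonneg g (P := P) (by linarith : (0 : ℝ) ≤ V₁) hW₁ hR0.le v₁
    have h2 : (0 : ℝ) ≤ K₁ := by linarith
    exact mul_nonneg h2 (by linarith)
  have hD₂0 : 0 ≤ D₂ := by
    rw [hD₂]
    have := DP_nonneg g (P := P) (by linarith : (0 : ℝ) ≤ V₂) hW₂ hR0.le v₂
    have h2 : (0 : ℝ) ≤ K₁ := by linarith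
    exact mul_nonneg h2 (by linarith)
  -- fibres over `(h₂, h₃)`
  have f1 : ∀ b : (ℤ × ℤ) × (ℤ × ℤ), ((𝓗.filter (fun h => h.2 = b)).card : ℝ) ≤ D₁ := by
    intro b
    have hinj : Set.InjOn (fun h : T3 => h.1) (𝓗.filter (fun h => h.2 = b) : Finset T3) := by
      intro x hx y hy hxy
      rw [Finset.mem_coe, Finset.mem_filter] at hx hy
      exact Prod.ext hxy (hx.2.trans hy.2.symm)
    rw [← Finset.card_image_of_injOn hinj, hD₁]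
    refine hD g hg P R c V₁ (WW P R S V₁ V₁ ω₁) (bf (A0 c v₁ v₂ v₃) v₃ (g b.2)) v₁ v₂ v₃ v₁ t hR
      hRc t.n₁ hA₁ (by linarith) hW₁ _ ?_ ?_
    · intro z hz
      rw [Finset.mem_image] at hz
      obtain ⟨h, hh, rfl⟩ := hz
      exact (h𝓗 h (Finset.mem_filter.1 hh).1).n₁
    · intro z hz
      rw [Finset.mem_image] at hz
      obtain ⟨h, hh, rfl⟩ := hz
      rw [Finset.mem_filter] at hh
      have := ((h𝓗 h hh.1).strips t hS hcR h21 h32 h3).1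
      rw [← hh.2]; exact this
  -- the image in `(h₂, h₃)`
  have f2 : ∀ b : ℤ × ℤ, (((𝓗.image (fun h => h.2)).filter (fun q => q.2 = b)).card : ℝ) ≤ D₂ := by
    intro b
    have hinj : Set.InjOn (fun q : (ℤ × ℤ) × (ℤ × ℤ) => q.1)
        ((𝓗.image (fun h => h.2)).filter (fun q => q.2 = b) : Finset _) := by
      intro x hx y hy hxy
      rw [Finset.mem_coe, Finset.mem_filter] at hx hy
      exact Prod.ext hxy (hx.2.trans hy.2.symm)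
    rw [← Finset.card_image_of_injOn hinj, hD₂]
    refine hD g hg P R c V₂ (WW P R S V₁ V₂ ω₂) (bf (A0 c v₁ v₂ v₃) v₃ (g b)) v₁ v₂ v₃ v₂ t hR
      hRc t.n₂ hA₂ hV2 hW₂ _ ?_ ?_
    · intro z hz
      rw [Finset.mem_image] at hz
      obtain ⟨q, hq, rfl⟩ := hz
      rw [Finset.mem_filter, Finset.mem_image] at hq
      obtain ⟨⟨h, hh, rfl⟩, _⟩ := hq
      exact (h𝓗 h hh).n₂
    · intro z hz
      rw [Finset.mem_image] at hz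
      obtain ⟨q, hq, rfl⟩ := hz
      rw [Finset.mem_filter, Finset.mem_image] at hq
      obtain ⟨⟨h, hh, rfl⟩, hb⟩ := hq
      have := ((h𝓗 h hh).strips t hS hcR h21 h32 h3).2.1
      rw [← hb]; exact this
  -- the image in `h₃`
  have f3 : (((𝓗.image (fun h => h.2)).image (fun q => q.2)).card : ℝ) ≤
      K₂ * 2 * (max 1 V₃ * (1 + WW P R S V₁ V₃ ω₃ / R)) := by
    have ha := t.norm_vc_ge t.n₃ hA₃
    have ha0 : 0 < ‖vc (A0 c v₁ v₂ v₃) v₃‖ := by linarith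
    have := hB g hg (vc (A0 c v₁ v₂ v₃) v₃) (norm_pos_iff.1 ha0) (max 1 V₃)
      (WW P R S V₁ V₃ ω₃) (le_max_left _ _) hW₃ ((𝓗.image (fun h => h.2)).image (fun q => q.2)) (by
        intro z hz
        rw [Finset.mem_image] at hz
        obtain ⟨q, hq, rfl⟩ := hz
        rw [Finset.mem_image] at hq
        obtain ⟨h, hh, rfl⟩ := hq
        refine ⟨le_trans (h𝓗 h hh).n₃ (le_max_right _ _), ?_⟩
        rw [sp_comm, bf_vc]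
        exact ((h𝓗 h hh).strips t hS hcR h21 h32 h3).2.2)
    refine le_trans this ?_
    have e1 : WW P R S V₁ V₃ ω₃ / ‖vc (A0 c v₁ v₂ v₃) v₃‖ ≤ 2 * (WW P R S V₁ V₃ ω₃ / R) := by
      calc WW P R S V₁ V₃ ω₃ / ‖vc (A0 c v₁ v₂ v₃) v₃‖ ≤ WW P R S V₁ V₃ ω₃ / (R / 2) :=
            div_le_div_of_nonneg_left hW₃ (by positivity) (by linarith)
        _ = 2 * (WW P R S V₁ V₃ ω₃ / R) := by field_simp
    have e2 : 0 ≤ WW P R S V₁ V₃ ω₃ / R := by positivity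
    have e3 : 0 < max 1 V₃ := lt_max_of_lt_left zero_lt_one
    calc K₂ * max 1 V₃ * (1 + WW P R S V₁ V₃ ω₃ / ‖vc (A0 c v₁ v₂ v₃) v₃‖)
        ≤ K₂ * max 1 V₃ * (2 * (1 + WW P R S V₁ V₃ ω₃ / R)) := by
          refine mul_le_mul_of_nonneg_left (by linarith) (by positivity)
      _ = _ := by ring
  have g2 := card_fib (fun q : (ℤ × ℤ) × (ℤ × ℤ) => q.2) hD₂0 f2 f3
  have g1 := card_fib (fun h : T3 => h.2) hD₁0 f1 g2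
  refine le_trans g1 (le_of_eq ?_)
  rw [hD₁, hD₂]
  ring

end Pool.Agent.Helper68_F5
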