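import Pool.Agent.Helper68_F5.Hcnt

/-!
MP_f5cbfa_nt, duality count: number of `h` for fixed `v`, flexible form (free cut-offs for the
short vectors, conditions in terms of `a = A⁰ v`).
-/

set_option autoImplicit false

open MeasureTheory

namespace Pool.Agent.Helper68_F5

open Classical in
/-- the function `D`, in terms of the normal vector `a` of the strip -/
noncomputable def DQ (g : ℤ × ℤ →+ ℂ) (G V W : ℝ) (a : ℂ) : ℝ :=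
  1 + V / G + V * W / ‖a‖ +
    ∑ z ∈ (lt g G).filter (fun z => z ≠ 0 ∧ |sp a (g z)| ≤ 2 * W), V / ‖g z‖

theorem DQ_ge (g : ℤ × ℤ →+ ℂ) {G V W : ℝ} (hG : 0 ≤ G) (hV : 0 ≤ V) (hW : 0 ≤ W) (a : ℂ) :
    1 ≤ DQ g G V W a := by
  unfold DQ
  have h1 : 0 ≤ V / G := by positivity
  have h2 : 0 ≤ V * W / ‖a‖ := by positivity
  have h3 : 0 ≤ ∑ z ∈ (lt g G).filter (fun z => z ≠ 0 ∧ |sp a (g z)| ≤ 2 * W), V / ‖g z‖ :=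
    Finset.sum_nonneg fun z _ => by positivity
  linarith

/-- `DQ` is bounded by `DP` (which depends on `v` only) -/
theorem DQ_le_DP (g : ℤ × ℤ →+ ℂ) {P R c V W : ℝ} {v₁ v₂ v₃ v : ℂ} (t : Tri P c v₁ v₂ v₃)
    (hR : 1 ≤ R) (hRc : R ≤ c) (hv : |‖v‖ - c| ≤ P) (hA : bf (A0 c v₁ v₂ v₃) v v = c ^ 2)
    (hV : 0 ≤ V) (hW : 0 ≤ W) :
    DQ g (Real.sqrt R) V W (vc (A0 c v₁ v₂ v₃) v) ≤ 2 * DP g P R V W v := by
  have hc := t.c_pos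
  have ha := t.norm_vc_ge hv hA
  have hR0 : 0 < R := by linarith
  have e1 : V * W / ‖vc (A0 c v₁ v₂ v₃) v‖ ≤ 2 * (V * W / R) := by
    calc V * W / ‖vc (A0 c v₁ v₂ v₃) v‖ ≤ V * W / (R / 2) :=
          div_le_div_of_nonneg_left (by positivity) (by positivity) (by linarith)
      _ = 2 * (V * W / R) := by field_simp
  have e2 : ∑ z ∈ (lt g (Real.sqrt R)).filter (fun z => z ≠ 0 ∧
      |sp (vc (A0 c v₁ v₂ v₃) v) (g z)| ≤ 2 * W), V / ‖g z‖ ≤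
      ∑ z ∈ (lt g (Real.sqrt R)).filter (fun z => z ≠ 0 ∧
        |sp v (g z)| ≤ 2 * W + 4608 * P ^ 3 * ‖g z‖), V / ‖g z‖ := by
    refine Finset.sum_le_sum_of_subset_of_nonneg ?_ fun z _ _ => by positivity
    intro z hz
    rw [Finset.mem_filter] at hz ⊢
    exact ⟨hz.1, hz.2.1, t.short hv hz.2.2⟩
  have e3 : 0 ≤ V / Real.sqrt R := by positivity
  have e4 : 0 ≤ ∑ z ∈ (lt g (Real.sqrt R)).filter (fun z => z ≠ 0 ∧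
        |sp v (g z)| ≤ 2 * W + 4608 * P ^ 3 * ‖g z‖), V / ‖g z‖ :=
    Finset.sum_nonneg fun z _ => by positivity
  unfold DQ DP
  linarith

/-- one strip -/
theorem dcount2 (hst : StripStmt) : ∀ c₀ : ℝ, 0 < c₀ → ∃ K : ℝ, 1 ≤ K ∧ ∀ g : ℤ × ℤ →+ ℂ,
    Sep c₀ g → ∀ (P c G V W w : ℝ) (v₁ v₂ v₃ v : ℂ), Tri P c v₁ v₂ v₃ → 1 ≤ G →
      |‖v‖ - c| ≤ P → bf (A0 c v₁ v₂ v₃) v v = c ^ 2 → 1 ≤ V → 0 ≤ W →
      ∀ S : Finset (ℤ × ℤ), (∀ z ∈ S, ‖g z‖ ≤ V) →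
        (∀ z ∈ S, |bf (A0 c v₁ v₂ v₃) v (g z) - w| ≤ W) →
        (S.card : ℝ) ≤ K * DQ g G V W (vc (A0 c v₁ v₂ v₃) v) := by
  intro c₀ hc₀
  obtain ⟨K, hK, h⟩ := hst c₀ hc₀
  refine ⟨K, hK, ?_⟩
  intro g hg P c G V W w v₁ v₂ v₃ v t hG hv hA hV hW S hS1 hS2
  have hc := t.c_pos
  have ha := t.norm_vc_ge hv hA
  have ha0 : 0 < ‖vc (A0 c v₁ v₂ v₃) v‖ := by linarith
  have key := h g hg S (vc (A0 c v₁ v₂ v₃) v) V W 0 G w (fun _ => 0) hV hW le_rfl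
    (by linarith) ha0 hG hS1 (fun z hz => by
      rw [bf_vc]; simpa using hS2 z hz) (fun z _ z' _ => by simp)
  unfold DQ
  simpa using key

/-- number of `h` for fixed `v`, with free cut-offs `G₁`, `G₂` for the short vectors and the
conditions kept in terms of `a = A⁰ v` (so that either `v₃` or `v₁` can be used for them) -/
theorem hcount2 (hst : StripStmt) (hds : DiscStripStmt) : ∀ c₀ : ℝ, 0 < c₀ → ∃ K : ℝ, 1 ≤ K ∧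
    ∀ g : ℤ × ℤ →+ ℂ, Sep c₀ g → ∀ (P R S c V₁ V₂ V₃ ω₁ ω₂ ω₃ G₁ G₂ : ℝ) (v₁ v₂ v₃ : ℂ),
      Tri P c v₁ v₂ v₃ → 1 ≤ R → 1 ≤ G₁ → 1 ≤ G₂ → R ≤ c → c ≤ 2 * R → 0 < S → 1 ≤ V₂ → V₂ ≤ V₁ → 0 ≤ V₃ →
      V₃ ≤ V₂ → 0 ≤ ω₁ → 0 ≤ ω₂ → 0 ≤ ω₃ → ∀ 𝓗 : Finset T3,
        (∀ h ∈ 𝓗, HWin S c V₁ V₂ V₃ ω₁ ω₂ ω₃ v₁ v₂ v₃ (g h.1) (g h.2.1) (g h.2.2)) →
        (𝓗.card : ℝ) ≤ K * DQ g G₁ V₁ (WW P R S V₁ V₁ ω₁) (vc (A0 c v₁ v₂ v₃) v₁) *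
          DQ g G₂ V₂ (WW P R S V₁ V₂ ω₂) (vc (A0 c v₁ v₂ v₃) v₂) *
          (max 1 V₃ * (1 + WW P R S V₁ V₃ ω₃ / R)) := by
  classical
  intro c₀ hc₀
  obtain ⟨K₁, hK₁, hD⟩ := dcount2 hst c₀ hc₀
  obtain ⟨K₂, hK₂, hB⟩ := hds c₀ hc₀
  refine ⟨K₁ * K₁ * (K₂ * 2), by nlinarith [mul_le_mul hK₁ hK₁ zero_le_one (by linarith)], ?_⟩
  intro g hg P R S c V₁ V₂ V₃ ω₁ ω₂ ω₃ G₁ G₂ v₁ v₂ v₃ t hR hG₁ hG₂ hRc hcR hS hV2 h21 h3 h32 hω₁ hω₂ hω₃ 𝓗 h𝓗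
  have hc := t.c_pos
  have hR0 : 0 < R := by linarith
  have hW₁ : 0 ≤ WW P R S V₁ V₁ ω₁ := WW_nonneg hR0.le hS.le (by linarith) hω₁
  have hW₂ : 0 ≤ WW P R S V₁ V₂ ω₂ := WW_nonneg hR0.le hS.le (by linarith) hω₂
  have hW₃ : 0 ≤ WW P R S V₁ V₃ ω₃ := WW_nonneg hR0.le hS.le h3 hω₃
  have hA₁ : bf (A0 c v₁ v₂ v₃) v₁ v₁ = c ^ 2 := itp_val₁ t.w12 t.w23 t.w31 _ _ _
  have hA₂ : bf (A0 c v₁ v₂ v₃) v₂ v₂ = c ^ 2 := itp_val₂ t.w12 t.w23 t.w31 _ _ _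
  have hA₃ : bf (A0 c v₁ v₂ v₃) v₃ v₃ = c ^ 2 := itp_val₃ t.w12 t.w23 t.w31 _ _ _
  obtain ⟨D₁, hD₁⟩ : ∃ D, D = K₁ * DQ g G₁ V₁ (WW P R S V₁ V₁ ω₁) (vc (A0 c v₁ v₂ v₃) v₁) := ⟨_, rfl⟩
  obtain ⟨D₂, hD₂⟩ : ∃ D, D = K₁ * DQ g G₂ V₂ (WW P R S V₁ V₂ ω₂) (vc (A0 c v₁ v₂ v₃) v₂) := ⟨_, rfl⟩
  have hD₁0 : 0 ≤ D₁ := by
    rw [hD₁]
    have := DQ_ge g (by linarith : (0 : ℝ) ≤ G₁) (by linarith : (0 : ℝ) ≤ V₁) hW₁ (vc (A0 c v₁ v₂ v₃) v₁)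
    have h2 : (0 : ℝ) ≤ K₁ := by linarith
    exact mul_nonneg h2 (by linarith)
  have hD₂0 : 0 ≤ D₂ := by
    rw [hD₂]
    have := DQ_ge g (by linarith : (0 : ℝ) ≤ G₂) (by linarith : (0 : ℝ) ≤ V₂) hW₂ (vc (A0 c v₁ v₂ v₃) v₂)
    have h2 : (0 : ℝ) ≤ K₁ := by linarith
    exact mul_nonneg h2 (by linarith)
  -- fibres over `(h₂, h₃)`
  have f1 : ∀ b : (ℤ × ℤ) × (ℤ × ℤ), ((𝓗.filter (fun h => h.2 = b)).card : ℝ) ≤ D₁ := by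
    intro b
    have hinj : Set.InjOn (fun h : T3 => h.1) (𝓗.filter (fun h => h.2 = b) : Finset T3) := by
      intro x hx y hy hxy
      rw [Finset.mem_coe, Finset.mem_filter] at hx hy
      exact Prod.ext hxy (hx.2.trans hy.2.symm)
    rw [← Finset.card_image_of_injOn hinj, hD₁]
    refine hD g hg P c G₁ V₁ (WW P R S V₁ V₁ ω₁) (bf (A0 c v₁ v₂ v₃) v₃ (g b.2)) v₁ v₂ v₃ v₁ t
      hG₁ t.n₁ hA₁ (by linarith) hW₁ _ ?_ ?_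
    · intro z hz
      rw [Finset.mem_image] at hz
      obtain ⟨h, hh, rfl⟩ := hz
      exact (h𝓗 h (Finset.mem_filter.1 hh).1).n₁
    · intro z hz
      rw [Finset.mem_image] at hz
      obtain ⟨h, hh, rfl⟩ := hz
      rw [Finset.mem_filter] at hh
      have := ((h𝓗 h hh.1).strips t hS hcR h21 h32 h3).1
      rw [← hh.2]; exact this
  -- the image in `(h₂, h₃)`
  have f2 : ∀ b : ℤ × ℤ, (((𝓗.image (fun h => h.2)).filter (fun q => q.2 = b)).card : ℝ) ≤ D₂ := by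
    intro b
    have hinj : Set.InjOn (fun q : (ℤ × ℤ) × (ℤ × ℤ) => q.1)
        ((𝓗.image (fun h => h.2)).filter (fun q => q.2 = b) : Finset _) := by
      intro x hx y hy hxy
      rw [Finset.mem_coe, Finset.mem_filter] at hx hy
      exact Prod.ext hxy (hx.2.trans hy.2.symm)
    rw [← Finset.card_image_of_injOn hinj, hD₂]
    refine hD g hg P c G₂ V₂ (WW P R S V₁ V₂ ω₂) (bf (A0 c v₁ v₂ v₃) v₃ (g b)) v₁ v₂ v₃ v₂ t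
      hG₂ t.n₂ hA₂ hV2 hW₂ _ ?_ ?_
    · intro z hz
      rw [Finset.mem_image] at hz
      obtain ⟨q, hq, rfl⟩ := hz
      rw [Finset.mem_filter, Finset.mem_image] at hq
      obtain ⟨⟨h, hh, rfl⟩, _⟩ := hq
      exact (h𝓗 h hh).n₂
    · intro z hz
      rw [Finset.mem_image] at hz
      obtain ⟨q, hq, rfl⟩ := hz
      rw [Finset.mem_filter, Finset.mem_image] at hq
      obtain ⟨⟨h, hh, rfl⟩, hb⟩ := hq
      have := ((h𝓗 h hh).strips t hS hcR h21 h32 h3).2.1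
      rw [← hb]; exact this
  -- the image in `h₃`
  have f3 : (((𝓗.image (fun h => h.2)).image (fun q => q.2)).card : ℝ) ≤
      K₂ * 2 * (max 1 V₃ * (1 + WW P R S V₁ V₃ ω₃ / R)) := by
    have ha := t.norm_vc_ge t.n₃ hA₃
    have ha0 : 0 < ‖vc (A0 c v₁ v₂ v₃) v₃‖ := by linarith
    have := hB g hg (vc (A0 c v₁ v₂ v₃) v₃) (norm_pos_iff.1 ha0) (max 1 V₃)
      (WW P R S V₁ V₃ ω₃) (le_max_left _ _) hW₃ ((𝓗.image (fun h => h.2)).image (fun q => q.2)) (by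
        intro z hz
        rw [Finset.mem_image] at hz
        obtain ⟨q, hq, rfl⟩ := hz
        rw [Finset.mem_image] at hq
        obtain ⟨h, hh, rfl⟩ := hq
        refine ⟨le_trans (h𝓗 h hh).n₃ (le_max_right _ _), ?_⟩
        rw [sp_comm, bf_vc]
        exact ((h𝓗 h hh).strips t hS hcR h21 h32 h3).2.2)
    refine le_trans this ?_
    have e1 : WW P R S V₁ V₃ ω₃ / ‖vc (A0 c v₁ v₂ v₃) v₃‖ ≤ 2 * (WW P R S V₁ V₃ ω₃ / R) := by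
      calc WW P R S V₁ V₃ ω₃ / ‖vc (A0 c v₁ v₂ v₃) v₃‖ ≤ WW P R S V₁ V₃ ω₃ / (R / 2) :=
            div_le_div_of_nonneg_left hW₃ (by positivity) (by linarith)
        _ = 2 * (WW P R S V₁ V₃ ω₃ / R) := by field_simp
    have e2 : 0 ≤ WW P R S V₁ V₃ ω₃ / R := by positivity
    have e3 : 0 < max 1 V₃ := lt_max_of_lt_left zero_lt_one
    calc K₂ * max 1 V₃ * (1 + WW P R S V₁ V₃ ω₃ / ‖vc (A0 c v₁ v₂ v₃) v₃‖)
        ≤ K₂ * max 1 V₃ * (2 * (1 + WW P R S V₁ V₃ ω₃ / R)) := by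
          refine mul_le_mul_of_nonneg_left (by linarith) (by positivity)
      _ = _ := by ring
  have g2 := card_fib (fun q : (ℤ × ℤ) × (ℤ × ℤ) => q.2) hD₂0 f2 f3
  have g1 := card_fib (fun h : T3 => h.2) hD₁0 f1 g2
  refine le_trans g1 (le_of_eq ?_)
  rw [hD₁, hD₂]
  ring

end Pool.Agent.Helper68_F5
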