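import Pool.Agent.Helper68_F5.Kdef
import Pool.Agent.Helper38_F5.Strip
import Pool.Agent.Helper38_F5.Short
import Pool.Agent.Helper38_F5.Ann
import Pool.Agent.Helper38_F5.Box

/-!
MP_f5cbfa_nt, duality count: the sum over `(v, h)` of the measure of the angles at which `v ∈ Z`
(Theorem D of note 2492, measure form).
-/

set_option autoImplicit false

open MeasureTheory

namespace Pool.Agent.Helper68_F5

/-- the ratio of the contribution of size `R` and of the main term -/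
noncomputable def ER (R V₁ V₂ ω₁ ω₂ : ℝ) : ℝ :=
  R ^ 3 / (V₁ * V₂) * ((1 / V₁ + 1 / Real.sqrt R + ω₁ / R + V₁ / R ^ 2) *
    (1 / V₂ + 1 / Real.sqrt R + ω₂ / R + V₂ / R ^ 2))

theorem vs_aux {S R V₁ V : ℝ} (hR : 1 ≤ R) (hRV : R ≤ 2 * V₁) (hV1 : V ≤ V₁)
    (hS : 0 < S) (hVS : V₁ ^ 7 ≤ S ^ 2) : V₁ ^ 2 / S * V ≤ 2 / Real.sqrt R := by
  have hR0 : 0 < R := by linarith
  have hs : 0 < Real.sqrt R := Real.sqrt_pos.2 hR0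
  have hV₁ : 0 < V₁ := by linarith
  have h1 : V₁ ^ 3 * Real.sqrt R ≤ 2 * S := by
    have h2 : (V₁ ^ 3 * Real.sqrt R) ^ 2 ≤ (2 * S) ^ 2 := by
      rw [mul_pow, Real.sq_sqrt hR0.le]
      have h3 : (V₁ ^ 3) ^ 2 * R ≤ (V₁ ^ 3) ^ 2 * (2 * V₁) :=
        mul_le_mul_of_nonneg_left hRV (by positivity)
      have h4 : (V₁ ^ 3) ^ 2 * (2 * V₁) = 2 * V₁ ^ 7 := by ring
      have h5 : 0 ≤ S ^ 2 := by positivity
      nlinarith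
    exact le_of_sq_le_sq h2 (by positivity)
  have h2 : V₁ ^ 2 / S * V ≤ V₁ ^ 3 / S := by
    rw [div_mul_eq_mul_div]
    refine div_le_div_of_nonneg_right ?_ hS.le
    calc V₁ ^ 2 * V ≤ V₁ ^ 2 * V₁ := mul_le_mul_of_nonneg_left hV1 (by positivity)
      _ = V₁ ^ 3 := by ring
  refine le_trans h2 ?_
  rw [div_le_div_iff₀ hS hs]
  linarith

/-- the factor of one index -/
theorem FF_le {P R S V₁ V ω : ℝ} (hP : 1 ≤ P) (hR : 1 ≤ R) (hRV : R ≤ 2 * V₁) (hV : 1 ≤ V)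
    (hV1 : V ≤ V₁) (hS : 0 < S) (hVS : V₁ ^ 7 ≤ S ^ 2) (hω : 0 ≤ ω) :
    FF R V (WW (2 * P) R S V₁ V (5 * ω + 16640000 * P ^ 6 * (V / R))) ≤
      20000000 * P ^ 6 * (1 + Real.log R) *
        (V * (1 / V + 1 / Real.sqrt R + ω / R + V / R ^ 2)) := by
  have hR0 : 0 < R := by linarith
  have hV0 : 0 < V := by linarith
  have hl := Real.log_nonneg hR
  have hs : 0 < Real.sqrt R := Real.sqrt_pos.2 hR0
  have hP6 : 1 ≤ P ^ 6 := one_le_pow₀ hP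
  have hP26 : P ^ 2 ≤ P ^ 6 := pow_le_pow_right₀ hP (by norm_num)
  have h1 := vs_aux hR hRV hV1 hS hVS
  obtain ⟨q, hq⟩ : ∃ q, q = V₁ ^ 2 / S * V := ⟨_, rfl⟩
  obtain ⟨a, ha⟩ : ∃ a, a = 1 / Real.sqrt R := ⟨_, rfl⟩
  obtain ⟨b, hb⟩ : ∃ b, b = ω / R := ⟨_, rfl⟩
  obtain ⟨d, hd⟩ : ∃ d, d = V / R ^ 2 := ⟨_, rfl⟩
  obtain ⟨l, hll⟩ : ∃ l, l = 1 + Real.log R := ⟨_, rfl⟩
  have ha0 : 0 ≤ a := by rw [ha]; positivity
  have hb0 : 0 ≤ b := by rw [hb]; positivity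
  have hd0 : 0 ≤ d := by rw [hd]; positivity
  have hl1 : 1 ≤ l := by rw [hll]; linarith
  have h1' : q ≤ 2 * a := by rw [hq, ha]; refine le_trans h1 (le_of_eq ?_); ring
  have e1 : FF R V (WW (2 * P) R S V₁ V (5 * ω + 16640000 * P ^ 6 * (V / R))) =
      1 + V * a + V * (5 * b + 16640000 * P ^ 6 * d + 6144 * P ^ 2 * q) * l := by
    unfold FF WW
    rw [hq, ha, hb, hd, hll]
    field_simp
    ring
  have e2 : V * (1 / V + a + b + d) = 1 + V * (a + b + d) := by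
    field_simp
    ring
  rw [e1, ← ha, ← hb, ← hd, ← hll, e2]
  have h2 : 5 * b + 16640000 * P ^ 6 * d + 6144 * P ^ 2 * q ≤
      17000000 * P ^ 6 * (a + b + d) := by
    have i1 : P ^ 2 * q ≤ P ^ 6 * (2 * a) := by
      have : P ^ 2 * q ≤ P ^ 2 * (2 * a) := mul_le_mul_of_nonneg_left h1' (by positivity)
      exact le_trans this (mul_le_mul_of_nonneg_right hP26 (by positivity))
    have i2 : b ≤ P ^ 6 * b := by nlinarith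
    have i3 : 0 ≤ P ^ 6 * a := by positivity
    have i4 : 0 ≤ P ^ 6 * d := by positivity
    nlinarith
  have h3 : V * (5 * b + 16640000 * P ^ 6 * d + 6144 * P ^ 2 * q) * l ≤
      17000000 * P ^ 6 * l * (V * (a + b + d)) := by
    calc V * (5 * b + 16640000 * P ^ 6 * d + 6144 * P ^ 2 * q) * l ≤
        V * (17000000 * P ^ 6 * (a + b + d)) * l := by
          refine mul_le_mul_of_nonneg_right ?_ (by linarith)
          exact mul_le_mul_of_nonneg_left h2 hV0.le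
      _ = _ := by ring
  have h4 : 1 ≤ P ^ 6 * l := by nlinarith
  have h5 : V * a ≤ P ^ 6 * l * (V * (a + b + d)) := by
    have : V * a ≤ V * (a + b + d) := mul_le_mul_of_nonneg_left (by linarith) hV0.le
    have h6 : 0 ≤ V * (a + b + d) := by positivity
    nlinarith
  have h6 : 0 ≤ P ^ 6 * l * (V * (a + b + d)) := by positivity
  nlinarith

/-- the smallest index -/
theorem W3_le {P R S V₁ V₃ t₀ : ℝ} (hP : 1 ≤ P) (hR : 1 ≤ R) (hRV : R ≤ 2 * V₁) (hV : 1 ≤ V₃)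
    (hV1 : V₃ ≤ V₁) (hS : 0 < S) (hVS : V₁ ^ 7 ≤ S ^ 2) (ht : 1 ≤ t₀) :
    1 + WW (2 * P) R S V₁ V₃ (2 * R * t₀ + 90000 * P ^ 3 * V₃) / R ≤
      90000 * P ^ 3 * (t₀ + V₃ / R) := by
  have hR0 : 0 < R := by linarith
  have hP3 : 1 ≤ P ^ 3 := one_le_pow₀ hP
  have hP23 : P ^ 2 ≤ P ^ 3 := pow_le_pow_right₀ hP (by norm_num)
  have h1 := vs_aux hR hRV hV1 hS hVS
  have hsq : 1 ≤ Real.sqrt R := Real.one_le_sqrt.2 hR
  have h2 : 2 / Real.sqrt R ≤ 2 := by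
    rw [div_le_iff₀ (by linarith)]; linarith
  obtain ⟨q, hq⟩ : ∃ q, q = V₁ ^ 2 / S * V₃ := ⟨_, rfl⟩
  obtain ⟨x, hx⟩ : ∃ x, x = V₃ / R := ⟨_, rfl⟩
  have hx0 : 0 ≤ x := by rw [hx]; positivity
  have hq2 : q ≤ 2 := by rw [hq]; linarith
  have e1 : 1 + WW (2 * P) R S V₁ V₃ (2 * R * t₀ + 90000 * P ^ 3 * V₃) / R =
      1 + 2 * t₀ + 90000 * P ^ 3 * x + 6144 * P ^ 2 * q := by
    unfold WW
    rw [hq, hx]
    field_simp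
    ring
  rw [e1, ← hx]
  have h3 : P ^ 2 * q ≤ P ^ 3 * 2 := by
    have : P ^ 2 * q ≤ P ^ 2 * 2 := mul_le_mul_of_nonneg_left hq2 (by positivity)
    exact le_trans this (mul_le_mul_of_nonneg_right hP23 (by norm_num))
  have h4 : P ^ 3 ≤ P ^ 3 * t₀ := by nlinarith
  have h5 : t₀ ≤ P ^ 3 * t₀ := by nlinarith
  linarith

/-- arithmetic of one scale -/
theorem scale_arith {K P R L V₁ V₂ V₃ t₀ E F₁ F₂ B μ X₁ X₂ N : ℝ} (hK : 0 ≤ K) (hP : 0 ≤ P)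
    (hR : 0 < R) (hL : 0 ≤ L) (hV₁ : 0 < V₁) (hV₂ : 0 < V₂) (hV₃ : 0 ≤ V₃) (ht : 0 ≤ t₀)
    (hF₁0 : 0 ≤ F₁) (hF₂0 : 0 ≤ F₂) (hμ0 : 0 ≤ μ) (hX₁ : 0 ≤ X₁) (hX₂ : 0 ≤ X₂)
    (hF₁ : F₁ ≤ 20000000 * P ^ 6 * (2 * L) * (V₁ * X₁))
    (hF₂ : F₂ ≤ 20000000 * P ^ 6 * (2 * L) * (V₂ * X₂))
    (hB : B ≤ 90000 * P ^ 3 * (t₀ + V₃ / R)) (h1 : R * μ ≤ 80 * P) (h2 : V₃ * μ ≤ 40 * P * t₀)
    (hE : R ^ 3 / (V₁ * V₂) * (X₁ * X₂) ≤ E)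
    (hN : N ≤ K * (2 * P) ^ 8 * (R ^ 4 * F₁ * F₂ * (V₃ * B))) :
    N * μ ≤ (2 ^ 8 * 40000000 ^ 2 * 90000 * 120) * K * P ^ 24 * L ^ 2 *
      (V₁ ^ 2 * V₂ ^ 2 * (V₃ * t₀)) * E := by
  have e1 : R ^ 4 * (V₁ * X₁) * (V₂ * X₂) = R * (V₁ * V₂) ^ 2 * (R ^ 3 / (V₁ * V₂) * (X₁ * X₂)) := by
    field_simp
  have g1 : R ^ 4 * F₁ * F₂ ≤ 40000000 ^ 2 * P ^ 12 * L ^ 2 * (R * (V₁ * V₂) ^ 2 * E) := by
    calc R ^ 4 * F₁ * F₂ ≤ R ^ 4 * (20000000 * P ^ 6 * (2 * L) * (V₁ * X₁)) *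
          (20000000 * P ^ 6 * (2 * L) * (V₂ * X₂)) :=
          mul_le_mul (mul_le_mul_of_nonneg_left hF₁ (by positivity)) hF₂ hF₂0 (by positivity)
      _ = 40000000 ^ 2 * P ^ 12 * L ^ 2 * (R ^ 4 * (V₁ * X₁) * (V₂ * X₂)) := by ring
      _ = 40000000 ^ 2 * P ^ 12 * L ^ 2 *
          (R * (V₁ * V₂) ^ 2 * (R ^ 3 / (V₁ * V₂) * (X₁ * X₂))) := by rw [e1]
      _ ≤ _ := by
          refine mul_le_mul_of_nonneg_left ?_ (by positivity)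
          exact mul_le_mul_of_nonneg_left hE (by positivity)
  have hE0 : 0 ≤ E := le_trans (by positivity) hE
  have g2 : V₃ * B ≤ V₃ * (90000 * P ^ 3 * (t₀ + V₃ / R)) := mul_le_mul_of_nonneg_left hB hV₃
  have g3 : R ^ 4 * F₁ * F₂ * (V₃ * B) ≤ 40000000 ^ 2 * P ^ 12 * L ^ 2 * (R * (V₁ * V₂) ^ 2 * E) *
      (V₃ * (90000 * P ^ 3 * (t₀ + V₃ / R))) := by
    refine le_trans (mul_le_mul_of_nonneg_left g2 (by positivity)) ?_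
    exact mul_le_mul_of_nonneg_right g1 (by positivity)
  have g4 : R * (t₀ + V₃ / R) * (V₃ * μ) ≤ 120 * P * (V₃ * t₀) := by
    have e2 : R * (t₀ + V₃ / R) * (V₃ * μ) = V₃ * t₀ * (R * μ) + V₃ * (V₃ * μ) := by
      field_simp
    rw [e2]
    have i1 : V₃ * t₀ * (R * μ) ≤ V₃ * t₀ * (80 * P) := mul_le_mul_of_nonneg_left h1 (by positivity)
    have i2 : V₃ * (V₃ * μ) ≤ V₃ * (40 * P * t₀) := mul_le_mul_of_nonneg_left h2 hV₃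
    linarith
  calc N * μ ≤ K * (2 * P) ^ 8 * (R ^ 4 * F₁ * F₂ * (V₃ * B)) * μ :=
        mul_le_mul_of_nonneg_right hN hμ0
    _ ≤ K * (2 * P) ^ 8 * (40000000 ^ 2 * P ^ 12 * L ^ 2 * (R * (V₁ * V₂) ^ 2 * E) *
        (V₃ * (90000 * P ^ 3 * (t₀ + V₃ / R)))) * μ := by
        refine mul_le_mul_of_nonneg_right ?_ hμ0
        exact mul_le_mul_of_nonneg_left g3 (by positivity)
    _ = (2 ^ 8 * 40000000 ^ 2 * 90000) * K * P ^ 23 * L ^ 2 * (V₁ ^ 2 * V₂ ^ 2) * E *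
        (R * (t₀ + V₃ / R) * (V₃ * μ)) := by ring
    _ ≤ (2 ^ 8 * 40000000 ^ 2 * 90000) * K * P ^ 23 * L ^ 2 * (V₁ ^ 2 * V₂ ^ 2) * E *
        (120 * P * (V₃ * t₀)) := mul_le_mul_of_nonneg_left g4 (by positivity)
    _ = _ := by ring

/-- measure of the angles -/
theorem hit_le {P S δ r R₁ ω₁ ω₂ : ℝ} {H₁ H₂ H₃ v₁ v₂ v₃ : ℂ} {R V₃ t₀ : ℝ} (hP : 1 ≤ P)
    (hR : 4 * P ≤ R) (hlo : R ≤ ‖v₁‖) (hV₃ : 0 < V₃) (hH : V₃ ≤ P * ‖H₃‖) (hr : 0 ≤ r)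
    (ht : t₀ = min r V₃) :
    volume (Hit P S δ r R₁ ω₁ ω₂ H₁ H₂ H₃ v₁ v₂ v₃) ≤
      ENNReal.ofReal (min (80 * P / R) (40 * P * (t₀ / V₃))) := by
  by_cases he : (Hit P S δ r R₁ ω₁ ω₂ H₁ H₂ H₃ v₁ v₂ v₃).Nonempty
  swap
  · rw [Set.not_nonempty_iff_eq_empty] at he
    rw [he, measure_empty]
    exact bot_le
  obtain ⟨θ₀, _, e₁, e₂, κ₁, κ₂, κ₃, hp, hz⟩ := he
  have hcr := InZ.crude hp hz
  have hR0 : 0 < R := by linarith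
  have hv₃ : R / 2 ≤ ‖v₃‖ := by linarith [hcr.2.2.2.2]
  have hv₃0 : v₃ ≠ 0 := by
    rw [← norm_pos_iff]; linarith
  have hH0 : 0 < ‖H₃‖ := by
    by_contra h
    have : ‖H₃‖ = 0 := le_antisymm (not_lt.1 h) (norm_nonneg _)
    rw [this] at hH
    linarith
  have hH₃0 : H₃ ≠ 0 := norm_pos_iff.1 hH0
  have m1 : volume (Hit P S δ r R₁ ω₁ ω₂ H₁ H₂ H₃ v₁ v₂ v₃) ≤ ENNReal.ofReal (80 * P / R) := by
    refine le_trans (measure_mono ?_) (le_trans (circ_wd' hv₃0 (by linarith : 0 ≤ P)) ?_)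
    · rintro θ ⟨hθ, e₁, e₂, κ₁, κ₂, κ₃, hp, hz⟩
      exact ⟨hθ, (InZ.crude hp hz).2.2.2.1⟩
    · apply ENNReal.ofReal_le_ofReal
      have : P / ‖v₃‖ ≤ P / (R / 2) := div_le_div_of_nonneg_left (by linarith) (by linarith) hv₃
      calc 40 * (P / ‖v₃‖) ≤ 40 * (P / (R / 2)) := by linarith
        _ = 80 * P / R := by field_simp; ring
  have m2 : volume (Hit P S δ r R₁ ω₁ ω₂ H₁ H₂ H₃ v₁ v₂ v₃) ≤
      ENNReal.ofReal (40 * P * (r / V₃)) := by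
    refine le_trans (measure_mono ?_) (le_trans (circ' hH₃0 hr) ?_)
    · rintro θ ⟨hθ, e₁, e₂, κ₁, κ₂, κ₃, hp, hz⟩
      exact ⟨hθ, hp.slab⟩
    · apply ENNReal.ofReal_le_ofReal
      have : r / ‖H₃‖ ≤ P * (r / V₃) := by
        rw [div_le_iff₀ hH0]
        calc r = r / V₃ * V₃ := by field_simp
          _ ≤ r / V₃ * (P * ‖H₃‖) := mul_le_mul_of_nonneg_left hH (by positivity)
          _ = P * (r / V₃) * ‖H₃‖ := by ring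
      linarith
  have m3 : volume (Hit P S δ r R₁ ω₁ ω₂ H₁ H₂ H₃ v₁ v₂ v₃) ≤ ENNReal.ofReal (40 * P * 1) := by
    refine le_trans (measure_mono (t := Set.Ioc (-Real.pi) Real.pi) ?_) ?_
    · rintro θ ⟨hθ, _⟩
      exact hθ
    · rw [Real.volume_Ioc]
      apply ENNReal.ofReal_le_ofReal
      have := Real.pi_lt_four
      linarith
  have m4 : volume (Hit P S δ r R₁ ω₁ ω₂ H₁ H₂ H₃ v₁ v₂ v₃) ≤
      ENNReal.ofReal (40 * P * (t₀ / V₃)) := by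
    rw [ht]
    rcases le_total r V₃ with h | h
    · rw [min_eq_left h]; exact m2
    · rw [min_eq_right h, div_self hV₃.ne']; exact m3
  rcases le_total (80 * P / R) (40 * P * (t₀ / V₃)) with h | h
  · rw [min_eq_left h]; exact m1
  · rw [min_eq_right h]; exact m4

/-- without any lower bound for `v` -/
theorem hit_le' {P S δ r R₁ ω₁ ω₂ : ℝ} {H₁ H₂ H₃ v₁ v₂ v₃ : ℂ} {V₃ t₀ : ℝ} (hP : 1 ≤ P)
    (hV₃ : 0 < V₃) (hH : V₃ ≤ P * ‖H₃‖) (hr : 0 ≤ r) (ht : t₀ = min r V₃) :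
    volume (Hit P S δ r R₁ ω₁ ω₂ H₁ H₂ H₃ v₁ v₂ v₃) ≤
      ENNReal.ofReal (40 * P * (t₀ / V₃)) := by
  have hH0 : 0 < ‖H₃‖ := by
    by_contra h
    have : ‖H₃‖ = 0 := le_antisymm (not_lt.1 h) (norm_nonneg _)
    rw [this] at hH
    linarith
  have hH₃0 : H₃ ≠ 0 := norm_pos_iff.1 hH0
  have m2 : volume (Hit P S δ r R₁ ω₁ ω₂ H₁ H₂ H₃ v₁ v₂ v₃) ≤
      ENNReal.ofReal (40 * P * (r / V₃)) := by
    refine le_trans (measure_mono ?_) (le_trans (circ' hH₃0 hr) ?_)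
    · rintro θ ⟨hθ, e₁, e₂, κ₁, κ₂, κ₃, hp, hz⟩
      exact ⟨hθ, hp.slab⟩
    · apply ENNReal.ofReal_le_ofReal
      have : r / ‖H₃‖ ≤ P * (r / V₃) := by
        rw [div_le_iff₀ hH0]
        calc r = r / V₃ * V₃ := by field_simp
          _ ≤ r / V₃ * (P * ‖H₃‖) := mul_le_mul_of_nonneg_left hH (by positivity)
          _ = P * (r / V₃) * ‖H₃‖ := by ring
      linarith
  have m3 : volume (Hit P S δ r R₁ ω₁ ω₂ H₁ H₂ H₃ v₁ v₂ v₃) ≤ ENNReal.ofReal (40 * P * 1) := by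
    refine le_trans (measure_mono (t := Set.Ioc (-Real.pi) Real.pi) ?_) ?_
    · rintro θ ⟨hθ, _⟩
      exact hθ
    · rw [Real.volume_Ioc]
      apply ENNReal.ofReal_le_ofReal
      have := Real.pi_lt_four
      linarith
  rw [ht]
  rcases le_total r V₃ with h | h
  · rw [min_eq_left h]; exact m2
  · rw [min_eq_right h, div_self hV₃.ne']; exact m3

theorem lt_card {g : ℤ × ℤ →+ ℂ} (hg : Sep 1 g) {K : ℝ}
    (hK : ∀ (u : ℂ), ‖u‖ = 1 → ∀ (A B α β : ℝ), 0 ≤ A → 0 ≤ B → ∀ S : Finset (ℤ × ℤ),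
      (∀ z ∈ S, |sp u (g z) - α| ≤ A ∧ |wd u (g z) - β| ≤ B) →
      (S.card : ℝ) ≤ K * (1 + A) * (1 + B)) {X : ℝ} (hX : 0 ≤ X) :
    ((lt g X).card : ℝ) ≤ K * (1 + X) ^ 2 := by
  have h := hK 1 norm_one X X 0 0 hX hX (lt g X) (by
    intro z hz
    rw [Helper38_F5.mem_lt one_pos hg] at hz
    constructor
    · rw [sub_zero]
      refine le_trans (abs_sp_le _ _) ?_
      rw [norm_one, one_mul]; exact hz
    · rw [sub_zero]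
      refine le_trans (abs_wd_le _ _) ?_
      rw [norm_one, one_mul]; exact hz)
  refine le_trans h (le_of_eq ?_)
  ring

theorem sum_ofReal_le {α : Type*} (s : Finset α) (f : α → ENNReal) {μ N : ℝ} (hμ : 0 ≤ μ)
    (hf : ∀ p ∈ s, f p ≤ ENNReal.ofReal μ) (hN : (s.card : ℝ) ≤ N) :
    ∑ p ∈ s, f p ≤ ENNReal.ofReal (N * μ) := by
  refine le_trans (Finset.sum_le_sum hf) ?_
  rw [Finset.sum_const, nsmul_eq_mul, ← ENNReal.ofReal_natCast,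
    ← ENNReal.ofReal_mul (Nat.cast_nonneg _)]
  exact ENNReal.ofReal_le_ofReal (mul_le_mul_of_nonneg_right hN hμ)

theorem cnt_pow_le {V : ℝ} {j : ℕ}
    (hj : (2 : ℝ) ^ j ≤ V) : j < ⌊2 * Real.log V⌋₊ + 1 := by
  rw [Nat.lt_succ_iff]
  refine Nat.le_floor ?_
  have h1 : Real.log ((2 : ℝ) ^ j) ≤ Real.log V := Real.log_le_log (by positivity) hj
  rw [Real.log_pow] at h1
  have h2 := Real.log_two_gt_d9
  have h3 : (0 : ℝ) ≤ j := Nat.cast_nonneg _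
  nlinarith

/-- THEOREM D of note 2492, measure form: the sum over `(v, h)` of the measure of the angles at
which `v ∈ Z`. -/
theorem kc1 : ∃ K : ℝ, 1 ≤ K ∧ ∀ g : ℤ × ℤ →+ ℂ, Sep 1 g →
    ∀ (P S δ r R₁ ω₁ ω₂ V₁ V₂ V₃ E : ℝ), 1 ≤ P → 0 < S → V₁ ^ 7 ≤ S ^ 2 → 1 ≤ V₃ → V₃ ≤ V₂ →
      V₂ ≤ V₁ → P ≤ V₁ → R₁ ≤ V₁ → 1 ≤ r → 1 ≤ ω₁ → 1 ≤ ω₂ → 0 ≤ δ → (R₁ + P) * δ ≤ 1 → 0 ≤ E →
      (∀ R, 1 ≤ R → R ≤ R₁ + P → ER R V₁ V₂ ω₁ ω₂ ≤ E) → ∀ 𝓗 𝓥 : Finset T3,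
      (∀ h ∈ 𝓗, ‖g h.1‖ ≤ V₁ ∧ ‖g h.2.1‖ ≤ V₂ ∧ ‖g h.2.2‖ ≤ V₃ ∧ V₃ ≤ P * ‖g h.2.2‖) →
      ∑ p ∈ 𝓥 ×ˢ 𝓗, volume (Hit P S δ r R₁ ω₁ ω₂ (g p.2.1) (g p.2.2.1) (g p.2.2.2)
        (g p.1.1) (g p.1.2.1) (g p.1.2.2)) ≤
      ENNReal.ofReal (K * P ^ 24 * (1 + Real.log V₁) ^ 3 *
        (V₁ ^ 2 * V₂ ^ 2 * (V₃ * min r V₃)) * (1 + E)) := by
  classical
  obtain ⟨K₀, hK₀, hpc⟩ := pair_count Helper38_F5.strip Helper38_F5.discStrip Helper38_F5.box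
    Helper38_F5.ann Helper38_F5.annStrip Helper38_F5.short 1 one_pos
  obtain ⟨K₁, hK₁, hbx⟩ := Helper38_F5.box 1 one_pos
  obtain ⟨C₀, hC₀⟩ : ∃ C : ℝ, C = 2 ^ 8 * 40000000 ^ 2 * 90000 * 120 := ⟨_, rfl⟩
  have hC₀0 : 1 ≤ C₀ := by rw [hC₀]; norm_num
  refine ⟨K₁ ^ 6 * (2403 ^ 6 * 64 * 40) + 2 * (C₀ * K₀), ?_, ?_⟩
  · have : 1 ≤ K₁ ^ 6 := one_le_pow₀ hK₁
    nlinarith [mul_le_mul hC₀0 hK₀ zero_le_one (by linarith)]
  intro g hg P S δ r R₁ ω₁ ω₂ V₁ V₂ V₃ E hP hS hVS hV3 h32 h21 hPV hRV hr hω₁ hω₂ hδ hRδ hE0 hE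
    𝓗 𝓥 h𝓗
  obtain ⟨t₀, ht₀⟩ : ∃ t, t = min r V₃ := ⟨_, rfl⟩
  rw [← ht₀]
  have ht1 : 1 ≤ t₀ := by rw [ht₀]; exact le_min hr hV3
  have htV : t₀ ≤ V₃ := by rw [ht₀]; exact min_le_right _ _
  have hV2 : 1 ≤ V₂ := by linarith
  have hV1 : 1 ≤ V₁ := by linarith
  obtain ⟨L, hL⟩ : ∃ L, L = 1 + Real.log V₁ := ⟨_, rfl⟩
  have hlog := Real.log_nonneg hV1
  have hL1 : 1 ≤ L := by rw [hL]; linarith
  rw [← hL]
  have hVS3 : V₁ ^ 3 ≤ S := by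
    have h1 : (V₁ ^ 3) ^ 2 ≤ S ^ 2 := by
      calc (V₁ ^ 3) ^ 2 = V₁ ^ 6 := by ring
        _ ≤ V₁ ^ 7 := pow_le_pow_right₀ hV1 (by norm_num)
        _ ≤ S ^ 2 := hVS
    exact le_of_sq_le_sq h1 hS.le
  obtain ⟨f, hf⟩ : ∃ f : T3 × T3 → ENNReal, f = fun p => volume (Hit P S δ r R₁ ω₁ ω₂ (g p.2.1)
    (g p.2.2.1) (g p.2.2.2) (g p.1.1) (g p.1.2.1) (g p.1.2.2)) := ⟨_, rfl⟩
  have hfne : ∀ p, f p ≠ 0 → (Hit P S δ r R₁ ω₁ ω₂ (g p.2.1)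
    (g p.2.2.1) (g p.2.2.2) (g p.1.1) (g p.1.2.1) (g p.1.2.2)).Nonempty := by
    intro p hp
    by_contra h
    rw [Set.not_nonempty_iff_eq_empty] at h
    apply hp
    rw [hf]
    simp only
    rw [h, measure_empty]
  obtain ⟨R₀, hR₀⟩ : ∃ R, R = 2400 * P ^ 3 := ⟨_, rfl⟩
  have hP3 : 1 ≤ P ^ 3 := one_le_pow₀ hP
  have hPP3 : P ≤ P ^ 3 := le_self_pow₀ hP (by norm_num)
  have hR₀1 : 2400 ≤ R₀ := by rw [hR₀]; linarith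
  obtain ⟨N, hN⟩ : ∃ N, N = ⌊2 * Real.log V₁⌋₊ + 1 := ⟨_, rfl⟩
  have hNL : (N : ℝ) ≤ 2 * L := by
    rw [hN, hL]
    push_cast
    have := Nat.floor_le (by linarith : 0 ≤ 2 * Real.log V₁)
    linarith
  obtain ⟨M, hM⟩ : ∃ M, M = C₀ * K₀ * P ^ 24 * L ^ 2 * (V₁ ^ 2 * V₂ ^ 2 * (V₃ * t₀)) * E := ⟨_, rfl⟩
  have hM0 : 0 ≤ M := by rw [hM]; positivity
  obtain ⟨𝓟, h𝓟⟩ : ∃ 𝓟 : Finset (T3 × T3), 𝓟 = 𝓥 ×ˢ 𝓗 := ⟨_, rfl⟩
  have hmem : ∀ p ∈ 𝓟, ‖g p.2.1‖ ≤ V₁ ∧ ‖g p.2.2.1‖ ≤ V₂ ∧ ‖g p.2.2.2‖ ≤ V₃ ∧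
      V₃ ≤ P * ‖g p.2.2.2‖ := by
    intro p hp
    rw [h𝓟, Finset.mem_product] at hp
    exact h𝓗 _ hp.2
  -- one scale
  have hscale : ∀ j : ℕ, ∑ p ∈ 𝓟.filter (fun p => R₀ * 2 ^ j ≤ ‖g p.1.1‖ ∧
      ‖g p.1.1‖ ≤ 2 * (R₀ * 2 ^ j)), f p ≤ ENNReal.ofReal M := by
    intro j
    obtain ⟨R, hR⟩ : ∃ R, R = R₀ * 2 ^ j := ⟨_, rfl⟩
    rw [← hR]
    have hpow : (1 : ℝ) ≤ 2 ^ j := one_le_pow₀ (by norm_num)
    have hRR₀ : 2400 * P ^ 3 ≤ R := by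
      rw [hR, ← hR₀]
      nlinarith
    have hR1 : 1 ≤ R := by linarith
    have hR0 : 0 < R := by linarith
    rw [← Finset.sum_filter_ne_zero]
    obtain ⟨𝓒, h𝓒⟩ : ∃ 𝓒, 𝓒 = (𝓟.filter (fun p => R ≤ ‖g p.1.1‖ ∧
      ‖g p.1.1‖ ≤ 2 * R)).filter (fun p => f p ≠ 0) := ⟨_, rfl⟩
    rw [← h𝓒]
    by_cases hne : 𝓒.Nonempty
    swap
    · rw [Finset.not_nonempty_iff_eq_empty] at hne
      rw [hne, Finset.sum_empty]
      exact bot_le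
    obtain ⟨p₀, hp₀⟩ := hne
    have hRle : R ≤ R₁ + P := by
      rw [h𝓒, Finset.mem_filter, Finset.mem_filter] at hp₀
      obtain ⟨θ, _, e₁, e₂, κ₁, κ₂, κ₃, hp, hz⟩ := hfne _ hp₀.2
      exact le_trans hp₀.1.2.1 (InZ.crude hp hz).1
    have hRV2 : R ≤ 2 * V₁ := by linarith
    have hRδ1 : R * δ ≤ 1 := le_trans (mul_le_mul_of_nonneg_right hRle hδ) hRδ
    obtain ⟨μ, hμ⟩ : ∃ μ, μ = min (80 * P / R) (40 * P * (t₀ / V₃)) := ⟨_, rfl⟩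
    have hμ0 : 0 ≤ μ := by rw [hμ]; exact le_min (by positivity) (by positivity)
    have hμ1 : R * μ ≤ 80 * P := by
      have : μ ≤ 80 * P / R := by rw [hμ]; exact min_le_left _ _
      rw [le_div_iff₀ hR0] at this
      linarith
    have hμ2 : V₃ * μ ≤ 40 * P * t₀ := by
      have : μ ≤ 40 * P * (t₀ / V₃) := by rw [hμ]; exact min_le_right _ _
      calc V₃ * μ ≤ V₃ * (40 * P * (t₀ / V₃)) := mul_le_mul_of_nonneg_left this (by linarith)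
        _ = 40 * P * t₀ := by field_simp
    have hfp : ∀ p ∈ 𝓒, f p ≤ ENNReal.ofReal μ := by
      intro p hp
      rw [h𝓒, Finset.mem_filter, Finset.mem_filter] at hp
      rw [hf, hμ]
      exact hit_le hP (by linarith) hp.1.2.1 (by linarith) (hmem p hp.1.1).2.2.2 (by linarith) ht₀
    have hcard := hpc g hg (2 * P) R S V₁ V₂ V₃ (5 * ω₁ + 16640000 * P ^ 6 * (V₁ / R))
      (5 * ω₂ + 16640000 * P ^ 6 * (V₂ / R)) (2 * R * t₀ + 90000 * P ^ 3 * V₃) (by linarith)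
      (by linarith) hS hV2 h21 (by linarith) h32 (by positivity) (by positivity) (by positivity) 𝓒
      (by
        intro p hp
        rw [h𝓒, Finset.mem_filter, Finset.mem_filter] at hp
        obtain ⟨θ, _, e₁, e₂, κ₁, κ₂, κ₃, hpt, hz⟩ := hfne _ hp.2
        have hm := hmem p hp.1.1
        refine pair_of_inZ hP hRR₀ (by linarith) hVS3 h21 h32 (by linarith) (by linarith)
          (by linarith) hm.1 hm.2.1 hm.2.2.1 ?_ hpt hz hp.1.2.1 hp.1.2.2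
        rw [ht₀]
        refine le_min hpt.slab ?_
        refine le_trans (abs_sp_le _ _) ?_
        rw [norm_ee, one_mul]
        exact hm.2.2.1)
    refine le_trans (sum_ofReal_le 𝓒 f hμ0 hfp hcard) ?_
    apply ENNReal.ofReal_le_ofReal
    have hlR : 1 + Real.log R ≤ 2 * L := by
      have h1 : Real.log R ≤ Real.log (2 * V₁) := Real.log_le_log hR0 hRV2
      rw [Real.log_mul (by norm_num) (by linarith)] at h1
      have h2 := Real.log_two_lt_d9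
      rw [hL]; linarith
    have hlR0 := Real.log_nonneg hR1
    obtain ⟨X₁, hX₁⟩ : ∃ X, X = 1 / V₁ + 1 / Real.sqrt R + ω₁ / R + V₁ / R ^ 2 := ⟨_, rfl⟩
    obtain ⟨X₂, hX₂⟩ : ∃ X, X = 1 / V₂ + 1 / Real.sqrt R + ω₂ / R + V₂ / R ^ 2 := ⟨_, rfl⟩
    have hX₁0 : 0 ≤ X₁ := by rw [hX₁]; positivity
    have hX₂0 : 0 ≤ X₂ := by rw [hX₂]; positivity
    have hF₁ := FF_le hP hR1 hRV2 hV1 le_rfl hS hVS (by linarith : 0 ≤ ω₁)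
    have hF₂ := FF_le hP hR1 hRV2 hV2 h21 hS hVS (by linarith : 0 ≤ ω₂)
    have hB := W3_le hP hR1 hRV2 hV3 (by linarith : V₃ ≤ V₁) hS hVS ht1
    rw [← hX₁] at hF₁
    rw [← hX₂] at hF₂
    have hF₁0 := FF_ge hR1 (by linarith : 0 ≤ V₁) (WW_nonneg (P := 2 * P) (V₁ := V₁) hR0.le hS.le
      (by linarith : 0 ≤ V₁) (by positivity : 0 ≤ 5 * ω₁ + 16640000 * P ^ 6 * (V₁ / R)))
    have hF₂0 := FF_ge hR1 (by linarith : 0 ≤ V₂) (WW_nonneg (P := 2 * P) (V₁ := V₁) hR0.le hS.le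
      (by linarith : 0 ≤ V₂) (by positivity : 0 ≤ 5 * ω₂ + 16640000 * P ^ 6 * (V₂ / R)))
    have hEE : R ^ 3 / (V₁ * V₂) * (X₁ * X₂) ≤ E := by
      rw [hX₁, hX₂]
      exact hE R hR1 hRle
    rw [hM, hC₀]
    refine scale_arith (F₁ := FF R V₁ (WW (2 * P) R S V₁ V₁
        (5 * ω₁ + 16640000 * P ^ 6 * (V₁ / R))))
      (F₂ := FF R V₂ (WW (2 * P) R S V₁ V₂ (5 * ω₂ + 16640000 * P ^ 6 * (V₂ / R))))
      (B := 1 + WW (2 * P) R S V₁ V₃ (2 * R * t₀ + 90000 * P ^ 3 * V₃) / R)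
      (by linarith) (by linarith) hR0 (by linarith) (by linarith) (by linarith) (by linarith)
      (by linarith) (by linarith) (by linarith) hμ0 hX₁0 hX₂0 ?_ ?_ hB hμ1 hμ2 hEE ?_
    · refine le_trans hF₁ ?_
      refine mul_le_mul_of_nonneg_right ?_ (by positivity)
      exact mul_le_mul_of_nonneg_left hlR (by positivity)
    · refine le_trans hF₂ ?_
      refine mul_le_mul_of_nonneg_right ?_ (by positivity)
      exact mul_le_mul_of_nonneg_left hlR (by positivity)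
    · unfold NB
      rw [max_eq_right hV3]
  -- the small vectors
  have hsmall : ∑ p ∈ 𝓟.filter (fun p => ‖g p.1.1‖ < R₀), f p ≤
      ENNReal.ofReal (K₁ ^ 6 * (2403 ^ 6 * 64 * 40) * P ^ 19 * (V₁ ^ 2 * V₂ ^ 2 * (V₃ * t₀))) := by
    rw [← Finset.sum_filter_ne_zero]
    obtain ⟨X, hX⟩ : ∃ X, X = 2402 * P ^ 3 := ⟨_, rfl⟩
    obtain ⟨𝓒, h𝓒⟩ : ∃ 𝓒, 𝓒 = (𝓟.filter (fun p => ‖g p.1.1‖ < R₀)).filter
      (fun p => f p ≠ 0) := ⟨_, rfl⟩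
    rw [← h𝓒]
    have hsub : 𝓒 ⊆ (lt g X ×ˢ lt g X ×ˢ lt g X) ×ˢ (lt g V₁ ×ˢ lt g V₂ ×ˢ lt g V₃) := by
      intro p hp
      rw [h𝓒, Finset.mem_filter, Finset.mem_filter] at hp
      obtain ⟨θ, _, e₁, e₂, κ₁, κ₂, κ₃, hpt, hz⟩ := hfne _ hp.2
      have hcr := InZ.crude hpt hz
      have hm := hmem p hp.1.1
      simp only [Finset.mem_product, Helper38_F5.mem_lt one_pos hg]
      refine ⟨⟨?_, ?_, ?_⟩, hm.1, hm.2.1, hm.2.2.1⟩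
      · linarith [hp.1.2]
      · linarith [hp.1.2, hcr.2.1]
      · linarith [hp.1.2, hcr.2.2.1]
    have hcX := lt_card hg (hbx g hg) (by rw [hX]; positivity : 0 ≤ X)
    have hcV₁ := lt_card hg (hbx g hg) (by linarith : 0 ≤ V₁)
    have hcV₂ := lt_card hg (hbx g hg) (by linarith : 0 ≤ V₂)
    have hcV₃ := lt_card hg (hbx g hg) (by linarith : 0 ≤ V₃)
    have hcX' : ((lt g X).card : ℝ) ≤ K₁ * (2403 * P ^ 3) ^ 2 := by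
      refine le_trans hcX ?_
      refine mul_le_mul_of_nonneg_left ?_ (by linarith)
      exact pow_le_pow_left₀ (by rw [hX]; positivity) (by rw [hX]; linarith) 2
    have hcv : ∀ {V : ℝ}, 1 ≤ V → ((lt g V).card : ℝ) ≤ K₁ * (1 + V) ^ 2 →
        ((lt g V).card : ℝ) ≤ K₁ * (2 * V) ^ 2 := by
      intro V hV h
      refine le_trans h ?_
      refine mul_le_mul_of_nonneg_left ?_ (by linarith)
      exact pow_le_pow_left₀ (by linarith) (by linarith) 2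
    have hcard : (𝓒.card : ℝ) ≤ (K₁ * (2403 * P ^ 3) ^ 2) * ((K₁ * (2403 * P ^ 3) ^ 2) *
        (K₁ * (2403 * P ^ 3) ^ 2)) * ((K₁ * (2 * V₁) ^ 2) * ((K₁ * (2 * V₂) ^ 2) *
          (K₁ * (2 * V₃) ^ 2))) := by
      have h1 : (𝓒.card : ℝ) ≤ (((lt g X ×ˢ lt g X ×ˢ lt g X) ×ˢ
          (lt g V₁ ×ˢ lt g V₂ ×ˢ lt g V₃)).card : ℝ) := by
        exact_mod_cast Finset.card_le_card hsub
      refine le_trans h1 ?_
      simp only [Finset.card_product, Nat.cast_mul]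
      have a1 := hcv hV1 hcV₁
      have a2 := hcv hV2 hcV₂
      have a3 := hcv hV3 hcV₃
      have n1 : (0 : ℝ) ≤ (lt g X).card := Nat.cast_nonneg _
      gcongr
    refine le_trans (sum_ofReal_le 𝓒 f (by positivity : 0 ≤ 40 * P * (t₀ / V₃)) ?_ hcard) ?_
    · intro p hp
      rw [h𝓒, Finset.mem_filter, Finset.mem_filter] at hp
      rw [hf]
      exact hit_le' hP (by linarith) (hmem p hp.1.1).2.2.2 (by linarith) ht₀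
    · apply ENNReal.ofReal_le_ofReal
      refine le_of_eq ?_
      field_simp
      ring
  -- the decomposition
  have hdec : ∀ p ∈ 𝓟, f p ≤ (if ‖g p.1.1‖ < R₀ then f p else 0) +
      ∑ j ∈ Finset.range N, (if R₀ * 2 ^ j ≤ ‖g p.1.1‖ ∧ ‖g p.1.1‖ ≤ 2 * (R₀ * 2 ^ j)
        then f p else 0) := by
    intro p _
    by_cases h0 : f p = 0
    · rw [h0]; exact bot_le
    by_cases h1 : ‖g p.1.1‖ < R₀
    · rw [if_pos h1]; exact le_self_add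
    · rw [not_lt] at h1
      rw [if_neg (not_lt.2 h1), zero_add]
      obtain ⟨θ, _, e₁, e₂, κ₁, κ₂, κ₃, hpt, hz⟩ := hfne _ h0
      have hcr := (InZ.crude hpt hz).1
      have h2 : 1 ≤ ‖g p.1.1‖ / R₀ := by rw [le_div_iff₀ (by linarith)]; linarith
      obtain ⟨j, hj1, hj2⟩ := exists_nat_pow_near h2 (by norm_num : (1 : ℝ) < 2)
      have hj3 : (2 : ℝ) ^ j ≤ V₁ := by
        refine le_trans hj1 ?_
        rw [div_le_iff₀ (by linarith)]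
        nlinarith
      have hjN : j ∈ Finset.range N := by
        rw [Finset.mem_range, hN]
        exact cnt_pow_le hj3
      rw [le_div_iff₀ (by linarith)] at hj1
      rw [div_lt_iff₀ (by linarith)] at hj2
      have hcond : R₀ * 2 ^ j ≤ ‖g p.1.1‖ ∧ ‖g p.1.1‖ ≤ 2 * (R₀ * 2 ^ j) := by
        constructor
        · linarith
        · rw [pow_succ] at hj2
          linarith
      have h3 := Finset.single_le_sum (s := Finset.range N)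
        (f := fun j => if R₀ * 2 ^ j ≤ ‖g p.1.1‖ ∧ ‖g p.1.1‖ ≤ 2 * (R₀ * 2 ^ j)
          then f p else 0) (fun _ _ => bot_le) hjN
      simp only [if_pos hcond] at h3
      exact h3
  have hfin : ∑ p ∈ 𝓟, f p ≤ ENNReal.ofReal (K₁ ^ 6 * (2403 ^ 6 * 64 * 40) * P ^ 19 *
      (V₁ ^ 2 * V₂ ^ 2 * (V₃ * t₀))) + ENNReal.ofReal (N * M) := by
    refine le_trans (Finset.sum_le_sum hdec) ?_
    rw [Finset.sum_add_distrib, ← Finset.sum_filter]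
    refine add_le_add hsmall ?_
    rw [Finset.sum_comm]
    refine sum_ofReal_le (Finset.range N) _ hM0 ?_ (by rw [Finset.card_range])
    intro j _
    rw [← Finset.sum_filter]
    exact hscale j
  rw [← h𝓟]
  rw [hf] at hfin
  refine le_trans hfin ?_
  rw [← ENNReal.ofReal_add (by positivity) (by positivity)]
  apply ENNReal.ofReal_le_ofReal
  have b1 : (N : ℝ) * M ≤ 2 * (C₀ * K₀) * P ^ 24 * L ^ 3 * (V₁ ^ 2 * V₂ ^ 2 * (V₃ * t₀)) * E := by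
    calc (N : ℝ) * M ≤ 2 * L * M := mul_le_mul_of_nonneg_right hNL hM0
      _ = _ := by rw [hM]; ring
  have b2 : K₁ ^ 6 * (2403 ^ 6 * 64 * 40) * P ^ 19 * (V₁ ^ 2 * V₂ ^ 2 * (V₃ * t₀)) ≤
      K₁ ^ 6 * (2403 ^ 6 * 64 * 40) * P ^ 24 * L ^ 3 * (V₁ ^ 2 * V₂ ^ 2 * (V₃ * t₀)) := by
    have c1 : P ^ 19 ≤ P ^ 24 := pow_le_pow_right₀ hP (by norm_num)
    have c2 : 1 ≤ L ^ 3 := one_le_pow₀ hL1
    have c3 : P ^ 19 ≤ P ^ 24 * L ^ 3 := by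
      calc P ^ 19 ≤ P ^ 24 := c1
        _ = P ^ 24 * 1 := by ring
        _ ≤ P ^ 24 * L ^ 3 := mul_le_mul_of_nonneg_left c2 (by positivity)
    calc K₁ ^ 6 * (2403 ^ 6 * 64 * 40) * P ^ 19 * (V₁ ^ 2 * V₂ ^ 2 * (V₃ * t₀)) =
        K₁ ^ 6 * (2403 ^ 6 * 64 * 40) * (V₁ ^ 2 * V₂ ^ 2 * (V₃ * t₀)) * P ^ 19 := by ring
      _ ≤ K₁ ^ 6 * (2403 ^ 6 * 64 * 40) * (V₁ ^ 2 * V₂ ^ 2 * (V₃ * t₀)) * (P ^ 24 * L ^ 3) :=
        mul_le_mul_of_nonneg_left c3 (by positivity)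
      _ = _ := by ring
  have b3 : 0 ≤ K₁ ^ 6 * (2403 ^ 6 * 64 * 40) * P ^ 24 * L ^ 3 *
      (V₁ ^ 2 * V₂ ^ 2 * (V₃ * t₀)) * E := by positivity
  have b4 : 0 ≤ 2 * (C₀ * K₀) * P ^ 24 * L ^ 3 * (V₁ ^ 2 * V₂ ^ 2 * (V₃ * t₀)) := by positivity
  calc K₁ ^ 6 * (2403 ^ 6 * 64 * 40) * P ^ 19 * (V₁ ^ 2 * V₂ ^ 2 * (V₃ * t₀)) + (N : ℝ) * M ≤
      K₁ ^ 6 * (2403 ^ 6 * 64 * 40) * P ^ 24 * L ^ 3 * (V₁ ^ 2 * V₂ ^ 2 * (V₃ * t₀)) +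
        2 * (C₀ * K₀) * P ^ 24 * L ^ 3 * (V₁ ^ 2 * V₂ ^ 2 * (V₃ * t₀)) * E := add_le_add b2 b1
    _ ≤ K₁ ^ 6 * (2403 ^ 6 * 64 * 40) * P ^ 24 * L ^ 3 * (V₁ ^ 2 * V₂ ^ 2 * (V₃ * t₀)) +
        2 * (C₀ * K₀) * P ^ 24 * L ^ 3 * (V₁ ^ 2 * V₂ ^ 2 * (V₃ * t₀)) * E +
        K₁ ^ 6 * (2403 ^ 6 * 64 * 40) * P ^ 24 * L ^ 3 *
          (V₁ ^ 2 * V₂ ^ 2 * (V₃ * t₀)) * E +
        2 * (C₀ * K₀) * P ^ 24 * L ^ 3 * (V₁ ^ 2 * V₂ ^ 2 * (V₃ * t₀)) := by linarith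
    _ = _ := by ring

end Pool.Agent.Helper68_F5
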