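import Pool.Agent.Helper96_GN.Dual6
import Pool.Agent.F5H.StmtsC

/-!
MP_f5cbfa_nt, duality count: duality in terms of six vectors, determinants.
-/

set_option autoImplicit false

open MeasureTheory Matrix Complex ComplexConjugate

namespace Pool.Agent.Helper68_F5

open Pool.Agent.BTL Pool.Agent.F5S Pool.Agent.F5H Pool.Agent.F5H.BC Pool.Agent.Helper96_GN

/-- duality, in terms of six vectors `b` -/
theorem dual6b (b : I6 → R6) {D : ℝ} (hD : 0 < D)
    (hdet : D ≤ |(Matrix.of fun i j => to6 (b j) i).det|) {P : I6 → ℝ} (hP : ∀ i, 1 ≤ P i) :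
    (kb6 b P).Finite ∧ {t : Z6 | ∃ c : I6 → ℝ, (∀ i, |c i| ≤ 1) ∧ r3 t = ∑ i, c i • b i}.Finite ∧
    ((kb6 b P).ncard : ℝ) ≤ (∏ i, (4 * P i)) * ((3 * Real.exp Real.pi) ^ 6 / D) *
      ({t : Z6 | ∃ c : I6 → ℝ, (∀ i, |c i| ≤ 1) ∧ r3 t = ∑ i, c i • b i}.ncard : ℝ) := by
  obtain ⟨W, hW⟩ : ∃ W : Matrix I6 I6 ℝ, W = Matrix.of fun i j => to6 (b j) i := ⟨_, rfl⟩
  rw [← hW] at hdet
  have hdet0 : W.det ≠ 0 := by
    intro h
    rw [h, abs_zero] at hdet
    linarith
  have hu : IsUnit W.det := isUnit_iff_ne_zero.2 hdet0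
  have hWc : ∀ c : I6 → ℝ, W.mulVec c = to6 (∑ i, c i • b i) := by
    intro c
    funext i
    have h1 : of6 (W.mulVec c) = ∑ j, c j • b j := by
      have h2 : W.mulVec c = ∑ j, c j • to6 (b j) := by
        funext i
        simp only [Matrix.mulVec, dotProduct, hW, Matrix.of_apply, Finset.sum_apply,
          Pi.smul_apply, smul_eq_mul]
        exact Finset.sum_congr rfl fun j _ => mul_comm _ _
      rw [h2, map_sum]
      refine Finset.sum_congr rfl fun j _ => ?_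
      rw [map_smul, of6_to6]
    rw [← h1, to6_of6]
  have hto6_add : ∀ x y : R6, to6 (x + y) = to6 x + to6 y := by
    intro x y
    apply of6_inj
    rw [map_add, of6_to6, of6_to6, of6_to6]
  have hto6_smul : ∀ (a : ℝ) (x : R6), to6 (a • x) = a • to6 x := by
    intro a x
    apply of6_inj
    rw [map_smul, of6_to6, of6_to6]
  obtain ⟨l, hl⟩ : ∃ l : I6 → R6 →ₗ[ℝ] ℝ, ∀ i x, l i x = W⁻¹.mulVec (to6 x) i := by
    refine ⟨fun i => { toFun := fun x => W⁻¹.mulVec (to6 x) i, map_add' := ?_, map_smul' := ?_ },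
      fun i x => rfl⟩
    · intro x y
      rw [hto6_add, Matrix.mulVec_add]; rfl
    · intro a x
      rw [hto6_smul, Matrix.mulVec_smul]; rfl
  have hlv : ∀ i j, l i (b j) = if i = j then 1 else 0 := by
    intro i j
    rw [hl]
    have h1 : W⁻¹.mulVec (to6 (b j)) i = (W⁻¹ * W) i j := by
      rw [Matrix.mul_apply, Matrix.mulVec, dotProduct]
      refine Finset.sum_congr rfl fun k _ => ?_
      rw [hW, Matrix.of_apply]
    rw [h1, Matrix.nonsing_inv_mul _ hu, Matrix.one_apply]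
  have hmt : mt6 l = W⁻¹ := by
    ext i j
    rw [mt6, Matrix.of_apply, hl, to6_of6, Matrix.mulVec_single_one]
    rfl
  obtain ⟨f1, f2, f3, f4⟩ := dual6 l b hlv hP
  have hset : (bx6 l fun _ => 1) ⊆
      {t : Z6 | ∃ c : I6 → ℝ, (∀ i, |c i| ≤ 1) ∧ r3 t = ∑ i, c i • b i} := by
    intro t ht
    refine ⟨fun i => l i (r3 t), ht, ?_⟩
    have h1 : W.mulVec (fun i => l i (r3 t)) = to6 (r3 t) := by
      have h2 : (fun i => l i (r3 t)) = W⁻¹.mulVec (to6 (r3 t)) := by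
        funext i; rw [hl]
      rw [h2, Matrix.mulVec_mulVec, Matrix.mul_nonsing_inv _ hu, Matrix.one_mulVec]
    rw [hWc] at h1
    have h3 := congrArg of6 h1
    rw [of6_to6, of6_to6] at h3
    exact h3.symm
  have hset' : {t : Z6 | ∃ c : I6 → ℝ, (∀ i, |c i| ≤ 1) ∧ r3 t = ∑ i, c i • b i} ⊆
      (bx6 l fun _ => 1) := by
    rintro t ⟨c, hc, ht⟩ i
    rw [ht, map_sum]
    have h1 : ∑ j, l i (c j • b j) = c i := by
      rw [Finset.sum_eq_single i]
      · rw [map_smul, hlv, if_pos rfl, smul_eq_mul, mul_one]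
      · intro j _ hj
        rw [map_smul, hlv, if_neg (Ne.symm hj), smul_zero]
      · intro h; exact absurd (Finset.mem_univ _) h
    rw [h1]
    exact hc i
  have heq := Set.Subset.antisymm hset' hset
  refine ⟨f1, by rw [heq]; exact f2, ?_⟩
  rw [heq]
  refine le_trans f4 ?_
  refine mul_le_mul_of_nonneg_right ?_ (Nat.cast_nonneg _)
  refine mul_le_mul_of_nonneg_left ?_ (Finset.prod_nonneg fun i _ => by
    have := hP i
    linarith)
  rw [hmt, Matrix.det_nonsing_inv, Ring.inverse_eq_inv', abs_inv, div_eq_mul_inv]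
  refine mul_le_mul_of_nonneg_left ?_ (by positivity)
  exact inv_anti₀ hD hdet

/-- the two forms of one index -/
noncomputable def f2 (A : ℝ × ℝ × ℝ) (w : ℂ) (i : Fin 2) : ℝ × ℝ →ₗ[ℝ] ℝ where
  toFun x := if i = 0 then sp w (gA A x) else wd w (gA A x)
  map_add' x y := by
    have h : gA A (x + y) = gA A x + gA A y := by
      apply Complex.ext <;> simp [gA] <;> ring
    split_ifs
    · rw [h, sp_add]
    · rw [h, wd_add]
  map_smul' a x := by
    have h : gA A (a • x) = (a : ℂ) * gA A x := by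
      apply Complex.ext <;> simp [gA] <;> ring
    simp only [RingHom.id_apply, smul_eq_mul]
    split_ifs
    · rw [h, sp_real']
    · rw [h, wd_real']

/-- the six forms `μ_l, y_l` -/
noncomputable def fL (A : ℝ × ℝ × ℝ) (w : Fin 3 → ℂ) : I6 → R6 →ₗ[ℝ] ℝ
  | Sum.inl i => (f2 A (w 0) i).comp (LinearMap.fst ℝ _ _)
  | Sum.inr (Sum.inl i) => (f2 A (w 1) i).comp ((LinearMap.fst ℝ _ _).comp (LinearMap.snd ℝ _ _))
  | Sum.inr (Sum.inr i) => (f2 A (w 2) i).comp ((LinearMap.snd ℝ _ _).comp (LinearMap.snd ℝ _ _))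

theorem det_f2 {A : ℝ × ℝ × ℝ} (h1 : 0 < A.1) (hd : 0 < disc A) {w : ℂ} (hw : ‖w‖ = 1) :
    (Matrix.of fun i j : Fin 2 => f2 A w i (if j = 0 then ((1 : ℝ), (0 : ℝ)) else (0, 1))).det =
      Real.sqrt (disc A) := by
  rw [Matrix.det_fin_two]
  simp only [Matrix.of_apply, f2, LinearMap.coe_mk, AddHom.coe_mk, if_true, sp, wd, gA]
  norm_num
  have hs := Real.sq_sqrt h1.le
  have hw2 : w.re ^ 2 + w.im ^ 2 = 1 := by
    have : ‖w‖ ^ 2 = 1 := by rw [hw]; norm_num
    rw [Complex.sq_norm, Complex.normSq_apply] at this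
    linarith
  have hne : √A.1 ≠ 0 := (Real.sqrt_pos.2 h1).ne'
  have h3 : √(disc A / A.1) = √(disc A) / √A.1 := Real.sqrt_div hd.le _
  rw [h3]
  field_simp
  linear_combination (√(disc A)) * hw2

/-- the determinant of the six forms -/
theorem det_fL {A : ℝ × ℝ × ℝ} (h1 : 0 < A.1) (hd : 0 < disc A) {w : Fin 3 → ℂ}
    (hw : ∀ l, ‖w l‖ = 1) : (mt6 (fL A w)).det = Real.sqrt (disc A) ^ 3 := by
  have e : mt6 (fL A w) = Matrix.fromBlocks
      (Matrix.of fun i j : Fin 2 => f2 A (w 0) i (if j = 0 then ((1 : ℝ), (0 : ℝ)) else (0, 1))) 0 0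
      (Matrix.fromBlocks
        (Matrix.of fun i j : Fin 2 => f2 A (w 1) i (if j = 0 then ((1 : ℝ), (0 : ℝ)) else (0, 1)))
        0 0
        (Matrix.of fun i j : Fin 2 =>
          f2 A (w 2) i (if j = 0 then ((1 : ℝ), (0 : ℝ)) else (0, 1)))) := by
    ext i j
    rcases i with i | i | i <;> rcases j with j | j | j <;> fin_cases i <;> fin_cases j <;>
      simp [mt6, fL, of6, f2, gA, sp, wd, Pi.single_apply]
  rw [e, Matrix.det_fromBlocks_zero₂₁, Matrix.det_fromBlocks_zero₂₁, det_f2 h1 hd (hw 0),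
    det_f2 h1 hd (hw 1), det_f2 h1 hd (hw 2)]
  ring

/-- reordering: first the three `μ`, then the three `y` -/
def eJ : Fin 3 ⊕ Fin 3 ≃ I6 where
  toFun
    | Sum.inl i => ![Sum.inl 0, Sum.inr (Sum.inl 0), Sum.inr (Sum.inr 0)] i
    | Sum.inr i => ![Sum.inl 1, Sum.inr (Sum.inl 1), Sum.inr (Sum.inr 1)] i
  invFun
    | Sum.inl i => ![Sum.inl 0, Sum.inr 0] i
    | Sum.inr (Sum.inl i) => ![Sum.inl 1, Sum.inr 1] i
    | Sum.inr (Sum.inr i) => ![Sum.inl 2, Sum.inr 2] i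
  left_inv i := by rcases i with i | i <;> fin_cases i <;> rfl
  right_inv i := by rcases i with i | i | i <;> fin_cases i <;> rfl

/-- determinant of the six vectors -/
theorem det_b {A : ℝ × ℝ × ℝ} (h1 : 0 < A.1) (hd : 0 < disc A) {w : Fin 3 → ℂ}
    (hw : ∀ l, ‖w l‖ = 1) (b : I6 → R6) (M Y E : Matrix (Fin 3) (Fin 3) ℝ)
    (hM : ∀ l j, fL A w (eJ (Sum.inl l)) (b (eJ (Sum.inl j))) = M l j)
    (hY : ∀ l j, fL A w (eJ (Sum.inr l)) (b (eJ (Sum.inl j))) = Y l j)
    (h0 : ∀ l j, fL A w (eJ (Sum.inl l)) (b (eJ (Sum.inr j))) = 0)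
    (hE : ∀ l j, fL A w (eJ (Sum.inr l)) (b (eJ (Sum.inr j))) = E l j) :
    M.det * E.det = Real.sqrt (disc A) ^ 3 * (Matrix.of fun i j => to6 (b j) i).det := by
  have e1 := det_basis (fL A w) b
  rw [det_fL h1 hd hw] at e1
  rw [← e1]
  have e2 : (Matrix.of fun i j => fL A w i (b j)).det =
      ((Matrix.of fun i j => fL A w i (b j)).submatrix eJ eJ).det :=
    (Matrix.det_submatrix_equiv_self eJ _).symm
  have e3 : (Matrix.of fun i j => fL A w i (b j)).submatrix eJ eJ = Matrix.fromBlocks M 0 Y E := by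
    ext i j
    rcases i with i | i <;> rcases j with j | j
    · exact hM i j
    · exact h0 i j
    · exact hY i j
    · exact hE i j
  rw [e2, e3, Matrix.det_fromBlocks_zero₁₂]

end Pool.Agent.Helper68_F5
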