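import Pool.Agent.Helper68_F5.Win

/-!
MP_f5cbfa_nt, duality count, step (2) of note 2492: windows at `v` (continued).
-/

set_option autoImplicit false

open MeasureTheory

namespace Pool.Agent.Helper68_F5

namespace Dat

variable {P S V c : ℝ} {e v H : ℂ} {κ : ℝ}

/-- one value of `u` -/
theorem u_val (s : Sml P S V c) (d : Dat P S V c e v H κ) {u : ℝ × ℝ × ℝ}
    (hu : κ ^ 2 * bf u e e + bf u H H / (4 * S) = -2 * κ * sp e (y c κ e v)) :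
    |bf u e e| ≤ (6 * P + 2 * (nf u * q S H)) * ‖e‖ ^ 2 := by
  have hκ := d.hκ
  have a := inv_κ s d
  have hS := S_pos s
  have e1 : bf u e e = -(2 * κ⁻¹ * sp e (y c κ e v)) - κ⁻¹ ^ 2 * (bf u H H / (4 * S)) := by
    have hne := hκ.ne'
    have h2 : bf u e e = κ⁻¹ ^ 2 * (κ ^ 2 * bf u e e) := by field_simp
    rw [h2, show κ ^ 2 * bf u e e = -2 * κ * sp e (y c κ e v) - bf u H H / (4 * S) by linarith]
    field_simp
  have hH : |bf u H H / (4 * S)| ≤ nf u * q S H := by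
    rw [abs_div, abs_of_pos (by positivity : 0 < 4 * S), q, div_le_iff₀ (by positivity)]
    have := bf_le u H H
    calc |bf u H H| ≤ nf u * (‖H‖ * ‖H‖) := this
      _ = nf u * (‖H‖ ^ 2 / (4 * S)) * (4 * S) := by field_simp
  have h1 : |2 * κ⁻¹ * sp e (y c κ e v)| ≤ 6 * P := by
    rw [abs_mul, abs_of_nonneg (by positivity : 0 ≤ 2 * κ⁻¹)]
    have hP := s.hP
    calc 2 * κ⁻¹ * |sp e (y c κ e v)| ≤ 2 * (4 / 3) * (2 * P) :=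
          mul_le_mul (mul_le_mul_of_nonneg_left a.2.1 (by norm_num)) (abs_x s d) (abs_nonneg _)
            (by norm_num)
      _ ≤ 6 * P := by linarith
  have h2 : |κ⁻¹ ^ 2 * (bf u H H / (4 * S))| ≤ 2 * (nf u * q S H) := by
    rw [abs_mul, abs_of_nonneg (by positivity : 0 ≤ κ⁻¹ ^ 2)]
    have h3 : κ⁻¹ ^ 2 ≤ (4 / 3) ^ 2 := pow_le_pow_left₀ (by positivity) a.2.1 2
    calc κ⁻¹ ^ 2 * |bf u H H / (4 * S)| ≤ (4 / 3) ^ 2 * (nf u * q S H) :=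
          mul_le_mul h3 hH (abs_nonneg _) (by norm_num)
      _ ≤ 2 * (nf u * q S H) := by
          have : 0 ≤ nf u * q S H := mul_nonneg (nf_nonneg u) (q_nonneg s)
          nlinarith
  rw [d.he, one_pow, mul_one, e1]
  have := abs_sub (-(2 * κ⁻¹ * sp e (y c κ e v))) (κ⁻¹ ^ 2 * (bf u H H / (4 * S)))
  rw [abs_neg] at this
  linarith

/-- `u + 2 x / κ` -/
theorem u_val' (s : Sml P S V c) (d : Dat P S V c e v H κ) {u : ℝ × ℝ × ℝ}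
    (hu : κ ^ 2 * bf u e e + bf u H H / (4 * S) = -2 * κ * sp e (y c κ e v)) :
    |bf u e e + 2 * κ⁻¹ * sp e (y c κ e v)| ≤ 2 * (nf u * q S H) := by
  have hκ := d.hκ
  have a := inv_κ s d
  have hS := S_pos s
  have e1 : bf u e e + 2 * κ⁻¹ * sp e (y c κ e v) = -(κ⁻¹ ^ 2 * (bf u H H / (4 * S))) := by
    have hne := hκ.ne'
    have h2 : bf u e e = κ⁻¹ ^ 2 * (κ ^ 2 * bf u e e) := by field_simp
    rw [h2, show κ ^ 2 * bf u e e = -2 * κ * sp e (y c κ e v) - bf u H H / (4 * S) by linarith]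
    field_simp
    ring
  have hH : |bf u H H / (4 * S)| ≤ nf u * q S H := by
    rw [abs_div, abs_of_pos (by positivity : 0 < 4 * S), q, div_le_iff₀ (by positivity)]
    have := bf_le u H H
    calc |bf u H H| ≤ nf u * (‖H‖ * ‖H‖) := this
      _ = nf u * (‖H‖ ^ 2 / (4 * S)) * (4 * S) := by field_simp
  rw [e1, abs_neg, abs_mul, abs_of_nonneg (by positivity : 0 ≤ κ⁻¹ ^ 2)]
  have h3 : κ⁻¹ ^ 2 ≤ (4 / 3) ^ 2 := pow_le_pow_left₀ (by positivity) a.2.1 2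
  calc κ⁻¹ ^ 2 * |bf u H H / (4 * S)| ≤ (4 / 3) ^ 2 * (nf u * q S H) :=
        mul_le_mul h3 hH (abs_nonneg _) (by norm_num)
    _ ≤ 2 * (nf u * q S H) := by
        have : 0 ≤ nf u * q S H := mul_nonneg (nf_nonneg u) (q_nonneg s)
        nlinarith

end Dat

open Dat

section three

variable {P S V c : ℝ} {e₁ v₁ H₁ : ℂ} {κ₁ : ℝ} {e₂ v₂ H₂ : ℂ} {κ₂ : ℝ} {e₃ v₃ H₃ : ℂ} {κ₃ : ℝ}

theorem ne_zero_of_norm_one {e : ℂ} (h : ‖e‖ = 1) : e ≠ 0 := by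
  intro h0
  rw [h0, norm_zero] at h
  exact zero_ne_one h

theorem u_nf (s : Sml P S V c) (d₁ : Dat P S V c e₁ v₁ H₁ κ₁) (d₂ : Dat P S V c e₂ v₂ H₂ κ₂)
    (d₃ : Dat P S V c e₃ v₃ H₃ κ₃) (w₁₂ : 1 ≤ P * |wd e₁ e₂|) (w₂₃ : 1 ≤ P * |wd e₂ e₃|)
    (w₃₁ : 1 ≤ P * |wd e₃ e₁|) {u : ℝ × ℝ × ℝ}
    (hu₁ : κ₁ ^ 2 * bf u e₁ e₁ + bf u H₁ H₁ / (4 * S) = -2 * κ₁ * sp e₁ (y c κ₁ e₁ v₁))
    (hu₂ : κ₂ ^ 2 * bf u e₂ e₂ + bf u H₂ H₂ / (4 * S) = -2 * κ₂ * sp e₂ (y c κ₂ e₂ v₂))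
    (hu₃ : κ₃ ^ 2 * bf u e₃ e₃ + bf u H₃ H₃ / (4 * S) = -2 * κ₃ * sp e₃ (y c κ₃ e₃ v₃)) :
    nf u ≤ 60 * P ^ 3 := by
  have hP := s.hP
  have hP0 : 0 < P := by linarith
  have hc := c_pos s
  have key := int_bound u e₁ e₂ e₃ hP0 (ne_zero_of_norm_one d₁.he) (ne_zero_of_norm_one d₂.he)
    (ne_zero_of_norm_one d₃.he) (by rw [d₁.he, d₂.he, mul_one]; exact w₁₂)
    (by rw [d₂.he, d₃.he, mul_one]; exact w₂₃) (by rw [d₃.he, d₁.he, mul_one]; exact w₃₁)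
    (u_val s d₁ hu₁) (u_val s d₂ hu₂) (u_val s d₃ hu₃)
  have h1 := nf_le key
  have hq : ∀ {e v H : ℂ} {κ : ℝ}, Dat P S V c e v H κ → P ^ 2 * (nf u * q S H) ≤
      nf u / 600 := by
    intro e v H κ d
    have h2 := q_le s d
    have h3 := nf_nonneg u
    have h4 : P ^ 2 * q S H ≤ 1 / 600 := by
      have h5 := s.hc
      calc P ^ 2 * q S H ≤ P ^ 2 * (1 / (2 * c)) := mul_le_mul_of_nonneg_left h2 (by positivity)
        _ = P ^ 2 / (2 * c) := by ring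
        _ ≤ 1 / 600 := by
            rw [div_le_div_iff₀ (by positivity) (by norm_num)]
            have h6 := (cP s).2
            nlinarith
    calc P ^ 2 * (nf u * q S H) = nf u * (P ^ 2 * q S H) := by ring
      _ ≤ nf u * (1 / 600) := mul_le_mul_of_nonneg_left h4 h3
      _ = nf u / 600 := by ring
  have q1 := hq d₁
  have q2 := hq d₂
  have q3 := hq d₃
  have h0 := nf_nonneg u
  have h9 : 0 ≤ P ^ 3 := by positivity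
  nlinarith

theorem E_bound (s : Sml P S V c) (d₁ : Dat P S V c e₁ v₁ H₁ κ₁) (d₂ : Dat P S V c e₂ v₂ H₂ κ₂)
    (d₃ : Dat P S V c e₃ v₃ H₃ κ₃) (w₁₂ : 1 ≤ P * |wd e₁ e₂|) (w₂₃ : 1 ≤ P * |wd e₂ e₃|)
    (w₃₁ : 1 ≤ P * |wd e₃ e₁|) {E : ℝ × ℝ × ℝ}
    (hE₁ : bf E v₁ v₁ = c ^ 2 * (1 + ‖H₁‖ ^ 2 / (4 * S)) - ‖v₁‖ ^ 2)
    (hE₂ : bf E v₂ v₂ = c ^ 2 * (1 + ‖H₂‖ ^ 2 / (4 * S)) - ‖v₂‖ ^ 2)
    (hE₃ : bf E v₃ v₃ = c ^ 2 * (1 + ‖H₃‖ ^ 2 / (4 * S)) - ‖v₃‖ ^ 2) (x z : ℂ) :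
    |bf E x z| ≤ 5376 * P ^ 3 / c * (‖x‖ * ‖z‖) := by
  have hP := s.hP
  have hP0 : 0 < P := by linarith
  have hc := c_pos s
  have nz : ∀ {e v H : ℂ} {κ : ℝ}, Dat P S V c e v H κ → v ≠ 0 := by
    intro e v H κ d h0
    have := norm_v_ge s d
    rw [h0, norm_zero] at this
    linarith
  have key := int_bound E v₁ v₂ v₃ (P := 8 * P) (by linarith) (nz d₁) (nz d₂) (nz d₃)
    (wd_v s d₁ d₂ w₁₂) (wd_v s d₂ d₃ w₂₃) (wd_v s d₃ d₁ w₃₁)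
    (E_val' s d₁ hE₁) (E_val' s d₂ hE₂) (E_val' s d₃ hE₃) x z
  calc |bf E x z| ≤ (8 * P) ^ 2 * (28 * P / c + 28 * P / c + 28 * P / c) * (‖x‖ * ‖z‖) := key
    _ = 5376 * P ^ 3 / c * (‖x‖ * ‖z‖) := by ring

end three

namespace Dat

variable {P S V c : ℝ} {e v H : ℂ} {κ : ℝ}

/-- value of `D = E - u/c` at `e` -/
theorem D_val (s : Sml P S V c) (d : Dat P S V c e v H κ) {u E : ℝ × ℝ × ℝ}
    (hu : κ ^ 2 * bf u e e + bf u H H / (4 * S) = -2 * κ * sp e (y c κ e v))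
    (hE : bf E v v = c ^ 2 * (1 + ‖H‖ ^ 2 / (4 * S)) - ‖v‖ ^ 2)
    (hn : nf u ≤ 60 * P ^ 3)
    (hb : ∀ x z : ℂ, |bf E x z| ≤ 5376 * P ^ 3 / c * (‖x‖ * ‖z‖)) :
    |bf (E - c⁻¹ • u) e e| ≤ 28850 * P ^ 4 / c ^ 2 * ‖e‖ ^ 2 := by
  have hP := s.hP
  have hP0 : 0 < P := by linarith
  have hc := c_pos s
  have hκ := d.hκ
  have a := inv_κ s d
  obtain ⟨Y, hY⟩ : ∃ Y, Y = y c κ e v := ⟨_, rfl⟩
  obtain ⟨X, hX⟩ : ∃ X, X = sp e Y := ⟨_, rfl⟩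
  have nY : ‖Y‖ ≤ 2 * P := by rw [hY]; exact norm_y s d
  have nX : |X| ≤ 2 * P := by rw [hX, hY]; exact abs_x s d
  have h1 := E_val s d hE
  have h2 := u_val' s d hu
  rw [← hY, ← hX] at h1 h2
  -- expand E(v,v)
  have e1 : bf E v v = (c * κ⁻¹) ^ 2 * bf E e e + 2 * (c * κ⁻¹) * bf E e Y + bf E Y Y := by
    have hv : v = ((c * κ⁻¹ : ℝ) : ℂ) * e + Y := by rw [hY]; exact v_eq
    conv_lhs => rw [hv]
    rw [bf_add, bf_add', bf_add', bf_real, bf_comm E e, bf_real, bf_real, bf_comm E Y, bf_real]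
    ring
  have b1 : |2 * (c * κ⁻¹) * bf E e Y| ≤ 28672 * P ^ 4 := by
    rw [abs_mul, abs_of_nonneg (by positivity : 0 ≤ 2 * (c * κ⁻¹))]
    have := hb e Y
    rw [d.he, one_mul] at this
    calc 2 * (c * κ⁻¹) * |bf E e Y| ≤ 2 * (c * (4 / 3)) * (5376 * P ^ 3 / c * (2 * P)) := by
          refine mul_le_mul (mul_le_mul_of_nonneg_left (mul_le_mul_of_nonneg_left a.2.1 hc.le)
            (by norm_num)) (le_trans this (mul_le_mul_of_nonneg_left nY (by positivity)))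
            (abs_nonneg _) (by positivity)
      _ = 28672 * P ^ 4 := by field_simp; ring
  have b2 : |bf E Y Y| ≤ 72 * P ^ 4 := by
    have h3 := hb Y Y
    have h4 : ‖Y‖ * ‖Y‖ ≤ (2 * P) * (2 * P) := mul_le_mul nY nY (norm_nonneg _) (by positivity)
    have h5 : P ^ 2 ≤ P ^ 4 := pow_le_pow_right₀ hP (by norm_num)
    calc |bf E Y Y| ≤ 5376 * P ^ 3 / c * ((2 * P) * (2 * P)) :=
          le_trans h3 (mul_le_mul_of_nonneg_left h4 (by positivity))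
      _ = 21504 * P ^ 5 / c := by ring
      _ ≤ 72 * P ^ 2 := by
          rw [div_le_iff₀ hc]
          have h6 := s.hc
          have h7 : 0 ≤ P ^ 2 := by positivity
          nlinarith [mul_le_mul_of_nonneg_left h6 h7]
      _ ≤ 72 * P ^ 4 := by linarith
  have b3 : |(c * κ⁻¹) ^ 2 * bf E e e + 2 * (c * κ⁻¹) * X| ≤ 28749 * P ^ 4 := by
    have e2 : (c * κ⁻¹) ^ 2 * bf E e e + 2 * (c * κ⁻¹) * X =
        (bf E v v + 2 * (c * κ⁻¹) * X) - 2 * (c * κ⁻¹) * bf E e Y - bf E Y Y := by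
      rw [e1]; ring
    rw [e2]
    have t1 := abs_sub (bf E v v + 2 * (c * κ⁻¹) * X - 2 * (c * κ⁻¹) * bf E e Y) (bf E Y Y)
    have t2 := abs_sub (bf E v v + 2 * (c * κ⁻¹) * X) (2 * (c * κ⁻¹) * bf E e Y)
    have h5 : P ^ 2 ≤ P ^ 4 := pow_le_pow_right₀ hP (by norm_num)
    linarith
  have b4 : |bf E e e + 2 * κ * X / c| ≤ 28749 * P ^ 4 / c ^ 2 := by
    have e2 : bf E e e + 2 * κ * X / c =
        (κ / c) ^ 2 * ((c * κ⁻¹) ^ 2 * bf E e e + 2 * (c * κ⁻¹) * X) := by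
      have hne := hκ.ne'
      field_simp
    rw [e2, abs_mul, abs_of_nonneg (by positivity : 0 ≤ (κ / c) ^ 2)]
    have h3 := κ_le s d
    calc (κ / c) ^ 2 * |(c * κ⁻¹) ^ 2 * bf E e e + 2 * (c * κ⁻¹) * X|
        ≤ (1 / c) ^ 2 * (28749 * P ^ 4) :=
          mul_le_mul (pow_le_pow_left₀ (by positivity) (div_le_div_of_nonneg_right h3 hc.le) 2)
            b3 (abs_nonneg _) (by positivity)
      _ = _ := by ring
  have hq1 := q_le s d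
  have hq0 := q_nonneg (H := H) s
  have b5 : |2 * X / c * (κ⁻¹ - κ)| ≤ 3 * P ^ 4 / c ^ 2 := by
    rw [abs_mul, abs_of_nonneg a.2.2.2.2, abs_div, abs_mul, abs_two, abs_of_pos hc]
    have h5 : P ≤ P ^ 4 := le_self_pow₀ hP (by norm_num)
    calc 2 * |X| / c * (κ⁻¹ - κ) ≤ 2 * (2 * P) / c * (4 / 3 * (1 / (2 * c))) := by
          refine mul_le_mul (div_le_div_of_nonneg_right (by linarith) hc.le) ?_ a.2.2.2.2
            (by positivity)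
          linarith [a.2.2.2.1]
      _ = 8 / 3 * P / c ^ 2 := by field_simp; ring
      _ ≤ 3 * P ^ 4 / c ^ 2 := by
          refine div_le_div_of_nonneg_right ?_ (by positivity)
          linarith
  have b6 : |(bf u e e + 2 * κ⁻¹ * X) / c| ≤ 60 * P ^ 4 / c ^ 2 := by
    rw [abs_div, abs_of_pos hc]
    have h5 : P ^ 3 ≤ P ^ 4 := pow_le_pow_right₀ hP (by norm_num)
    calc |bf u e e + 2 * κ⁻¹ * X| / c ≤ 2 * (60 * P ^ 3 * (1 / (2 * c))) / c := by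
          refine div_le_div_of_nonneg_right (le_trans h2 ?_) hc.le
          exact mul_le_mul_of_nonneg_left (mul_le_mul hn hq1 hq0 (by positivity)) (by norm_num)
      _ = 60 * P ^ 3 / c ^ 2 := by field_simp
      _ ≤ 60 * P ^ 4 / c ^ 2 := by
          refine div_le_div_of_nonneg_right ?_ (by positivity)
          linarith
  have e3 : bf (E - c⁻¹ • u) e e = (bf E e e + 2 * κ * X / c) + 2 * X / c * (κ⁻¹ - κ) -
      (bf u e e + 2 * κ⁻¹ * X) / c := by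
    rw [bf_sub_left, bf_smul]
    field_simp
    ring
  rw [e3, d.he, one_pow, mul_one]
  have t1 := abs_sub (bf E e e + 2 * κ * X / c + 2 * X / c * (κ⁻¹ - κ))
    ((bf u e e + 2 * κ⁻¹ * X) / c)
  have t2 := abs_add_le (bf E e e + 2 * κ * X / c) (2 * X / c * (κ⁻¹ - κ))
  have t3 : 28749 * P ^ 4 / c ^ 2 + 3 * P ^ 4 / c ^ 2 + 60 * P ^ 4 / c ^ 2 ≤
      28850 * P ^ 4 / c ^ 2 := by
    rw [← add_div, ← add_div]
    refine div_le_div_of_nonneg_right ?_ (by positivity)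
    have : 0 ≤ P ^ 4 := by positivity
    linarith
  linarith

/-- the value of `Â` at `(v,H)` -/
theorem win_one (s : Sml P S V c) (d : Dat P S V c e v H κ) {u E : ℝ × ℝ × ℝ}
    (hn : nf u ≤ 60 * P ^ 3)
    (hb : ∀ x z : ℂ, |bf E x z| ≤ 5376 * P ^ 3 / c * (‖x‖ * ‖z‖))
    (hD : ∀ x z : ℂ, |bf (E - c⁻¹ • u) x z| ≤ 86550 * P ^ 6 / c ^ 2 * (‖x‖ * ‖z‖)) :
    |bf ((1, 0, 1) + E) v H - (sp v H + κ * bf (u - (2 * c) • ((1, 0, 1) : ℝ × ℝ × ℝ)) e H) -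
      2 * c * (κ * sp e H)| ≤ 130000 * P ^ 6 * (‖H‖ / c) := by
  have hP := s.hP
  have hP0 : 0 < P := by linarith
  have hc := c_pos s
  have hκ := d.hκ
  have a := inv_κ s d
  obtain ⟨Y, hY⟩ : ∃ Y, Y = y c κ e v := ⟨_, rfl⟩
  have nY : ‖Y‖ ≤ 2 * P := by rw [hY]; exact norm_y s d
  have hv : v = ((c * κ⁻¹ : ℝ) : ℂ) * e + Y := by rw [hY]; exact v_eq
  have e1 : bf E v H = (c * κ⁻¹) * bf E e H + bf E Y H := by
    conv_lhs => rw [hv]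
    rw [bf_add', bf_real]
  have e2 : bf (E - c⁻¹ • u) e H = bf E e H - c⁻¹ * bf u e H := by rw [bf_sub_left, bf_smul]
  have e3 : bf ((1, 0, 1) + E) v H - (sp v H + κ * bf (u - (2 * c) • ((1, 0, 1) : ℝ × ℝ × ℝ)) e H)
      - 2 * c * (κ * sp e H) = (κ⁻¹ - κ) * bf u e H +
        (c * κ⁻¹) * bf (E - c⁻¹ • u) e H + bf E Y H := by
    rw [bf_add_left, bf_one, e1, e2, bf_sub_left, bf_smul, bf_one]
    field_simp
    ring
  rw [e3]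
  have hq1 := q_le s d
  have hq0 := q_nonneg (H := H) s
  have hH : 0 ≤ ‖H‖ := norm_nonneg _
  have h63 : P ^ 3 ≤ P ^ 6 := pow_le_pow_right₀ hP (by norm_num)
  have h64 : P ^ 4 ≤ P ^ 6 := pow_le_pow_right₀ hP (by norm_num)
  have c1 : |(κ⁻¹ - κ) * bf u e H| ≤ 40 * P ^ 6 * (‖H‖ / c) := by
    rw [abs_mul, abs_of_nonneg a.2.2.2.2]
    have := bf_le u e H
    rw [d.he, one_mul] at this
    calc (κ⁻¹ - κ) * |bf u e H| ≤ (4 / 3 * (1 / (2 * c))) * (60 * P ^ 3 * ‖H‖) := by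
          refine mul_le_mul (by linarith [a.2.2.2.1]) (le_trans this
            (mul_le_mul_of_nonneg_right hn hH)) (abs_nonneg _) (by positivity)
      _ = 40 * P ^ 3 * (‖H‖ / c) := by field_simp; ring
      _ ≤ 40 * P ^ 6 * (‖H‖ / c) := mul_le_mul_of_nonneg_right (by linarith) (by positivity)
  have c2 : |(c * κ⁻¹) * bf (E - c⁻¹ • u) e H| ≤ 115400 * P ^ 6 * (‖H‖ / c) := by
    rw [abs_mul, abs_of_nonneg (by positivity : 0 ≤ c * κ⁻¹)]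
    have := hD e H
    rw [d.he, one_mul] at this
    calc (c * κ⁻¹) * |bf (E - c⁻¹ • u) e H| ≤ (c * (4 / 3)) * (86550 * P ^ 6 / c ^ 2 * ‖H‖) :=
          mul_le_mul (mul_le_mul_of_nonneg_left a.2.1 hc.le) this (abs_nonneg _) (by positivity)
      _ = 115400 * P ^ 6 * (‖H‖ / c) := by field_simp; ring
  have c3 : |bf E Y H| ≤ 10752 * P ^ 6 * (‖H‖ / c) := by
    calc |bf E Y H| ≤ 5376 * P ^ 3 / c * ((2 * P) * ‖H‖) :=
          le_trans (hb Y H) (mul_le_mul_of_nonneg_left (mul_le_mul_of_nonneg_right nY hH)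
            (by positivity))
      _ = 10752 * P ^ 4 * (‖H‖ / c) := by ring
      _ ≤ 10752 * P ^ 6 * (‖H‖ / c) := mul_le_mul_of_nonneg_right (by linarith) (by positivity)
  have t := abs_add_three ((κ⁻¹ - κ) * bf u e H) ((c * κ⁻¹) * bf (E - c⁻¹ • u) e H) (bf E Y H)
  have : 0 ≤ P ^ 6 * (‖H‖ / c) := by positivity
  linarith

end Dat

/-- WINDOWS, all three indices.  `b` is the variation of the form (`√S B` of the note),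
`Gₗ = sp vₗ Hₗ + κₗ bf b eₗ Hₗ`. -/
theorem windows {P S V c : ℝ} {e₁ v₁ H₁ : ℂ} {κ₁ : ℝ} {e₂ v₂ H₂ : ℂ} {κ₂ : ℝ} {e₃ v₃ H₃ : ℂ}
    {κ₃ : ℝ} (s : Sml P S V c) (d₁ : Dat P S V c e₁ v₁ H₁ κ₁) (d₂ : Dat P S V c e₂ v₂ H₂ κ₂)
    (d₃ : Dat P S V c e₃ v₃ H₃ κ₃) (w₁₂ : 1 ≤ P * |wd e₁ e₂|) (w₂₃ : 1 ≤ P * |wd e₂ e₃|)
    (w₃₁ : 1 ≤ P * |wd e₃ e₁|) {b Â : ℝ × ℝ × ℝ}
    (hb₁ : κ₁ ^ 2 * bf b e₁ e₁ + bf b H₁ H₁ / (4 * S) = -2 * κ₁ * sp e₁ v₁)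
    (hb₂ : κ₂ ^ 2 * bf b e₂ e₂ + bf b H₂ H₂ / (4 * S) = -2 * κ₂ * sp e₂ v₂)
    (hb₃ : κ₃ ^ 2 * bf b e₃ e₃ + bf b H₃ H₃ / (4 * S) = -2 * κ₃ * sp e₃ v₃)
    (hA₁ : bf Â v₁ v₁ = c ^ 2 * (1 + ‖H₁‖ ^ 2 / (4 * S)))
    (hA₂ : bf Â v₂ v₂ = c ^ 2 * (1 + ‖H₂‖ ^ 2 / (4 * S)))
    (hA₃ : bf Â v₃ v₃ = c ^ 2 * (1 + ‖H₃‖ ^ 2 / (4 * S))) :
    (|bf Â v₁ H₁ - (sp v₁ H₁ + κ₁ * bf b e₁ H₁) - 2 * c * (κ₁ * sp e₁ H₁)| ≤
      130000 * P ^ 6 * (‖H₁‖ / c)) ∧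
    (|bf Â v₂ H₂ - (sp v₂ H₂ + κ₂ * bf b e₂ H₂) - 2 * c * (κ₂ * sp e₂ H₂)| ≤
      130000 * P ^ 6 * (‖H₂‖ / c)) ∧
    (|bf Â v₃ H₃ - (sp v₃ H₃ + κ₃ * bf b e₃ H₃) - 2 * c * (κ₃ * sp e₃ H₃)| ≤
      130000 * P ^ 6 * (‖H₃‖ / c)) ∧
    (∀ x z : ℂ, |bf (Â - (1, 0, 1)) x z| ≤ 5376 * P ^ 3 / c * (‖x‖ * ‖z‖)) := by
  have hP := s.hP
  have hP0 : 0 < P := by linarith
  have hc := c_pos s
  have hS := S_pos s
  obtain ⟨u, hu⟩ : ∃ u, u = b + (2 * c) • ((1, 0, 1) : ℝ × ℝ × ℝ) := ⟨_, rfl⟩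
  obtain ⟨E, hE⟩ : ∃ E, E = Â - ((1, 0, 1) : ℝ × ℝ × ℝ) := ⟨_, rfl⟩
  have hbu : b = u - (2 * c) • ((1, 0, 1) : ℝ × ℝ × ℝ) := by rw [hu]; abel
  have hAE : Â = (1, 0, 1) + E := by rw [hE]; abel
  have hval : ∀ {e v H : ℂ} {κ : ℝ}, Dat P S V c e v H κ →
      κ ^ 2 * bf b e e + bf b H H / (4 * S) = -2 * κ * sp e v →
      κ ^ 2 * bf u e e + bf u H H / (4 * S) = -2 * κ * sp e (y c κ e v) := by
    intro e v H κ d hb
    rw [hu, bf_add_left, bf_add_left, bf_smul, bf_smul, bf_one, bf_one, sp_self, sp_self, d.he,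
      x_eq d]
    have h2 := d.hκ2
    have hne := d.hκ.ne'
    have h3 : κ ^ 2 * (bf b e e + 2 * c * 1 ^ 2) + (bf b H H + 2 * c * ‖H‖ ^ 2) / (4 * S) =
        (κ ^ 2 * bf b e e + bf b H H / (4 * S)) + 2 * c * (κ ^ 2 + ‖H‖ ^ 2 / (4 * S)) := by
      ring
    rw [h3, hb, h2]
    field_simp
    ring
  have hEv : ∀ {v : ℂ} {H : ℂ}, bf Â v v = c ^ 2 * (1 + ‖H‖ ^ 2 / (4 * S)) →
      bf E v v = c ^ 2 * (1 + ‖H‖ ^ 2 / (4 * S)) - ‖v‖ ^ 2 := by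
    intro v H h
    rw [hE, bf_sub_left, bf_one, sp_self, h]
  have hu₁ := hval d₁ hb₁
  have hu₂ := hval d₂ hb₂
  have hu₃ := hval d₃ hb₃
  have hn := u_nf s d₁ d₂ d₃ w₁₂ w₂₃ w₃₁ hu₁ hu₂ hu₃
  have hEb := E_bound s d₁ d₂ d₃ w₁₂ w₂₃ w₃₁ (hEv hA₁) (hEv hA₂) (hEv hA₃)
  have hD : ∀ x z : ℂ, |bf (E - c⁻¹ • u) x z| ≤ 86550 * P ^ 6 / c ^ 2 * (‖x‖ * ‖z‖) := by
    intro x z
    have key := int_bound (E - c⁻¹ • u) e₁ e₂ e₃ hP0 (ne_zero_of_norm_one d₁.he)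
      (ne_zero_of_norm_one d₂.he) (ne_zero_of_norm_one d₃.he)
      (by rw [d₁.he, d₂.he, mul_one]; exact w₁₂)
      (by rw [d₂.he, d₃.he, mul_one]; exact w₂₃) (by rw [d₃.he, d₁.he, mul_one]; exact w₃₁)
      (D_val s d₁ hu₁ (hEv hA₁) hn hEb) (D_val s d₂ hu₂ (hEv hA₂) hn hEb)
      (D_val s d₃ hu₃ (hEv hA₃) hn hEb) x z
    refine le_trans key (le_of_eq ?_)
    ring
  refine ⟨?_, ?_, ?_, ?_⟩
  · rw [hAE, hbu]; exact win_one s d₁ hn hEb hD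
  · rw [hAE, hbu]; exact win_one s d₂ hn hEb hD
  · rw [hAE, hbu]; exact win_one s d₃ hn hEb hD
  · intro x z; rw [← hE]; exact hEb x z

end Pool.Agent.Helper68_F5
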