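import Pool.Agent.Helper68_F5.Cnt
import Pool.Agent.Helper68_F5.Win2
import Pool.Agent.Helper68_F5.Circ

/-!
MP_f5cbfa_nt, duality count: points of the true `V_h`, the bodies `Z` (duals of the bodies `K`),
from `v ∈ Z` to the pair count.
-/

set_option autoImplicit false

open MeasureTheory

namespace Pool.Agent.Helper68_F5

/-- A point of `V_h` (fixed form = square of the Euclidean norm, fixed `S`): unit directions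
`eₗ` of `mₗ = √S κₗ eₗ`, `Hₗ = g hₗ`. -/
structure Pt (P S δ r : ℝ) (H₁ H₂ H₃ e₁ e₂ e₃ : ℂ) (κ₁ κ₂ κ₃ : ℝ) : Prop where
  he₁ : ‖e₁‖ = 1
  he₂ : ‖e₂‖ = 1
  he₃ : ‖e₃‖ = 1
  hκ₁ : 0 < κ₁
  hκ₂ : 0 < κ₂
  hκ₃ : 0 < κ₃
  sq₁ : κ₁ ^ 2 = 1 - ‖H₁‖ ^ 2 / (4 * S)
  sq₂ : κ₂ ^ 2 = 1 - ‖H₂‖ ^ 2 / (4 * S)
  sq₃ : κ₃ ^ 2 = 1 - ‖H₃‖ ^ 2 / (4 * S)
  w₁₂ : 1 ≤ P * |wd e₁ e₂|
  w₂₃ : 1 ≤ P * |wd e₂ e₃|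
  w₃₁ : 1 ≤ P * |wd e₃ e₁|
  t₁ : |κ₁ * sp e₁ H₁ - κ₃ * sp e₃ H₃| ≤ δ
  t₂ : |κ₂ * sp e₂ H₂ - κ₃ * sp e₃ H₃| ≤ δ
  slab : |sp e₃ H₃| ≤ r

/-- The body `Z`: `v` within `P` of the point `c` of the ray of the `e`, `|c| ≤ R₁`, and
`|G₁ - G₃| ≤ ω₁`, `|G₂ - G₃| ≤ ω₂` where `b / √S` is the variation of the form along `v`. -/
def InZ (P S R₁ ω₁ ω₂ : ℝ) (H₁ H₂ H₃ e₁ e₂ e₃ : ℂ) (κ₁ κ₂ κ₃ : ℝ) (v₁ v₂ v₃ : ℂ) : Prop :=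
  ∃ c : ℝ, |c| ≤ R₁ ∧ ‖v₁ - (c : ℂ) * e₁‖ ≤ P ∧ ‖v₂ - (c : ℂ) * e₂‖ ≤ P ∧
    ‖v₃ - (c : ℂ) * e₃‖ ≤ P ∧ ∃ b : ℝ × ℝ × ℝ,
      κ₁ ^ 2 * bf b e₁ e₁ + bf b H₁ H₁ / (4 * S) = -2 * κ₁ * sp e₁ v₁ ∧
      κ₂ ^ 2 * bf b e₂ e₂ + bf b H₂ H₂ / (4 * S) = -2 * κ₂ * sp e₂ v₂ ∧
      κ₃ ^ 2 * bf b e₃ e₃ + bf b H₃ H₃ / (4 * S) = -2 * κ₃ * sp e₃ v₃ ∧
      |(sp v₁ H₁ + κ₁ * bf b e₁ H₁) - (sp v₃ H₃ + κ₃ * bf b e₃ H₃)| ≤ ω₁ ∧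
      |(sp v₂ H₂ + κ₂ * bf b e₂ H₂) - (sp v₃ H₃ + κ₃ * bf b e₃ H₃)| ≤ ω₂

/-- the angles `θ₃` at which `v` is in `Z` -/
def Hit (P S δ r R₁ ω₁ ω₂ : ℝ) (H₁ H₂ H₃ v₁ v₂ v₃ : ℂ) : Set ℝ :=
  {θ | θ ∈ Set.Ioc (-Real.pi) Real.pi ∧ ∃ (e₁ e₂ : ℂ) (κ₁ κ₂ κ₃ : ℝ),
    Pt P S δ r H₁ H₂ H₃ e₁ e₂ (ee θ) κ₁ κ₂ κ₃ ∧
    InZ P S R₁ ω₁ ω₂ H₁ H₂ H₃ e₁ e₂ (ee θ) κ₁ κ₂ κ₃ v₁ v₂ v₃}

theorem bf_neg_left (Q : ℝ × ℝ × ℝ) (z w : ℂ) : bf (-Q) z w = -bf Q z w := by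
  simp only [bf, Prod.fst_neg, Prod.snd_neg]; ring

theorem bf_neg' (Q : ℝ × ℝ × ℝ) (z w : ℂ) : bf Q (-z) w = -bf Q z w := by
  simp only [bf, Complex.neg_re, Complex.neg_im]; ring

theorem sp_neg' (z w : ℂ) : sp (-z) w = -sp z w := by
  simp only [sp, Complex.neg_re, Complex.neg_im]; ring

theorem wd_neg' (z w : ℂ) : wd (-z) w = -wd z w := by
  simp only [wd, Complex.neg_re, Complex.neg_im]; ring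

theorem wd_neg (z w : ℂ) : wd z (-w) = -wd z w := by
  simp only [wd, Complex.neg_re, Complex.neg_im]; ring

/-- one may assume `0 ≤ c` -/
theorem InZ.wlog {P S δ r R₁ ω₁ ω₂ : ℝ} {H₁ H₂ H₃ e₁ e₂ e₃ : ℂ} {κ₁ κ₂ κ₃ : ℝ} {v₁ v₂ v₃ : ℂ}
    (p : Pt P S δ r H₁ H₂ H₃ e₁ e₂ e₃ κ₁ κ₂ κ₃)
    (h : InZ P S R₁ ω₁ ω₂ H₁ H₂ H₃ e₁ e₂ e₃ κ₁ κ₂ κ₃ v₁ v₂ v₃) :
    ∃ (e₁' e₂' e₃' : ℂ) (c : ℝ) (b : ℝ × ℝ × ℝ), (e₃' = e₃ ∨ e₃' = -e₃) ∧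
      Pt P S δ r H₁ H₂ H₃ e₁' e₂' e₃' κ₁ κ₂ κ₃ ∧ 0 ≤ c ∧ c ≤ R₁ ∧
      ‖v₁ - (c : ℂ) * e₁'‖ ≤ P ∧ ‖v₂ - (c : ℂ) * e₂'‖ ≤ P ∧ ‖v₃ - (c : ℂ) * e₃'‖ ≤ P ∧
      κ₁ ^ 2 * bf b e₁' e₁' + bf b H₁ H₁ / (4 * S) = -2 * κ₁ * sp e₁' v₁ ∧
      κ₂ ^ 2 * bf b e₂' e₂' + bf b H₂ H₂ / (4 * S) = -2 * κ₂ * sp e₂' v₂ ∧
      κ₃ ^ 2 * bf b e₃' e₃' + bf b H₃ H₃ / (4 * S) = -2 * κ₃ * sp e₃' v₃ ∧
      |(sp v₁ H₁ + κ₁ * bf b e₁' H₁) - (sp v₃ H₃ + κ₃ * bf b e₃' H₃)| ≤ ω₁ ∧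
      |(sp v₂ H₂ + κ₂ * bf b e₂' H₂) - (sp v₃ H₃ + κ₃ * bf b e₃' H₃)| ≤ ω₂ := by
  obtain ⟨c, hc, a₁, a₂, a₃, b, b₁, b₂, b₃, g₁, g₂⟩ := h
  rcases le_total 0 c with h0 | h0
  · rw [abs_of_nonneg h0] at hc
    exact ⟨e₁, e₂, e₃, c, b, Or.inl rfl, p, h0, hc, a₁, a₂, a₃, b₁, b₂, b₃, g₁, g₂⟩
  · rw [abs_of_nonpos h0] at hc
    have hneg : ∀ e v : ℂ, v - ((-c : ℝ) : ℂ) * -e = v - (c : ℂ) * e := by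
      intro e v; push_cast; ring
    refine ⟨-e₁, -e₂, -e₃, -c, -b, Or.inr rfl, ?_, by linarith, hc, ?_, ?_, ?_, ?_, ?_, ?_, ?_,
      ?_⟩
    · refine ⟨by rw [norm_neg, p.he₁], by rw [norm_neg, p.he₂], by rw [norm_neg, p.he₃], p.hκ₁,
        p.hκ₂, p.hκ₃, p.sq₁, p.sq₂, p.sq₃, ?_, ?_, ?_, ?_, ?_, ?_⟩
      · rw [wd_neg', wd_neg, neg_neg]; exact p.w₁₂
      · rw [wd_neg', wd_neg, neg_neg]; exact p.w₂₃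
      · rw [wd_neg', wd_neg, neg_neg]; exact p.w₃₁
      · rw [sp_neg', sp_neg']
        have := p.t₁
        rw [abs_sub_comm] at this
        refine le_trans (le_of_eq ?_) this
        congr 1; ring
      · rw [sp_neg', sp_neg']
        have := p.t₂
        rw [abs_sub_comm] at this
        refine le_trans (le_of_eq ?_) this
        congr 1; ring
      · rw [sp_neg', abs_neg]; exact p.slab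
    · rw [hneg]; exact a₁
    · rw [hneg]; exact a₂
    · rw [hneg]; exact a₃
    · have e1 : bf (-b) (-e₁) (-e₁) = -bf b e₁ e₁ := by
        rw [bf_neg_left, bf_neg', bf_comm, bf_neg', neg_neg]
      rw [e1, bf_neg_left, sp_neg']
      linear_combination -b₁
    · have e1 : bf (-b) (-e₂) (-e₂) = -bf b e₂ e₂ := by
        rw [bf_neg_left, bf_neg', bf_comm, bf_neg', neg_neg]
      rw [e1, bf_neg_left, sp_neg']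
      linear_combination -b₂
    · have e1 : bf (-b) (-e₃) (-e₃) = -bf b e₃ e₃ := by
        rw [bf_neg_left, bf_neg', bf_comm, bf_neg', neg_neg]
      rw [e1, bf_neg_left, sp_neg']
      linear_combination -b₃
    · rw [bf_neg_left, bf_neg_left, bf_neg', bf_neg', neg_neg, neg_neg]; exact g₁
    · rw [bf_neg_left, bf_neg_left, bf_neg', bf_neg', neg_neg, neg_neg]; exact g₂

/-- crude consequences of `v ∈ Z` -/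
theorem InZ.crude {P S δ r R₁ ω₁ ω₂ : ℝ} {H₁ H₂ H₃ e₁ e₂ e₃ : ℂ} {κ₁ κ₂ κ₃ : ℝ} {v₁ v₂ v₃ : ℂ}
    (p : Pt P S δ r H₁ H₂ H₃ e₁ e₂ e₃ κ₁ κ₂ κ₃)
    (h : InZ P S R₁ ω₁ ω₂ H₁ H₂ H₃ e₁ e₂ e₃ κ₁ κ₂ κ₃ v₁ v₂ v₃) :
    ‖v₁‖ ≤ R₁ + P ∧ ‖v₂‖ ≤ ‖v₁‖ + 2 * P ∧ ‖v₃‖ ≤ ‖v₁‖ + 2 * P ∧ |wd e₃ v₃| ≤ P ∧
      ‖v₁‖ ≤ ‖v₃‖ + 2 * P := by
  obtain ⟨c, hc, a₁, a₂, a₃, _⟩ := h
  obtain ⟨c₁, hc₁⟩ : ∃ c₁, c₁ = |c| := ⟨_, rfl⟩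
  rw [← hc₁] at hc
  have hn : ∀ {e v : ℂ}, ‖e‖ = 1 → ‖v - (c : ℂ) * e‖ ≤ P → |‖v‖ - c₁| ≤ P := by
    intro e v he ha
    rw [hc₁]
    have h1 : ‖(c : ℂ) * e‖ = |c| := by
      rw [norm_mul, he, mul_one, Complex.norm_real, Real.norm_eq_abs]
    have h2 := abs_norm_sub_norm_le v ((c : ℂ) * e)
    rw [h1] at h2
    exact le_trans h2 ha
  have h₁ := abs_le.1 (hn p.he₁ a₁)
  have h₂ := abs_le.1 (hn p.he₂ a₂)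
  have h₃ := abs_le.1 (hn p.he₃ a₃)
  refine ⟨by linarith, by linarith, by linarith, ?_, by linarith⟩
  have e1 : wd e₃ v₃ = wd e₃ (v₃ - (c : ℂ) * e₃) := by
    rw [wd_sub, wd_real', wd_self]; ring
  rw [e1]
  refine le_trans (abs_wd_le _ _) ?_
  rw [p.he₃, one_mul]
  exact a₃

theorem comb {X Z G₁ G₃ s₁ s₃ c E₁ E₃ ω E : ℝ} (h1 : |X - G₁ - 2 * c * s₁| ≤ E₁)
    (h3 : |Z - G₃ - 2 * c * s₃| ≤ E₃) (ht : |2 * c * (s₁ - s₃)| ≤ 4 * ω) (hg : |G₁ - G₃| ≤ ω)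
    (hE₁ : E₁ ≤ E) (hE₃ : E₃ ≤ E) : |X - Z| ≤ 5 * ω + 2 * E := by
  have e : X - Z = (X - G₁ - 2 * c * s₁) - (Z - G₃ - 2 * c * s₃) + 2 * c * (s₁ - s₃) +
      (G₁ - G₃) := by ring
  rw [e]
  have a1 := abs_add_le ((X - G₁ - 2 * c * s₁) - (Z - G₃ - 2 * c * s₃) + 2 * c * (s₁ - s₃))
    (G₁ - G₃)
  have a2 := abs_add_le ((X - G₁ - 2 * c * s₁) - (Z - G₃ - 2 * c * s₃)) (2 * c * (s₁ - s₃))
  have a3 := abs_sub (X - G₁ - 2 * c * s₁) (Z - G₃ - 2 * c * s₃)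
  linarith

theorem final_arith {x y a b c : ℝ} (h3 : x ≤ a + b) (h6 : y ≤ 86016 * c) (h4 : b ≤ 2 * c)
    (h5 : 0 ≤ c) : x + y ≤ a + 90000 * c := by linarith

/-- from `Z` to the pair count -/
theorem pair_of_inZ {g : ℤ × ℤ →+ ℂ} {P R S δ r R₁ ω₁ ω₂ V₁ V₂ V₃ t₀ : ℝ} {v h : T3}
    {e₁ e₂ e₃ : ℂ} {κ₁ κ₂ κ₃ : ℝ} (hP : 1 ≤ P) (hR : 2400 * P ^ 3 ≤ R)
    (hR₁ : R₁ + P ≤ 2 * V₁) (hVS : V₁ ^ 3 ≤ S) (h21 : V₂ ≤ V₁) (h32 : V₃ ≤ V₂) (h3 : 0 ≤ V₃)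
    (hδ : 4 * R * δ ≤ 4 * ω₁) (hδ2 : 4 * R * δ ≤ 4 * ω₂)
    (n₁ : ‖g h.1‖ ≤ V₁) (n₂ : ‖g h.2.1‖ ≤ V₂) (n₃ : ‖g h.2.2‖ ≤ V₃) (ht₀ : |sp e₃ (g h.2.2)| ≤ t₀)
    (p : Pt P S δ r (g h.1) (g h.2.1) (g h.2.2) e₁ e₂ e₃ κ₁ κ₂ κ₃)
    (hz : InZ P S R₁ ω₁ ω₂ (g h.1) (g h.2.1) (g h.2.2) e₁ e₂ e₃ κ₁ κ₂ κ₃ (g v.1) (g v.2.1)
      (g v.2.2)) (hlo : R ≤ ‖g v.1‖) (hhi : ‖g v.1‖ ≤ 2 * R) :
    Pair g (2 * P) R S V₁ V₂ V₃ (5 * ω₁ + 16640000 * P ^ 6 * (V₁ / R))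
      (5 * ω₂ + 16640000 * P ^ 6 * (V₂ / R)) (2 * R * t₀ + 90000 * P ^ 3 * V₃) v h := by
  obtain ⟨c', hc'⟩ : ∃ c', c' = ‖g v.1‖ := ⟨_, rfl⟩
  have hP3 : 1 ≤ P ^ 3 := one_le_pow₀ hP
  have hR0 : 0 < R := by linarith
  obtain ⟨f₁, f₂, f₃, c, b, hf, p', hc0, hcR, a₁, a₂, a₃, b₁, b₂, b₃, g₁, g₂⟩ := InZ.wlog p hz
  have hcr := InZ.crude p hz
  have hcc : |c - c'| ≤ P := by
    have h1 : ‖(c : ℂ) * f₁‖ = c := by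
      rw [norm_mul, p'.he₁, mul_one, Complex.norm_real, Real.norm_eq_abs, abs_of_nonneg hc0]
    have h2 := abs_norm_sub_norm_le (g v.1) ((c : ℂ) * f₁)
    rw [h1, ← hc', abs_sub_comm] at h2
    exact le_trans h2 a₁
  have hc'0 : 0 < c' := by rw [hc']; linarith
  have hs : Sml (2 * P) S V₁ c' := by
    refine ⟨by linarith, ?_, ?_, hVS⟩
    · rw [hc']
      calc 300 * (2 * P) ^ 3 = 2400 * P ^ 3 := by ring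
        _ ≤ R := hR
        _ ≤ _ := hlo
    · rw [hc']; linarith [hcr.1]
  have hv : ∀ {e w : ℂ}, ‖e‖ = 1 → ‖w - (c : ℂ) * e‖ ≤ P → ‖w - (c' : ℂ) * e‖ ≤ 2 * P := by
    intro e w he ha
    have e1 : w - (c' : ℂ) * e = (w - (c : ℂ) * e) + ((c - c' : ℝ) : ℂ) * e := by push_cast; ring
    have e2 : ‖((c - c' : ℝ) : ℂ) * e‖ ≤ P := by
      rw [norm_mul, he, mul_one, Complex.norm_real, Real.norm_eq_abs]; exact hcc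
    rw [e1]
    have := norm_add_le (w - (c : ℂ) * e) (((c - c' : ℝ) : ℂ) * e)
    linarith
  have d₁ : Dat (2 * P) S V₁ c' f₁ (g v.1) (g h.1) κ₁ :=
    ⟨p'.he₁, p'.hκ₁, p'.sq₁, n₁, hv p'.he₁ a₁⟩
  have d₂ : Dat (2 * P) S V₁ c' f₂ (g v.2.1) (g h.2.1) κ₂ :=
    ⟨p'.he₂, p'.hκ₂, p'.sq₂, le_trans n₂ h21, hv p'.he₂ a₂⟩
  have d₃ : Dat (2 * P) S V₁ c' f₃ (g v.2.2) (g h.2.2) κ₃ :=
    ⟨p'.he₃, p'.hκ₃, p'.sq₃, le_trans n₃ (le_trans h32 h21), hv p'.he₃ a₃⟩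
  have w₁₂ : 1 ≤ 2 * P * |wd f₁ f₂| := by nlinarith [p'.w₁₂, abs_nonneg (wd f₁ f₂)]
  have w₂₃ : 1 ≤ 2 * P * |wd f₂ f₃| := by nlinarith [p'.w₂₃, abs_nonneg (wd f₂ f₃)]
  have w₃₁ : 1 ≤ 2 * P * |wd f₃ f₁| := by nlinarith [p'.w₃₁, abs_nonneg (wd f₃ f₁)]
  have htri := tri_of_dat hs d₁ d₂ d₃ w₁₂ w₂₃ w₃₁
  have hwin := windows hs d₁ d₂ d₃ w₁₂ w₂₃ w₃₁ b₁ b₂ b₃
    (Â := Ah S c' (g v.1) (g v.2.1) (g v.2.2) (g h.1) (g h.2.1) (g h.2.2))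
    (itp_val₁ htri.w12 htri.w23 htri.w31 _ _ _) (itp_val₂ htri.w12 htri.w23 htri.w31 _ _ _)
    (itp_val₃ htri.w12 htri.w23 htri.w31 _ _ _)
  obtain ⟨k₁, k₂, k₃, kE⟩ := hwin
  have hcR' : c' ≤ 2 * R := by rw [hc']; exact hhi
  have hRc' : R ≤ c' := by rw [hc']; exact hlo
  -- the error terms
  have herr : ∀ {H : ℂ} {V : ℝ}, ‖H‖ ≤ V → 130000 * (2 * P) ^ 6 * (‖H‖ / c') ≤
      8320000 * P ^ 6 * (V / R) := by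
    intro H V hH
    have : ‖H‖ / c' ≤ V / R := div_le_div₀ (le_trans (norm_nonneg _) hH) hH hR0 hRc'
    calc 130000 * (2 * P) ^ 6 * (‖H‖ / c') = 8320000 * P ^ 6 * (‖H‖ / c') := by ring
      _ ≤ _ := mul_le_mul_of_nonneg_left this (by positivity)
  have E₁ := herr n₁
  have E₂ := herr n₂
  have E₃₁ := herr (le_trans n₃ (le_trans h32 h21))
  have E₃₂ := herr (le_trans n₃ h32)
  have htube : ∀ {x ω : ℝ}, |x| ≤ δ → 4 * R * δ ≤ 4 * ω → |2 * c' * x| ≤ 4 * ω := by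
    intro x ω hx hω
    have hδ0 : 0 ≤ δ := le_trans (abs_nonneg _) hx
    rw [abs_mul, abs_of_pos (by positivity : 0 < 2 * c')]
    calc 2 * c' * |x| ≤ 2 * (2 * R) * δ := mul_le_mul (by linarith) hx (abs_nonneg _)
          (by positivity)
      _ ≤ 4 * ω := by linarith
  refine ⟨hlo, hhi, by rw [← hc']; exact htri, ?_⟩
  rw [← hc']
  refine ⟨n₁, n₂, n₃, ?_, ?_, ?_⟩
  · have := comb k₁ k₃ (htube p'.t₁ hδ) g₁ E₁ E₃₁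
    linarith
  · have := comb k₂ k₃ (htube p'.t₂ hδ2) g₂ E₂ E₃₂
    linarith
  · obtain ⟨H, hH⟩ : ∃ H, H = g h.2.2 := ⟨_, rfl⟩
    rw [← hH] at n₃ ht₀
    have e1 : bf (Ah S c' (g v.1) (g v.2.1) (g v.2.2) (g h.1) (g h.2.1) (g h.2.2)) (g v.2.2)
        (g h.2.2) = sp (g v.2.2) H + bf (Ah S c' (g v.1) (g v.2.1) (g v.2.2) (g h.1) (g h.2.1)
          (g h.2.2) - (1, 0, 1)) (g v.2.2) H := by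
      rw [bf_sub_left, bf_one, hH]; ring
    rw [e1]
    have m1 := kE (g v.2.2) H
    have nv := Dat.norm_v_le hs d₃
    have m2 : 5376 * (2 * P) ^ 3 / c' * (‖g v.2.2‖ * ‖H‖) ≤ 86016 * (P ^ 3 * V₃) := by
      calc 5376 * (2 * P) ^ 3 / c' * (‖g v.2.2‖ * ‖H‖) ≤
            5376 * (2 * P) ^ 3 / c' * (2 * c' * V₃) :=
            mul_le_mul_of_nonneg_left (mul_le_mul nv n₃ (norm_nonneg _) (by positivity))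
              (by positivity)
        _ = 86016 * (P ^ 3 * V₃) := by field_simp; ring
    have m3 : |sp (g v.2.2) H| ≤ 2 * R * t₀ + 2 * P * V₃ := by
      have e2 : g v.2.2 = (c' : ℂ) * f₃ + (g v.2.2 - (c' : ℂ) * f₃) := by ring
      have e3 : sp (g v.2.2) H = c' * sp f₃ H + sp (g v.2.2 - (c' : ℂ) * f₃) H := by
        conv_lhs => rw [e2]
        rw [sp_add', sp_real]
      rw [e3]
      have q1 : |sp f₃ H| ≤ t₀ := by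
        rcases hf with h1 | h1
        · rw [h1]; exact ht₀
        · rw [h1, sp_neg', abs_neg]; exact ht₀
      have q2 : |c' * sp f₃ H| ≤ 2 * R * t₀ := by
        rw [abs_mul, abs_of_pos hc'0]
        exact mul_le_mul hcR' q1 (abs_nonneg _) (by positivity)
      have q3 : |sp (g v.2.2 - (c' : ℂ) * f₃) H| ≤ 2 * P * V₃ := by
        refine le_trans (abs_sp_le _ _) ?_
        exact mul_le_mul d₃.hv n₃ (norm_nonneg _) (by linarith)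
      exact le_trans (abs_add_le _ _) (by linarith)
    have m4 : 2 * P * V₃ ≤ 2 * (P ^ 3 * V₃) := by
      have : P ≤ P ^ 3 := le_self_pow₀ hP (by norm_num)
      calc 2 * P * V₃ = 2 * V₃ * P := by ring
        _ ≤ 2 * V₃ * P ^ 3 := mul_le_mul_of_nonneg_left this (by linarith)
        _ = _ := by ring
    refine le_trans (abs_add_le _ _) ?_
    have m5 : 0 ≤ P ^ 3 * V₃ := by positivity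
    have m6 := le_trans m1 m2
    refine le_trans (final_arith m3 m6 m4 m5) (le_of_eq ?_)
    ring

end Pool.Agent.Helper68_F5
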