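import Pool.Agent.Helper68_F5.Kc2a
import Pool.Agent.Helper68_F5.Kdef

/-!
MP_f5cbfa_nt, duality count: the frame of a form `A`, the directions, the tangent vectors.
-/

set_option autoImplicit false

open MeasureTheory Matrix Complex ComplexConjugate

namespace Pool.Agent.Helper68_F5

open Pool.Agent.BTL Pool.Agent.F5S Pool.Agent.F5H Pool.Agent.F5H.BC Pool.Agent.Helper96_GN

/-! ### the frame -/

/-- basic facts on `A ∈ KM Q` -/
theorem km_facts {Q : ℝ} (hQ : 1 ≤ Q) {A : ℝ × ℝ × ℝ} (hA : A ∈ KM Q) :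
    0 < A.1 ∧ 0 < disc A ∧ disc A ≤ Q ^ 2 := by
  have hQ0 : 0 < Q := by linarith
  have h1 := hA (1, 0)
  have h2 := hA (0, 1)
  have h3 := hA (-A.2.1, A.1)
  simp only [nr, BTL.qf] at h1 h2 h3
  have a1 : 0 < A.1 := by
    have : 0 < ((1 : ℝ) ^ 2 + 0 ^ 2) / Q := by positivity
    linarith [h1.1]
  have a2 : 0 ≤ A.2.2 := by
    have : 0 < ((0 : ℝ) ^ 2 + 1 ^ 2) / Q := by positivity
    linarith [h2.1]
  refine ⟨a1, ?_, ?_⟩
  · have h4 : 0 < ((-A.2.1) ^ 2 + A.1 ^ 2) / Q := by positivity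
    have h5 : A.1 * (-A.2.1) ^ 2 + 2 * A.2.1 * -A.2.1 * A.1 + A.2.2 * A.1 ^ 2 = A.1 * disc A := by
      unfold disc; ring
    rw [h5] at h3
    have h6 : 0 < A.1 * disc A := lt_of_lt_of_le h4 h3.1
    exact pos_of_mul_pos_right h6 a1.le
  · unfold disc
    have b1 : A.1 ≤ Q := by linarith [h1.2]
    have b2 : A.2.2 ≤ Q := by linarith [h2.2]
    have := mul_le_mul b1 b2 a2 hQ0.le
    nlinarith [sq_nonneg A.2.1]

theorem norm_gA_sq {A : ℝ × ℝ × ℝ} (h1 : 0 < A.1) (hd : 0 < disc A) (x : ℝ × ℝ) :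
    ‖gA A x‖ ^ 2 = BTL.qf A x := by
  rw [Complex.sq_norm, Complex.normSq_apply, gA]
  simp only
  have hs := Real.sq_sqrt h1.le
  have hne : √A.1 ≠ 0 := (Real.sqrt_pos.2 h1).ne'
  have h3 : √(disc A / A.1) * √(disc A / A.1) = disc A / A.1 :=
    Real.mul_self_sqrt (by positivity)
  have e1 : √(disc A / A.1) * x.2 * (√(disc A / A.1) * x.2) = disc A / A.1 * x.2 ^ 2 := by
    calc √(disc A / A.1) * x.2 * (√(disc A / A.1) * x.2) =
        √(disc A / A.1) * √(disc A / A.1) * x.2 ^ 2 := by ring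
      _ = _ := by rw [h3]
  rw [e1]
  have hA1 : A.1 ≠ 0 := h1.ne'
  have e2 : (√A.1 * x.1 + A.2.1 / √A.1 * x.2) * (√A.1 * x.1 + A.2.1 / √A.1 * x.2) =
      A.1 * x.1 ^ 2 + 2 * A.2.1 * x.1 * x.2 + A.2.1 ^ 2 / A.1 * x.2 ^ 2 := by
    have e3 : (A.2.1 / √A.1) ^ 2 = A.2.1 ^ 2 / A.1 := by rw [div_pow, hs]
    have e4 : √A.1 * (A.2.1 / √A.1) = A.2.1 := by field_simp
    calc (√A.1 * x.1 + A.2.1 / √A.1 * x.2) * (√A.1 * x.1 + A.2.1 / √A.1 * x.2) =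
        √A.1 ^ 2 * x.1 ^ 2 + 2 * (√A.1 * (A.2.1 / √A.1)) * x.1 * x.2 +
          (A.2.1 / √A.1) ^ 2 * x.2 ^ 2 := by ring
      _ = _ := by rw [hs, e3, e4]
  rw [e2, BTL.qf]
  unfold disc
  field_simp
  ring

theorem gA_add (A : ℝ × ℝ × ℝ) (x y : ℝ × ℝ) : gA A (x + y) = gA A x + gA A y := by
  apply Complex.ext <;> simp [gA] <;> ring

theorem gA_smul (A : ℝ × ℝ × ℝ) (a : ℝ) (x : ℝ × ℝ) : gA A (a • x) = (a : ℂ) * gA A x := by
  apply Complex.ext <;> simp [gA] <;> ring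

/-- the inverse frame -/
noncomputable def giA (A : ℝ × ℝ × ℝ) (z : ℂ) : ℝ × ℝ :=
  ((z.re - A.2.1 / √A.1 * (z.im / √(disc A / A.1))) / √A.1, z.im / √(disc A / A.1))

theorem gA_giA {A : ℝ × ℝ × ℝ} (h1 : 0 < A.1) (hd : 0 < disc A) (z : ℂ) : gA A (giA A z) = z := by
  have hne : √A.1 ≠ 0 := (Real.sqrt_pos.2 h1).ne'
  have hne2 : √(disc A / A.1) ≠ 0 := (Real.sqrt_pos.2 (by positivity)).ne'
  apply Complex.ext
  · simp only [gA, giA]
    field_simp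
    ring
  · simp only [gA, giA]
    field_simp

theorem sp_kA_gA {A : ℝ × ℝ × ℝ} (h1 : 0 < A.1) (hd : 0 < disc A) (k x : ℝ × ℝ) :
    sp (kA A k) (gA A x) = k.1 * x.1 + k.2 * x.2 := by
  have hne : √A.1 ≠ 0 := (Real.sqrt_pos.2 h1).ne'
  have hne2 : √(disc A) ≠ 0 := (Real.sqrt_pos.2 hd).ne'
  have h3 : √(disc A / A.1) = √(disc A) / √A.1 := Real.sqrt_div hd.le _
  simp only [sp, kA, gA, h3]
  field_simp
  ring

/-- size of the dual frame -/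
theorem norm_kA_le {Q : ℝ} (hQ : 1 ≤ Q) {A : ℝ × ℝ × ℝ} (hA : A ∈ KM Q) (k : ℝ × ℝ) :
    ‖kA A k‖ ≤ 2 * Q * ‖k‖ := by
  obtain ⟨h1, hd, _⟩ := km_facts hQ hA
  have hQ0 : 0 < Q := by linarith
  obtain ⟨x, hx⟩ : ∃ x, x = giA A (kA A k) := ⟨_, rfl⟩
  have hgx : gA A x = kA A k := by rw [hx, gA_giA h1 hd]
  have e1 : ‖kA A k‖ ^ 2 = k.1 * x.1 + k.2 * x.2 := by
    rw [← sp_self]
    conv_lhs => rw [← hgx]
    rw [hgx]
    conv_lhs => rw [← hgx]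
    rw [hgx]
    have := sp_kA_gA h1 hd k x
    rw [hgx] at this
    exact this
  have e2 : nr x ≤ Q * ‖kA A k‖ ^ 2 := by
    have h2 := (hA x).1
    rw [← norm_gA_sq h1 hd, hgx, div_le_iff₀ hQ0] at h2
    linarith
  have e3 : (k.1 * x.1 + k.2 * x.2) ^ 2 ≤ (k.1 ^ 2 + k.2 ^ 2) * nr x := by
    unfold nr
    nlinarith [sq_nonneg (k.1 * x.2 - k.2 * x.1)]
  have e4 : k.1 ^ 2 + k.2 ^ 2 ≤ 2 * ‖k‖ ^ 2 := by
    have a1 : |k.1| ≤ ‖k‖ := norm_fst_le k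
    have a2 : |k.2| ≤ ‖k‖ := norm_snd_le k
    have b1 := pow_le_pow_left₀ (abs_nonneg _) a1 2
    have b2 := pow_le_pow_left₀ (abs_nonneg _) a2 2
    rw [sq_abs] at b1 b2
    linarith
  obtain ⟨N, hN⟩ : ∃ N, N = ‖kA A k‖ := ⟨_, rfl⟩
  obtain ⟨m, hm⟩ : ∃ m, m = ‖k‖ := ⟨_, rfl⟩
  rw [← hN] at e1 e2 ⊢
  rw [← hm] at e4 ⊢
  have hN0 : 0 ≤ N := by rw [hN]; exact norm_nonneg _
  have hm0 : 0 ≤ m := by rw [hm]; exact norm_nonneg _
  have e5 : (N ^ 2) ^ 2 ≤ 2 * m ^ 2 * (Q * N ^ 2) := by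
    rw [e1]
    refine le_trans e3 ?_
    rw [← e1]
    exact mul_le_mul e4 e2 (by unfold nr; positivity) (by positivity)
  rcases eq_or_lt_of_le hN0 with h | h
  · rw [← h]; positivity
  · have hN2 : 0 < N ^ 2 := by positivity
    have e6 : N ^ 2 ≤ 2 * m ^ 2 * Q := by
      have : N ^ 2 * N ^ 2 ≤ (2 * m ^ 2 * Q) * N ^ 2 := by
        calc N ^ 2 * N ^ 2 = (N ^ 2) ^ 2 := by ring
          _ ≤ _ := e5
          _ = _ := by ring
      exact le_of_mul_le_mul_right this hN2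
    have e7 : N ^ 2 ≤ (2 * Q * m) ^ 2 := by
      have : m ^ 2 * Q ≤ m ^ 2 * Q ^ 2 := by
        refine mul_le_mul_of_nonneg_left ?_ (by positivity)
        nlinarith
      have : 0 ≤ m ^ 2 * Q ^ 2 := by positivity
      calc N ^ 2 ≤ 2 * m ^ 2 * Q := e6
        _ ≤ (2 * Q * m) ^ 2 := by nlinarith
    exact le_of_sq_le_sq e7 (by positivity)

/-! ### directions -/

theorem unit_dir {H : ℂ} (hH : H ≠ 0) {τ ε : ℝ} (hτ : |τ| ≤ 1) (hε : ε ^ 2 = 1) {w : ℂ}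
    (hw : w = H / (‖H‖ : ℂ) * ((τ : ℂ) + ((ε * √(1 - τ ^ 2) : ℝ) : ℂ) * I)) :
    ‖w‖ = 1 ∧ sp w H = ‖H‖ * τ := by
  have hn : 0 < ‖H‖ := norm_pos_iff.2 hH
  have hτ2 : 0 ≤ 1 - τ ^ 2 := by
    have := abs_le.1 hτ
    nlinarith
  have hs := Real.sq_sqrt hτ2
  have hσ : (ε * √(1 - τ ^ 2)) ^ 2 = 1 - τ ^ 2 := by rw [mul_pow, hε, hs]; ring
  obtain ⟨σ, hσ'⟩ : ∃ σ, σ = ε * √(1 - τ ^ 2) := ⟨_, rfl⟩
  rw [← hσ'] at hσ hw
  have h1 : ‖H / (‖H‖ : ℂ)‖ = 1 := by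
    rw [norm_div, Complex.norm_real, norm_norm, div_self hn.ne']
  have h2 : ‖(τ : ℂ) + (σ : ℂ) * I‖ ^ 2 = 1 := by
    rw [Complex.sq_norm, Complex.normSq_add_mul_I]; linarith
  constructor
  · rw [hw, norm_mul, h1, one_mul]
    have h3 : 0 ≤ ‖(τ : ℂ) + (σ : ℂ) * I‖ := norm_nonneg _
    nlinarith
  · rw [hw]
    have e1 : H / (‖H‖ : ℂ) * ((τ : ℂ) + (σ : ℂ) * I) =
        ((‖H‖⁻¹ : ℝ) : ℂ) * (H * ((τ : ℂ) + (σ : ℂ) * I)) := by
      push_cast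
      rw [div_eq_mul_inv]; ring
    rw [e1, sp_real]
    have e2 : sp (H * ((τ : ℂ) + (σ : ℂ) * I)) H = τ * ‖H‖ ^ 2 := by
      rw [← sp_self]
      simp only [sp, Complex.mul_re, Complex.mul_im, Complex.add_re, Complex.add_im,
        Complex.ofReal_re, Complex.ofReal_im, Complex.I_re, Complex.I_im]
      ring
    rw [e2]
    field_simp

theorem sp_eq (z w : ℂ) : (conj z * w).re = sp z w := by
  simp only [sp, Complex.mul_re, Complex.conj_re, Complex.conj_im]; ring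

theorem wd_eq (z w : ℂ) : (conj z * w).im = wd z w := by
  simp only [wd, Complex.mul_im, Complex.conj_re, Complex.conj_im]; ring

theorem ee_eq (θ : ℝ) : cexp ((θ : ℂ) * I) = ee θ := by
  apply Complex.ext
  · rw [ee, Complex.exp_ofReal_mul_I_re]
  · rw [ee, Complex.exp_ofReal_mul_I_im]

theorem sp_mul_I (w z : ℂ) : sp w (I * z) = -wd w z := by
  simp only [sp, wd, Complex.mul_re, Complex.mul_im, Complex.I_re, Complex.I_im]; ring

/-- components of `(μ + i y) w` in the direction `w` -/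
theorem sp_cmp {w : ℂ} (hw : ‖w‖ = 1) (μ y : ℝ) : sp w (((μ : ℂ) + (y : ℂ) * I) * w) = μ := by
  have h := sp_self w
  rw [hw] at h
  simp only [sp, Complex.mul_re, Complex.mul_im, Complex.add_re, Complex.add_im,
    Complex.ofReal_re, Complex.ofReal_im, Complex.I_re, Complex.I_im] at h ⊢
  linear_combination μ * h

theorem wd_cmp {w : ℂ} (hw : ‖w‖ = 1) (μ y : ℝ) : wd w (((μ : ℂ) + (y : ℂ) * I) * w) = y := by
  have h := sp_self w
  rw [hw] at h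
  simp only [sp, wd, Complex.mul_re, Complex.mul_im, Complex.add_re, Complex.add_im,
    Complex.ofReal_re, Complex.ofReal_im, Complex.I_re, Complex.I_im] at h ⊢
  linear_combination y * h

theorem sp_cmp' (w H : ℂ) (μ y : ℝ) :
    sp (((μ : ℂ) + (y : ℂ) * I) * w) H = μ * sp w H + y * wd w H := by
  simp only [sp, wd, Complex.mul_re, Complex.mul_im, Complex.add_re, Complex.add_im,
    Complex.ofReal_re, Complex.ofReal_im, Complex.I_re, Complex.I_im]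
  ring

end Pool.Agent.Helper68_F5
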