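import Pool.Agent.Helper68_F5.Defs

/-!
MP_f5cbfa_nt, duality count, step (2) of note 2492: windows at `v`.
-/

set_option autoImplicit false

open MeasureTheory

namespace Pool.Agent.Helper68_F5

/-- sum of the coefficients -/
def nf (Q : ℝ × ℝ × ℝ) : ℝ := |Q.1| + |Q.2.1| + |Q.2.2|

theorem nf_nonneg (Q : ℝ × ℝ × ℝ) : 0 ≤ nf Q := by unfold nf; positivity

theorem abs_re_mul_re (x y : ℂ) : |x.re * y.re| ≤ ‖x‖ * ‖y‖ := by
  rw [abs_mul]
  exact mul_le_mul (Complex.abs_re_le_norm x) (Complex.abs_re_le_norm y) (abs_nonneg _)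
    (norm_nonneg _)

theorem abs_im_mul_im (x y : ℂ) : |x.im * y.im| ≤ ‖x‖ * ‖y‖ := by
  rw [abs_mul]
  exact mul_le_mul (Complex.abs_im_le_norm x) (Complex.abs_im_le_norm y) (abs_nonneg _)
    (norm_nonneg _)

theorem abs_mix (x y : ℂ) : |x.re * y.im + x.im * y.re| ≤ ‖x‖ * ‖y‖ := by
  apply abs_le_of_sq_le_sq _ (by positivity)
  rw [mul_pow, Complex.sq_norm, Complex.sq_norm, Complex.normSq_apply, Complex.normSq_apply]
  nlinarith [sq_nonneg (x.re * y.re - x.im * y.im)]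

theorem bf_le (Q : ℝ × ℝ × ℝ) (x y : ℂ) : |bf Q x y| ≤ nf Q * (‖x‖ * ‖y‖) := by
  unfold bf nf
  calc |Q.1 * (x.re * y.re) + Q.2.1 * (x.re * y.im + x.im * y.re) + Q.2.2 * (x.im * y.im)|
      ≤ |Q.1 * (x.re * y.re)| + |Q.2.1 * (x.re * y.im + x.im * y.re)| +
          |Q.2.2 * (x.im * y.im)| := abs_add_three _ _ _
    _ ≤ |Q.1| * (‖x‖ * ‖y‖) + |Q.2.1| * (‖x‖ * ‖y‖) + |Q.2.2| * (‖x‖ * ‖y‖) := by
        rw [abs_mul, abs_mul Q.2.1, abs_mul Q.2.2]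
        exact add_le_add (add_le_add (mul_le_mul_of_nonneg_left (abs_re_mul_re x y)
          (abs_nonneg _)) (mul_le_mul_of_nonneg_left (abs_mix x y) (abs_nonneg _)))
          (mul_le_mul_of_nonneg_left (abs_im_mul_im x y) (abs_nonneg _))
    _ = _ := by ring

theorem nf_le {Q : ℝ × ℝ × ℝ} {N : ℝ} (h : ∀ x y : ℂ, |bf Q x y| ≤ N * (‖x‖ * ‖y‖)) :
    nf Q ≤ 3 * N := by
  have n1 : ‖(⟨1, 0⟩ : ℂ)‖ = 1 := by
    have : (⟨1, 0⟩ : ℂ) = 1 := rfl
    rw [this, norm_one]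
  have nI : ‖(⟨0, 1⟩ : ℂ)‖ = 1 := by
    have : (⟨0, 1⟩ : ℂ) = Complex.I := rfl
    rw [this, Complex.norm_I]
  have h1 := h ⟨1, 0⟩ ⟨1, 0⟩
  have h2 := h ⟨1, 0⟩ ⟨0, 1⟩
  have h3 := h ⟨0, 1⟩ ⟨0, 1⟩
  rw [n1] at h1
  rw [n1, nI] at h2
  rw [nI] at h3
  simp only [bf] at h1 h2 h3
  norm_num at h1 h2 h3
  unfold nf
  linarith

/-- data of one index: `e` the unit direction of `m`, `v` the lattice vector, `H` the difference -/
structure Dat (P S V c : ℝ) (e v H : ℂ) (κ : ℝ) : Prop where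
  he : ‖e‖ = 1
  hκ : 0 < κ
  hκ2 : κ ^ 2 = 1 - ‖H‖ ^ 2 / (4 * S)
  hH : ‖H‖ ≤ V
  hv : ‖v - (c : ℂ) * e‖ ≤ P

/-- common smallness hypotheses -/
structure Sml (P S V c : ℝ) : Prop where
  hP : 1 ≤ P
  hc : 300 * P ^ 3 ≤ c
  hcV : c ≤ 2 * V
  hVS : V ^ 3 ≤ S

namespace Dat

variable {P S V c : ℝ} {e v H : ℂ} {κ : ℝ}

theorem V_pos (s : Sml P S V c) : 0 < V := by
  have := s.hP; have h1 := s.hc; have h2 := s.hcV
  have : (1 : ℝ) ≤ P ^ 3 := one_le_pow₀ s.hP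
  nlinarith

theorem c_pos (s : Sml P S V c) : 0 < c := by
  have h1 := s.hc
  have : (1 : ℝ) ≤ P ^ 3 := one_le_pow₀ s.hP
  nlinarith

theorem S_pos (s : Sml P S V c) : 0 < S := by
  have := s.hVS; have h := V_pos s
  have : 0 < V ^ 3 := by positivity
  linarith

theorem cP (s : Sml P S V c) : 300 * P ≤ c ∧ 300 * P ^ 2 ≤ c := by
  have h1 := s.hc
  have h2 : P ≤ P ^ 3 := le_self_pow₀ s.hP (by norm_num)
  have h3 : P ^ 2 ≤ P ^ 3 := pow_le_pow_right₀ s.hP (by norm_num)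
  constructor <;> nlinarith

/-- `q = ‖H‖² / (4 S)` -/
noncomputable def q (S : ℝ) (H : ℂ) : ℝ := ‖H‖ ^ 2 / (4 * S)

theorem q_nonneg (s : Sml P S V c) : 0 ≤ q S H := by
  have := S_pos s
  unfold q; positivity

theorem q_le (s : Sml P S V c) (d : Dat P S V c e v H κ) : q S H ≤ 1 / (2 * c) := by
  have hV := V_pos s; have hS := S_pos s; have hc := c_pos s
  unfold q
  rw [div_le_div_iff₀ (by positivity) (by positivity)]
  have h1 : ‖H‖ ^ 2 ≤ V ^ 2 := pow_le_pow_left₀ (norm_nonneg _) d.hH 2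
  have h2 := s.hVS; have h3 := s.hcV
  calc ‖H‖ ^ 2 * (2 * c) ≤ V ^ 2 * (2 * (2 * V)) :=
        mul_le_mul h1 (by linarith) (by positivity) (by positivity)
    _ = 4 * V ^ 3 := by ring
    _ ≤ 1 * (4 * S) := by linarith

theorem q_small (s : Sml P S V c) (d : Dat P S V c e v H κ) : q S H ≤ 1 / 600 := by
  have h1 := q_le s d
  have h2 := (cP s).1
  have h3 := s.hP
  have hc := c_pos s
  refine le_trans h1 ?_
  rw [div_le_div_iff₀ (by positivity) (by norm_num)]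
  nlinarith

theorem κ_sq (d : Dat P S V c e v H κ) : κ ^ 2 = 1 - q S H := d.hκ2

theorem κ_le (s : Sml P S V c) (d : Dat P S V c e v H κ) : κ ≤ 1 := by
  have h := κ_sq d; have h1 := q_nonneg (H := H) s; have h2 := d.hκ
  nlinarith

theorem κ_ge (s : Sml P S V c) (d : Dat P S V c e v H κ) : 3 / 4 ≤ κ := by
  have h := κ_sq d; have h1 := q_small s d; have h2 := d.hκ; have h3 := κ_le s d
  nlinarith

/-- `1/κ - 1 ≤ 2 q`, `0 ≤ 1/κ - 1` -/
theorem inv_κ (s : Sml P S V c) (d : Dat P S V c e v H κ) :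
    1 ≤ κ⁻¹ ∧ κ⁻¹ ≤ 4 / 3 ∧ κ⁻¹ - 1 ≤ 2 * q S H ∧ κ⁻¹ - κ ≤ 4 / 3 * q S H ∧ 0 ≤ κ⁻¹ - κ := by
  have h := κ_sq d; have h0 := q_nonneg (H := H) s; have h1 := κ_ge s d; have h3 := κ_le s d
  have hκ := d.hκ
  have a1 : 1 ≤ κ⁻¹ := (one_le_inv₀ hκ).2 h3
  have a2 : κ⁻¹ ≤ 4 / 3 := by
    rw [inv_le_comm₀ hκ (by norm_num)]; norm_num; exact h1
  have e : κ⁻¹ - κ = κ⁻¹ * q S H := by
    have : q S H = 1 - κ ^ 2 := by linarith
    rw [this]
    have hne := hκ.ne'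
    field_simp
  have a4 : κ⁻¹ - κ ≤ 4 / 3 * q S H := by
    rw [e]; exact mul_le_mul_of_nonneg_right a2 h0
  refine ⟨a1, a2, ?_, a4, ?_⟩
  · linarith
  · rw [e]; positivity

/-- the vector `y = v - (c/κ) e` -/
noncomputable def y (c κ : ℝ) (e v : ℂ) : ℂ := v - ((c * κ⁻¹ : ℝ) : ℂ) * e

theorem v_eq : v = ((c * κ⁻¹ : ℝ) : ℂ) * e + y c κ e v := by unfold y; ring

theorem norm_y (s : Sml P S V c) (d : Dat P S V c e v H κ) : ‖y c κ e v‖ ≤ 2 * P := by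
  have hc := c_pos s
  have e1 : y c κ e v = (v - (c : ℂ) * e) - ((c * (κ⁻¹ - 1) : ℝ) : ℂ) * e := by
    unfold y; push_cast; ring
  have a := inv_κ s d
  have h1 : ‖((c * (κ⁻¹ - 1) : ℝ) : ℂ) * e‖ ≤ 1 := by
    rw [norm_mul, d.he, mul_one, Complex.norm_real, Real.norm_eq_abs, abs_of_nonneg
      (mul_nonneg hc.le (by linarith))]
    have h2 := q_le s d
    calc c * (κ⁻¹ - 1) ≤ c * (2 * (1 / (2 * c))) :=
          mul_le_mul_of_nonneg_left (by linarith) hc.le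
      _ = 1 := by field_simp
  rw [e1]
  have := norm_sub_le (v - (c : ℂ) * e) (((c * (κ⁻¹ - 1) : ℝ) : ℂ) * e)
  have := d.hv; have := s.hP
  linarith

/-- the number `x = sp e y = sp e v - c/κ` -/
theorem abs_x (s : Sml P S V c) (d : Dat P S V c e v H κ) : |sp e (y c κ e v)| ≤ 2 * P := by
  have := abs_sp_le e (y c κ e v)
  rw [d.he, one_mul] at this
  exact le_trans this (norm_y s d)

theorem x_eq (d : Dat P S V c e v H κ) : sp e (y c κ e v) = sp e v - c * κ⁻¹ := by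
  unfold y
  rw [sp_sub, sp_real', sp_self, d.he]; ring

theorem norm_v_sq (d : Dat P S V c e v H κ) :
    ‖v‖ ^ 2 = (c * κ⁻¹) ^ 2 + 2 * (c * κ⁻¹) * sp e (y c κ e v) + ‖y c κ e v‖ ^ 2 := by
  have h : sp v v = sp (((c * κ⁻¹ : ℝ) : ℂ) * e + y c κ e v)
      (((c * κ⁻¹ : ℝ) : ℂ) * e + y c κ e v) := by rw [← v_eq]
  rw [sp_self] at h
  rw [h, sp_add, sp_add', sp_add', sp_real, sp_real', sp_real, sp_real', sp_self, sp_self, d.he,
    sp_comm (y c κ e v) e]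
  ring

theorem norm_v_ge (s : Sml P S V c) (d : Dat P S V c e v H κ) : c / 2 ≤ ‖v‖ := by
  have hc := c_pos s
  have h1 : ‖(c : ℂ) * e‖ = c := by
    rw [norm_mul, d.he, mul_one, Complex.norm_real, Real.norm_eq_abs, abs_of_pos hc]
  have h2 : ‖(c : ℂ) * e‖ ≤ ‖v‖ + ‖v - (c : ℂ) * e‖ := by
    have := norm_sub_le v (v - (c : ℂ) * e)
    simpa using this
  have := d.hv; have := (cP s).1; have := s.hP
  linarith

theorem norm_v_le (s : Sml P S V c) (d : Dat P S V c e v H κ) : ‖v‖ ≤ 2 * c := by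
  have hc := c_pos s
  have h1 : ‖(c : ℂ) * e‖ = c := by
    rw [norm_mul, d.he, mul_one, Complex.norm_real, Real.norm_eq_abs, abs_of_pos hc]
  have h2 : ‖v‖ ≤ ‖(c : ℂ) * e‖ + ‖v - (c : ℂ) * e‖ := by
    have := norm_add_le ((c : ℂ) * e) (v - (c : ℂ) * e)
    simpa using this
  have := d.hv; have := (cP s).1; have := s.hP
  linarith

/-- the value of `E = Â - 1` at `v` -/
theorem E_val (s : Sml P S V c) (d : Dat P S V c e v H κ) {E : ℝ × ℝ × ℝ}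
    (hE : bf E v v = c ^ 2 * (1 + ‖H‖ ^ 2 / (4 * S)) - ‖v‖ ^ 2) :
    |bf E v v + 2 * (c * κ⁻¹) * sp e (y c κ e v)| ≤ 5 * P ^ 2 := by
  have hc := c_pos s
  have hκ := d.hκ
  have hq0 := q_nonneg (H := H) s
  have hq1 := q_le s d
  have hq2 := q_small s d
  have e1 : bf E v v + 2 * (c * κ⁻¹) * sp e (y c κ e v) =
      -(c ^ 2 * (q S H ^ 2 * κ⁻¹ ^ 2)) - ‖y c κ e v‖ ^ 2 := by
    rw [hE, norm_v_sq d, show ‖H‖ ^ 2 / (4 * S) = q S H from rfl]
    have h := κ_sq d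
    have e2 : q S H = 1 - κ ^ 2 := by linarith
    rw [e2]
    have hne := hκ.ne'
    field_simp
    ring
  rw [e1]
  have h1 : c * q S H ≤ 1 / 2 := by
    calc c * q S H ≤ c * (1 / (2 * c)) := mul_le_mul_of_nonneg_left hq1 hc.le
      _ = 1 / 2 := by field_simp
  have h2 : c ^ 2 * (q S H ^ 2 * κ⁻¹ ^ 2) ≤ 1 := by
    have a := (inv_κ s d).2.1
    have a' := (inv_κ s d).1
    calc c ^ 2 * (q S H ^ 2 * κ⁻¹ ^ 2) = (c * q S H) ^ 2 * κ⁻¹ ^ 2 := by ring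
      _ ≤ (1 / 2) ^ 2 * (4 / 3) ^ 2 :=
          mul_le_mul (pow_le_pow_left₀ (by positivity) h1 2)
            (pow_le_pow_left₀ (by linarith) a 2) (by positivity) (by positivity)
      _ ≤ 1 := by norm_num
  have h3 : ‖y c κ e v‖ ^ 2 ≤ (2 * P) ^ 2 := pow_le_pow_left₀ (norm_nonneg _) (norm_y s d) 2
  have h4 : (1 : ℝ) ≤ P ^ 2 := one_le_pow₀ s.hP
  have h5 : 0 ≤ c ^ 2 * (q S H ^ 2 * κ⁻¹ ^ 2) := by positivity
  rw [abs_le]
  constructor
  · nlinarith [sq_nonneg ‖y c κ e v‖]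
  · nlinarith [sq_nonneg ‖y c κ e v‖]

theorem E_val' (s : Sml P S V c) (d : Dat P S V c e v H κ) {E : ℝ × ℝ × ℝ}
    (hE : bf E v v = c ^ 2 * (1 + ‖H‖ ^ 2 / (4 * S)) - ‖v‖ ^ 2) :
    |bf E v v| ≤ 28 * P / c * ‖v‖ ^ 2 := by
  have hc := c_pos s
  have h1 := E_val s d hE
  have h2 : |2 * (c * κ⁻¹) * sp e (y c κ e v)| ≤ 16 / 3 * (c * P) := by
    have a := inv_κ s d
    rw [abs_mul, abs_of_nonneg (by positivity [d.hκ] : 0 ≤ 2 * (c * κ⁻¹))]
    calc 2 * (c * κ⁻¹) * |sp e (y c κ e v)| ≤ 2 * (c * (4 / 3)) * (2 * P) :=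
          mul_le_mul (mul_le_mul_of_nonneg_left (mul_le_mul_of_nonneg_left a.2.1 hc.le)
            (by norm_num)) (abs_x s d) (abs_nonneg _) (by positivity)
      _ = _ := by ring
  have h3 : |bf E v v| ≤ 7 * (c * P) := by
    have h4 : |bf E v v| ≤ |bf E v v + 2 * (c * κ⁻¹) * sp e (y c κ e v)| +
        |2 * (c * κ⁻¹) * sp e (y c κ e v)| := by
      have := abs_sub (bf E v v + 2 * (c * κ⁻¹) * sp e (y c κ e v))
        (2 * (c * κ⁻¹) * sp e (y c κ e v))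
      simpa using this
    have h5 := (cP s).1
    have h6 := s.hP
    nlinarith
  have h7 : (c / 2) ^ 2 ≤ ‖v‖ ^ 2 := pow_le_pow_left₀ (by positivity) (norm_v_ge s d) 2
  have hP0 : 0 ≤ 28 * P / c := by have := s.hP; positivity
  calc |bf E v v| ≤ 7 * (c * P) := h3
    _ = 28 * P / c * (c / 2) ^ 2 := by field_simp; ring
    _ ≤ 28 * P / c * ‖v‖ ^ 2 := mul_le_mul_of_nonneg_left h7 hP0

/-- separation of the directions of the `v` from that of the `e` -/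
theorem wd_v (s : Sml P S V c) {e' v' H' : ℂ} {κ' : ℝ} (d : Dat P S V c e v H κ)
    (d' : Dat P S V c e' v' H' κ') (hw : 1 ≤ P * |wd e e'|) :
    ‖v‖ * ‖v'‖ ≤ 8 * P * |wd v v'| := by
  have hc := c_pos s
  have hP := s.hP
  obtain ⟨z, hz⟩ : ∃ z, z = v - (c : ℂ) * e := ⟨_, rfl⟩
  obtain ⟨z', hz'⟩ : ∃ z', z' = v' - (c : ℂ) * e' := ⟨_, rfl⟩
  have hv : v = (c : ℂ) * e + z := by rw [hz]; ring
  have hv' : v' = (c : ℂ) * e' + z' := by rw [hz']; ring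
  have nz : ‖z‖ ≤ P := by rw [hz]; exact d.hv
  have nz' : ‖z'‖ ≤ P := by rw [hz']; exact d'.hv
  have e1 : wd v v' = c ^ 2 * wd e e' + (c * wd e z' + c * wd z e' + wd z z') := by
    rw [hv, hv', wd_add, wd_add', wd_add', wd_real, wd_real', wd_real, wd_real']; ring
  have b1 : |c * wd e z' + c * wd z e' + wd z z'| ≤ 3 * (c * P) := by
    have t1 : |c * wd e z'| ≤ c * P := by
      rw [abs_mul, abs_of_pos hc]
      have := abs_wd_le e z'
      rw [d.he, one_mul] at this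
      exact mul_le_mul_of_nonneg_left (le_trans this nz') hc.le
    have t2 : |c * wd z e'| ≤ c * P := by
      rw [abs_mul, abs_of_pos hc]
      have := abs_wd_le z e'
      rw [d'.he, mul_one] at this
      exact mul_le_mul_of_nonneg_left (le_trans this nz) hc.le
    have t3 : |wd z z'| ≤ c * P := by
      have := abs_wd_le z z'
      have h2 : ‖z‖ * ‖z'‖ ≤ P * P := mul_le_mul nz nz' (norm_nonneg _) (by linarith)
      have h3 : P * P ≤ c * P := by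
        have := (cP s).1
        nlinarith
      linarith
    calc |c * wd e z' + c * wd z e' + wd z z'| ≤ |c * wd e z'| + |c * wd z e'| + |wd z z'| :=
          abs_add_three _ _ _
      _ ≤ _ := by linarith
  have b2 : c ^ 2 * |wd e e'| - 3 * (c * P) ≤ |wd v v'| := by
    rw [e1]
    have h1 : |c ^ 2 * wd e e'| = c ^ 2 * |wd e e'| := by
      rw [abs_mul, abs_of_pos (by positivity : 0 < c ^ 2)]
    have := abs_sub_abs_le_abs_add (c ^ 2 * wd e e') (c * wd e z' + c * wd z e' + wd z z')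
    linarith
  have nv : ‖v‖ ≤ (1 + 1 / 300) * c := by
    have h2 : ‖v‖ ≤ ‖(c : ℂ) * e‖ + ‖z‖ := by rw [hv]; exact norm_add_le _ _
    rw [norm_mul, d.he, mul_one, Complex.norm_real, Real.norm_eq_abs, abs_of_pos hc] at h2
    have := (cP s).1
    linarith
  have nv' : ‖v'‖ ≤ (1 + 1 / 300) * c := by
    have h2 : ‖v'‖ ≤ ‖(c : ℂ) * e'‖ + ‖z'‖ := by rw [hv']; exact norm_add_le _ _
    rw [norm_mul, d'.he, mul_one, Complex.norm_real, Real.norm_eq_abs, abs_of_pos hc] at h2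
    have := (cP s).1
    linarith
  have h3 : ‖v‖ * ‖v'‖ ≤ ((1 + 1 / 300) * c) * ((1 + 1 / 300) * c) :=
    mul_le_mul nv nv' (norm_nonneg _) (by positivity)
  have h4 : P * (c ^ 2 * |wd e e'| - 3 * (c * P)) ≥ c ^ 2 - c ^ 2 / 100 := by
    have h5 : c ^ 2 * 1 ≤ c ^ 2 * (P * |wd e e'|) := mul_le_mul_of_nonneg_left hw (by positivity)
    have h6 : 3 * (c * P) * P ≤ c ^ 2 / 100 := by
      have := (cP s).2
      nlinarith
    nlinarith
  have h7 : P * (c ^ 2 * |wd e e'| - 3 * (c * P)) ≤ P * |wd v v'| :=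
    mul_le_mul_of_nonneg_left b2 (by linarith)
  nlinarith [sq_nonneg c]

end Dat

end Pool.Agent.Helper68_F5
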