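import Pool.Agent.Helper68_F5.Kc2b
import Pool.Agent.Helper68_F5.Win

/-!
MP_f5cbfa_nt, duality count: directions and tangent vectors in the frame.
-/

set_option autoImplicit false

open MeasureTheory Matrix Complex ComplexConjugate

namespace Pool.Agent.Helper68_F5

open Pool.Agent.BTL Pool.Agent.F5S Pool.Agent.F5H Pool.Agent.F5H.BC Pool.Agent.Helper96_GN

/-- powers of `Q` are absorbed -/
theorem qt {T Q : ℝ} (hT : 1 ≤ T) (hQ : 1 ≤ Q) {c : ℕ} (h : Q ^ c ≤ T ^ (1 / 100000 : ℝ)) {m : ℕ}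
    (hm : m ≤ c) {a b : ℝ} (hab : a + 1 / 100000 ≤ b) : Q ^ m * T ^ a ≤ T ^ b := by
  have hT0 : 0 < T := by linarith
  have h1 : Q ^ m ≤ Q ^ c := pow_le_pow_right₀ hQ hm
  calc Q ^ m * T ^ a ≤ T ^ (1 / 100000 : ℝ) * T ^ a :=
        mul_le_mul_of_nonneg_right (le_trans h1 h) (by positivity)
    _ = T ^ (1 / 100000 + a) := (Real.rpow_add hT0 _ _).symm
    _ ≤ T ^ b := Real.rpow_le_rpow_of_exponent_le hT (by linarith)

/-- facts on the directions -/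
structure Fm (Q T : ℝ) (H : Fin 3 → ℂ) (ep : Fin 3 → ℝ) (th : ℝ) : Prop where
  hw : ∀ l, ‖wG T H ep th l‖ = 1
  ρ1 : ∀ l, T / 2 ≤ rh T (H l)
  ρ2 : ∀ l, rh T (H l) ≤ T
  ρs : ∀ l, rh T (H l) ^ 2 = T ^ 2 - ‖H l‖ ^ 2 / 4
  H1 : ∀ l, 1 ≤ Q * ‖H l‖
  H2 : ∀ l, ‖H l‖ ≤ Q * Lx T
  tρ : ∀ l, rh T (H l) * sp (wG T H ep th l) (H l) = rh T (H 2) * sp (wG T H ep th 2) (H 2)
  t2 : |sp (wG T H ep th 2) (H 2)| ≤ Q * (Rx T / T)
  nn : ∀ l, l ≠ 2 → ‖H l‖ ≤ 2 * |wd (wG T H ep th l) (H l)|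
  ww : ∀ l m, l ≠ m → 1 ≤ Q * |wd (wG T H ep th l) (wG T H ep th m)|

theorem rho0_small : rho0 ≤ 1 / 10000 := by unfold rho0; norm_num

theorem Rx_div {T : ℝ} (hT : 0 < T) : Rx T / T = T ^ (169 / 500 + 2 * rho0 : ℝ) := by
  have h1 : Rx T = T ^ (169 / 500 + 2 * rho0 : ℝ) * T := by
    conv_rhs => rw [← Real.rpow_one T, ← Real.rpow_mul hT.le, ← Real.rpow_add hT]
    rw [Rx, one_mul]
    congr 1
    ring
  rw [h1, mul_div_assoc, div_self hT.ne', mul_one]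

theorem fm {T Q : ℝ} {H : Fin 3 → ℂ} {ep : Fin 3 → ℝ} {th : ℝ} (hT : 1 ≤ T) (hQ : 2 ≤ Q)
    (hQT : Q ^ 1000 ≤ T ^ (1 / 100000 : ℝ)) (hep : ∀ l, ep l ^ 2 = 1) (hG : Gd Q T H ep th) :
    Fm Q T H ep th := by
  obtain ⟨g1, g2, g3, g4⟩ := hG
  have hT0 : 0 < T := by linarith
  have hQ1 : 1 ≤ Q := by linarith
  have hQ0 : 0 < Q := by linarith
  have hsm : ∀ l, ‖H l‖ ≤ T := by
    intro l
    refine le_trans (g1 l).2 ?_
    have := qt hT hQ1 hQT (m := 1) (by norm_num) (a := 277 / 500) (b := 1) (by norm_num)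
    rw [pow_one, Real.rpow_one] at this
    exact this
  have hs0 : ∀ l, 0 ≤ T ^ 2 - ‖H l‖ ^ 2 / 4 := by
    intro l
    have := pow_le_pow_left₀ (norm_nonneg _) (hsm l) 2
    have h0 : 0 ≤ T ^ 2 := by positivity
    linarith
  have hρs : ∀ l, rh T (H l) ^ 2 = T ^ 2 - ‖H l‖ ^ 2 / 4 := fun l => Real.sq_sqrt (hs0 l)
  have hρ0 : ∀ l, 0 ≤ rh T (H l) := fun l => Real.sqrt_nonneg _
  have hρ1 : ∀ l, T / 2 ≤ rh T (H l) := by
    intro l
    refine Real.le_sqrt_of_sq_le ?_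
    have := pow_le_pow_left₀ (norm_nonneg _) (hsm l) 2
    have h0 : 0 ≤ T ^ 2 := by positivity
    nlinarith
  have hρ2 : ∀ l, rh T (H l) ≤ T := by
    intro l
    refine Real.sqrt_le_iff.2 ⟨hT0.le, ?_⟩
    have : 0 ≤ ‖H l‖ ^ 2 := by positivity
    linarith
  have hHpos : ∀ l, 0 < ‖H l‖ := by
    intro l
    by_contra h
    have h0 : ‖H l‖ = 0 := le_antisymm (not_lt.1 h) (norm_nonneg _)
    have := (g1 l).1
    rw [h0, mul_zero] at this
    linarith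
  have ht2 : |(conj (cexp ((th : ℂ) * I)) * H 2).re| ≤ Q * (Rx T / T) := by
    rw [mul_div_assoc', le_div_iff₀ hT0]
    linarith
  have hτ : ∀ l : Fin 3, l ≠ 2 → |rh T (H 2) / rh T (H l) *
      (conj (cexp ((th : ℂ) * I)) * H 2).re / ‖H l‖| ≤ 1 / 2 := by
    intro l hl
    have hρl : 0 < rh T (H l) := by linarith [hρ1 l]
    rw [abs_div, abs_mul, abs_div, abs_of_nonneg (hρ0 2), abs_of_pos hρl, abs_of_pos (hHpos l),
      div_le_iff₀ (hHpos l)]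
    have h1 : rh T (H 2) / rh T (H l) ≤ 2 := by
      rw [div_le_iff₀ hρl]
      linarith [hρ1 l, hρ2 2]
    have h2 := qt hT hQ1 hQT (m := 4) (by norm_num) (a := 169 / 500 + 2 * rho0)
      (b := 677 / 2000) (by linarith [rho0_small])
    have h3 : 4 * Q * (Q * (Rx T / T)) ≤ Q * ‖H l‖ := by
      refine le_trans ?_ (g2 l hl)
      refine le_trans ?_ h2
      rw [Rx_div hT0]
      have h4 : 4 * Q * Q ≤ Q ^ 4 := by nlinarith [mul_self_nonneg (Q ^ 2 - 4), sq_nonneg Q]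
      calc 4 * Q * (Q * T ^ (169 / 500 + 2 * rho0 : ℝ)) =
          4 * Q * Q * T ^ (169 / 500 + 2 * rho0 : ℝ) := by ring
        _ ≤ _ := mul_le_mul_of_nonneg_right h4 (by positivity)
    have h5 : 4 * (Q * (Rx T / T)) ≤ ‖H l‖ := by
      have : Q * (4 * (Q * (Rx T / T))) ≤ Q * ‖H l‖ := by linarith
      exact le_of_mul_le_mul_left this hQ0
    calc rh T (H 2) / rh T (H l) * |(conj (cexp ((th : ℂ) * I)) * H 2).re| ≤
        2 * (Q * (Rx T / T)) := mul_le_mul h1 ht2 (abs_nonneg _) (by norm_num)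
      _ ≤ 1 / 2 * ‖H l‖ := by linarith
  have hH0 : ∀ l, H l ≠ 0 := fun l => norm_pos_iff.1 (hHpos l)
  have hdir : ∀ l : Fin 3, l ≠ 2 → ‖wG T H ep th l‖ = 1 ∧
      sp (wG T H ep th l) (H l) = ‖H l‖ * (rh T (H 2) / rh T (H l) *
        (conj (cexp ((th : ℂ) * I)) * H 2).re / ‖H l‖) := by
    intro l hl
    refine unit_dir (hH0 l) (le_trans (hτ l hl) (by norm_num)) (hep l) ?_
    rw [wG, if_neg hl]
  have hw2 : wG T H ep th 2 = cexp ((th : ℂ) * I) := by rw [wG, if_pos rfl]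
  have hsp2 : sp (wG T H ep th 2) (H 2) = (conj (cexp ((th : ℂ) * I)) * H 2).re := by
    rw [hw2, sp_eq]
  have hw : ∀ l, ‖wG T H ep th l‖ = 1 := by
    intro l
    by_cases hl : l = 2
    · rw [hl, hw2, Complex.norm_exp_ofReal_mul_I]
    · exact (hdir l hl).1
  refine ⟨hw, hρ1, hρ2, hρs, fun l => (g1 l).1, fun l => (g1 l).2, ?_, ?_, ?_, ?_⟩
  · intro l
    by_cases hl : l = 2
    · rw [hl]
    · rw [(hdir l hl).2, hsp2]
      have hρl : rh T (H l) ≠ 0 := by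
        have := hρ1 l
        have h0 : 0 < rh T (H l) := by linarith
        exact h0.ne'
      have := (hHpos l).ne'
      field_simp
  · rw [hsp2]; exact ht2
  · intro l hl
    have h1 : |sp (wG T H ep th l) (H l)| ≤ ‖H l‖ / 2 := by
      rw [(hdir l hl).2, abs_mul, abs_of_pos (hHpos l)]
      have := mul_le_mul_of_nonneg_left (hτ l hl) (hHpos l).le
      linarith
    have h2 := sp_sq_add_wd_sq (wG T H ep th l) (H l)
    rw [hw l] at h2
    have h3 : sp (wG T H ep th l) (H l) ^ 2 ≤ (‖H l‖ / 2) ^ 2 := by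
      rw [← sq_abs]; exact pow_le_pow_left₀ (abs_nonneg _) h1 2
    have h4 : (‖H l‖ / 2) ^ 2 ≤ |wd (wG T H ep th l) (H l)| ^ 2 := by
      rw [sq_abs]
      nlinarith [sq_nonneg ‖H l‖]
    have := le_of_sq_le_sq h4 (abs_nonneg _)
    linarith
  · intro l m hlm
    have := g4 l m hlm
    rw [wd_eq] at this
    exact this

/-! ### linearity of the tangent vectors -/

section lin

variable {T : ℝ} {H : Fin 3 → ℂ} {ep : Fin 3 → ℝ} {th : ℝ}

theorem muG_lin (a b : ℝ) (B C : ℝ × ℝ × ℝ) (l : Fin 3) :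
    muG T H ep th (a • B + b • C) l = a * muG T H ep th B l + b * muG T H ep th C l := by
  simp only [muG, bf_add_left, bf_smul]
  ring

theorem yG_lin (a b : ℝ) (B C : ℝ × ℝ × ℝ) (y z : ℝ) (l : Fin 3) :
    yG T H ep th (a • B + b • C) (a * y + b * z) l =
      a * yG T H ep th B y l + b * yG T H ep th C z l := by
  unfold yG
  split_ifs
  · rfl
  · simp only [BC.GG, muG_lin, bf_add_left, bf_smul]
    ring

theorem tv_lin (a b : ℝ) (B C : ℝ × ℝ × ℝ) (y z : ℝ) (l : Fin 3) :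
    tv T H ep th (a • B + b • C) (a * y + b * z) l =
      (a : ℂ) * tv T H ep th B y l + (b : ℂ) * tv T H ep th C z l := by
  unfold tv
  rw [muG_lin, yG_lin]
  push_cast
  ring

/-- the combination used for `Z` -/
theorem tv_comb (a b c d : ℝ) (l : Fin 3) :
    (a : ℂ) * tv T H ep th (1, 0, 1) 0 l + (b : ℂ) * tv T H ep th (1, 0, 0) 0 l +
      (c : ℂ) * tv T H ep th (0, 1, 0) 0 l + (d : ℂ) * tv T H ep th 0 1 l =
    tv T H ep th (a • ((1, 0, 1) : ℝ × ℝ × ℝ) + (1 : ℝ) • ((b, c, 0) : ℝ × ℝ × ℝ)) d l := by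
  have e1 : ((b, c, 0) : ℝ × ℝ × ℝ) = b • ((1, 0, 0) : ℝ × ℝ × ℝ) +
      c • ((0, 1, 0) : ℝ × ℝ × ℝ) := by ext <;> simp
  have h1 := tv_lin (T := T) (H := H) (ep := ep) (th := th) b c (1, 0, 0) (0, 1, 0) 0 0 l
  have h2 := tv_lin (T := T) (H := H) (ep := ep) (th := th) 1 d (b, c, 0) 0 0 1 l
  have h3 := tv_lin (T := T) (H := H) (ep := ep) (th := th) a 1 (1, 0, 1) (b, c, 0) 0 d l
  have e2 : (1 : ℝ) • ((b, c, 0) : ℝ × ℝ × ℝ) + d • (0 : ℝ × ℝ × ℝ) = (b, c, 0) := by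
    rw [one_smul, smul_zero, add_zero]
  rw [e2] at h2
  rw [← e1] at h1
  simp only [mul_zero, add_zero, zero_add, mul_one, one_mul] at h1 h2 h3
  rw [h3, h2, h1]
  push_cast
  ring

end lin

end Pool.Agent.Helper68_F5
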