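import Pool.Agent.Helper68_F5.Kc2c

/-!
MP_f5cbfa_nt, duality count: the integer points of the dual body are in `Z`.
-/

set_option autoImplicit false

open MeasureTheory Matrix Complex ComplexConjugate

namespace Pool.Agent.Helper68_F5

open Pool.Agent.BTL Pool.Agent.F5S Pool.Agent.F5H Pool.Agent.F5H.BC Pool.Agent.Helper96_GN

theorem xdiff {T ρ₂ ρl t₂ tl x y : ℝ} (hT : 0 < T) (h2 : T / 2 ≤ ρ₂) (hl : T / 2 ≤ ρl)
    (hs2 : ρ₂ ^ 2 = T ^ 2 - x ^ 2 / 4) (hsl : ρl ^ 2 = T ^ 2 - y ^ 2 / 4)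
    (ht : ρl * tl = ρ₂ * t₂) :
    |(-(T ^ 2 / (2 * ρ₂)) * t₂ + ρ₂ * t₂) - (-(T ^ 2 / (2 * ρl)) * tl + ρl * tl)| ≤
      |t₂| * (x ^ 2 + y ^ 2) / T := by
  have hρ₂ : 0 < ρ₂ := by linarith
  have hρl : 0 < ρl := by linarith
  have htl : tl = ρ₂ * t₂ / ρl := by field_simp; linarith
  have e1 : (-(T ^ 2 / (2 * ρ₂)) * t₂ + ρ₂ * t₂) - (-(T ^ 2 / (2 * ρl)) * tl + ρl * tl) =
      -(T ^ 2 / 8) * t₂ * (x ^ 2 - y ^ 2) / (ρ₂ * ρl ^ 2) := by
    have e2 : (-(T ^ 2 / (2 * ρ₂)) * t₂ + ρ₂ * t₂) - (-(T ^ 2 / (2 * ρl)) * tl + ρl * tl) =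
        -(T ^ 2 / 2) * t₂ * (ρl ^ 2 - ρ₂ ^ 2) / (ρ₂ * ρl ^ 2) := by
      rw [htl]; field_simp; ring
    rw [e2, hs2, hsl]
    congr 1
    ring
  rw [e1, abs_div, abs_mul, abs_mul, abs_neg, abs_of_nonneg (by positivity : 0 ≤ T ^ 2 / 8),
    abs_of_pos (by positivity : 0 < ρ₂ * ρl ^ 2)]
  have h3 : |x ^ 2 - y ^ 2| ≤ x ^ 2 + y ^ 2 := by
    rw [abs_le]
    constructor <;> nlinarith [sq_nonneg x, sq_nonneg y]
  have h4 : T ^ 3 / 8 ≤ ρ₂ * ρl ^ 2 := by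
    calc T ^ 3 / 8 = T / 2 * (T / 2) ^ 2 := by ring
      _ ≤ ρ₂ * ρl ^ 2 := mul_le_mul h2 (pow_le_pow_left₀ (by positivity) hl 2) (by positivity)
          hρ₂.le
  rw [div_le_div_iff₀ (by positivity) hT]
  have h5 : T ^ 2 / 8 * |t₂| * |x ^ 2 - y ^ 2| ≤ T ^ 2 / 8 * |t₂| * (x ^ 2 + y ^ 2) :=
    mul_le_mul_of_nonneg_left h3 (by positivity)
  calc T ^ 2 / 8 * |t₂| * |x ^ 2 - y ^ 2| * T ≤ T ^ 2 / 8 * |t₂| * (x ^ 2 + y ^ 2) * T :=
        mul_le_mul_of_nonneg_right h5 hT.le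
    _ = |t₂| * (x ^ 2 + y ^ 2) * (T ^ 3 / 8) := by ring
    _ ≤ _ := mul_le_mul_of_nonneg_left h4 (by positivity)

section tang

variable {Q T : ℝ} {H : Fin 3 → ℂ} {ep : Fin 3 → ℝ} {th : ℝ}

theorem mG_bf (B : ℝ × ℝ × ℝ) (l : Fin 3) :
    bf B (mG T H ep th l) (mG T H ep th l) =
      rh T (H l) ^ 2 * bf B (wG T H ep th l) (wG T H ep th l) := by
  rw [mG, bf_real, bf_comm, bf_real]; ring

theorem mG_bf' (B : ℝ × ℝ × ℝ) (l : Fin 3) :
    bf B (mG T H ep th l) (H l) = rh T (H l) * bf B (wG T H ep th l) (H l) := by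
  rw [mG, bf_real]

theorem norm_mG (F : Fm Q T H ep th) (hT : 0 < T) (l : Fin 3) : ‖mG T H ep th l‖ ≤ T := by
  rw [mG, norm_mul, F.hw l, mul_one, Complex.norm_real, Real.norm_eq_abs,
    abs_of_nonneg (by linarith [F.ρ1 l])]
  exact F.ρ2 l

theorem muG_le (F : Fm Q T H ep th) (hT : 0 < T) (B : ℝ × ℝ × ℝ) (l : Fin 3) :
    |muG T H ep th B l| ≤ nf B * T := by
  have hρ := F.ρ1 l
  have hρ0 : 0 < rh T (H l) := by linarith
  rw [muG, abs_neg, abs_div, abs_of_pos (by positivity : 0 < 2 * rh T (H l)),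
    div_le_iff₀ (by positivity), mG_bf]
  have h1 := bf_le B (wG T H ep th l) (wG T H ep th l)
  rw [F.hw l] at h1
  have h2 := bf_le B (H l) (H l)
  have hn := nf_nonneg B
  have h3 : |rh T (H l) ^ 2 * bf B (wG T H ep th l) (wG T H ep th l) + bf B (H l) (H l) / 4| ≤
      nf B * T ^ 2 := by
    have e : T ^ 2 = rh T (H l) ^ 2 + ‖H l‖ ^ 2 / 4 := by linarith [F.ρs l]
    refine le_trans (abs_add_le _ _) ?_
    rw [abs_mul, abs_of_nonneg (by positivity : 0 ≤ rh T (H l) ^ 2), abs_div,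
      abs_of_pos (by norm_num : (0 : ℝ) < 4), e]
    have h4 : rh T (H l) ^ 2 * |bf B (wG T H ep th l) (wG T H ep th l)| ≤
        rh T (H l) ^ 2 * (nf B * (1 * 1)) := mul_le_mul_of_nonneg_left h1 (by positivity)
    nlinarith
  refine le_trans h3 ?_
  have : nf B * T ^ 2 = nf B * T * T := by ring
  rw [this]
  exact mul_le_mul_of_nonneg_left (by linarith) (by positivity)

theorem muG_J (F : Fm Q T H ep th) (l : Fin 3) :
    muG T H ep th (1, 0, 1) l = -(T ^ 2 / (2 * rh T (H l))) := by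
  rw [muG, mG_bf, bf_one, bf_one, sp_self, sp_self, F.hw l, one_pow, mul_one, F.ρs l]
  congr 2
  ring

theorem nf_bc (b c : ℝ) : nf ((b, c, 0) : ℝ × ℝ × ℝ) = |b| + |c| := by
  unfold nf; simp

/-- tangential component -/
theorem y_bound (hQ : 2 ≤ Q) (hT : 1 ≤ T) (F : Fm Q T H ep th) {l : Fin 3} (hl : l ≠ 2)
    (h2l : ‖H 2‖ ≤ Q ^ 2 * ‖H l‖) {R₁ a b c d : ℝ} (ha : |a| * T ≤ R₁) (hb : |b| * T ≤ 1)
    (hc : |c| * T ≤ 1) (hd : |d| ≤ 1)
    (hs : R₁ * (Q * (Rx T / T)) * ‖H l‖ * (4 * Q ^ 4) ≤ T ^ 2) :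
    |yG T H ep th (a • ((1, 0, 1) : ℝ × ℝ × ℝ) + (1 : ℝ) • ((b, c, 0) : ℝ × ℝ × ℝ)) d l| ≤
      10 * Q ^ 2 + 9 := by
  have hT0 : 0 < T := by linarith
  have hQ0 : 0 < Q := by linarith
  obtain ⟨B, hB⟩ : ∃ B : ℝ × ℝ × ℝ, B = (b, c, 0) := ⟨_, rfl⟩
  have hnB : nf B * T ≤ 2 := by
    rw [hB, nf_bc]; linarith
  have hnB0 := nf_nonneg B
  rw [← hB]
  have hHl : 0 < ‖H l‖ := by
    by_contra h
    have h0 : ‖H l‖ = 0 := le_antisymm (not_lt.1 h) (norm_nonneg _)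
    have := F.H1 l
    rw [h0, mul_zero] at this
    linarith
  have hn := F.nn l hl
  have hn0 : 0 < |wd (wG T H ep th l) (H l)| := by linarith
  obtain ⟨t₂, ht₂⟩ : ∃ t, t = sp (wG T H ep th 2) (H 2) := ⟨_, rfl⟩
  obtain ⟨tl, htl⟩ : ∃ t, t = sp (wG T H ep th l) (H l) := ⟨_, rfl⟩
  have hnum : BC.GG T H ep th (a • ((1, 0, 1) : ℝ × ℝ × ℝ) + (1 : ℝ) • B) d -
      bf (a • ((1, 0, 1) : ℝ × ℝ × ℝ) + (1 : ℝ) • B) (mG T H ep th l) (H l) -
      muG T H ep th (a • ((1, 0, 1) : ℝ × ℝ × ℝ) + (1 : ℝ) • B) l * tG T H ep th l =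
      a * ((-(T ^ 2 / (2 * rh T (H 2))) * t₂ + rh T (H 2) * t₂) -
        (-(T ^ 2 / (2 * rh T (H l))) * tl + rh T (H l) * tl)) +
      (muG T H ep th B 2 * t₂ + d * wd (wG T H ep th 2) (H 2) + bf B (mG T H ep th 2) (H 2) -
        bf B (mG T H ep th l) (H l) - muG T H ep th B l * tl) := by
    have j2 : bf (1, 0, 1) (mG T H ep th 2) (H 2) = rh T (H 2) * t₂ := by
      rw [mG_bf', bf_one, ht₂]
    have jl : bf (1, 0, 1) (mG T H ep th l) (H l) = rh T (H l) * tl := by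
      rw [mG_bf', bf_one, htl]
    simp only [BC.GG, muG_lin, bf_add_left, bf_smul, tG, nG, sp_eq, wd_eq, ← ht₂, ← htl, j2, jl,
      muG_J F]
    ring
  rw [yG, if_neg hl, nG, wd_eq, abs_div, div_le_iff₀ hn0, hnum]
  have x1 := xdiff (t₂ := t₂) (tl := tl) hT0 (F.ρ1 2) (F.ρ1 l) (F.ρs 2) (F.ρs l) (by
    rw [ht₂, htl]; exact F.tρ l)
  have b1 : |a * ((-(T ^ 2 / (2 * rh T (H 2))) * t₂ + rh T (H 2) * t₂) -
        (-(T ^ 2 / (2 * rh T (H l))) * tl + rh T (H l) * tl))| ≤ ‖H l‖ / 2 := by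
    rw [abs_mul]
    have c1 : ‖H 2‖ ^ 2 + ‖H l‖ ^ 2 ≤ 2 * Q ^ 4 * ‖H l‖ ^ 2 := by
      have := pow_le_pow_left₀ (norm_nonneg _) h2l 2
      have h1 : 1 ≤ Q ^ 4 := one_le_pow₀ (by linarith)
      have h3 : 0 ≤ ‖H l‖ ^ 2 := by positivity
      have h4 : ‖H l‖ ^ 2 ≤ Q ^ 4 * ‖H l‖ ^ 2 := by nlinarith
      calc ‖H 2‖ ^ 2 + ‖H l‖ ^ 2 ≤ (Q ^ 2 * ‖H l‖) ^ 2 + Q ^ 4 * ‖H l‖ ^ 2 := by linarith
        _ = _ := by ring
    have c2 : |t₂| ≤ Q * (Rx T / T) := by rw [ht₂]; exact F.t2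
    have hRx : 0 ≤ Rx T / T := by rw [Rx_div hT0]; positivity
    have hR₁ : 0 ≤ R₁ := le_trans (by positivity) ha
    have c3 : |t₂| * (‖H 2‖ ^ 2 + ‖H l‖ ^ 2) / T ≤
        Q * (Rx T / T) * (2 * Q ^ 4 * ‖H l‖ ^ 2) / T :=
      div_le_div_of_nonneg_right (mul_le_mul c2 c1 (by positivity) (by positivity)) hT0.le
    calc |a| * |(-(T ^ 2 / (2 * rh T (H 2))) * t₂ + rh T (H 2) * t₂) -
        (-(T ^ 2 / (2 * rh T (H l))) * tl + rh T (H l) * tl)| ≤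
        |a| * (Q * (Rx T / T) * (2 * Q ^ 4 * ‖H l‖ ^ 2) / T) :=
          mul_le_mul_of_nonneg_left (le_trans x1 c3) (abs_nonneg _)
      _ = (|a| * T) * (Q * (Rx T / T) * (2 * Q ^ 4 * ‖H l‖ ^ 2) / T ^ 2) := by field_simp
      _ ≤ R₁ * (Q * (Rx T / T) * (2 * Q ^ 4 * ‖H l‖ ^ 2) / T ^ 2) :=
          mul_le_mul_of_nonneg_right ha (by positivity)
      _ = (R₁ * (Q * (Rx T / T)) * ‖H l‖ * (4 * Q ^ 4)) / T ^ 2 * (‖H l‖ / 2) := by
          ring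
      _ ≤ 1 * (‖H l‖ / 2) := by
          refine mul_le_mul_of_nonneg_right ?_ (by positivity)
          rw [div_le_one (by positivity)]
          exact hs
      _ = ‖H l‖ / 2 := one_mul _
  have b2 : |muG T H ep th B 2 * t₂| ≤ 2 * ‖H 2‖ := by
    rw [abs_mul]
    have c1 : |t₂| ≤ ‖H 2‖ := by
      rw [ht₂]
      have := abs_sp_le (wG T H ep th 2) (H 2)
      rwa [F.hw 2, one_mul] at this
    exact mul_le_mul (le_trans (muG_le F hT0 B 2) hnB) c1 (abs_nonneg _) (by norm_num)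
  have b3 : |d * wd (wG T H ep th 2) (H 2)| ≤ ‖H 2‖ := by
    rw [abs_mul]
    have c1 := abs_wd_le (wG T H ep th 2) (H 2)
    rw [F.hw 2, one_mul] at c1
    calc |d| * |wd (wG T H ep th 2) (H 2)| ≤ 1 * ‖H 2‖ :=
          mul_le_mul hd c1 (abs_nonneg _) zero_le_one
      _ = _ := one_mul _
  have b4 : ∀ l, |bf B (mG T H ep th l) (H l)| ≤ 2 * ‖H l‖ := by
    intro l
    refine le_trans (bf_le _ _ _) ?_
    calc nf B * (‖mG T H ep th l‖ * ‖H l‖) ≤ nf B * (T * ‖H l‖) := by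
          refine mul_le_mul_of_nonneg_left ?_ hnB0
          exact mul_le_mul_of_nonneg_right (norm_mG F hT0 l) (norm_nonneg _)
      _ = nf B * T * ‖H l‖ := by ring
      _ ≤ 2 * ‖H l‖ := mul_le_mul_of_nonneg_right hnB (norm_nonneg _)
  have b5 : |muG T H ep th B l * tl| ≤ 2 * ‖H l‖ := by
    rw [abs_mul]
    have c1 : |tl| ≤ ‖H l‖ := by
      rw [htl]
      have := abs_sp_le (wG T H ep th l) (H l)
      rwa [F.hw l, one_mul] at this
    exact mul_le_mul (le_trans (muG_le F hT0 B l) hnB) c1 (abs_nonneg _) (by norm_num)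
  have b42 := b4 2
  have b4l := b4 l
  refine le_trans (abs_add_le _ _) ?_
  have s1 := abs_sub (muG T H ep th B 2 * t₂ + d * wd (wG T H ep th 2) (H 2) +
    bf B (mG T H ep th 2) (H 2) - bf B (mG T H ep th l) (H l)) (muG T H ep th B l * tl)
  have s2 := abs_sub (muG T H ep th B 2 * t₂ + d * wd (wG T H ep th 2) (H 2) +
    bf B (mG T H ep th 2) (H 2)) (bf B (mG T H ep th l) (H l))
  have s3 := abs_add_le (muG T H ep th B 2 * t₂ + d * wd (wG T H ep th 2) (H 2))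
    (bf B (mG T H ep th 2) (H 2))
  have s4 := abs_add_le (muG T H ep th B 2 * t₂) (d * wd (wG T H ep th 2) (H 2))
  have s5 : ‖H l‖ / 2 + (5 * ‖H 2‖ + 4 * ‖H l‖) ≤ (10 * Q ^ 2 + 9) * (‖H l‖ / 2) := by
    nlinarith
  have s6 : (10 * Q ^ 2 + 9) * (‖H l‖ / 2) ≤ (10 * Q ^ 2 + 9) * |wd (wG T H ep th l) (H l)| :=
    mul_le_mul_of_nonneg_left (by linarith) (by positivity)
  linarith

theorem inz_of (hQ : 2 ≤ Q) (hT : 1 ≤ T) (F : Fm Q T H ep th)
    (h2l : ∀ l, l ≠ 2 → ‖H 2‖ ≤ Q ^ 2 * ‖H l‖) {R₁ a b c d d₀ d₁ ω₁ ω₂ : ℝ} (ha : |a| * T ≤ R₁)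
    (hb : |b| * T ≤ 1) (hc : |c| * T ≤ 1) (hd : |d| ≤ 1) (hd₀ : |d₀| ≤ 1) (hd₁ : |d₁| ≤ 1)
    (hs1 : ∀ l, R₁ * ‖H l‖ ^ 2 ≤ T ^ 2)
    (hs2 : ∀ l, R₁ * (Q * (Rx T / T)) * ‖H l‖ * (4 * Q ^ 4) ≤ T ^ 2)
    (hω₁ : Q ^ 2 * (|d₀| * ‖H 0‖) ≤ ω₁) (hω₂ : Q ^ 2 * (|d₁| * ‖H 1‖) ≤ ω₂) (v : Fin 3 → ℂ)
    (hv : ∀ l, v l = tv T H ep th (a • ((1, 0, 1) : ℝ × ℝ × ℝ) +
      (1 : ℝ) • ((b, c, 0) : ℝ × ℝ × ℝ)) d l +
      (((if l = 0 then d₀ else if l = 1 then d₁ else 0 : ℝ) : ℂ) * (I * wG T H ep th l))) :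
    InZ (Q ^ 8) ((Q * T) ^ 2) (Q * R₁) ω₁ ω₂ ((Q : ℂ) * H 0) ((Q : ℂ) * H 1) ((Q : ℂ) * H 2)
      (wG T H ep th 0) (wG T H ep th 1) (wG T H ep th 2) (rh T (H 0) / T) (rh T (H 1) / T)
      (rh T (H 2) / T) ((Q : ℂ) * v 0) ((Q : ℂ) * v 1) ((Q : ℂ) * v 2) := by
  have hT0 : 0 < T := by linarith
  have hQ0 : 0 < Q := by linarith
  have hR₁ : 0 ≤ R₁ := le_trans (by positivity) ha
  obtain ⟨B, hB⟩ : ∃ B : ℝ × ℝ × ℝ, B = a • ((1, 0, 1) : ℝ × ℝ × ℝ) +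
    (1 : ℝ) • ((b, c, 0) : ℝ × ℝ × ℝ) := ⟨_, rfl⟩
  obtain ⟨e, he⟩ : ∃ e : Fin 3 → ℝ, e = fun l => if l = 0 then d₀ else if l = 1 then d₁ else 0 :=
    ⟨_, rfl⟩
  have he1 : ∀ l, |e l| ≤ 1 := by
    intro l
    rw [he]
    simp only
    split_ifs
    · exact hd₀
    · exact hd₁
    · rw [abs_zero]; norm_num
  have hv' : ∀ l, v l = ((muG T H ep th B l : ℂ) +
      ((yG T H ep th B d l + e l : ℝ) : ℂ) * I) * wG T H ep th l := by
    intro l
    rw [hv l, ← hB, tv, he]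
    push_cast
    ring
  have hy : ∀ l, |yG T H ep th B d l + e l| ≤ 10 * Q ^ 2 + 10 := by
    intro l
    by_cases hl : l = 2
    · have e2 : e l = 0 := by rw [he, hl]; rfl
      rw [e2, add_zero, yG, if_pos hl]
      nlinarith
    · refine le_trans (abs_add_le _ _) ?_
      rw [hB]
      have := y_bound hQ hT F hl (h2l l hl) ha hb hc hd (hs2 l)
      linarith [he1 l]
  have hmu : ∀ l, |muG T H ep th B l + a * T / 2| ≤ 3 := by
    intro l
    rw [hB, muG_lin, muG_J F]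
    have hρ := F.ρ1 l
    have hρ0 : 0 < rh T (H l) := by linarith
    have c1 := muG_le F hT0 (b, c, 0) l
    rw [nf_bc] at c1
    have c2 : |-(a * (T * (T - rh T (H l)) / (2 * rh T (H l))))| ≤ 1 / 4 := by
      have d1 : T - rh T (H l) = ‖H l‖ ^ 2 / (4 * (T + rh T (H l))) := by
        rw [eq_div_iff (by positivity)]
        linarith [F.ρs l]
      have d2 : 0 ≤ T - rh T (H l) := by linarith [F.ρ2 l]
      have d3 : T - rh T (H l) ≤ ‖H l‖ ^ 2 / (4 * T) := by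
        rw [d1]
        exact div_le_div_of_nonneg_left (by positivity) (by positivity) (by linarith)
      rw [abs_neg, abs_mul, abs_div, abs_mul, abs_of_pos hT0, abs_of_nonneg d2,
        abs_of_pos (by positivity : 0 < 2 * rh T (H l))]
      calc |a| * (T * (T - rh T (H l)) / (2 * rh T (H l))) =
          (|a| * T) * ((T - rh T (H l)) / (2 * rh T (H l))) := by ring
        _ ≤ R₁ * (‖H l‖ ^ 2 / (4 * T) / T) := by
            refine mul_le_mul ha ?_ (by positivity) hR₁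
            exact div_le_div₀ (by positivity) d3 hT0 (by linarith)
        _ = R₁ * ‖H l‖ ^ 2 / T ^ 2 / 4 := by field_simp
        _ ≤ 1 / 4 := by
            refine div_le_div_of_nonneg_right ?_ (by norm_num)
            rw [div_le_one (by positivity)]
            exact hs1 l
    have e3 : a * -(T ^ 2 / (2 * rh T (H l))) + 1 * muG T H ep th (b, c, 0) l + a * T / 2 =
        -(a * (T * (T - rh T (H l)) / (2 * rh T (H l)))) + muG T H ep th (b, c, 0) l := by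
      field_simp
      ring
    rw [e3]
    refine le_trans (abs_add_le _ _) ?_
    have : (|b| + |c|) * T ≤ 2 := by linarith
    linarith
  have hnv : ∀ l, ‖(Q : ℂ) * v l - ((-(Q * (a * T / 2)) : ℝ) : ℂ) * wG T H ep th l‖ ≤ Q ^ 8 := by
    intro l
    have e4 : (Q : ℂ) * v l - ((-(Q * (a * T / 2)) : ℝ) : ℂ) * wG T H ep th l =
        (Q : ℂ) * ((((muG T H ep th B l + a * T / 2 : ℝ) : ℂ) +
          ((yG T H ep th B d l + e l : ℝ) : ℂ) * I) * wG T H ep th l) := by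
      rw [hv' l]
      push_cast
      ring
    rw [e4, norm_mul, norm_mul, F.hw l, mul_one, Complex.norm_real, Real.norm_eq_abs,
      abs_of_pos hQ0]
    have e5 : ‖((muG T H ep th B l + a * T / 2 : ℝ) : ℂ) +
        ((yG T H ep th B d l + e l : ℝ) : ℂ) * I‖ ≤ 3 + (10 * Q ^ 2 + 10) := by
      refine le_trans (norm_add_le _ _) ?_
      rw [norm_mul, Complex.norm_I, mul_one, Complex.norm_real, Complex.norm_real,
        Real.norm_eq_abs, Real.norm_eq_abs]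
      linarith [hmu l, hy l]
    have e6 : 3 + (10 * Q ^ 2 + 10) ≤ Q ^ 7 := by
      have h1 : 4 ≤ Q ^ 2 := by nlinarith
      have h2 : 16 ≤ Q ^ 4 := by nlinarith
      have h3 : Q ^ 7 = Q * (Q ^ 2 * Q ^ 4) := by ring
      have h4 : Q ^ 2 * 16 ≤ Q ^ 2 * Q ^ 4 := mul_le_mul_of_nonneg_left h2 (by positivity)
      rw [h3]
      nlinarith
    calc Q * ‖((muG T H ep th B l + a * T / 2 : ℝ) : ℂ) +
        ((yG T H ep th B d l + e l : ℝ) : ℂ) * I‖ ≤ Q * Q ^ 7 :=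
          mul_le_mul_of_nonneg_left (le_trans e5 e6) hQ0.le
      _ = Q ^ 8 := by ring
  -- the form
  have hform : ∀ l, (rh T (H l) / T) ^ 2 * bf ((Q * T) • B) (wG T H ep th l) (wG T H ep th l) +
      bf ((Q * T) • B) ((Q : ℂ) * H l) ((Q : ℂ) * H l) / (4 * (Q * T) ^ 2) =
      -2 * (rh T (H l) / T) * sp (wG T H ep th l) ((Q : ℂ) * v l) := by
    intro l
    have hρ := F.ρ1 l
    have hρ0 : 0 < rh T (H l) := by linarith
    have e7 : sp (wG T H ep th l) ((Q : ℂ) * v l) = Q * muG T H ep th B l := by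
      rw [sp_real', hv' l, sp_cmp (F.hw l)]
    have e8 : bf ((Q * T) • B) ((Q : ℂ) * H l) ((Q : ℂ) * H l) =
        Q * T * (Q * (Q * bf B (H l) (H l))) := by
      rw [bf_smul, bf_real, bf_comm, bf_real]
    rw [e7, e8, bf_smul, muG, mG_bf]
    field_simp
  have hG : ∀ l, sp ((Q : ℂ) * v l) ((Q : ℂ) * H l) +
      (rh T (H l) / T) * bf ((Q * T) • B) (wG T H ep th l) ((Q : ℂ) * H l) =
      Q ^ 2 * (BC.GG T H ep th B d + e l * wd (wG T H ep th l) (H l)) := by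
    intro l
    have e9 : sp ((Q : ℂ) * v l) ((Q : ℂ) * H l) = Q ^ 2 * (muG T H ep th B l *
        sp (wG T H ep th l) (H l) + (yG T H ep th B d l + e l) * wd (wG T H ep th l) (H l)) := by
      rw [sp_real, sp_real', hv' l, sp_cmp']
      ring
    have e10 : bf ((Q * T) • B) (wG T H ep th l) ((Q : ℂ) * H l) =
        Q * T * (Q * bf B (wG T H ep th l) (H l)) := by
      rw [bf_smul, bf_comm, bf_real, bf_comm]
    have e11 : yG T H ep th B d l * wd (wG T H ep th l) (H l) = BC.GG T H ep th B d -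
        bf B (mG T H ep th l) (H l) - muG T H ep th B l * sp (wG T H ep th l) (H l) := by
      by_cases hl : l = 2
      · rw [yG, if_pos hl, BC.GG, hl, tG, nG, sp_eq, wd_eq]
        ring
      · have hn := F.nn l hl
        have hHl : 0 < ‖H l‖ := by
          by_contra h
          have h0 : ‖H l‖ = 0 := le_antisymm (not_lt.1 h) (norm_nonneg _)
          have := F.H1 l
          rw [h0, mul_zero] at this
          linarith
        have hn0 : wd (wG T H ep th l) (H l) ≠ 0 := by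
          intro h
          rw [h, abs_zero] at hn
          linarith
        rw [yG, if_neg hl, tG, nG, sp_eq, wd_eq]
        field_simp
    rw [mG_bf'] at e11
    rw [e9, e10]
    have e12 : rh T (H l) / T * (Q * T * (Q * bf B (wG T H ep th l) (H l))) =
        Q ^ 2 * (rh T (H l) * bf B (wG T H ep th l) (H l)) := by
      field_simp
    rw [e12]
    linear_combination (Q ^ 2) * e11
  have hwdle : ∀ l, |wd (wG T H ep th l) (H l)| ≤ ‖H l‖ := by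
    intro l
    have := abs_wd_le (wG T H ep th l) (H l)
    rwa [F.hw l, one_mul] at this
  refine ⟨-(Q * (a * T / 2)), ?_, hnv 0, hnv 1, hnv 2, (Q * T) • B, hform 0, hform 1, hform 2,
    ?_, ?_⟩
  · rw [abs_neg, abs_mul, abs_of_pos hQ0, abs_div, abs_mul, abs_of_pos hT0]
    refine mul_le_mul_of_nonneg_left ?_ hQ0.le
    rw [abs_of_pos (by norm_num : (0 : ℝ) < 2)]
    linarith
  · rw [hG 0, hG 2]
    have e0 : e 0 = d₀ := by rw [he]; rfl
    have e2 : e 2 = 0 := by rw [he]; rfl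
    rw [e0, e2]
    have : Q ^ 2 * (BC.GG T H ep th B d + d₀ * wd (wG T H ep th 0) (H 0)) -
        Q ^ 2 * (BC.GG T H ep th B d + 0 * wd (wG T H ep th 2) (H 2)) =
        Q ^ 2 * (d₀ * wd (wG T H ep th 0) (H 0)) := by ring
    rw [this, abs_mul, abs_mul, abs_of_pos (by positivity : 0 < Q ^ 2)]
    refine le_trans ?_ hω₁
    refine mul_le_mul_of_nonneg_left ?_ (by positivity)
    exact mul_le_mul_of_nonneg_left (hwdle 0) (abs_nonneg _)
  · rw [hG 1, hG 2]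
    have e0 : e 1 = d₁ := by rw [he]; rfl
    have e2 : e 2 = 0 := by rw [he]; rfl
    rw [e0, e2]
    have : Q ^ 2 * (BC.GG T H ep th B d + d₁ * wd (wG T H ep th 1) (H 1)) -
        Q ^ 2 * (BC.GG T H ep th B d + 0 * wd (wG T H ep th 2) (H 2)) =
        Q ^ 2 * (d₁ * wd (wG T H ep th 1) (H 1)) := by ring
    rw [this, abs_mul, abs_mul, abs_of_pos (by positivity : 0 < Q ^ 2)]
    refine le_trans ?_ hω₂
    refine mul_le_mul_of_nonneg_left ?_ (by positivity)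
    exact mul_le_mul_of_nonneg_left (hwdle 1) (abs_nonneg _)

/-- the point of `V_h` -/
theorem pt_of (hQ : 2 ≤ Q) (hT : 1 ≤ T) (F : Fm Q T H ep th) :
    Pt (Q ^ 8) ((Q * T) ^ 2) 0 (Q ^ 2 * (Rx T / T)) ((Q : ℂ) * H 0) ((Q : ℂ) * H 1)
      ((Q : ℂ) * H 2) (wG T H ep th 0) (wG T H ep th 1) (wG T H ep th 2) (rh T (H 0) / T)
      (rh T (H 1) / T) (rh T (H 2) / T) := by
  have hT0 : 0 < T := by linarith
  have hQ0 : 0 < Q := by linarith
  have hρ0 : ∀ l, 0 < rh T (H l) := fun l => by linarith [F.ρ1 l]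
  have hsq : ∀ l, (rh T (H l) / T) ^ 2 = 1 - ‖(Q : ℂ) * H l‖ ^ 2 / (4 * (Q * T) ^ 2) := by
    intro l
    rw [norm_mul, Complex.norm_real, Real.norm_eq_abs, abs_of_pos hQ0, div_pow, F.ρs l]
    field_simp
  have hw : ∀ l m, l ≠ m → 1 ≤ Q ^ 8 * |wd (wG T H ep th l) (wG T H ep th m)| := by
    intro l m hlm
    refine le_trans (F.ww l m hlm) ?_
    refine mul_le_mul_of_nonneg_right ?_ (abs_nonneg _)
    exact le_self_pow₀ (by linarith) (by norm_num)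
  have ht : ∀ l, |rh T (H l) / T * sp (wG T H ep th l) ((Q : ℂ) * H l) -
      rh T (H 2) / T * sp (wG T H ep th 2) ((Q : ℂ) * H 2)| ≤ 0 := by
    intro l
    rw [sp_real', sp_real']
    have h1 : rh T (H l) / T * (Q * sp (wG T H ep th l) (H l)) -
      rh T (H 2) / T * (Q * sp (wG T H ep th 2) (H 2)) = 0 := by
      have h2 := F.tρ l
      calc rh T (H l) / T * (Q * sp (wG T H ep th l) (H l)) -
            rh T (H 2) / T * (Q * sp (wG T H ep th 2) (H 2)) =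
          Q / T * (rh T (H l) * sp (wG T H ep th l) (H l) -
            rh T (H 2) * sp (wG T H ep th 2) (H 2)) := by ring
        _ = 0 := by rw [h2, sub_self, mul_zero]
    rw [h1, abs_zero]
  refine ⟨F.hw 0, F.hw 1, F.hw 2, div_pos (hρ0 0) hT0, div_pos (hρ0 1) hT0, div_pos (hρ0 2) hT0,
    hsq 0, hsq 1, hsq 2, hw 0 1 (by decide), hw 1 2 (by decide), hw 2 0 (by decide), ht 0, ht 1, ?_⟩
  rw [sp_real', abs_mul, abs_of_pos hQ0]
  calc Q * |sp (wG T H ep th 2) (H 2)| ≤ Q * (Q * (Rx T / T)) :=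
        mul_le_mul_of_nonneg_left F.t2 hQ0.le
    _ = _ := by ring

end tang

end Pool.Agent.Helper68_F5
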