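import Pool.Agent.Helper68_F5.Kc2d

/-!
MP_f5cbfa_nt, duality count: the six vectors, their determinant, the pointwise count.
-/

set_option autoImplicit false

open MeasureTheory Matrix Complex ComplexConjugate

namespace Pool.Agent.Helper68_F5

open Pool.Agent.BTL Pool.Agent.F5S Pool.Agent.F5H Pool.Agent.F5H.BC Pool.Agent.Helper96_GN

theorem prod3 {x y z α β γ ε : ℝ} (hx : |x| ≤ 1) (hy : |y| ≤ 1) (hz : |z| ≤ 1) (hα : |α| ≤ ε)
    (hβ : |β| ≤ ε) (hγ : |γ| ≤ ε) (hε : ε ≤ 1) :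
    |(x + α) * (y + β) * (z + γ) - x * y * z| ≤ 7 * ε := by
  have hε0 : 0 ≤ ε := le_trans (abs_nonneg _) hα
  have h1 : |y + β| ≤ 2 := le_trans (abs_add_le _ _) (by linarith)
  have h2 : |z + γ| ≤ 2 := le_trans (abs_add_le _ _) (by linarith)
  have e : (x + α) * (y + β) * (z + γ) - x * y * z =
      α * ((y + β) * (z + γ)) + x * (β * (z + γ)) + x * (y * γ) := by ring
  rw [e]
  have a1 : |α * ((y + β) * (z + γ))| ≤ ε * (2 * 2) := by
    rw [abs_mul, abs_mul]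
    exact mul_le_mul hα (mul_le_mul h1 h2 (abs_nonneg _) (by norm_num)) (by positivity) hε0
  have a2 : |x * (β * (z + γ))| ≤ 1 * (ε * 2) := by
    rw [abs_mul, abs_mul]
    exact mul_le_mul hx (mul_le_mul hβ h2 (abs_nonneg _) hε0) (by positivity) (by norm_num)
  have a3 : |x * (y * γ)| ≤ 1 * (1 * ε) := by
    rw [abs_mul, abs_mul]
    exact mul_le_mul hx (mul_le_mul hy hγ (abs_nonneg _) (by norm_num)) (by positivity)
      (by norm_num)
  have b1 := abs_add_le (α * ((y + β) * (z + γ)) + x * (β * (z + γ))) (x * (y * γ))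
  have b2 := abs_add_le (α * ((y + β) * (z + γ))) (x * (β * (z + γ)))
  linarith

/-- perturbed determinant of three forms -/
theorem det_q {w z : Fin 3 → ℂ} {ε : ℝ} (hw : ∀ l, ‖w l‖ = 1) (hz : ∀ l, ‖z l‖ ^ 2 ≤ ε)
    (hε : ε ≤ 1) {D : ℝ} (hD : D ≤ |wd (w 0) (w 1) * wd (w 1) (w 2) * wd (w 2) (w 0)|) :
    2 * D - 42 * ε ≤ |(Matrix.of fun l j : Fin 3 =>
      ![bf (1, 0, 1) (w l) (w l) + bf (1, 0, 1) (z l) (z l),
        bf (1, 0, 0) (w l) (w l) + bf (1, 0, 0) (z l) (z l),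
        bf (0, 1, 0) (w l) (w l) + bf (0, 1, 0) (z l) (z l)] j).det| := by
  obtain ⟨x, hx⟩ : ∃ x : Fin 3 → ℝ, x = fun l => (w l).re := ⟨_, rfl⟩
  obtain ⟨y, hy⟩ : ∃ y : Fin 3 → ℝ, y = fun l => (w l).im := ⟨_, rfl⟩
  have hxy : ∀ l, x l ^ 2 + y l ^ 2 = 1 := by
    intro l
    have : ‖w l‖ ^ 2 = 1 := by rw [hw l]; norm_num
    rw [Complex.sq_norm, Complex.normSq_apply] at this
    rw [hx, hy]
    simp only
    linarith
  obtain ⟨s, hs⟩ : ∃ s : Fin 3 → ℝ, s = fun l => (z l).re ^ 2 + (z l).im ^ 2 := ⟨_, rfl⟩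
  obtain ⟨α, hα⟩ : ∃ s : Fin 3 → ℝ, s = fun l => (z l).re ^ 2 := ⟨_, rfl⟩
  obtain ⟨β, hβ⟩ : ∃ s : Fin 3 → ℝ, s = fun l => 2 * ((z l).re * (z l).im) := ⟨_, rfl⟩
  have hzz : ∀ l, (z l).re ^ 2 + (z l).im ^ 2 ≤ ε := by
    intro l
    have := hz l
    rw [Complex.sq_norm, Complex.normSq_apply] at this
    linarith
  have hs1 : ∀ l, |s l| ≤ ε := by
    intro l
    rw [hs, abs_of_nonneg (by positivity)]
    exact hzz l
  have hα1 : ∀ l, |α l| ≤ ε := by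
    intro l
    rw [hα, abs_of_nonneg (by positivity)]
    have := hzz l
    have h0 : 0 ≤ (z l).im ^ 2 := by positivity
    simp only
    linarith
  have hβ1 : ∀ l, |β l| ≤ ε := by
    intro l
    rw [hβ, abs_le]
    have := hzz l
    simp only
    constructor <;> nlinarith [sq_nonneg ((z l).re - (z l).im), sq_nonneg ((z l).re + (z l).im)]
  have m0 : |(1 : ℝ)| ≤ 1 := by rw [abs_one]
  have m1 : ∀ l, |x l ^ 2| ≤ 1 := by
    intro l
    rw [abs_of_nonneg (by positivity)]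
    have := hxy l
    nlinarith [sq_nonneg (y l)]
  have m2 : ∀ l, |2 * (x l * y l)| ≤ 1 := by
    intro l
    rw [abs_le]
    have := hxy l
    constructor <;> nlinarith [sq_nonneg (x l - y l), sq_nonneg (x l + y l)]
  have c1 : ∀ l, bf (1, 0, 1) (w l) (w l) + bf (1, 0, 1) (z l) (z l) = 1 + s l := by
    intro l
    rw [bf_one, bf_one, sp_self, hw l, sp, hs]
    simp only
    ring
  have c2 : ∀ l, bf (1, 0, 0) (w l) (w l) + bf (1, 0, 0) (z l) (z l) = x l ^ 2 + α l := by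
    intro l
    rw [hx, hα]
    simp only [bf]
    ring
  have c3 : ∀ l, bf (0, 1, 0) (w l) (w l) + bf (0, 1, 0) (z l) (z l) =
      2 * (x l * y l) + β l := by
    intro l
    rw [hx, hy, hβ]
    simp only [bf]
    ring
  simp only [c1, c2, c3]
  rw [Matrix.det_fin_three]
  simp only [Matrix.of_apply, Matrix.cons_val_zero, Matrix.cons_val_one, Matrix.cons_val]
  have p1 := abs_le.1 (prod3 m0 (m1 1) (m2 2) (hs1 0) (hα1 1) (hβ1 2) hε)
  have p2 := abs_le.1 (prod3 m0 (m2 1) (m1 2) (hs1 0) (hβ1 1) (hα1 2) hε)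
  have p3 := abs_le.1 (prod3 (m1 0) m0 (m2 2) (hα1 0) (hs1 1) (hβ1 2) hε)
  have p4 := abs_le.1 (prod3 (m1 0) (m2 1) m0 (hα1 0) (hβ1 1) (hs1 2) hε)
  have p5 := abs_le.1 (prod3 (m2 0) m0 (m1 2) (hβ1 0) (hs1 1) (hα1 2) hε)
  have p6 := abs_le.1 (prod3 (m2 0) (m1 1) m0 (hβ1 0) (hα1 1) (hs1 2) hε)
  have main : 1 * x 1 ^ 2 * (2 * (x 2 * y 2)) - 1 * (2 * (x 1 * y 1)) * x 2 ^ 2 -
      x 0 ^ 2 * 1 * (2 * (x 2 * y 2)) + x 0 ^ 2 * (2 * (x 1 * y 1)) * 1 +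
      2 * (x 0 * y 0) * 1 * x 2 ^ 2 - 2 * (x 0 * y 0) * x 1 ^ 2 * 1 =
      -2 * (wd (w 0) (w 1) * wd (w 1) (w 2) * wd (w 2) (w 0)) := by
    have e0 : wd (w 0) (w 1) = x 0 * y 1 - y 0 * x 1 := by rw [wd, hx, hy]
    have e1 : wd (w 1) (w 2) = x 1 * y 2 - y 1 * x 2 := by rw [wd, hx, hy]
    have e2 : wd (w 2) (w 0) = x 2 * y 0 - y 2 * x 0 := by rw [wd, hx, hy]
    rw [e0, e1, e2]
    have h0 := hxy 0
    have h1 := hxy 1
    have h2 := hxy 2
    linear_combination (-2 * x 1 ^ 2 * x 2 * y 2 + 2 * x 1 * y 1 * x 2 ^ 2) * h0 +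
      (2 * x 0 ^ 2 * x 2 * y 2 - 2 * x 0 * y 0 * x 2 ^ 2) * h1 +
      (-2 * x 0 ^ 2 * x 1 * y 1 + 2 * x 0 * y 0 * x 1 ^ 2) * h2
  have hfin : ∀ {X M : ℝ}, |X - M| ≤ 42 * ε → 2 * D ≤ |M| → 2 * D - 42 * ε ≤ |X| := by
    intro X M h1 h2
    have := abs_sub_abs_le_abs_sub M X
    rw [abs_sub_comm] at h1
    linarith
  refine hfin (M := -2 * (wd (w 0) (w 1) * wd (w 1) (w 2) * wd (w 2) (w 0))) ?_ ?_
  · rw [← main, abs_le]
    constructor <;> linarith [p1.1, p1.2, p2.1, p2.2, p3.1, p3.2, p4.1, p4.2, p5.1, p5.2, p6.1,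
      p6.2]
  · rw [abs_mul, abs_neg, abs_of_pos (by norm_num : (0 : ℝ) < 2)]
    linarith

section six

variable {Q T : ℝ} {H : Fin 3 → ℂ} {ep : Fin 3 → ℝ} {th : ℝ}

/-- the six vectors in the frame -/
noncomputable def bF (T R₁ m₀ m₁ : ℝ) (H : Fin 3 → ℂ) (ep : Fin 3 → ℝ) (th : ℝ) :
    Fin 3 ⊕ Fin 3 → Fin 3 → ℂ
  | Sum.inl j => ![fun l => ((R₁ / T : ℝ) : ℂ) * tv T H ep th (1, 0, 1) 0 l,
      fun l => ((1 / T : ℝ) : ℂ) * tv T H ep th (1, 0, 0) 0 l,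
      fun l => ((1 / T : ℝ) : ℂ) * tv T H ep th (0, 1, 0) 0 l] j
  | Sum.inr j => ![fun l => ((if l = 0 then 1 / m₀ else 0 : ℝ) : ℂ) * (I * wG T H ep th l),
      fun l => ((if l = 1 then 1 / m₁ else 0 : ℝ) : ℂ) * (I * wG T H ep th l),
      fun l => tv T H ep th 0 1 l] j

/-- the six vectors -/
noncomputable def bV (A : ℝ × ℝ × ℝ) (T R₁ m₀ m₁ : ℝ) (H : Fin 3 → ℂ) (ep : Fin 3 → ℝ) (th : ℝ)
    (i : I6) : R6 :=
  (giA A (bF T R₁ m₀ m₁ H ep th (eJ.symm i) 0), giA A (bF T R₁ m₀ m₁ H ep th (eJ.symm i) 1),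
    giA A (bF T R₁ m₀ m₁ H ep th (eJ.symm i) 2))

theorem fL_inl {A : ℝ × ℝ × ℝ} (h1 : 0 < A.1) (hd : 0 < disc A) (w : Fin 3 → ℂ)
    (z : Fin 3 → ℂ) (l : Fin 3) :
    fL A w (eJ (Sum.inl l)) (giA A (z 0), giA A (z 1), giA A (z 2)) = sp (w l) (z l) := by
  fin_cases l <;> simp [fL, eJ, f2, gA_giA h1 hd]

theorem fL_inr {A : ℝ × ℝ × ℝ} (h1 : 0 < A.1) (hd : 0 < disc A) (w : Fin 3 → ℂ)
    (z : Fin 3 → ℂ) (l : Fin 3) :
    fL A w (eJ (Sum.inr l)) (giA A (z 0), giA A (z 1), giA A (z 2)) = wd (w l) (z l) := by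
  fin_cases l <;> simp [fL, eJ, f2, gA_giA h1 hd]

theorem muG_eq (F : Fm Q T H ep th) (hT : 0 < T) (B : ℝ × ℝ × ℝ) (l : Fin 3) :
    muG T H ep th B l = -(rh T (H l) / 2) * (bf B (wG T H ep th l) (wG T H ep th l) +
      bf B (((1 / (2 * rh T (H l)) : ℝ) : ℂ) * H l) (((1 / (2 * rh T (H l)) : ℝ) : ℂ) * H l)) := by
  have hρ := F.ρ1 l
  have hρ0 : 0 < rh T (H l) := by linarith
  have e : bf B (((1 / (2 * rh T (H l)) : ℝ) : ℂ) * H l)
      (((1 / (2 * rh T (H l)) : ℝ) : ℂ) * H l) = (1 / (2 * rh T (H l))) ^ 2 *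
        bf B (H l) (H l) := by
    rw [bf_real, bf_comm, bf_real]
    ring
  rw [muG, mG_bf, e]
  field_simp
  ring

/-- lower bound for the determinant of the six vectors -/
theorem det_bV (hQ : 2 ≤ Q) (hT : 1 ≤ T) (F : Fm Q T H ep th) {A : ℝ × ℝ × ℝ} (hA : A ∈ KM Q)
    {R₁ m₀ m₁ : ℝ} (hR₁ : 0 < R₁) (hm₀ : 0 < m₀) (hm₁ : 0 < m₁)
    (hs : ∀ l, 42 * Q ^ 3 * ‖H l‖ ^ 2 ≤ T ^ 2) :
    R₁ / (Q ^ 12 * (m₀ * m₁)) ≤
      |(Matrix.of fun i j => to6 (bV A T R₁ m₀ m₁ H ep th j) i).det| := by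
  have hT0 : 0 < T := by linarith
  have hQ0 : 0 < Q := by linarith
  obtain ⟨h1, hd, hd2⟩ := km_facts (by linarith) hA
  obtain ⟨w, hw⟩ : ∃ w, w = wG T H ep th := ⟨_, rfl⟩
  have hwn : ∀ l, ‖w l‖ = 1 := by rw [hw]; exact F.hw
  obtain ⟨b, hb⟩ : ∃ b, b = bV A T R₁ m₀ m₁ H ep th := ⟨_, rfl⟩
  have hbe : ∀ j, b (eJ j) = (giA A (bF T R₁ m₀ m₁ H ep th j 0), giA A (bF T R₁ m₀ m₁ H ep th j 1),
      giA A (bF T R₁ m₀ m₁ H ep th j 2)) := by
    intro j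
    rw [hb, bV, Equiv.symm_apply_apply]
  obtain ⟨M, hM⟩ : ∃ M : Matrix (Fin 3) (Fin 3) ℝ, M = Matrix.of fun l j =>
    sp (w l) (bF T R₁ m₀ m₁ H ep th (Sum.inl j) l) := ⟨_, rfl⟩
  obtain ⟨Y, hY⟩ : ∃ Y : Matrix (Fin 3) (Fin 3) ℝ, Y = Matrix.of fun l j =>
    wd (w l) (bF T R₁ m₀ m₁ H ep th (Sum.inl j) l) := ⟨_, rfl⟩
  obtain ⟨E, hE⟩ : ∃ E : Matrix (Fin 3) (Fin 3) ℝ, E = Matrix.of fun l j =>
    wd (w l) (bF T R₁ m₀ m₁ H ep th (Sum.inr j) l) := ⟨_, rfl⟩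
  have hwI : ∀ l (a : ℝ), wd (w l) ((a : ℂ) * (I * w l)) = a := by
    intro l a
    have e : (a : ℂ) * (I * w l) = (((0 : ℝ) : ℂ) + (a : ℂ) * I) * w l := by push_cast; ring
    rw [e]
    exact wd_cmp (hwn l) 0 a
  have hsI : ∀ l (a : ℝ), sp (w l) ((a : ℂ) * (I * w l)) = 0 := by
    intro l a
    have e : (a : ℂ) * (I * w l) = (((0 : ℝ) : ℂ) + (a : ℂ) * I) * w l := by push_cast; ring
    rw [e]
    exact sp_cmp (hwn l) 0 a
  have hmain := det_b h1 hd hwn b M Y E (by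
      intro l j
      rw [hbe, fL_inl h1 hd, hM]; rfl) (by
      intro l j
      rw [hbe, fL_inr h1 hd, hY]; rfl) (by
      intro l j
      rw [hbe, fL_inl h1 hd]
      fin_cases j
      · show sp (w l) (((if l = 0 then 1 / m₀ else 0 : ℝ) : ℂ) * (I * wG T H ep th l)) = 0
        rw [← hw]; exact hsI l _
      · show sp (w l) (((if l = 1 then 1 / m₁ else 0 : ℝ) : ℂ) * (I * wG T H ep th l)) = 0
        rw [← hw]; exact hsI l _
      · show sp (w l) (tv T H ep th 0 1 l) = 0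
        rw [tv, ← hw, sp_cmp (hwn l), muG_eq F hT0]
        simp [bf]) (by
      intro l j
      rw [hbe, fL_inr h1 hd, hE]; rfl)
  -- the tangential block
  have hEdet : E.det = 1 / (m₀ * m₁) := by
    have k0 : ∀ l, E l 0 = if l = 0 then 1 / m₀ else 0 := by
      intro l
      rw [hE, Matrix.of_apply]
      show wd (w l) (((if l = 0 then 1 / m₀ else 0 : ℝ) : ℂ) * (I * wG T H ep th l)) = _
      rw [← hw, hwI]
    have k1 : ∀ l, E l 1 = if l = 1 then 1 / m₁ else 0 := by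
      intro l
      rw [hE, Matrix.of_apply]
      show wd (w l) (((if l = 1 then 1 / m₁ else 0 : ℝ) : ℂ) * (I * wG T H ep th l)) = _
      rw [← hw, hwI]
    have k2 : E 2 2 = 1 := by
      rw [hE, Matrix.of_apply]
      show wd (w 2) (tv T H ep th 0 1 2) = 1
      rw [tv, ← hw, wd_cmp (hwn 2), yG, if_pos rfl]
    rw [Matrix.det_fin_three, k0, k0, k0, k1, k1, k1, k2]
    simp
    ring
  -- the radial block
  have hMdet : R₁ / (64 * Q ^ 3) ≤ |M.det| := by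
    obtain ⟨z, hz⟩ : ∃ z : Fin 3 → ℂ, z = fun l => ((1 / (2 * rh T (H l)) : ℝ) : ℂ) * H l := ⟨_, rfl⟩
    obtain ⟨q, hq⟩ : ∃ q : Matrix (Fin 3) (Fin 3) ℝ, q = Matrix.of fun l j : Fin 3 =>
      ![bf (1, 0, 1) (w l) (w l) + bf (1, 0, 1) (z l) (z l),
        bf (1, 0, 0) (w l) (w l) + bf (1, 0, 0) (z l) (z l),
        bf (0, 1, 0) (w l) (w l) + bf (0, 1, 0) (z l) (z l)] j := ⟨_, rfl⟩
    have hzn : ∀ l, ‖z l‖ ^ 2 ≤ 1 / (42 * Q ^ 3) := by
      intro l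
      have hρ := F.ρ1 l
      have hρ0 : 0 < rh T (H l) := by linarith
      rw [hz]
      simp only
      rw [norm_mul, Complex.norm_real, Real.norm_eq_abs, abs_of_pos (by positivity), mul_pow,
        div_pow, one_pow]
      rw [div_mul_eq_mul_div, one_mul, div_le_div_iff₀ (by positivity) (by positivity)]
      have h2 : T ^ 2 ≤ (2 * rh T (H l)) ^ 2 := pow_le_pow_left₀ hT0.le (by linarith) 2
      have := hs l
      linarith
    have hzn' : (1 : ℝ) / (42 * Q ^ 3) ≤ 1 := by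
      rw [div_le_one (by positivity)]
      have : 1 ≤ Q ^ 3 := one_le_pow₀ (by linarith)
      linarith
    have hD : 1 / Q ^ 3 ≤ |wd (w 0) (w 1) * wd (w 1) (w 2) * wd (w 2) (w 0)| := by
      have a1 := F.ww 0 1 (by decide)
      have a2 := F.ww 1 2 (by decide)
      have a3 := F.ww 2 0 (by decide)
      rw [← hw] at a1 a2 a3
      rw [abs_mul, abs_mul, div_le_iff₀ (by positivity)]
      calc (1 : ℝ) = 1 * 1 * 1 := by norm_num
        _ ≤ (Q * |wd (w 0) (w 1)|) * (Q * |wd (w 1) (w 2)|) * (Q * |wd (w 2) (w 0)|) := by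
            refine mul_le_mul (mul_le_mul a1 a2 zero_le_one (by positivity)) a3 zero_le_one
              (by positivity)
        _ = _ := by ring
    have hdq := det_q hwn hzn hzn' hD
    rw [← hq] at hdq
    have hdq' : 1 / Q ^ 3 ≤ |q.det| := by
      have e : 42 * ((1 : ℝ) / (42 * Q ^ 3)) = 1 / Q ^ 3 := by field_simp
      rw [e] at hdq
      linarith
    have hMq : M = Matrix.of fun l j : Fin 3 => (-(rh T (H l) / 2)) *
        ((![R₁ / T, 1 / T, 1 / T] j) * q l j) := by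
      ext l j
      rw [hM, Matrix.of_apply, Matrix.of_apply]
      fin_cases j
      · show sp (w l) (((R₁ / T : ℝ) : ℂ) * tv T H ep th (1, 0, 1) 0 l) =
          (-(rh T (H l) / 2)) * ((R₁ / T) * q l 0)
        rw [sp_real', tv, ← hw, sp_cmp (hwn l), muG_eq F hT0, ← hw, hq, hz]
        simp only [Matrix.of_apply, Matrix.cons_val_zero]
        ring
      · show sp (w l) (((1 / T : ℝ) : ℂ) * tv T H ep th (1, 0, 0) 0 l) =
          (-(rh T (H l) / 2)) * ((1 / T) * q l 1)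
        rw [sp_real', tv, ← hw, sp_cmp (hwn l), muG_eq F hT0, ← hw, hq, hz]
        simp only [Matrix.of_apply, Matrix.cons_val_one, Matrix.cons_val_zero]
        ring
      · show sp (w l) (((1 / T : ℝ) : ℂ) * tv T H ep th (0, 1, 0) 0 l) =
          (-(rh T (H l) / 2)) * ((1 / T) * q l 2)
        rw [sp_real', tv, ← hw, sp_cmp (hwn l), muG_eq F hT0, ← hw, hq, hz]
        simp only [Matrix.of_apply, Matrix.cons_val]
        ring
    have hMdet' : M.det = -(rh T (H 0) / 2 * (rh T (H 1) / 2) * (rh T (H 2) / 2) *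
        (R₁ / T * (1 / T) * (1 / T))) * q.det := by
      rw [hMq, Matrix.det_fin_three, Matrix.det_fin_three]
      simp only [Matrix.of_apply, Matrix.cons_val_zero, Matrix.cons_val_one, Matrix.cons_val]
      ring
    have hρ : ∀ l, T / 4 ≤ rh T (H l) / 2 := fun l => by linarith [F.ρ1 l]
    rw [hMdet', abs_mul, abs_neg]
    have hρρ : (T / 4) * (T / 4) * (T / 4) ≤ rh T (H 0) / 2 * (rh T (H 1) / 2) *
        (rh T (H 2) / 2) := by
      have h0 := hρ 0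
      have h1 := hρ 1
      have h2 := hρ 2
      refine mul_le_mul (mul_le_mul h0 h1 (by positivity) (by linarith)) h2 (by positivity) ?_
      exact mul_nonneg (by linarith) (by linarith)
    have hρρ0 : 0 < rh T (H 0) / 2 * (rh T (H 1) / 2) * (rh T (H 2) / 2) :=
      lt_of_lt_of_le (by positivity) hρρ
    rw [abs_of_pos (by positivity)]
    calc R₁ / (64 * Q ^ 3) = (T / 4) * (T / 4) * (T / 4) * (R₁ / T * (1 / T) * (1 / T)) *
          (1 / Q ^ 3) := by field_simp; norm_num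
      _ ≤ _ := by
          refine mul_le_mul ?_ hdq' (by positivity) (by positivity)
          exact mul_le_mul_of_nonneg_right hρρ (by positivity)
  have hsd : Real.sqrt (disc A) ≤ Q := Real.sqrt_le_iff.2 ⟨hQ0.le, hd2⟩
  have hsd3 : Real.sqrt (disc A) ^ 3 ≤ Q ^ 3 := pow_le_pow_left₀ (Real.sqrt_nonneg _) hsd 3
  have hsd0 : 0 < Real.sqrt (disc A) ^ 3 := by
    have := Real.sqrt_pos.2 hd
    positivity
  have habs : |M.det| * (1 / (m₀ * m₁)) = Real.sqrt (disc A) ^ 3 *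
      |(Matrix.of fun i j => to6 (b j) i).det| := by
    rw [hEdet] at hmain
    have := congrArg abs hmain
    rw [abs_mul, abs_mul, abs_of_pos (by positivity : 0 < 1 / (m₀ * m₁)), abs_of_pos hsd0] at this
    exact this
  rw [← hb]
  obtain ⟨X, hX⟩ : ∃ X, X = |(Matrix.of fun i j => to6 (b j) i).det| := ⟨_, rfl⟩
  rw [← hX] at habs ⊢
  have hX0 : 0 ≤ X := by rw [hX]; exact abs_nonneg _
  have f1 : R₁ / (64 * Q ^ 3) * (1 / (m₀ * m₁)) ≤ Q ^ 3 * X := by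
    calc R₁ / (64 * Q ^ 3) * (1 / (m₀ * m₁)) ≤ |M.det| * (1 / (m₀ * m₁)) :=
          mul_le_mul_of_nonneg_right hMdet (by positivity)
      _ = Real.sqrt (disc A) ^ 3 * X := habs
      _ ≤ _ := mul_le_mul_of_nonneg_right hsd3 hX0
  have f2 : (64 : ℝ) ≤ Q ^ 6 := by
    calc (64 : ℝ) = 2 ^ 6 := by norm_num
      _ ≤ Q ^ 6 := pow_le_pow_left₀ (by norm_num) hQ 6
  have f3 : R₁ / (Q ^ 12 * (m₀ * m₁)) ≤ R₁ / (64 * Q ^ 6 * (m₀ * m₁)) := by
    refine div_le_div_of_nonneg_left hR₁.le (by positivity) ?_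
    refine mul_le_mul_of_nonneg_right ?_ (by positivity)
    calc 64 * Q ^ 6 ≤ Q ^ 6 * Q ^ 6 := mul_le_mul_of_nonneg_right f2 (by positivity)
      _ = Q ^ 12 := by ring
  refine le_trans f3 ?_
  have f4 : R₁ / (64 * Q ^ 6 * (m₀ * m₁)) = R₁ / (64 * Q ^ 3) * (1 / (m₀ * m₁)) / Q ^ 3 := by
    field_simp
  rw [f4, div_le_iff₀ (by positivity)]
  linarith

end six

end Pool.Agent.Helper68_F5
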