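import Pool.Agent.Helper68_F5.Kc2e
import Pool.Agent.Helper68_F5.Kc1

/-!
MP_f5cbfa_nt, duality count: pointwise count, arithmetic of the error factor, measurability.
-/

set_option autoImplicit false

open MeasureTheory Matrix Complex ComplexConjugate

namespace Pool.Agent.Helper68_F5

open Pool.Agent.BTL Pool.Agent.F5S Pool.Agent.F5H Pool.Agent.F5H.BC Pool.Agent.Helper96_GN

/-- the scaled lattice -/
noncomputable def gQ (Q : ℝ) (A : ℝ × ℝ × ℝ) : ℤ × ℤ →+ ℂ where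
  toFun z := (Q : ℂ) * gA A (rc z)
  map_zero' := by
    have : rc (0 : ℤ × ℤ) = 0 := by simp [rc]
    rw [this]
    apply Complex.ext <;> simp [gA]
  map_add' x y := by
    have : rc (x + y) = rc x + rc y := by simp [rc]
    rw [this, gA_add, mul_add]

theorem gQ_apply (Q : ℝ) (A : ℝ × ℝ × ℝ) (z : ℤ × ℤ) : gQ Q A z = (Q : ℂ) * gA A (rc z) := rfl

theorem sep_gQ {Q : ℝ} (hQ : 1 ≤ Q) {A : ℝ × ℝ × ℝ} (hA : A ∈ KM Q) : Sep 1 (gQ Q A) := by
  intro z hz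
  obtain ⟨h1, hd, _⟩ := km_facts hQ hA
  have hQ0 : 0 < Q := by linarith
  rw [gQ_apply, norm_mul, Complex.norm_real, Real.norm_eq_abs, abs_of_pos hQ0]
  have h2 := (hA (rc z)).1
  rw [← norm_gA_sq h1 hd, div_le_iff₀ hQ0] at h2
  have h3 : 1 ≤ nr (rc z) := by
    have h4 : (1 : ℤ) ≤ z.1 ^ 2 + z.2 ^ 2 := by
      by_contra h
      have h5 : z.1 ^ 2 + z.2 ^ 2 ≤ 0 := by omega
      have h6 : z.1 ^ 2 = 0 := by nlinarith [sq_nonneg z.1, sq_nonneg z.2]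
      have h7 : z.2 ^ 2 = 0 := by nlinarith [sq_nonneg z.1, sq_nonneg z.2]
      apply hz
      exact Prod.ext (pow_eq_zero_iff (by norm_num) |>.1 h6) (pow_eq_zero_iff (by norm_num) |>.1 h7)
    have h8 : (1 : ℝ) ≤ (z.1 : ℝ) ^ 2 + (z.2 : ℝ) ^ 2 := by exact_mod_cast h4
    exact h8
  have h4 : 1 ≤ (Q * ‖gA A (rc z)‖) ^ 2 := by
    calc (1 : ℝ) ≤ Q * nr (rc z) := by nlinarith
      _ ≤ Q * (‖gA A (rc z)‖ ^ 2 * Q) := mul_le_mul_of_nonneg_left h2 hQ0.le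
      _ = _ := by ring
  have h5 : (1 : ℝ) ^ 2 ≤ (Q * ‖gA A (rc z)‖) ^ 2 := by rw [one_pow]; exact h4
  exact le_of_sq_le_sq h5 (by positivity)

/-- the scalar product in the frame -/
theorem dot6_gi {A : ℝ × ℝ × ℝ} (h1 : 0 < A.1) (hd : 0 < disc A) (k : Z6) (z : Fin 3 → ℂ) :
    dot6 k (giA A (z 0), giA A (z 1), giA A (z 2)) = F5.H58.sp (kG A (r3 k)) z := by
  have h := fun (x : ℤ × ℤ) (w : ℂ) => sp_kA_gA h1 hd (rc x) (giA A w)
  simp only [gA_giA h1 hd] at h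
  have e : F5.H58.sp (kG A (r3 k)) z = sp (kA A (rc k.1)) (z 0) + sp (kA A (rc k.2.1)) (z 1) +
      sp (kA A (rc k.2.2)) (z 2) := by
    rw [F5.H58.sp, Fin.sum_univ_three, sp_eq, sp_eq, sp_eq]
    rfl
  rw [e, h, h, h]
  rfl

theorem H58_smul (k : Fin 3 → ℂ) (a : ℝ) (z : Fin 3 → ℂ) :
    F5.H58.sp k (fun l => (a : ℂ) * z l) = a * F5.H58.sp k z := by
  rw [F5.H58.sp, F5.H58.sp, Finset.mul_sum]
  refine Finset.sum_congr rfl fun l _ => ?_
  rw [sp_eq, sp_eq, sp_real']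

/-- the conditions at an angle -/
def Cd (T Q : ℝ) (A : ℝ × ℝ × ℝ) (V : Fin 3 → ℝ) (k0 : ℝ) (s : Bool × Bool) (h k : Z6)
    (th : ℝ) : Prop :=
  (∀ l, V l ≤ Q * ‖hG A (r3 h) l‖ ∧ ‖hG A (r3 h) l‖ ≤ Q * V l) ∧
    Gd Q T (hG A (r3 h)) (sg s) th ∧ ‖r3 k‖ ≤ Q * k0 ∧
    BD T Q (Q / k0) (fun l => Q * V l) (hG A (r3 h)) (sg s) th (kG A (r3 k))

theorem norm_cp_le (x : R6) (l : Fin 3) : ‖cp x l‖ ≤ ‖x‖ := by
  fin_cases l
  · exact norm_fst_le x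
  · exact le_trans (norm_fst_le x.2) (norm_snd_le x)
  · exact le_trans (norm_snd_le x.2) (norm_snd_le x)

/-- the dual body -/
theorem Cd.kb {T Q : ℝ} {A : ℝ × ℝ × ℝ} {V : Fin 3 → ℝ} {k0 : ℝ} {s : Bool × Bool} {h k : Z6}
    {th : ℝ} (hQ : 2 ≤ Q) (hT : 1 ≤ T) (hA : A ∈ KM Q) (F : Fm Q T (hG A (r3 h)) (sg s) th)
    {R₁ m₁ : ℝ} (hR₁ : 0 < R₁)
    (hk0 : 0 < k0) (hRk : R₁ ≤ k0) (hm₁ : m₁ = min k0 (V 1)) (hV1 : 0 < V 1)
    (hc : Cd T Q A V k0 s h k th) :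
    k ∈ kb6 (bV A T R₁ k0 m₁ (hG A (r3 h)) (sg s) th) (fun _ => Q ^ 3) := by
  obtain ⟨h1, hd, _⟩ := km_facts (by linarith) hA
  obtain ⟨_, _, c3, b1, b2, _, b4, b5, b6⟩ := hc
  have hT0 : 0 < T := by linarith
  have hQ0 : 0 < Q := by linarith
  have hQ3 : Q ≤ Q ^ 3 := le_self_pow₀ (by linarith) (by norm_num)
  have hkn : ∀ l, ‖kG A (r3 k) l‖ ≤ Q ^ 3 * k0 := by
    intro l
    have h2 := norm_kA_le (by linarith) hA (cp (r3 k) l)
    have h3 := norm_cp_le (r3 k) l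
    calc ‖kG A (r3 k) l‖ ≤ 2 * Q * ‖cp (r3 k) l‖ := h2
      _ ≤ Q * Q * (Q * k0) := by
          refine mul_le_mul ?_ (le_trans h3 c3) (norm_nonneg _) (by positivity)
          exact mul_le_mul_of_nonneg_right hQ hQ0.le
      _ = Q ^ 3 * k0 := by ring
  have hI : ∀ l, |sp (kG A (r3 k) l) (I * wG T (hG A (r3 h)) (sg s) th l)| ≤ Q ^ 3 * k0 := by
    intro l
    refine le_trans (abs_sp_le _ _) ?_
    rw [norm_mul, Complex.norm_I, one_mul, F.hw l, mul_one]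
    exact hkn l
  have hI' : ∀ l, |sp (kG A (r3 k) l) (I * wG T (hG A (r3 h)) (sg s) th l)| ≤ Q * V l := by
    intro l
    have := b6 l
    rwa [sp_eq] at this
  have hone : ∀ (c : Fin 3 → ℝ) (j : Fin 3), (∀ l, l ≠ j → c l = 0) →
      F5.H58.sp (kG A (r3 k)) (fun l => ((c l : ℝ) : ℂ) * (I * wG T (hG A (r3 h)) (sg s) th l)) =
        c j * sp (kG A (r3 k) j) (I * wG T (hG A (r3 h)) (sg s) th j) := by
    intro c j hc
    rw [F5.H58.sp, Finset.sum_eq_single j]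
    · rw [sp_eq, sp_real']
    · intro l _ hl
      rw [hc l hl]
      simp
    · intro hj; exact absurd (Finset.mem_univ _) hj
  intro i
  obtain ⟨j, rfl⟩ := eJ.surjective i
  rw [bV, Equiv.symm_apply_apply, dot6_gi h1 hd]
  rcases j with j | j
  · fin_cases j
    · show |F5.H58.sp (kG A (r3 k)) (fun l => ((R₁ / T : ℝ) : ℂ) *
        tv T (hG A (r3 h)) (sg s) th (1, 0, 1) 0 l)| ≤ Q ^ 3
      rw [H58_smul, abs_mul, abs_of_pos (by positivity)]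
      calc R₁ / T * |F5.H58.sp (kG A (r3 k)) (tv T (hG A (r3 h)) (sg s) th (1, 0, 1) 0)| ≤
          R₁ / T * (Q / k0 * T) := mul_le_mul_of_nonneg_left b5 (by positivity)
        _ = Q * (R₁ / k0) := by field_simp
        _ ≤ Q * 1 := by
            refine mul_le_mul_of_nonneg_left ?_ hQ0.le
            rw [div_le_one hk0]; exact hRk
        _ ≤ Q ^ 3 := by linarith
    · show |F5.H58.sp (kG A (r3 k)) (fun l => ((1 / T : ℝ) : ℂ) *
        tv T (hG A (r3 h)) (sg s) th (1, 0, 0) 0 l)| ≤ Q ^ 3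
      rw [H58_smul, abs_mul, abs_of_pos (by positivity)]
      calc 1 / T * |F5.H58.sp (kG A (r3 k)) (tv T (hG A (r3 h)) (sg s) th (1, 0, 0) 0)| ≤
          1 / T * (Q * T) := mul_le_mul_of_nonneg_left b1 (by positivity)
        _ = Q := by field_simp
        _ ≤ Q ^ 3 := hQ3
    · show |F5.H58.sp (kG A (r3 k)) (fun l => ((1 / T : ℝ) : ℂ) *
        tv T (hG A (r3 h)) (sg s) th (0, 1, 0) 0 l)| ≤ Q ^ 3
      rw [H58_smul, abs_mul, abs_of_pos (by positivity)]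
      calc 1 / T * |F5.H58.sp (kG A (r3 k)) (tv T (hG A (r3 h)) (sg s) th (0, 1, 0) 0)| ≤
          1 / T * (Q * T) := mul_le_mul_of_nonneg_left b2 (by positivity)
        _ = Q := by field_simp
        _ ≤ Q ^ 3 := hQ3
  · fin_cases j
    · show |F5.H58.sp (kG A (r3 k)) (fun l => ((if l = 0 then 1 / k0 else 0 : ℝ) : ℂ) *
        (I * wG T (hG A (r3 h)) (sg s) th l))| ≤ Q ^ 3
      rw [hone (fun l => if l = 0 then 1 / k0 else 0) 0 (fun l hl => if_neg hl)]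
      simp only [if_true]
      rw [abs_mul, abs_of_pos (by positivity)]
      calc 1 / k0 * |sp (kG A (r3 k) 0) (I * wG T (hG A (r3 h)) (sg s) th 0)| ≤
          1 / k0 * (Q ^ 3 * k0) := mul_le_mul_of_nonneg_left (hI 0) (by positivity)
        _ = Q ^ 3 := by field_simp
    · show |F5.H58.sp (kG A (r3 k)) (fun l => ((if l = 1 then 1 / m₁ else 0 : ℝ) : ℂ) *
        (I * wG T (hG A (r3 h)) (sg s) th l))| ≤ Q ^ 3
      rw [hone (fun l => if l = 1 then 1 / m₁ else 0) 1 (fun l hl => if_neg hl)]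
      simp only [if_true]
      have hm0 : 0 < m₁ := by rw [hm₁]; exact lt_min hk0 hV1
      rw [abs_mul, abs_of_pos (by positivity)]
      have hle : |sp (kG A (r3 k) 1) (I * wG T (hG A (r3 h)) (sg s) th 1)| ≤ Q ^ 3 * m₁ := by
        rcases le_total k0 (V 1) with h | h
        · rw [hm₁, min_eq_left h]; exact hI 1
        · rw [hm₁, min_eq_right h]
          exact le_trans (hI' 1) (mul_le_mul_of_nonneg_right hQ3 hV1.le)
      calc 1 / m₁ * |sp (kG A (r3 k) 1) (I * wG T (hG A (r3 h)) (sg s) th 1)| ≤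
          1 / m₁ * (Q ^ 3 * m₁) := mul_le_mul_of_nonneg_left hle (by positivity)
        _ = Q ^ 3 := by field_simp
    · show |F5.H58.sp (kG A (r3 k)) (fun l => tv T (hG A (r3 h)) (sg s) th 0 1 l)| ≤ Q ^ 3
      exact le_trans b4 hQ3

/-- frame components of a combination -/
theorem comb_cp {A : ℝ × ℝ × ℝ} (h1 : 0 < A.1) (hd : 0 < disc A) {T R₁ m₀ m₁ : ℝ}
    {H : Fin 3 → ℂ} {ep : Fin 3 → ℝ} {th : ℝ} (c : I6 → ℝ) (l : Fin 3) :
    gA A (cp (∑ i, c i • bV A T R₁ m₀ m₁ H ep th i) l) =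
      ∑ j : Fin 3 ⊕ Fin 3, (c (eJ j) : ℂ) * bF T R₁ m₀ m₁ H ep th j l := by
  have hcp : ∀ (s : Finset I6), gA A (cp (∑ i ∈ s, c i • bV A T R₁ m₀ m₁ H ep th i) l) =
      ∑ i ∈ s, (c i : ℂ) * bF T R₁ m₀ m₁ H ep th (eJ.symm i) l := by
    intro s
    induction s using Finset.induction_on with
    | empty =>
      rw [Finset.sum_empty, Finset.sum_empty]
      have : cp (0 : R6) l = 0 := by fin_cases l <;> rfl
      rw [this]
      apply Complex.ext <;> simp [gA]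
    | insert i s hi ih =>
      rw [Finset.sum_insert hi, Finset.sum_insert hi]
      have e1 : ∀ x y : R6, cp (x + y) l = cp x l + cp y l := by
        intro x y; fin_cases l <;> rfl
      have e2 : ∀ (a : ℝ) (x : R6), cp (a • x) l = a • cp x l := by
        intro a x; fin_cases l <;> rfl
      rw [e1, gA_add, ih, e2, gA_smul]
      congr 2
      have e3 : cp (bV A T R₁ m₀ m₁ H ep th i) l = giA A (bF T R₁ m₀ m₁ H ep th (eJ.symm i) l) := by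
        fin_cases l <;> rfl
      rw [e3, gA_giA h1 hd]
  rw [hcp]
  refine (Fintype.sum_equiv eJ _ _ fun j => ?_).symm
  rw [Equiv.symm_apply_apply]

/-- an integer point of the parallelepiped is hit -/
theorem hit_of {T Q : ℝ} {A : ℝ × ℝ × ℝ} {V : Fin 3 → ℝ} {k0 : ℝ} {s : Bool × Bool} {h t : Z6}
    {th : ℝ} (hQ : 2 ≤ Q) (hT : 1 ≤ T) (hA : A ∈ KM Q) (F : Fm Q T (hG A (r3 h)) (sg s) th)
    (hth : th ∈ Set.Ioc (-Real.pi) Real.pi)
    {R₁ m₁ : ℝ} (hR₁ : 0 < R₁) (hk0 : 1 ≤ k0) (hm1 : 1 ≤ m₁)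
    (hsz : ∀ l, V l ≤ Q * ‖hG A (r3 h) l‖ ∧ ‖hG A (r3 h) l‖ ≤ Q * V l)
    (h21 : V 2 ≤ V 1) (h10 : V 1 ≤ V 0)
    (hs1 : ∀ l, R₁ * ‖hG A (r3 h) l‖ ^ 2 ≤ T ^ 2)
    (hs2 : ∀ l, R₁ * (Q * (Rx T / T)) * ‖hG A (r3 h) l‖ * (4 * Q ^ 4) ≤ T ^ 2)
    (ht : ∃ c : I6 → ℝ, (∀ i, |c i| ≤ 1) ∧
      r3 t = ∑ i, c i • bV A T R₁ k0 m₁ (hG A (r3 h)) (sg s) th i) :
    th ∈ Hit (Q ^ 8) ((Q * T) ^ 2) 0 (Q ^ 2 * (Rx T / T)) (Q * R₁) (Q ^ 3 * V 0 / k0)
      (Q ^ 3 * V 1 / m₁) (gQ Q A h.1) (gQ Q A h.2.1) (gQ Q A h.2.2) (gQ Q A t.1) (gQ Q A t.2.1)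
      (gQ Q A t.2.2) := by
  obtain ⟨h1, hd, _⟩ := km_facts (by linarith) hA
  obtain ⟨c, hc, hr⟩ := ht
  have hT0 : 0 < T := by linarith
  have hQ0 : 0 < Q := by linarith
  have hk00 : 0 < k0 := by linarith
  have hm0 : 0 < m₁ := by linarith
  refine ⟨hth, wG T (hG A (r3 h)) (sg s) th 0, wG T (hG A (r3 h)) (sg s) th 1,
    rh T (hG A (r3 h) 0) / T, rh T (hG A (r3 h) 1) / T, rh T (hG A (r3 h) 2) / T, ?_, ?_⟩
  · have := pt_of hQ hT F
    have e : wG T (hG A (r3 h)) (sg s) th 2 = ee th := by rw [wG, if_pos rfl, ee_eq]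
    rw [e] at this
    exact this
  · have e : wG T (hG A (r3 h)) (sg s) th 2 = ee th := by rw [wG, if_pos rfl, ee_eq]
    rw [← e]
    obtain ⟨v, hv⟩ : ∃ v : Fin 3 → ℂ, v = fun l => gA A (cp (r3 t) l) := ⟨_, rfl⟩
    have hc0 := hc (eJ (Sum.inl 0))
    have hc1 := hc (eJ (Sum.inl 1))
    have hc2 := hc (eJ (Sum.inl 2))
    have hc3 := hc (eJ (Sum.inr 0))
    have hc4 := hc (eJ (Sum.inr 1))
    have hc5 := hc (eJ (Sum.inr 2))
    obtain ⟨x0, hx0⟩ : ∃ x, x = c (eJ (Sum.inl 0)) := ⟨_, rfl⟩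
    obtain ⟨x1, hx1⟩ : ∃ x, x = c (eJ (Sum.inl 1)) := ⟨_, rfl⟩
    obtain ⟨x2, hx2⟩ : ∃ x, x = c (eJ (Sum.inl 2)) := ⟨_, rfl⟩
    obtain ⟨x3, hx3⟩ : ∃ x, x = c (eJ (Sum.inr 0)) := ⟨_, rfl⟩
    obtain ⟨x4, hx4⟩ : ∃ x, x = c (eJ (Sum.inr 1)) := ⟨_, rfl⟩
    obtain ⟨x5, hx5⟩ : ∃ x, x = c (eJ (Sum.inr 2)) := ⟨_, rfl⟩
    rw [← hx0] at hc0
    rw [← hx1] at hc1
    rw [← hx2] at hc2
    rw [← hx3] at hc3
    rw [← hx4] at hc4
    rw [← hx5] at hc5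
    have h2l : ∀ l : Fin 3, l ≠ 2 → ‖hG A (r3 h) 2‖ ≤ Q ^ 2 * ‖hG A (r3 h) l‖ := by
      intro l hl
      have hV : V 2 ≤ V l := by
        fin_cases l
        · exact le_trans h21 h10
        · exact h21
        · exact absurd rfl hl
      calc ‖hG A (r3 h) 2‖ ≤ Q * V 2 := (hsz 2).2
        _ ≤ Q * V l := mul_le_mul_of_nonneg_left hV hQ0.le
        _ ≤ Q * (Q * ‖hG A (r3 h) l‖) := mul_le_mul_of_nonneg_left (hsz l).1 hQ0.le
        _ = _ := by ring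
    have h3k : |x3 * (1 / k0)| ≤ 1 / k0 := by
      rw [abs_mul, abs_of_pos (by positivity : 0 < 1 / k0)]
      calc |x3| * (1 / k0) ≤ 1 * (1 / k0) := mul_le_mul_of_nonneg_right hc3 (by positivity)
        _ = _ := one_mul _
    have h4k : |x4 * (1 / m₁)| ≤ 1 / m₁ := by
      rw [abs_mul, abs_of_pos (by positivity : 0 < 1 / m₁)]
      calc |x4| * (1 / m₁) ≤ 1 * (1 / m₁) := mul_le_mul_of_nonneg_right hc4 (by positivity)
        _ = _ := one_mul _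
    have hk1 : 1 / k0 ≤ 1 := by rw [div_le_one hk00]; exact hk0
    have hm1' : 1 / m₁ ≤ 1 := by rw [div_le_one hm0]; exact hm1
    have key := inz_of (Q := Q) (T := T) (H := hG A (r3 h)) (ep := sg s) (th := th) hQ hT F h2l
      (R₁ := R₁) (a := x0 * (R₁ / T)) (b := x1 * (1 / T)) (c := x2 * (1 / T)) (d := x5)
      (d₀ := x3 * (1 / k0)) (d₁ := x4 * (1 / m₁)) (ω₁ := Q ^ 3 * V 0 / k0)
      (ω₂ := Q ^ 3 * V 1 / m₁) (by
        rw [abs_mul, abs_of_pos (by positivity : 0 < R₁ / T)]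
        calc |x0| * (R₁ / T) * T = |x0| * R₁ := by field_simp
          _ ≤ 1 * R₁ := mul_le_mul_of_nonneg_right hc0 hR₁.le
          _ = R₁ := one_mul _) (by
        rw [abs_mul, abs_of_pos (by positivity : 0 < 1 / T)]
        calc |x1| * (1 / T) * T = |x1| := by field_simp
          _ ≤ 1 := hc1) (by
        rw [abs_mul, abs_of_pos (by positivity : 0 < 1 / T)]
        calc |x2| * (1 / T) * T = |x2| := by field_simp
          _ ≤ 1 := hc2) hc5 (le_trans h3k hk1) (le_trans h4k hm1') hs1 hs2 (by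
        calc Q ^ 2 * (|x3 * (1 / k0)| * ‖hG A (r3 h) 0‖) ≤ Q ^ 2 * (1 / k0 * (Q * V 0)) := by
              refine mul_le_mul_of_nonneg_left ?_ (by positivity)
              exact mul_le_mul h3k (hsz 0).2 (norm_nonneg _) (by positivity)
          _ = Q ^ 3 * V 0 / k0 := by ring) (by
        calc Q ^ 2 * (|x4 * (1 / m₁)| * ‖hG A (r3 h) 1‖) ≤ Q ^ 2 * (1 / m₁ * (Q * V 1)) := by
              refine mul_le_mul_of_nonneg_left ?_ (by positivity)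
              exact mul_le_mul h4k (hsz 1).2 (norm_nonneg _) (by positivity)
          _ = Q ^ 3 * V 1 / m₁ := by ring) v (by
        intro l
        rw [hv]
        simp only
        rw [hr, comb_cp h1 hd, Fintype.sum_sum_type, Fin.sum_univ_three, Fin.sum_univ_three,
          ← tv_comb, ← hx0, ← hx1, ← hx2, ← hx3, ← hx4, ← hx5]
        show (x0 : ℂ) * (((R₁ / T : ℝ) : ℂ) * tv T (hG A (r3 h)) (sg s) th (1, 0, 1) 0 l) +
            (x1 : ℂ) * (((1 / T : ℝ) : ℂ) * tv T (hG A (r3 h)) (sg s) th (1, 0, 0) 0 l) +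
            (x2 : ℂ) * (((1 / T : ℝ) : ℂ) * tv T (hG A (r3 h)) (sg s) th (0, 1, 0) 0 l) +
            ((x3 : ℂ) * (((if l = 0 then 1 / k0 else 0 : ℝ) : ℂ) *
              (I * wG T (hG A (r3 h)) (sg s) th l)) +
            (x4 : ℂ) * (((if l = 1 then 1 / m₁ else 0 : ℝ) : ℂ) *
              (I * wG T (hG A (r3 h)) (sg s) th l)) +
            (x5 : ℂ) * tv T (hG A (r3 h)) (sg s) th 0 1 l) = _
        have e2 : ((if l = 0 then x3 * (1 / k0) else if l = 1 then x4 * (1 / m₁) else 0 : ℝ) : ℂ) =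
            (x3 : ℂ) * ((if l = 0 then 1 / k0 else 0 : ℝ) : ℂ) +
            (x4 : ℂ) * ((if l = 1 then 1 / m₁ else 0 : ℝ) : ℂ) := by
          fin_cases l <;> simp
        rw [e2]
        push_cast
        ring)
    rw [hv] at key
    exact key

end Pool.Agent.Helper68_F5
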